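import Pool.Agent.Helper31.MI.Defs
import Pool.Agent.Helper20.ACH.BE
import Pool.Agent.Helper20.ACH.BK

/-!
# Project MI: from the integral resolution to the resolution over the field with two elements
-/

set_option autoImplicit false

open Pool.ACH

namespace Pool.Agent.Helper31.MI

/-- The integral resolution as one graded module. -/
structure IZ (G M : Type) [Group G] [AddCommGroup M] [DistribMulAction G M] where
  d : M →+ M
  e : ℕ → M →+ M
  ε : M →+ ℤ
  o : M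
  b : DB G M
  z : M →+ ℤ
  d_ρ : ∀ (g : G) x, d (g • x) = g • d x
  e_ρ : ∀ n (g : G) x, e n (g • x) = g • e n x
  e_e : ∀ n x, e n (e n x) = e n x
  e_ne : ∀ m n x, m ≠ n → e m (e n x) = 0
  e_sum : ∀ x, ∑ n ∈ Finset.range 4, e n x = x
  d_e : ∀ n x, d (e (n + 1) x) = e n (d x)
  d_e0 : ∀ x, d (e 0 x) = 0
  d_d : ∀ x, d (d x) = 0
  ε_ρ : ∀ (g : G) x, ε (g • x) = ε x
  ε_e : ∀ x, ε (e 0 x) = ε x
  ε_d : ∀ x, ε (d x) = 0
  o_e : e 0 o = o
  ε_o : ε o = 1
  ex : ∀ x, d x = 0 → ε x = 0 → ∃ y, d y = x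
  z_fs : IsFs G z
  z_e : ∀ x, z (e 3 x) = z x
  co : ∀ ψ : M →+ ℤ, IsFs G ψ → (∀ x, ψ (d x) = 0) →
    ∃ (n : ℤ) (χ : M →+ ℤ), IsFs G χ ∧ ∀ x, ψ x = n * z x + χ (d x)
  z_free : ∀ (m : ℤ) (χ : M →+ ℤ), IsFs G χ → (∀ x, m * z x = χ (d x)) → m = 0

section

variable {G M : Type} [Group G] [AddCommGroup M] [DistribMulAction G M]

namespace IZ

variable (Z : IZ G M)

include Z in
/-- PIECE MI-55. PROOF. `b.span` expresses `x` by the integers `φ_j (g⁻¹ • x)`, which are `0` if `m x = 0`, `m ≠ 0`. -/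
theorem torsion_free (m : ℤ) (hm : m ≠ 0) (x : M) (h : m • x = 0) : x = 0 := by
  have h1 : ∀ j (g : G), Z.b.φ j (g⁻¹ • x) = 0 := by
    intro j g
    have h2 : m • Z.b.φ j (g⁻¹ • x) = 0 := by
      rw [← map_zsmul, smul_comm, h, smul_zero, map_zero]
    rw [smul_eq_mul] at h2
    exact (mul_eq_zero.1 h2).resolve_left hm
  rw [Z.b.span x]
  refine Finset.sum_eq_zero fun j _ => ?_
  rw [finsum_eq_zero_of_forall_eq_zero]
  intro g
  rw [h1, zero_smul]

/-- the multiples of two -/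
def two (M : Type) [AddCommGroup M] : AddSubgroup M := (zsmulAddGroupHom 2 : M →+ M).range

/-- the reduction modulo two -/
def R (M : Type) [AddCommGroup M] : Type := M ⧸ two M

instance : AddCommGroup (R M) := inferInstanceAs (AddCommGroup (M ⧸ two M))

/-- the projection -/
def r (M : Type) [AddCommGroup M] : M →+ R M := QuotientAddGroup.mk' (two M)

theorem r_surj : Function.Surjective (r M) := QuotientAddGroup.mk'_surjective _

/-- PIECE MI-55 -/
theorem r_zero (x : M) : r M x = 0 ↔ ∃ y, x = (2 : ℤ) • y := by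
  have h1 : r M x = 0 ↔ x ∈ two M := QuotientAddGroup.eq_zero_iff x
  rw [h1]
  constructor
  · rintro ⟨y, hy⟩
    exact ⟨y, hy.symm⟩
  · rintro ⟨y, hy⟩
    exact ⟨y, hy.symm⟩

theorem two_R (x : R M) : 2 • x = 0 := by
  obtain ⟨y, rfl⟩ := r_surj x
  rw [← map_nsmul, r_zero]
  exact ⟨y, by rw [← natCast_zsmul]; rfl⟩

instance : Module K (R M) := AddCommGroup.zmodModule two_R

/-- PIECE MI-55. PROOF. `QuotientAddGroup.lift`; additive maps between `K`-modules are linear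
(`AddMonoidHom.toZModLinearMap`). -/
theorem desc {B : Type} [AddCommGroup B] [Module K B] (f : M →+ B) :
    ∃ g : R M →ₗ[K] B, ∀ x, g (r M x) = f x := by
  have h1 : two M ≤ f.ker := by
    rintro x ⟨y, rfl⟩
    rw [AddMonoidHom.mem_ker]
    change f ((2 : ℤ) • y) = 0
    rw [two_zsmul, map_add, ZModModule.add_self]
  let g0 : R M →+ B := QuotientAddGroup.lift (two M) f h1
  exact ⟨AddMonoidHom.toZModLinearMap 2 g0, fun x => rfl⟩

private theorem mi56_tw (φ : M →+ ℤ) (hφ : IsFs G φ) (a : G → ℤ) (ha : {g | a g ≠ 0}.Finite) :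
    IsFs G (tw φ hφ a) := by
  intro p
  have h1 : (⋃ h ∈ {g | a g ≠ 0}, {g : G | φ ((g * h)⁻¹ • p) ≠ 0}).Finite := by
    refine ha.biUnion fun h _ => ?_
    exact (hφ p).preimage (f := fun g => g * h) (mul_left_injective h).injOn
  refine h1.subset fun g hg => ?_
  by_contra h0
  apply hg
  rw [tw_apply, finsum_eq_zero_of_forall_eq_zero]
  intro h
  by_cases h2 : a h = 0
  · rw [h2, smul_zero]
  · have h3 : φ ((g * h)⁻¹ • p) = 0 := by
      by_contra h4
      exact h0 (Set.mem_biUnion (show h ∈ {g | a g ≠ 0} from h2) h4)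
    rw [← mul_smul, ← mul_inv_rev, h3, zero_smul]

/-- PIECE MI-56. Lifting of functionals. PROOF. `φ (r x) = ∑_j ∑ᶠ g, φ_j (g⁻¹ x) * φ (r (g e_j))` (`b.span`). Choose integers `a_j g ∈ {0, 1}` with
`(a_j g : K) = φ (r (g e_j))` (`ZMod.val`), almost all zero (`hφ` for `x = r e_j`), and
`ψ x = ∑_j ∑ᶠ g, φ_j (g⁻¹ x) * a_j g` (`tw`); support: for every one of the finitely many `g` with `a_j g ≠ 0` the set of
`h` with `φ_j (g⁻¹ h⁻¹ x) ≠ 0` is finite. -/
theorem lift_fs (b : DB G M) (φ : R M →ₗ[K] K)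
    (hφ : ∀ x, {g : G | φ (r M (g • x)) ≠ 0}.Finite) :
    ∃ ψ : M →+ ℤ, IsFs G ψ ∧ ∀ x, ((ψ x : ℤ) : K) = φ (r M x) := by
  classical
  refine ⟨∑ j, tw (b.φ j) (b.fs j) (fun g => ((φ (r M (g • b.e j))).val : ℤ)), ?_, ?_⟩
  · refine IsFs.sum _ fun j _ => mi56_tw _ _ _ ((hφ (b.e j)).subset fun g hg h0 => hg ?_)
    rw [h0, ZMod.val_zero, Nat.cast_zero]
  · intro x
    have h1 : φ (r M x) = ∑ j, tw (b.φ j) (b.fs j) (fun g => φ (r M (g • b.e j))) x := by
      have h2 : x = ∑ j, tw (b.φ j) (b.fs j) (fun g => g • b.e j) x := b.span x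
      conv_lhs => rw [h2]
      rw [map_sum, map_sum]
      refine Finset.sum_congr rfl fun j _ => ?_
      exact map_tw ((φ : R M →+ K).comp (r M)) (b.φ j) (b.fs j) (fun g => g • b.e j) x
    rw [h1, AddMonoidHom.finsetSum_apply, Int.cast_sum]
    refine Finset.sum_congr rfl fun j _ => ?_
    have h3 := map_tw (Int.castAddHom K) (b.φ j) (b.fs j)
      (fun g => ((φ (r M (g • b.e j))).val : ℤ)) x
    simp only [Int.coe_castAddHom] at h3
    rw [h3]
    congr 2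
    funext g
    rw [Int.cast_natCast, ZMod.natCast_val, ZMod.cast_id', id]

/-- PIECE MI-56. PROOF. `ψ x` is even for all `x`; halves. -/
theorem half_fs (ψ : M →+ ℤ) (hψ : IsFs G ψ) (h : ∀ x, ((ψ x : ℤ) : K) = 0) :
    ∃ χ : M →+ ℤ, IsFs G χ ∧ ∀ x, ψ x = 2 * χ x := by
  have h1 : ∀ x, ∃ c : ℤ, ψ x = 2 * c := fun x =>
    (ZMod.intCast_zmod_eq_zero_iff_dvd (ψ x) 2).1 (h x)
  choose c hc using h1
  refine ⟨AddMonoidHom.mk' c fun x y => ?_, ?_, fun x => hc x⟩
  · have h2 := hc (x + y)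
    rw [map_add, hc x, hc y] at h2
    omega
  · intro p
    refine (hψ p).subset fun g hg h0 => hg ?_
    have h3 := hc (g⁻¹ • p)
    rw [h0] at h3
    show c (g⁻¹ • p) = 0
    omega

/-- PIECE MI-57. PROOF. Lift: `r y = x`. `d y = 2 • u` and `ε y = 2 * k`. `2 • d u = 0`, `2 * ε u = 0`, so `u = d w` (`torsion_free`, `ex`).
`v = y - 2 • w - (2 * (k - ε w)) • o` has `d v = 0` (`d o = 0` by `o_e`, `d_e0`), `ε v = 0`, so `v = d t` (`ex`), and
`r v = x`. -/
theorem ex_mod (y : M) (h1 : ∃ u, Z.d y = (2 : ℤ) • u) (h2 : ∃ k : ℤ, Z.ε y = 2 * k) :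
    ∃ t u', y = Z.d t + (2 : ℤ) • u' := by
  obtain ⟨u, hu⟩ := h1
  obtain ⟨k, hk⟩ := h2
  have hdu : Z.d u = 0 := by
    refine Z.torsion_free 2 two_ne_zero _ ?_
    rw [← map_zsmul, ← hu, Z.d_d]
  have hεu : Z.ε u = 0 := by
    have h3 : Z.ε ((2 : ℤ) • u) = 0 := by rw [← hu, Z.ε_d]
    rw [map_zsmul, smul_eq_mul] at h3
    omega
  obtain ⟨w, hw⟩ := Z.ex u hdu hεu
  have hdo : Z.d Z.o = 0 := by rw [← Z.o_e, Z.d_e0]
  obtain ⟨t, ht⟩ := Z.ex (y - (2 : ℤ) • w - (2 * (k - Z.ε w)) • Z.o)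
    (by rw [map_sub, map_sub, map_zsmul, map_zsmul, hu, hw, hdo, smul_zero, sub_self, sub_zero])
    (by
      rw [map_sub, map_sub, map_zsmul, map_zsmul, hk, Z.ε_o, smul_eq_mul, smul_eq_mul]
      ring)
  refine ⟨t, w + (k - Z.ε w) • Z.o, ?_⟩
  rw [ht, smul_add, smul_smul]
  abel

/-- PIECE MI-57. PROOF. `ψ ∘ d = 2 χ` (`half_fs`), `χ ∘ d = 0`, so `χ = m z + χ' ∘ d` (`co`), so `(2 m) z = (ψ - 2 χ') ∘ d`, so `2 m = 0`
(`z_free`), and `(ψ - 2 χ') ∘ d = 0`, so `ψ - 2 χ' = n z + χ'' ∘ d` (`co`). -/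
theorem co_mod (ψ : M →+ ℤ) (hψ : IsFs G ψ) (h : ∀ x, ((ψ (Z.d x) : ℤ) : K) = 0) :
    ∃ (n : ℤ) (χ : M →+ ℤ), IsFs G χ ∧ ∀ x, ((ψ x : ℤ) : K) = (n : K) * (Z.z x : K) + (χ (Z.d x) : K) := by
  obtain ⟨χ0, hχ0, h0⟩ := half_fs (ψ.comp Z.d) (hψ.comp Z.d Z.d_ρ) h
  have h0' : ∀ x, ψ (Z.d x) = 2 * χ0 x := h0
  obtain ⟨m, χ', hχ', h1⟩ := Z.co χ0 hχ0 (fun x => by
    have h2 := h0' (Z.d x)
    rw [Z.d_d, map_zero] at h2
    omega)
  have hfs : IsFs G (ψ - (2 : ℤ) • χ') := hψ.sub (hχ'.zsmul 2)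
  have hap : ∀ x, (ψ - (2 : ℤ) • χ') x = ψ x - 2 * χ' x := fun x => by
    rw [AddMonoidHom.sub_apply, AddMonoidHom.coe_smul, Pi.smul_apply, smul_eq_mul]
  have hm := Z.z_free (2 * m) (ψ - (2 : ℤ) • χ') hfs (fun x => by
    rw [hap, h0', h1 x]
    ring)
  have hm0 : m = 0 := by omega
  obtain ⟨n, χ, hχ, h3⟩ := Z.co (ψ - (2 : ℤ) • χ') hfs (fun x => by
    rw [hap, h0', h1 x, hm0]
    ring)
  refine ⟨n, χ, hχ, fun x => ?_⟩
  have h4 : ψ x = n * Z.z x + χ (Z.d x) + 2 * χ' x := by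
    rw [← h3, hap]
    ring
  rw [h4]
  push_cast
  have h5 : (2 : K) = 0 := rfl
  rw [h5]
  ring

/-- PIECE MI-57. PROOF. `z - χ ∘ d = 2 ω` (`half_fs`), `ω ∘ d = 0` (`z (d x) = z (e 3 (d x)) = z (d (e 4 x)) = 0`: `e 4 x = 0` by `e_sum`,
`e_ne`), `ω = n z + χ' ∘ d` (`co`), so `(1 - 2 n) z = (χ + 2 χ') ∘ d` and `1 - 2 n = 0` (`z_free`), impossible. -/
theorem z_mod (χ : M →+ ℤ) (hχ : IsFs G χ) : ¬ ∀ x, (Z.z x : K) = (χ (Z.d x) : K) := by
  intro h
  have hfs : IsFs G (Z.z - χ.comp Z.d) := Z.z_fs.sub (hχ.comp Z.d Z.d_ρ)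
  obtain ⟨ω, hω, h0⟩ := half_fs (Z.z - χ.comp Z.d) hfs (fun x => by
    rw [AddMonoidHom.sub_apply, AddMonoidHom.comp_apply, Int.cast_sub, h x, sub_self])
  have h0' : ∀ x, Z.z x - χ (Z.d x) = 2 * ω x := h0
  have he4 : ∀ x, Z.e 4 x = 0 := by
    intro x
    have h1 := congrArg (Z.e 4) (Z.e_sum x)
    rw [map_sum] at h1
    rw [← h1]
    refine Finset.sum_eq_zero fun n hn => Z.e_ne 4 n x ?_
    have := Finset.mem_range.1 hn
    omega
  have hzd : ∀ x, Z.z (Z.d x) = 0 := by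
    intro x
    rw [← Z.z_e, ← Z.d_e 3 x, he4, map_zero, map_zero]
  obtain ⟨n, χ', hχ', h1⟩ := Z.co ω hω (fun x => by
    have h2 := h0' (Z.d x)
    rw [Z.d_d, map_zero, hzd] at h2
    omega)
  have hn := Z.z_free (1 - 2 * n) (χ + (2 : ℤ) • χ') (hχ.add (hχ'.zsmul 2)) (fun x => by
    rw [AddMonoidHom.add_apply, AddMonoidHom.coe_smul, Pi.smul_apply, smul_eq_mul]
    have h2 := h0' x
    rw [h1 x] at h2
    linear_combination h2)
  omega

include Z in
/-- PIECE MI-58. PROOF. `ρ g`, `d`, `e n`, `ε`, `z`, `φ_j` from `desc` (use `choose`); all identities on `r x`. `Fs` is `IsFs` with `g` in the place of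
`g⁻¹`. `span`: apply `r` to `b.span` (`AddMonoidHom.map_finsum`, finite support). `ex`, `co`, `z_ne`: `ex_mod`, `lift_fs`,
`co_mod`, `z_mod`. -/
theorem exists_Cx : Nonempty (Cx G (R M)) := by
  have hρ := fun g : G => desc ((r M).comp (DistribMulAction.toAddMonoidHom M g))
  choose ρ0 hρ0 using hρ
  obtain ⟨d, hd⟩ := desc ((r M).comp Z.d)
  have he := fun n : ℕ => desc ((r M).comp (Z.e n))
  choose e he using he
  obtain ⟨ε, hε⟩ := desc ((Int.castAddHom K).comp Z.ε)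
  obtain ⟨z, hz⟩ := desc ((Int.castAddHom K).comp Z.z)
  have hφ := fun j : Z.b.J => desc ((Int.castAddHom K).comp (Z.b.φ j))
  choose φ hφ using hφ
  simp only [AddMonoidHom.comp_apply, Int.coe_castAddHom,
    DistribMulAction.toAddMonoidHom_apply] at hρ0 hd he hε hz hφ
  let ρ : Representation K G (R M) :=
    { toFun := ρ0
      map_one' := by
        refine LinearMap.ext fun x => ?_
        obtain ⟨y, rfl⟩ := r_surj x
        rw [hρ0, one_smul]
        rfl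
      map_mul' := by
        intro g h
        refine LinearMap.ext fun x => ?_
        obtain ⟨y, rfl⟩ := r_surj x
        change ρ0 (g * h) (r M y) = ρ0 g (ρ0 h (r M y))
        rw [hρ0, hρ0, hρ0, mul_smul] }
  have hρ : ∀ (g : G) x, ρ g (r M x) = r M (g • x) := hρ0
  have fsZ : ∀ (ψ : M →+ ℤ) (ψ' : R M →ₗ[K] K), (∀ x, ψ' (r M x) = ((ψ x : ℤ) : K)) →
      IsFs G ψ → Fs ρ ψ' := by
    intro ψ ψ' h1 h2 x
    obtain ⟨y, rfl⟩ := r_surj x
    refine ((h2 y).image (fun g => g⁻¹)).subset ?_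
    intro g hg
    refine ⟨g⁻¹, ?_, inv_inv g⟩
    rw [Set.mem_setOf_eq, hρ, h1] at hg
    rw [Set.mem_setOf_eq, inv_inv]
    intro h3
    rw [h3, Int.cast_zero] at hg
    exact hg rfl
  have liftF : ∀ ψ' : R M →ₗ[K] K, Fs ρ ψ' →
      ∃ ψ : M →+ ℤ, IsFs G ψ ∧ ∀ x, ((ψ x : ℤ) : K) = ψ' (r M x) := by
    intro ψ' h1
    refine lift_fs Z.b ψ' fun x => ?_
    have h2 := h1 (r M x)
    refine h2.subset fun g hg => ?_
    rw [Set.mem_setOf_eq, hρ]
    exact hg
  refine ⟨{ ρ := ρ, d := d, e := e, ε := ε, o := r M Z.o, J := Z.b.J, fin := Z.b.fin,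
            v := fun j => r M (Z.b.e j), φ := φ, z := z,
            d_ρ := ?_, e_ρ := ?_, e_e := ?_, e_ne := ?_, e_sum := ?_, d_e := ?_, d_e0 := ?_,
            d_d := ?_, ε_ρ := ?_, ε_e := ?_, ε_d := ?_, o_e := ?_, ε_o := ?_, ex := ?_,
            fs := ?_, span := ?_, z_fs := ?_, z_e := ?_, co := ?_, z_ne := ?_ }⟩
  · intro g x
    obtain ⟨y, rfl⟩ := r_surj x
    rw [hρ, hd, hd, hρ, Z.d_ρ]
  · intro n g x
    obtain ⟨y, rfl⟩ := r_surj x
    rw [hρ, he, he, hρ, Z.e_ρ]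
  · intro n x
    obtain ⟨y, rfl⟩ := r_surj x
    rw [he, he, Z.e_e]
  · intro m n x hmn
    obtain ⟨y, rfl⟩ := r_surj x
    rw [he, he, Z.e_ne m n y hmn, map_zero]
  · intro x
    obtain ⟨y, rfl⟩ := r_surj x
    simp only [he]
    rw [← map_sum, Z.e_sum]
  · intro n x
    obtain ⟨y, rfl⟩ := r_surj x
    rw [he, hd, hd, he, Z.d_e]
  · intro x
    obtain ⟨y, rfl⟩ := r_surj x
    rw [he, hd, Z.d_e0, map_zero]
  · intro x
    obtain ⟨y, rfl⟩ := r_surj x
    rw [hd, hd, Z.d_d, map_zero]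
  · intro g x
    obtain ⟨y, rfl⟩ := r_surj x
    rw [hρ, hε, hε, Z.ε_ρ]
  · intro x
    obtain ⟨y, rfl⟩ := r_surj x
    rw [he, hε, hε, Z.ε_e]
  · intro x
    obtain ⟨y, rfl⟩ := r_surj x
    rw [hd, hε, Z.ε_d, Int.cast_zero]
  · rw [he, Z.o_e]
  · rw [hε, Z.ε_o, Int.cast_one]
  · intro x h1 h2
    obtain ⟨y, rfl⟩ := r_surj x
    rw [hd, r_zero] at h1
    rw [hε, ZMod.intCast_zmod_eq_zero_iff_dvd] at h2
    obtain ⟨t, u', ht⟩ := Z.ex_mod y h1 h2
    refine ⟨r M t, ?_⟩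
    have h3 : r M ((2 : ℤ) • u') = 0 := (r_zero _).2 ⟨u', rfl⟩
    rw [hd, ht, map_add, h3, add_zero]
  · intro j
    exact fsZ (Z.b.φ j) (φ j) (hφ j) (Z.b.fs j)
  · intro x
    obtain ⟨y, rfl⟩ := r_surj x
    conv_rhs => rw [Z.b.span y, map_sum]
    refine Finset.sum_congr rfl fun j _ => ?_
    have hfin : (Function.support fun g : G => Z.b.φ j (g⁻¹ • y) • (g • Z.b.e j)).Finite := by
      refine (Z.b.fs j y).subset fun g hg h0 => hg ?_
      change Z.b.φ j (g⁻¹ • y) • (g • Z.b.e j) = 0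
      rw [h0, zero_smul]
    rw [(r M).map_finsum hfin]
    refine finsum_congr fun g => ?_
    rw [hρ, hρ, hφ, map_zsmul, Int.cast_smul_eq_zsmul]
  · exact fsZ Z.z z hz Z.z_fs
  · intro x
    obtain ⟨y, rfl⟩ := r_surj x
    rw [he, hz, hz, Z.z_e]
  · intro ψ hψ h
    obtain ⟨ψ0, h1, h2⟩ := liftF ψ hψ
    obtain ⟨n, χ0, h3, h4⟩ := Z.co_mod ψ0 h1 fun x => by rw [h2, ← hd, h]
    obtain ⟨χ, hχ⟩ := desc ((Int.castAddHom K).comp χ0)
    simp only [AddMonoidHom.comp_apply, Int.coe_castAddHom] at hχ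
    refine ⟨(n : K), χ, fsZ χ0 χ hχ h3, fun x => ?_⟩
    obtain ⟨y, rfl⟩ := r_surj x
    rw [← h2, h4, hz, hd, hχ]
  · rintro ⟨χ, h1, h2⟩
    obtain ⟨χ0, h3, h4⟩ := liftF χ h1
    refine Z.z_mod χ0 h3 fun x => ?_
    rw [h4, ← hd, ← h2, hz]

end IZ

end

private theorem mi60_db {G P Q : Type} [Group G] [AddCommGroup P] [AddCommGroup Q]
    [DistribMulAction G P] [DistribMulAction G Q] (b : DB G P) (b' : DB G Q) :
    Nonempty (DB G (P × Q)) := by
  refine ⟨{ J := b.J ⊕ b'.J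
            fin := inferInstance
            φ := Sum.elim (fun j => (b.φ j).comp (AddMonoidHom.fst P Q))
              (fun j => (b'.φ j).comp (AddMonoidHom.snd P Q))
            e := Sum.elim (fun j => (b.e j, 0)) (fun j => (0, b'.e j))
            fs := ?_
            span := ?_ }⟩
  · rintro (j | j)
    · exact (b.fs j).comp (AddMonoidHom.fst P Q) fun g p => rfl
    · exact (b'.fs j).comp (AddMonoidHom.snd P Q) fun g p => rfl
  · rintro ⟨p, q⟩
    rw [Fintype.sum_sum_type]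
    have h1 : ((p, 0) : P × Q) =
        ∑ j, ∑ᶠ g : G, b.φ j (g⁻¹ • p) • (g • ((b.e j, 0) : P × Q)) := by
      change AddMonoidHom.inl P Q p = _
      conv_lhs => rw [b.span p, map_sum]
      refine Finset.sum_congr rfl fun j _ => ?_
      have hfin : (Function.support fun g : G => b.φ j (g⁻¹ • p) • (g • b.e j)).Finite := by
        refine (b.fs j p).subset fun g hg h0 => hg ?_
        change b.φ j (g⁻¹ • p) • (g • b.e j) = 0
        rw [h0, zero_smul]
      rw [(AddMonoidHom.inl P Q).map_finsum hfin]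
      refine finsum_congr fun g => ?_
      rw [map_zsmul, AddMonoidHom.inl_apply, Prod.smul_mk g (b.e j) (0 : Q), smul_zero]
    have h2 : ((0, q) : P × Q) =
        ∑ j, ∑ᶠ g : G, b'.φ j (g⁻¹ • q) • (g • ((0, b'.e j) : P × Q)) := by
      change AddMonoidHom.inr P Q q = _
      conv_lhs => rw [b'.span q, map_sum]
      refine Finset.sum_congr rfl fun j _ => ?_
      have hfin : (Function.support fun g : G => b'.φ j (g⁻¹ • q) • (g • b'.e j)).Finite := by
        refine (b'.fs j q).subset fun g hg h0 => hg ?_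
        change b'.φ j (g⁻¹ • q) • (g • b'.e j) = 0
        rw [h0, zero_smul]
      rw [(AddMonoidHom.inr P Q).map_finsum hfin]
      refine finsum_congr fun g => ?_
      rw [map_zsmul, AddMonoidHom.inr_apply, Prod.smul_mk g (0 : P) (b'.e j), smul_zero]
    have h3 : ((p, q) : P × Q) = (p, 0) + (0, q) := by simp
    conv_lhs => rw [h3, h1, h2]
    rfl

section

variable {G P0 P1 P2 P3 : Type} [Group G] [AddCommGroup P0] [AddCommGroup P1]
    [AddCommGroup P2] [AddCommGroup P3] [DistribMulAction G P0] [DistribMulAction G P1]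
    [DistribMulAction G P2] [DistribMulAction G P3]

/-- PIECE MI-59. PROOF. Suppose `G` is finite. `ℚ` is divisible, so `z : P3 → ℚ` extends along the injective `d2` to `ω : P2 → ℚ`
(`Module.Baer.of_divisible`, `Module.Baer.extension_property_addMonoidHom`, see SH.lean of Helper20/ACH). `P2` is generated by the
finitely many `g • e_j`; let `N ≥ 1` be a common denominator of the `ω (g • e_j)`. Then `N ω` has integer values
(`b2.span`), so it is `ψ : P2 →+ ℤ` (finite support is automatic), `N • z = ψ ∘ d2`, so `N = 0` by `D3'`. -/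
theorem pre_infinite (D : PD3Pre G P0 P1 P2 P3) : Infinite G := by
  by_contra hG
  rw [not_infinite_iff_finite] at hG
  have hF : Fintype G := Fintype.ofFinite G
  let z' : P3 →+ ℚ := (Int.castAddHom ℚ).comp D.z
  obtain ⟨ω, hω⟩ := (Module.Baer.of_divisible ℚ).extension_property_addMonoidHom D.d2 D.d2_inj z'
  set N : ℕ := ∏ x : G × D.b2.J, (ω (x.1 • D.b2.e x.2)).den with hN
  have hN0 : N ≠ 0 := Finset.prod_ne_zero_iff.2 fun x _ => (ω (x.1 • D.b2.e x.2)).den_ne_zero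
  have h1 : ∀ x : G × D.b2.J, ∃ n : ℤ, (n : ℚ) = N * ω (x.1 • D.b2.e x.2) := by
    intro x
    obtain ⟨m, hm⟩ := Finset.dvd_prod_of_mem (fun x : G × D.b2.J => (ω (x.1 • D.b2.e x.2)).den)
      (Finset.mem_univ x)
    refine ⟨m * (ω (x.1 • D.b2.e x.2)).num, ?_⟩
    rw [hN, hm]
    push_cast
    rw [mul_comm ((ω (x.1 • D.b2.e x.2)).den : ℚ) m, mul_assoc, Rat.den_mul_eq_num]
  choose n hn using h1
  have h2 : ∀ p : P2, ∃ k : ℤ, (k : ℚ) = N * ω p := by
    intro p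
    refine ⟨∑ j, ∑ g : G, D.b2.φ j (g⁻¹ • p) * n (g, j), ?_⟩
    conv_rhs => rw [D.b2.span p]
    rw [map_sum, Finset.mul_sum, Int.cast_sum]
    refine Finset.sum_congr rfl fun j _ => ?_
    rw [finsum_eq_sum_of_fintype, map_sum, Finset.mul_sum, Int.cast_sum]
    refine Finset.sum_congr rfl fun g _ => ?_
    rw [map_zsmul, Int.cast_mul, hn (g, j), zsmul_eq_mul]
    ring
  choose k hk using h2
  let ψ : P2 →+ ℤ := AddMonoidHom.mk' k (by
    intro a b
    have h3 : ((k (a + b) : ℤ) : ℚ) = ((k a + k b : ℤ) : ℚ) := by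
      rw [Int.cast_add, hk, hk, hk, map_add, mul_add]
    exact_mod_cast h3)
  have h4 : (N : ℤ) • D.z = ψ.comp D.d2 := by
    ext x
    have h5 : ((((N : ℤ) • D.z) x : ℤ) : ℚ) = ((ψ.comp D.d2) x : ℤ) := by
      have h6 : ω (D.d2 x) = z' x := DFunLike.congr_fun hω x
      change _ = ((k (D.d2 x) : ℤ) : ℚ)
      rw [hk, h6, AddMonoidHom.smul_apply, smul_eq_mul]
      simp [z']
    exact_mod_cast h5
  have h7 := D.D3' (N : ℤ) ψ (fun p => Set.toFinite _) h4
  exact hN0 (by exact_mod_cast h7)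

/-- PIECE MI-60. PROOF. `M = P0 × P1 × P2 × P3` with the product action. `d (a, b, c, p) = (d0 b, d1 c, d2 p, 0)`,
`e n` = the `n`-th coordinate, `o = (p0, 0, 0, 0)`, dual basis: `J = J0 ⊕ J1 ⊕ J2 ⊕ J3`. `co`: restrict `ψ` to the coordinates:
on `P0`: `ψ x = ε x * ψ p0` (`exact0`), so `ψ (g p0) = ψ p0` for all `g` and `IsFs`, `Infinite G` give `ψ = 0` on `P0`; on `P1` by `hD1`;
on `P2`, `P3` by `D2`, `D3`. `z_free` by `D3'` (restrict to `P3`, project to `P2`). -/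
theorem exists_IZ (D : PD3Pre G P0 P1 P2 P3)
    (hD1 : ∀ φ : P1 →+ ℤ, IsFs G φ → (∀ p, φ (D.d1 p) = 0) →
      ∃ ψ : P0 →+ ℤ, IsFs G ψ ∧ ∀ p, φ p = ψ (D.d0 p)) :
    Nonempty (IZ G (P0 × P1 × P2 × P3)) := by
  obtain ⟨b23⟩ := mi60_db D.b2 D.b3
  obtain ⟨b123⟩ := mi60_db D.b1 b23
  obtain ⟨b⟩ := mi60_db D.b0 b123
  have hdd0 : ∀ q, D.d0 (D.d1 q) = 0 := fun q => (D.exact1 _).2 ⟨q, rfl⟩
  have hdd1 : ∀ q, D.d1 (D.d2 q) = 0 := fun q => (D.exact2 _).2 ⟨q, rfl⟩
  have hεd : ∀ q, D.ε (D.d0 q) = 0 := fun q => (D.exact0 _).2 ⟨q, rfl⟩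
  let d : P0 × P1 × P2 × P3 →+ P0 × P1 × P2 × P3 :=
    { toFun := fun x => (D.d0 x.2.1, D.d1 x.2.2.1, D.d2 x.2.2.2, 0)
      map_zero' := by simp
      map_add' := fun x y => by simp }
  let e : ℕ → P0 × P1 × P2 × P3 →+ P0 × P1 × P2 × P3 := fun n =>
    { toFun := fun x => (if n = 0 then x.1 else 0, if n = 1 then x.2.1 else 0,
        if n = 2 then x.2.2.1 else 0, if n = 3 then x.2.2.2 else 0)
      map_zero' := by simp
      map_add' := fun x y => by
        simp only [Prod.fst_add, Prod.snd_add, Prod.mk_add_mk, Prod.mk.injEq]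
        refine ⟨?_, ?_, ?_, ?_⟩ <;> split_ifs <;> simp }
  have hd : ∀ x, d x = (D.d0 x.2.1, D.d1 x.2.2.1, D.d2 x.2.2.2, 0) := fun _ => rfl
  have he : ∀ n x, e n x = (if n = 0 then x.1 else 0, if n = 1 then x.2.1 else 0,
        if n = 2 then x.2.2.1 else 0, if n = 3 then x.2.2.2 else 0) := fun _ _ => rfl
  let i0 : P0 →+ P0 × P1 × P2 × P3 := AddMonoidHom.inl P0 (P1 × P2 × P3)
  let i1 : P1 →+ P0 × P1 × P2 × P3 :=
    (AddMonoidHom.inr P0 (P1 × P2 × P3)).comp (AddMonoidHom.inl P1 (P2 × P3))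
  let i2 : P2 →+ P0 × P1 × P2 × P3 :=
    (AddMonoidHom.inr P0 (P1 × P2 × P3)).comp ((AddMonoidHom.inr P1 (P2 × P3)).comp
      (AddMonoidHom.inl P2 P3))
  let i3 : P3 →+ P0 × P1 × P2 × P3 :=
    (AddMonoidHom.inr P0 (P1 × P2 × P3)).comp ((AddMonoidHom.inr P1 (P2 × P3)).comp
      (AddMonoidHom.inr P2 P3))
  have hi0 : ∀ (g : G) p, i0 (g • p) = g • i0 p := fun g p => by
    change ((g • p, 0, 0, 0) : P0 × P1 × P2 × P3) = (g • p, g • 0, g • 0, g • 0)
    simp only [smul_zero]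
  have hi1 : ∀ (g : G) p, i1 (g • p) = g • i1 p := fun g p => by
    change ((0, g • p, 0, 0) : P0 × P1 × P2 × P3) = (g • 0, g • p, g • 0, g • 0)
    simp only [smul_zero]
  have hi2 : ∀ (g : G) p, i2 (g • p) = g • i2 p := fun g p => by
    change ((0, 0, g • p, 0) : P0 × P1 × P2 × P3) = (g • 0, g • 0, g • p, g • 0)
    simp only [smul_zero]
  have hi3 : ∀ (g : G) p, i3 (g • p) = g • i3 p := fun g p => by
    change ((0, 0, 0, g • p) : P0 × P1 × P2 × P3) = (g • 0, g • 0, g • 0, g • p)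
    simp only [smul_zero]
  have hsum : ∀ x : P0 × P1 × P2 × P3, x = i0 x.1 + i1 x.2.1 + i2 x.2.2.1 + i3 x.2.2.2 := by
    rintro ⟨a, b, c, p⟩
    change ((a, b, c, p) : P0 × P1 × P2 × P3) = (a, 0, 0, 0) + (0, b, 0, 0) + (0, 0, c, 0) +
      (0, 0, 0, p)
    simp
  have hdi1 : ∀ q, d (i1 q) = i0 (D.d0 q) := fun q => by
    change ((D.d0 q, D.d1 0, D.d2 0, 0) : P0 × P1 × P2 × P3) = (D.d0 q, 0, 0, 0)
    rw [map_zero, map_zero]
  have hdi2 : ∀ q, d (i2 q) = i1 (D.d1 q) := fun q => by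
    change ((D.d0 0, D.d1 q, D.d2 0, 0) : P0 × P1 × P2 × P3) = (0, D.d1 q, 0, 0)
    rw [map_zero, map_zero]
  have hdi3 : ∀ q, d (i3 q) = i2 (D.d2 q) := fun q => by
    change ((D.d0 0, D.d1 0, D.d2 q, 0) : P0 × P1 × P2 × P3) = (0, 0, D.d2 q, 0)
    rw [map_zero, map_zero]
  have hinf : Infinite G := pre_infinite D
  refine ⟨{ d := d, e := e
            ε := D.ε.comp (AddMonoidHom.fst P0 (P1 × P2 × P3))
            o := i0 D.p0
            b := b
            z := D.z.comp ((AddMonoidHom.snd P2 P3).comp ((AddMonoidHom.snd P1 (P2 × P3)).comp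
              (AddMonoidHom.snd P0 (P1 × P2 × P3))))
            d_ρ := ?_, e_ρ := ?_, e_e := ?_, e_ne := ?_, e_sum := ?_, d_e := ?_, d_e0 := ?_,
            d_d := ?_, ε_ρ := ?_, ε_e := ?_, ε_d := ?_, o_e := ?_, ε_o := ?_, ex := ?_,
            z_fs := ?_, z_e := ?_, co := ?_, z_free := ?_ }⟩
  · rintro g ⟨a, b, c, p⟩
    change ((D.d0 (g • b), D.d1 (g • c), D.d2 (g • p), 0) : P0 × P1 × P2 × P3) =
      (g • D.d0 b, g • D.d1 c, g • D.d2 p, g • 0)
    rw [D.d0_smul, D.d1_smul, D.d2_smul, smul_zero]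
  · rintro n g ⟨a, b, c, p⟩
    rw [he, he]
    change ((if n = 0 then g • a else 0, if n = 1 then g • b else 0, if n = 2 then g • c else 0,
      if n = 3 then g • p else 0) : P0 × P1 × P2 × P3) = (g • (if n = 0 then a else 0),
        g • (if n = 1 then b else 0), g • (if n = 2 then c else 0), g • (if n = 3 then p else 0))
    simp only [Prod.mk.injEq]
    refine ⟨?_, ?_, ?_, ?_⟩ <;> split_ifs <;> simp
  · rintro n ⟨a, b, c, p⟩
    rw [he, he]
    simp only [Prod.mk.injEq]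
    refine ⟨?_, ?_, ?_, ?_⟩ <;> split_ifs <;> rfl
  · rintro m n ⟨a, b, c, p⟩ hmn
    rw [he, he]
    simp only [Prod.mk_eq_zero]
    refine ⟨?_, ?_, ?_, ?_⟩ <;> split_ifs <;> first | rfl | omega
  · rintro ⟨a, b, c, p⟩
    simp [he, Finset.sum_range_succ]
  · rintro n ⟨a, b, c, p⟩
    rw [he, hd, hd, he]
    simp only [Prod.mk.injEq]
    refine ⟨?_, ?_, ?_, ?_⟩ <;> split_ifs <;> first | rfl | omega | exact map_zero _
  · rintro ⟨a, b, c, p⟩
    rw [he, hd]
    simp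
  · rintro ⟨a, b, c, p⟩
    rw [hd, hd]
    simp [hdd0, hdd1]
  · rintro g ⟨a, b, c, p⟩
    exact D.ε_smul g a
  · rintro ⟨a, b, c, p⟩
    rfl
  · rintro ⟨a, b, c, p⟩
    exact hεd b
  · change e 0 (D.p0, 0, 0, 0) = (D.p0, 0, 0, 0)
    rw [he]
    simp
  · exact D.ε_p0
  · rintro ⟨a, b, c, p⟩ h1 h2
    rw [hd] at h1
    simp only [Prod.mk_eq_zero] at h1
    obtain ⟨hb, hc, hp, -⟩ := h1
    obtain ⟨q0, h0⟩ := (D.exact0 a).1 h2
    obtain ⟨q1, h1⟩ := (D.exact1 b).1 hb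
    obtain ⟨q2, h2⟩ := (D.exact2 c).1 hc
    have h3 : p = 0 := D.d2_inj (hp.trans (map_zero _).symm)
    refine ⟨(0, q0, q1, q2), ?_⟩
    rw [hd, h3]
    simp [h0, h1, h2]
  · exact D.z_fs.comp _ fun g p => rfl
  · rintro ⟨a, b, c, p⟩
    rfl
  · intro ψ hψ hψd
    have f0 : IsFs G (ψ.comp i0) := hψ.comp i0 hi0
    have f1 : IsFs G (ψ.comp i1) := hψ.comp i1 hi1
    have f2 : IsFs G (ψ.comp i2) := hψ.comp i2 hi2
    have f3 : IsFs G (ψ.comp i3) := hψ.comp i3 hi3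
    have z0 : ∀ a, ψ (i0 a) = D.ε a * ψ (i0 D.p0) := by
      intro a
      have h1 : D.ε (a - D.ε a • D.p0) = 0 := by
        rw [map_sub, map_zsmul, D.ε_p0, smul_eq_mul, mul_one, sub_self]
      obtain ⟨q, hq⟩ := (D.exact0 _).1 h1
      have h2 : ψ (i0 (a - D.ε a • D.p0)) = 0 := by
        rw [← hq, ← hdi1]
        exact hψd _
      rw [map_sub, map_sub, map_zsmul, map_zsmul, smul_eq_mul, sub_eq_zero] at h2
      exact h2
    have z1 : ψ (i0 D.p0) = 0 := by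
      by_contra h0
      have h1 : {g : G | (ψ.comp i0) (g⁻¹ • D.p0) ≠ 0} = Set.univ := by
        refine Set.eq_univ_of_forall fun g => ?_
        change ψ (i0 (g⁻¹ • D.p0)) ≠ 0
        rw [z0, D.ε_smul, D.ε_p0, one_mul]
        exact h0
      have h2 := f0 D.p0
      rw [h1] at h2
      exact Set.infinite_univ h2
    obtain ⟨χ1, g1, k1⟩ := hD1 (ψ.comp i1) f1 fun p => by
      change ψ (i1 (D.d1 p)) = 0
      rw [← hdi2]
      exact hψd _
    obtain ⟨χ2, g2, k2⟩ := D.D2 (ψ.comp i2) f2 fun p => by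
      change ψ (i2 (D.d2 p)) = 0
      rw [← hdi3]
      exact hψd _
    obtain ⟨n, χ3, g3, k3⟩ := D.D3 (ψ.comp i3) f3
    refine ⟨n, χ1.comp (AddMonoidHom.fst P0 (P1 × P2 × P3)) +
      χ2.comp ((AddMonoidHom.fst P1 (P2 × P3)).comp (AddMonoidHom.snd P0 (P1 × P2 × P3))) +
      χ3.comp ((AddMonoidHom.fst P2 P3).comp ((AddMonoidHom.snd P1 (P2 × P3)).comp
        (AddMonoidHom.snd P0 (P1 × P2 × P3)))), ?_, ?_⟩
    · exact ((g1.comp _ fun g p => rfl).add (g2.comp _ fun g p => rfl)).add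
        (g3.comp _ fun g p => rfl)
    · intro x
      have e1 : ψ (i1 x.2.1) = χ1 (D.d0 x.2.1) := k1 x.2.1
      have e2 : ψ (i2 x.2.2.1) = χ2 (D.d1 x.2.2.1) := DFunLike.congr_fun k2 x.2.2.1
      have e3 : ψ (i3 x.2.2.2) = n * D.z x.2.2.2 + χ3 (D.d2 x.2.2.2) := by
        have := DFunLike.congr_fun k3 x.2.2.2
        rw [AddMonoidHom.add_apply, AddMonoidHom.smul_apply, smul_eq_mul] at this
        exact this
      conv_lhs => rw [hsum x]
      rw [map_add, map_add, map_add, z0, z1, mul_zero, e1, e2, e3]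
      change 0 + χ1 (D.d0 x.2.1) + χ2 (D.d1 x.2.2.1) + (n * D.z x.2.2.2 + χ3 (D.d2 x.2.2.2)) =
        n * D.z x.2.2.2 + (χ1 (D.d0 x.2.1) + χ2 (D.d1 x.2.2.1) + χ3 (D.d2 x.2.2.2))
      ring
  · intro m χ hχ h
    refine D.D3' m (χ.comp i2) (hχ.comp i2 hi2) ?_
    ext p
    rw [AddMonoidHom.smul_apply, smul_eq_mul]
    change m * D.z p = χ (i2 (D.d2 p))
    rw [← hdi3]
    exact h (i3 p)

end

/-- The kernel of an endomorphism. -/
private def mi61_ker {X : Type} [AddCommGroup X] (ρ : X →+ X) : Type :=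
  {x : X // ρ x = 0}

private instance mi61_acg {X : Type} [AddCommGroup X] (ρ : X →+ X) :
    AddCommGroup (mi61_ker ρ) :=
  inferInstanceAs (AddCommGroup ρ.ker)

@[reducible] private def mi61_act {G X : Type} [Group G] [AddCommGroup X] [DistribMulAction G X]
    (ρ : X →+ X) (h : ∀ (g : G) (x : X), ρ (g • x) = g • ρ x) :
    DistribMulAction G (mi61_ker ρ) where
  smul g x := ⟨g • x.1, by rw [h, x.2, smul_zero]⟩
  one_smul x := Subtype.ext (one_smul G x.1)
  mul_smul g k x := Subtype.ext (mul_smul g k x.1)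
  smul_zero g := Subtype.ext (smul_zero g)
  smul_add g x y := Subtype.ext (smul_add g x.1 y.1)

/-- PIECE MI-61. PROOF. Copy the proof of `ResData.exists_pre` (Helper20/ACH/BK.lean, with its private auxiliary definitions, renamed); the additional
statement is `R.coh 0`. -/
theorem exists_pre' {G : Type} [Group G] (R : ResData G) :
    ∃ (P0 P1 P2 P3 : Type) (_ : AddCommGroup P0) (_ : AddCommGroup P1) (_ : AddCommGroup P2)
      (_ : AddCommGroup P3) (_ : DistribMulAction G P0) (_ : DistribMulAction G P1)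
      (_ : DistribMulAction G P2) (_ : DistribMulAction G P3) (D : PD3Pre G P0 P1 P2 P3),
      ∀ φ : P1 →+ ℤ, IsFs G φ → (∀ p, φ (D.d1 p) = 0) →
        ∃ ψ : P0 →+ ℤ, IsFs G ψ ∧ ∀ p, φ p = ψ (D.d0 p) := by
  obtain ⟨ρ, h1, h2, h3⟩ := R.exists_proj 2 le_rfl
  let _ : DistribMulAction G (mi61_ker ρ) := mi61_act ρ h1
  obtain ⟨b0⟩ := R.b 0
  obtain ⟨b1⟩ := R.b 1
  obtain ⟨b2⟩ := R.b 2
  obtain ⟨b3⟩ := R.b 3
  obtain ⟨p0, hp0⟩ := R.π_surj 1
  let inc : mi61_ker ρ →+ R.X 3 :=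
    { toFun := fun x => x.1
      map_zero' := rfl
      map_add' := fun _ _ => rfl }
  have hinc : ∀ (g : G) (x : mi61_ker ρ), inc (g • x) = g • inc x := fun g x => rfl
  have hρ : ∀ x, ρ (x - ρ x) = 0 := fun x => by
    rw [map_sub, h3 _ (h2 x), sub_self]
  let pr : R.X 3 →+ mi61_ker ρ :=
    { toFun := fun x => ⟨x - ρ x, hρ x⟩
      map_zero' := Subtype.ext (by simp; rfl)
      map_add' := fun x y => Subtype.ext (by
        change x + y - ρ (x + y) = (x - ρ x) + (y - ρ y)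
        rw [map_add]; abel) }
  have hpr : ∀ (g : G) (x : R.X 3), pr (g • x) = g • pr x := fun g x => Subtype.ext (by
    change g • x - ρ (g • x) = g • (x - ρ x)
    rw [h1, smul_sub])
  have hpi : ∀ x : mi61_ker ρ, pr (inc x) = x := fun x => Subtype.ext (by
    change x.1 - ρ x.1 = x.1
    rw [x.2, sub_zero])
  have hip : ∀ x : R.X 3, inc (pr x) = x - ρ x := fun x => rfl
  have hdp : ∀ x : R.X 3, R.d 2 (inc (pr x)) = R.d 2 x := fun x => by
    rw [hip, map_sub, h2, sub_zero]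
  have hzp : ∀ x : R.X 3, R.z (inc (pr x)) = R.z x := fun x => by
    obtain ⟨y, hy⟩ := (R.exact 2 _).1 (h2 x)
    rw [hip, map_sub, ← hy, R.z_d, sub_zero]
  refine ⟨R.X 0, R.X 1, R.X 2, mi61_ker ρ, R.ab 0, R.ab 1, R.ab 2, inferInstance,
    R.ac 0, R.ac 1, R.ac 2, inferInstance, ?_, ?_⟩
  · exact
      { ε := R.π
        d0 := R.d 0
        d1 := R.d 1
        d2 := (R.d 2).comp inc
        ε_smul := R.π_smul
        d0_smul := R.d_smul 0
        d1_smul := R.d_smul 1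
        d2_smul := fun g p => by
          rw [AddMonoidHom.comp_apply, hinc, R.d_smul]; rfl
        p0 := p0
        ε_p0 := hp0
        exact0 := R.exact0
        exact1 := R.exact 0
        exact2 := fun p => by
          rw [R.exact 1 p]
          constructor
          · rintro ⟨y, rfl⟩
            exact ⟨pr y, hdp y⟩
          · rintro ⟨q, rfl⟩
            exact ⟨inc q, rfl⟩
        d2_inj := by
          rw [injective_iff_map_eq_zero]
          intro x hx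
          have e1 : ρ (inc x) = inc x := h3 _ hx
          have e2 : ρ (inc x) = 0 := x.2
          exact Subtype.ext (e1.symm.trans e2)
        b0 := b0
        b1 := b1
        b2 := b2
        b3 :=
          { J := b3.J
            fin := b3.fin
            φ := fun j => (b3.φ j).comp inc
            e := fun j => pr (b3.e j)
            fs := fun j => (b3.fs j).comp inc hinc
            span := fun p => by
              have e1 := congrArg pr (b3.span (inc p))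
              rw [hpi, map_sum] at e1
              refine e1.trans (Finset.sum_congr rfl fun j _ => ?_)
              have e2 := map_tw pr (b3.φ j) (b3.fs j) (fun g => g • b3.e j) (inc p)
              rw [tw_apply, tw_apply] at e2
              rw [e2]
              refine finsum_congr fun g => ?_
              rw [hpr, ← hinc]
              rfl }
        z := R.z.comp inc
        z_fs := R.z_fs.comp inc hinc
        D2 := fun φ hφ hv => by
          obtain ⟨ψ, hψ, hψ2⟩ := R.coh 1 (by omega) φ hφ (fun x => by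
            rw [← hdp x]; exact hv (pr x))
          exact ⟨ψ, hψ, AddMonoidHom.ext hψ2⟩
        D3 := fun φ hφ => by
          obtain ⟨m, ψ, hψ, hψ2⟩ := R.z_gen (φ.comp pr) (hφ.comp pr hpr) (fun x => by
            have e1 : R.d 2 (R.d 3 x) = 0 := (R.exact 2 _).2 ⟨x, rfl⟩
            have e2 : pr (R.d 3 x) = 0 := Subtype.ext (by
              change R.d 3 x - ρ (R.d 3 x) = 0
              rw [h3 _ e1, sub_self])
            rw [AddMonoidHom.comp_apply, e2, map_zero])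
          refine ⟨m, ψ, hψ, ?_⟩
          ext x
          have e1 := hψ2 (inc x)
          rw [AddMonoidHom.comp_apply, hpi] at e1
          rw [e1]
          simp
        D3' := fun n ψ hψ h => by
          refine R.z_free n ψ hψ fun x => ?_
          have e1 := DFunLike.congr_fun h (pr x)
          have e2 : n * R.z (inc (pr x)) = ψ (R.d 2 (inc (pr x))) := by
            simpa using e1
          rw [hzp, hdp] at e2
          exact e2 }
  · intro φ hφ h
    exact R.coh 0 (by omega) φ hφ h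

/-- The resolution over the field with two elements of a `PD_3`-group. -/
theorem exists_res {G : Type} [Group G] (R : ResData G) :
    ∃ (C : Type) (_ : AddCommGroup C) (_ : Module K C), Nonempty (Cx G C) := by
  obtain ⟨P0, P1, P2, P3, _, _, _, _, _, _, _, _, D, hD⟩ := exists_pre' R
  obtain ⟨Z⟩ := exists_IZ D hD
  exact ⟨_, _, _, Z.exists_Cx⟩

end Pool.Agent.Helper31.MI
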