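import Pool.Agent.Helper31.MI.Fund

/-!
# Project MI: the coinvariants of a normal subgroup of finite index
-/

set_option autoImplicit false

namespace Pool.Agent.Helper31.MI

open TensorProduct

variable {G C : Type} [Group G] [AddCommGroup C] [Module K C]

/-! ### sums over cosets -/

/-- PIECE MI-33. PROOF. `finsum_eq_of_bijective` (or `finsum_comp_equiv`) for the bijection `P → P`, `p ↦ c'⁻¹ * e (c * p)`. -/
theorem cs_bij {M : Type} [AddCommMonoid M] (P : Subgroup G) (f : G → M) (e : G ≃ G) (c c' : G)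
    (h : ∀ z, c⁻¹ * z ∈ P ↔ c'⁻¹ * e z ∈ P) :
    ∑ᶠ p : P, f (e (c * p)) = ∑ᶠ p : P, f (c' * p) := by
  let E : P ≃ P :=
    { toFun := fun p => ⟨c'⁻¹ * e (c * p), (h _).1 (by rw [inv_mul_cancel_left]; exact p.2)⟩
      invFun := fun p => ⟨c⁻¹ * e.symm (c' * p), (h _).2 (by
        rw [Equiv.apply_symm_apply, inv_mul_cancel_left]; exact p.2)⟩
      left_inv := fun p => by
        apply Subtype.ext
        simp
      right_inv := fun p => by
        apply Subtype.ext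
        simp }
  rw [← finsum_comp_equiv E (f := fun p : P => f (c' * p))]
  refine finsum_congr fun p => ?_
  congr 1
  show e (c * p) = c' * (c'⁻¹ * e (c * p))
  rw [mul_inv_cancel_left]

omit [Group G] in
private theorem mi33_fin {M : Type} [AddCommMonoid M] {X : Type} (f : G → M) (hf : {z | f z ≠ 0}.Finite)
    (i : X → G) (hi : Function.Injective i) : (Function.support fun x => f (i x)).Finite := by
  exact Set.Finite.preimage (f := i) hi.injOn hf

/-- PIECE MI-33. PROOF. `finsum_add_distrib`, `smul_finsum`, finite supports. -/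
theorem exists_cs {B : Type} [AddCommGroup B] [Module K B] (P : Subgroup G) (F : G → B →ₗ[K] K)
    (hF : ∀ x, {z | F z x ≠ 0}.Finite) (c : G) :
    ∃ S : B →ₗ[K] K, ∀ x, S x = ∑ᶠ p : P, F (c * p) x := by
  have hi : Function.Injective fun p : P => c * (p : G) := fun p q h => by
    exact Subtype.ext (mul_left_cancel h)
  have hfin : ∀ x, (Function.support fun p : P => F (c * p) x).Finite := fun x =>
    mi33_fin (fun z => F z x) (hF x) (fun p : P => c * (p : G)) hi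
  refine ⟨{ toFun := fun x => ∑ᶠ p : P, F (c * p) x, map_add' := ?_, map_smul' := ?_ }, fun x => rfl⟩
  · intro x y
    rw [← finsum_add_distrib (hfin x) (hfin y)]
    exact finsum_congr fun p => map_add _ _ _
  · intro r x
    rw [RingHom.id_apply, smul_finsum]
    exact finsum_congr fun p => map_smul _ _ _

/-- PIECE MI-33. PROOF. Every `g` is `q.out * p` for exactly one `q : G ⧸ P`, `p : P`; `Finite (G ⧸ P)` and finite support
(e.g. both sides over a finite set of `g`, or `finsum_comp_equiv` for `Subgroup.groupEquivQuotientProdSubgroup` and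
`finsum_curry`). -/
theorem cs_sum {M : Type} [AddCommMonoid M] (P : Subgroup G) [Finite (G ⧸ P)] (f : G → M)
    (hf : {g | f g ≠ 0}.Finite) :
    ∑ᶠ g : G, f g = ∑ᶠ q : G ⧸ P, ∑ᶠ p : P, f (q.out * p) := by
  let E : (G ⧸ P) × P ≃ G :=
    { toFun := fun x => x.1.out * x.2
      invFun := fun g => (QuotientGroup.mk g, ⟨(QuotientGroup.mk (s := P) g).out⁻¹ * g,
        QuotientGroup.eq.1 (QuotientGroup.out_eq' _)⟩)
      left_inv := fun x => by
        have h1 : (QuotientGroup.mk (x.1.out * x.2) : G ⧸ P) = x.1 := by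
          rw [QuotientGroup.mk_mul_of_mem _ x.2.2, QuotientGroup.out_eq']
        apply Prod.ext
        · exact h1
        · apply Subtype.ext
          show (QuotientGroup.mk (s := P) (x.1.out * x.2)).out⁻¹ * (x.1.out * x.2) = x.2
          rw [h1, inv_mul_cancel_left]
      right_inv := fun g => by
        show (QuotientGroup.mk (s := P) g).out * ((QuotientGroup.mk (s := P) g).out⁻¹ * g) = g
        rw [mul_inv_cancel_left] }
  rw [← finsum_comp_equiv E, finsum_curry _ (mi33_fin f hf E E.injective)]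
  rfl

/-- PIECE MI-33. PROOF. As `cs_sum`: every `g` is `(c * p)⁻¹ * q.out` for exactly one `q : G ⧸ P`, `p : P`: `q` is the class of
`c * g` and `q.out = c * g * p'`, `p = g * p' * g⁻¹` (`P` is normal). -/
theorem cs_sum' {M : Type} [AddCommMonoid M] (P : Subgroup G) [P.Normal] [Finite (G ⧸ P)]
    (f : G → M) (hf : {g | f g ≠ 0}.Finite) (c : G) :
    ∑ᶠ g : G, f g = ∑ᶠ q : G ⧸ P, ∑ᶠ p : P, f ((c * p)⁻¹ * q.out) := by
  let E : (G ⧸ P) × P ≃ G :=
    { toFun := fun x => (c * x.2)⁻¹ * x.1.out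
      invFun := fun g => (QuotientGroup.mk (c * g),
        ⟨c⁻¹ * (QuotientGroup.mk (s := P) (c * g)).out * g⁻¹, by
          have h1 : (c * g)⁻¹ * (QuotientGroup.mk (s := P) (c * g)).out ∈ P :=
            QuotientGroup.eq.1 (QuotientGroup.out_eq' _).symm
          have h2 := Subgroup.Normal.conj_mem (H := P) inferInstance _ h1 g
          have h3 : g * ((c * g)⁻¹ * (QuotientGroup.mk (s := P) (c * g)).out) * g⁻¹ =
            c⁻¹ * (QuotientGroup.mk (s := P) (c * g)).out * g⁻¹ := by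
            rw [mul_inv_rev, ← mul_assoc, ← mul_assoc, mul_inv_cancel, one_mul]
          rwa [h3] at h2⟩)
      left_inv := fun x => by
        have h1 : (QuotientGroup.mk (c * ((c * x.2)⁻¹ * x.1.out)) : G ⧸ P) = x.1 := by
          have h2 : c * ((c * (x.2 : G))⁻¹ * x.1.out) =
            x.1.out * ((x.1.out⁻¹ * c) * (x.2 : G)⁻¹ * (x.1.out⁻¹ * c)⁻¹) := by
            group
          rw [h2, QuotientGroup.mk_mul_of_mem _
            (Subgroup.Normal.conj_mem inferInstance _ (P.inv_mem x.2.2) _), QuotientGroup.out_eq']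
        apply Prod.ext
        · exact h1
        · apply Subtype.ext
          show c⁻¹ * (QuotientGroup.mk (s := P) (c * ((c * x.2)⁻¹ * x.1.out))).out *
            ((c * (x.2 : G))⁻¹ * x.1.out)⁻¹ = x.2
          rw [h1]
          group
      right_inv := fun g => by
        show (c * (c⁻¹ * (QuotientGroup.mk (s := P) (c * g)).out * g⁻¹))⁻¹ *
          (QuotientGroup.mk (s := P) (c * g)).out = g
        group }
  rw [← finsum_comp_equiv E, finsum_curry _ (mi33_fin f hf E E.injective)]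
  rfl

/-- PIECE MI-33. PROOF. `cs_sum'` for `c = 1`, replace `p` by `p⁻¹`. -/
theorem cs_sum_left {M : Type} [AddCommMonoid M] (P : Subgroup G) [P.Normal] [Finite (G ⧸ P)]
    (f : G → M) (hf : {g | f g ≠ 0}.Finite) :
    ∑ᶠ g : G, f g = ∑ᶠ q : G ⧸ P, ∑ᶠ p : P, f (p * q.out) := by
  rw [cs_sum' P f hf 1]
  refine finsum_congr fun q => ?_
  rw [← finsum_comp_equiv (Equiv.inv P) (f := fun p : P => f (p * q.out))]
  refine finsum_congr fun p => ?_
  rw [one_mul]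
  rfl

namespace Cx

variable (D : Cx G C) (P : Subgroup G)

/-- the elements that vanish in the coinvariants of `P` -/
def I : Submodule K C := Submodule.span K {y | ∃ p ∈ P, ∃ x, y = D.ρ p x + x}

/-- the coinvariants of `P` -/
abbrev Cb : Type := C ⧸ D.I P

/-- the projection -/
def pj : C →ₗ[K] D.Cb P := (D.I P).mkQ

/-- the projection of the tensor squares -/
noncomputable def pj2 : C ⊗[K] C →ₗ[K] D.Cb P ⊗[K] D.Cb P :=
  TensorProduct.map (D.pj P) (D.pj P)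

theorem pj_surj : Function.Surjective (D.pj P) := Submodule.mkQ_surjective _

theorem pj2_surj : Function.Surjective (D.pj2 P) :=
  TensorProduct.map_surjective (D.pj_surj P) (D.pj_surj P)

@[simp] theorem pj2_tmul (x y : C) : D.pj2 P (x ⊗ₜ y) = D.pj P x ⊗ₜ D.pj P y := rfl

theorem pj_ρ (p : G) (hp : p ∈ P) (x : C) : D.pj P (D.ρ p x) = D.pj P x := by
  rw [← sub_eq_zero, ← map_sub]
  refine (Submodule.Quotient.mk_eq_zero _).2 (Submodule.subset_span ⟨p, hp, x, ?_⟩)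
  rw [sub_eq_add_neg, ZModModule.neg_eq_self]

/-- `g` and `g'` in the same coset have the same action -/
theorem pj_ρ' [P.Normal] (g g' : G) (h : g⁻¹ * g' ∈ P) (x : C) :
    D.pj P (D.ρ g' x) = D.pj P (D.ρ g x) := by
  have h1 : g' = (g * (g⁻¹ * g') * g⁻¹) * g := by group
  rw [h1, map_mul, Module.End.mul_apply]
  exact D.pj_ρ P _ (Subgroup.Normal.conj_mem inferInstance _ h g) _

/-- PIECE MI-34 (`Submodule.liftQ`, `Submodule.span_le`) -/
theorem desc {B : Type} [AddCommGroup B] [Module K B] (f : C →ₗ[K] B)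
    (hf : ∀ p ∈ P, ∀ x, f (D.ρ p x) = f x) :
    ∃ g : D.Cb P →ₗ[K] B, ∀ x, g (D.pj P x) = f x := by
  refine ⟨(D.I P).liftQ f (Submodule.span_le.2 ?_), fun x => rfl⟩
  rintro _ ⟨p, hp, x, rfl⟩
  rw [SetLike.mem_coe, LinearMap.mem_ker, map_add, hf p hp x, ZModModule.add_self]

/-- PIECE MI-34. PROOF. `desc` twice: first for `C → (C → B)`, then in the other variable (`TensorProduct.lift`,
`LinearMap.flip`). -/
theorem desc2 {B : Type} [AddCommGroup B] [Module K B] (f : C ⊗[K] C →ₗ[K] B)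
    (hf : ∀ p ∈ P, ∀ w, f (D.gg p 1 w) = f w) (hf' : ∀ p ∈ P, ∀ w, f (D.gg 1 p w) = f w) :
    ∃ g : D.Cb P ⊗[K] D.Cb P →ₗ[K] B, ∀ w, g (D.pj2 P w) = f w := by
  obtain ⟨g1, hg1⟩ := D.desc P (TensorProduct.curry f) (fun p hp x => by
    refine LinearMap.ext fun y => ?_
    have h1 := hf p hp (x ⊗ₜ y)
    rw [gg_tmul, map_one, Module.End.one_apply] at h1
    exact h1)
  obtain ⟨g2, hg2⟩ := D.desc P g1.flip (fun p hp y => by
    refine LinearMap.ext fun x' => ?_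
    obtain ⟨x, rfl⟩ := D.pj_surj P x'
    rw [LinearMap.flip_apply, LinearMap.flip_apply, hg1]
    have h1 := hf' p hp (x ⊗ₜ y)
    rw [gg_tmul, map_one, Module.End.one_apply] at h1
    exact h1)
  refine ⟨TensorProduct.lift g2.flip, fun w => ?_⟩
  induction w with
  | zero => rw [map_zero, map_zero, map_zero]
  | tmul x y =>
    rw [pj2_tmul, TensorProduct.lift.tmul, LinearMap.flip_apply, hg2, LinearMap.flip_apply, hg1]
    rfl
  | add x y hx hy => rw [map_add, map_add, map_add, hx, hy]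

/-- PIECE MI-34 (`Submodule.span_le`) -/
theorem I_le (f : C →ₗ[K] C) (hf : ∀ p ∈ P, ∀ x, ∃ p' ∈ P, f (D.ρ p x) = D.ρ p' (f x)) :
    D.I P ≤ (D.I P).comap f := by
  refine Submodule.span_le.2 ?_
  rintro _ ⟨p, hp, x, rfl⟩
  obtain ⟨p', hp', h⟩ := hf p hp x
  rw [SetLike.mem_coe, Submodule.mem_comap, map_add, h]
  exact Submodule.subset_span ⟨p', hp', f x, rfl⟩

theorem I_le_ε : D.I P ≤ LinearMap.ker D.ε := by
  refine Submodule.span_le.2 ?_
  rintro _ ⟨p, -, x, rfl⟩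
  rw [SetLike.mem_coe, LinearMap.mem_ker, map_add, D.ε_ρ, ZModModule.add_self]

/-- the differential of the coinvariants -/
def db : D.Cb P →ₗ[K] D.Cb P :=
  (D.I P).mapQ (D.I P) D.d (D.I_le P D.d fun p hp x => ⟨p, hp, D.d_ρ p x⟩)

/-- projection to degree `n` -/
def eb (n : ℕ) : D.Cb P →ₗ[K] D.Cb P :=
  (D.I P).mapQ (D.I P) (D.e n) (D.I_le P (D.e n) fun p hp x => ⟨p, hp, D.e_ρ n p x⟩)

/-- the action of `G` on the coinvariants -/
def rb [P.Normal] (g : G) : D.Cb P →ₗ[K] D.Cb P :=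
  (D.I P).mapQ (D.I P) (D.ρ g) (D.I_le P (D.ρ g) fun p hp x =>
    ⟨g * p * g⁻¹, Subgroup.Normal.conj_mem inferInstance _ hp g, by
      rw [← Module.End.mul_apply, ← Module.End.mul_apply, ← map_mul, ← map_mul]
      congr 2
      group⟩)

/-- the augmentation of the coinvariants -/
def εb : D.Cb P →ₗ[K] K := (D.I P).liftQ D.ε (D.I_le_ε P)

@[simp] theorem db_pj (x : C) : D.db P (D.pj P x) = D.pj P (D.d x) := rfl

@[simp] theorem eb_pj (n : ℕ) (x : C) : D.eb P n (D.pj P x) = D.pj P (D.e n x) := rfl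

@[simp] theorem rb_pj [P.Normal] (g : G) (x : C) :
    D.rb P g (D.pj P x) = D.pj P (D.ρ g x) := rfl

@[simp] theorem εb_pj (x : C) : D.εb P (D.pj P x) = D.ε x := rfl

/-- PIECE MI-35: everything from `C` (`pj_surj`, `pj2_surj`, pure tensors) -/
theorem dd_pj2 (w : C ⊗[K] C) : dd (D.db P) (D.pj2 P w) = D.pj2 P (dd D.d w) := by
  induction w with
  | zero => simp only [map_zero]
  | tmul x y => rw [pj2_tmul, dd_tmul, dd_tmul, map_add, pj2_tmul, pj2_tmul, db_pj, db_pj]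
  | add x y hx hy => simp only [map_add, hx, hy]

theorem sg_pj2 (w : C ⊗[K] C) : sg (D.pj2 P w) = D.pj2 P (sg w) := by
  induction w with
  | zero => simp only [map_zero]
  | tmul x y => rw [pj2_tmul, sg_tmul, sg_tmul, pj2_tmul]
  | add x y hx hy => simp only [map_add, hx, hy]

theorem gg_pj2 [P.Normal] (g h : G) (w : C ⊗[K] C) :
    TensorProduct.map (D.rb P g) (D.rb P h) (D.pj2 P w) = D.pj2 P (D.gg g h w) := by
  induction w with
  | zero => simp only [map_zero]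
  | tmul x y => rw [pj2_tmul, TensorProduct.map_tmul, gg_tmul, pj2_tmul, rb_pj, rb_pj]
  | add x y hx hy => simp only [map_add, hx, hy]

/-- elements of `P` do not matter -/
theorem pj2_gg (p q : G) (hp : p ∈ P) (hq : q ∈ P) (w : C ⊗[K] C) :
    D.pj2 P (D.gg p q w) = D.pj2 P w := by
  induction w with
  | zero => simp only [map_zero]
  | tmul x y => rw [gg_tmul, pj2_tmul, pj2_tmul, D.pj_ρ P p hp, D.pj_ρ P q hq]
  | add x y hx hy => simp only [map_add, hx, hy]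

theorem rb_rb [P.Normal] (b : G) (hb : b * b ∈ P) (x : D.Cb P) :
    D.rb P b (D.rb P b x) = x := by
  obtain ⟨c, rfl⟩ := D.pj_surj P x
  rw [rb_pj, rb_pj, ← Module.End.mul_apply, ← map_mul, D.pj_ρ P _ hb]

/-! ### the transfer -/

/-- the fundamental class of the coinvariants -/
noncomputable def zb (t : C) : D.Cb P := ∑ᶠ q : G ⧸ P, D.pj P (D.ρ q.out t)

/-- the value only depends on the coset -/
theorem mi36_coset [P.Normal] {B : Type} [AddCommGroup B] [Module K B]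
    (f : C →ₗ[K] B) (hf : ∀ p ∈ P, ∀ x, f (D.ρ p x) = f x) (g g' : G)
    (h : (g : G ⧸ P) = (g' : G ⧸ P)) (x : C) : f (D.ρ g x) = f (D.ρ g' x) := by
  have h0 : g⁻¹ * g' ∈ P := QuotientGroup.eq.1 h
  have h1 : g' = (g * (g⁻¹ * g') * g⁻¹) * g := by group
  conv_rhs => rw [h1, map_mul, Module.End.mul_apply]
  exact (hf _ (Subgroup.Normal.conj_mem inferInstance _ h0 g) _).symm

/-- PIECE MI-36. PROOF. `f (ρ q.out (ρ g x))` depends only on the coset of `q.out * g` (as `P` is normal, the left and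
the right cosets agree); reindex by `q ↦ q * g` (`QuotientGroup`). -/
theorem tr_inv [P.Normal] {B : Type} [AddCommGroup B] [Module K B]
    (f : C →ₗ[K] B) (hf : ∀ p ∈ P, ∀ x, f (D.ρ p x) = f x) (g : G) (x : C) :
    ∑ᶠ q : G ⧸ P, f (D.ρ q.out (D.ρ g x)) = ∑ᶠ q : G ⧸ P, f (D.ρ q.out x) := by
  rw [← finsum_comp_equiv (Equiv.mulRight (g : G ⧸ P)) (f := fun q : G ⧸ P => f (D.ρ q.out x))]
  refine finsum_congr fun q => ?_
  rw [← Module.End.mul_apply, ← map_mul]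
  refine D.mi36_coset P f hf _ _ ?_ x
  rw [QuotientGroup.mk_mul, QuotientGroup.out_eq', QuotientGroup.out_eq', Equiv.coe_mulRight]

/-- PIECE MI-36. PROOF. The same with `q ↦ g * q`. -/
theorem tr_inv' [P.Normal] {B : Type} [AddCommGroup B] [Module K B]
    (f : C →ₗ[K] B) (hf : ∀ p ∈ P, ∀ x, f (D.ρ p x) = f x) (g : G) (x : C) :
    ∑ᶠ q : G ⧸ P, f (D.ρ g (D.ρ q.out x)) = ∑ᶠ q : G ⧸ P, f (D.ρ q.out x) := by
  rw [← finsum_comp_equiv (Equiv.mulLeft (g : G ⧸ P)) (f := fun q : G ⧸ P => f (D.ρ q.out x))]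
  refine finsum_congr fun q => ?_
  rw [← Module.End.mul_apply, ← map_mul]
  refine D.mi36_coset P f hf _ _ ?_ x
  rw [QuotientGroup.mk_mul, QuotientGroup.out_eq', QuotientGroup.out_eq', Equiv.coe_mulLeft]

/-- PIECE MI-36. PROOF. For every functional `η` of `B` the functional `x ↦ ∑ᶠ q, η (f (ρ q.out x))` is linear
(`Finite (G ⧸ P)`) and invariant (`tr_inv`), so it vanishes at `d t` (`ht.bd`); functionals separate points
(`Module.forall_dual_apply_eq_zero_iff`). -/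
theorem tr_d [P.Normal] [Finite (G ⧸ P)] {B : Type} [AddCommGroup B] [Module K B]
    (f : C →ₗ[K] B) (hf : ∀ p ∈ P, ∀ x, f (D.ρ p x) = f x) {t : C} (ht : D.Fund t) :
    ∑ᶠ q : G ⧸ P, f (D.ρ q.out (D.d t)) = 0 := by
  have hfin : Fintype (G ⧸ P) := Fintype.ofFinite _
  refine (Module.forall_dual_apply_eq_zero_iff K _).1 fun η => ?_
  have h1 := ht.bd (∑ q : G ⧸ P, η ∘ₗ f ∘ₗ D.ρ q.out) (fun g x => by
    have h2 := D.tr_inv P (η ∘ₗ f) (fun p hp y => by
      rw [LinearMap.comp_apply, LinearMap.comp_apply, hf p hp]) g x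
    rw [finsum_eq_sum_of_fintype, finsum_eq_sum_of_fintype] at h2
    rw [LinearMap.sum_apply, LinearMap.sum_apply]
    exact h2)
  rw [finsum_eq_sum_of_fintype, map_sum]
  rw [LinearMap.sum_apply] at h1
  exact h1

/-- PIECE MI-36. PROOF. `tr_d` for `f = pj`; `tr_inv'` for `f = pj`; `ht.deg`. -/
theorem zb_props [P.Normal] [Finite (G ⧸ P)] {t : C} (ht : D.Fund t) :
    D.db P (D.zb P t) = 0 ∧ D.eb P 3 (D.zb P t) = D.zb P t ∧
      ∀ g, D.rb P g (D.zb P t) = D.zb P t := by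
  have hfin : Fintype (G ⧸ P) := Fintype.ofFinite _
  have hz : D.zb P t = ∑ q : G ⧸ P, D.pj P (D.ρ q.out t) := by
    rw [zb, finsum_eq_sum_of_fintype]
  refine ⟨?_, ?_, fun g => ?_⟩
  · have h1 := D.tr_d P (D.pj P) (fun p hp x => D.pj_ρ P p hp x) ht
    rw [finsum_eq_sum_of_fintype] at h1
    rw [hz, map_sum, ← h1]
    refine Finset.sum_congr rfl fun q _ => ?_
    rw [db_pj, D.d_ρ]
  · rw [hz, map_sum]
    refine Finset.sum_congr rfl fun q _ => ?_
    rw [eb_pj, D.e_ρ, ht.deg]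
  · have h1 := D.tr_inv' P (D.pj P) (fun p hp x => D.pj_ρ P p hp x) g t
    rw [finsum_eq_sum_of_fintype, finsum_eq_sum_of_fintype] at h1
    rw [hz, map_sum, ← h1]
    refine Finset.sum_congr rfl fun q _ => ?_
    rw [rb_pj]

/-! ### exactness of the coinvariants -/

/-- PIECE MI-37. PROOF. If `d x = 0` then `e 1 x` is a boundary (`D.ex`), so `ω x = ω (e 1 x) = 0`: there is a functional `η_0`
of `range d` with `η_0 (d x) = ω x`. Extend: `η x = η_0 (e 0 x + ε x • o)` (this element is in the range of `d` by `D.ex`).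
`η (p x) = η x + ε x * η_0 (p o + o)` for `p ∈ P`, and `χ p = η_0 (p o + o)` is a homomorphism:
`p q o + o = p (q o + o) + (p o + o)` and `η_0 (p d x) = ω (p x) = ω x`. By `hP` it vanishes.
`η (d x) = η_0 (d (e 1 x)) = ω (e 1 x) = ω x`. -/
theorem h1_lemma (hP : ∀ χ : P →* Multiplicative (ZMod 2), χ = 1) (ω : C →ₗ[K] K)
    (hω : ∀ p ∈ P, ∀ x, ω (D.ρ p x) = ω x) (h1 : ∀ x, ω (D.e 1 x) = ω x)
    (hd : ∀ x, ω (D.d x) = 0) :
    ∃ η : C →ₗ[K] K, (∀ p ∈ P, ∀ x, η (D.ρ p x) = η x) ∧ ∀ x, ω x = η (D.d x) := by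
  have hker : ∀ x, D.d x = 0 → ω x = 0 := by
    intro x hx
    obtain ⟨y, hy⟩ := D.ex (D.e 1 x) (by rw [D.d_e 0, hx, map_zero]) (by
      rw [← D.ε_e, D.e_ne 0 1 x (by omega), map_zero])
    rw [← h1, ← hy, hd]
  obtain ⟨η1, hη1⟩ : ∃ η1 : C →ₗ[K] K, ∀ x, η1 (D.d x) = ω x := by
    have h2 : ω ∈ (LinearMap.ker D.d).dualAnnihilator := by
      rw [Submodule.mem_dualAnnihilator]
      intro x hx
      exact hker x (LinearMap.mem_ker.1 hx)
    rw [← LinearMap.range_dualMap_eq_dualAnnihilator_ker] at h2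
    obtain ⟨η1, h3⟩ := h2
    exact ⟨η1, fun x => by rw [← h3]; rfl⟩
  have ho : D.d D.o = 0 := by rw [← D.o_e, D.d_e0]
  have hbd : ∀ r, D.d r = 0 → D.ε r = 0 → ∀ p ∈ P, η1 (D.ρ p r) = η1 r := by
    intro r hr hr' p hp
    obtain ⟨y, rfl⟩ := D.ex r hr hr'
    rw [← D.d_ρ, hη1, hη1, hω p hp]
  have hχ0 : ∀ p : P, D.d (D.ρ p D.o + D.o) = 0 ∧ D.ε (D.ρ p D.o + D.o) = 0 := by
    intro p
    refine ⟨?_, ?_⟩
    · rw [map_add, D.d_ρ, ho, map_zero, add_zero]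
    · rw [map_add, D.ε_ρ, ZModModule.add_self]
  let χ : P →* Multiplicative (ZMod 2) :=
    { toFun := fun p => Multiplicative.ofAdd (η1 (D.ρ p D.o + D.o))
      map_one' := by
        rw [Subgroup.coe_one, map_one, Module.End.one_apply, ZModModule.add_self, map_zero]
        rfl
      map_mul' := fun p q => by
        rw [← ofAdd_add]
        congr 1
        have h4 : D.ρ ((p * q : P) : G) D.o + D.o =
            D.ρ p (D.ρ q D.o + D.o) + (D.ρ p D.o + D.o) := by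
          rw [Subgroup.coe_mul, map_mul, Module.End.mul_apply, map_add, add_assoc,
            ← add_assoc (D.ρ p D.o), ZModModule.add_self, zero_add]
        rw [h4, map_add, hbd _ (hχ0 q).1 (hχ0 q).2 p p.2, add_comm] }
  have hχ : ∀ p ∈ P, η1 (D.ρ p D.o + D.o) = 0 := by
    intro p hp
    have h5 := DFunLike.congr_fun (hP χ) ⟨p, hp⟩
    exact Multiplicative.ofAdd.injective h5
  refine ⟨η1 ∘ₗ (D.e 0 + (LinearMap.toSpanSingleton K C D.o) ∘ₗ D.ε), ?_, ?_⟩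
  · intro p hp x
    have h6 : D.d (D.e 0 x + D.ε x • D.o) = 0 := by
      rw [map_add, D.d_e0, map_smul, ho, smul_zero, add_zero]
    have h7 : D.ε (D.e 0 x + D.ε x • D.o) = 0 := by
      rw [map_add, D.ε_e, map_smul, D.ε_o, smul_eq_mul, mul_one, ZModModule.add_self]
    have h8 := hbd _ h6 h7 p hp
    have h9 : D.e 0 (D.ρ p x) + D.ε (D.ρ p x) • D.o =
        D.ρ p (D.e 0 x + D.ε x • D.o) + D.ε x • (D.ρ p D.o + D.o) := by
      rw [D.e_ρ, D.ε_ρ, map_add, map_smul, smul_add, add_assoc, ← add_assoc (D.ε x • D.ρ p D.o),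
        ZModModule.add_self, zero_add]
    change η1 (D.e 0 (D.ρ p x) + D.ε (D.ρ p x) • D.o) = η1 (D.e 0 x + D.ε x • D.o)
    rw [h9, map_add, map_smul, hχ p hp, smul_zero, add_zero, h8]
  · intro x
    change ω x = η1 (D.e 0 (D.d x) + D.ε (D.d x) • D.o)
    rw [D.ε_d, zero_smul, add_zero, ← D.d_e 0, hη1, h1]

/-- PIECE MI-38. PROOF. Lift `x` to `y` of degree `0` (`pj_surj`, project by `e 0`); `ε y = 0`; `D.ex`. -/
theorem ex0 (x : D.Cb P) (h0 : D.eb P 0 x = x) (hε : D.εb P x = 0) : ∃ y, D.db P y = x := by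
  obtain ⟨c, hc⟩ := D.pj_surj P x
  have h1 : D.pj P (D.e 0 c) = x := by rw [← D.eb_pj, hc, h0]
  have h2 : D.ε (D.e 0 c) = 0 := by rw [← D.εb_pj P, h1, hε]
  obtain ⟨u, hu⟩ := D.ex (D.e 0 c) (D.d_e0 c) h2
  exact ⟨D.pj P u, by rw [D.db_pj, hu, h1]⟩

/-- PIECE MI-38. PROOF. Otherwise there is a functional `η` of `Cb` which vanishes on the range of `db` and `η x ≠ 0`
(`Submodule.exists_le_ker_of_notMem`). Take `ω = η ∘ pj ∘ e 1`; `h1_lemma` gives `η x = η' (d y) = 0` where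
`x = pj y`, `y` of degree one: `η'` descends to `Cb` (`desc`) and `db x = 0`. -/
theorem ex1 (hP : ∀ χ : P →* Multiplicative (ZMod 2), χ = 1) (x : D.Cb P)
    (h1 : D.eb P 1 x = x) (hd : D.db P x = 0) : ∃ y, D.db P y = x := by
  by_contra hcon
  have hx : x ∉ LinearMap.range (D.db P) := fun h => hcon (LinearMap.mem_range.1 h)
  obtain ⟨η, hη, hker⟩ := Submodule.exists_le_ker_of_notMem hx
  have hη0 : ∀ y, η (D.db P y) = 0 := fun y => hker (LinearMap.mem_range_self _ y)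
  obtain ⟨η', hη', hω⟩ := D.h1_lemma P hP (η ∘ₗ D.pj P ∘ₗ D.e 1)
    (fun p hp y => by
      simp only [LinearMap.comp_apply]
      rw [D.e_ρ, D.pj_ρ P p hp])
    (fun y => by
      simp only [LinearMap.comp_apply]
      rw [D.e_e])
    (fun y => by
      simp only [LinearMap.comp_apply]
      rw [← D.d_e 1, ← D.db_pj, hη0])
  obtain ⟨η'', hη''⟩ := D.desc P η' hη'
  obtain ⟨c, hc⟩ := D.pj_surj P x
  have h2 : D.pj P (D.e 1 c) = x := by rw [← D.eb_pj, hc, h1]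
  have h3 := hω (D.e 1 c)
  simp only [LinearMap.comp_apply] at h3
  rw [D.e_e, h2, ← hη'', ← D.db_pj, h2, hd, map_zero] at h3
  exact hη h3

/-- PIECE MI-39. PROOF. Write `Δ t = ∑_s a_s ⊗ b_s` and `g = p * q.out` with `p ∈ P` (`cs_sum_left`). Then
`pj (α x) = ∑_q ∑_p ∑_s lam (x ⊗ p q b_s) • pj (p q a_s)` and `pj (p q a_s) = pj (q a_s)`. -/
theorem pj_alpha [P.Normal] [Finite (G ⧸ P)] {lam : C ⊗[K] C →ₗ[K] K} (hl : D.Form lam)
    {Δ : C →ₗ[K] C ⊗[K] C} {t : C} {α : C →ₗ[K] C}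
    (hαf : ∀ x, {g : G | rf (lam ∘ₗ TensorProduct.mk K C C x) (D.gg g g (Δ t)) ≠ 0}.Finite)
    (hα : ∀ x, α x = ∑ᶠ g : G, rf (lam ∘ₗ TensorProduct.mk K C C x) (D.gg g g (Δ t)))
    (x : C) (Λ : C →ₗ[K] K) (hΛ : ∀ y, Λ y = ∑ᶠ p : P, lam (x ⊗ₜ D.ρ p y)) :
    D.pj P (α x) = ∑ᶠ q : G ⧸ P, D.pj P (rf Λ (D.gg q.out q.out (Δ t))) := by
  have key : ∀ w : C ⊗[K] C,
      (Function.support fun p : P =>
        D.pj P (rf (lam ∘ₗ TensorProduct.mk K C C x) (D.gg p p w))).Finite ∧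
      ∑ᶠ p : P, D.pj P (rf (lam ∘ₗ TensorProduct.mk K C C x) (D.gg p p w)) =
        D.pj P (rf Λ w) := by
    intro w
    induction w with
    | zero =>
      refine ⟨?_, ?_⟩
      · simp only [map_zero]
        rw [Function.support_fun_zero]
        exact Set.finite_empty
      · simp only [map_zero, finsum_zero]
    | tmul a b =>
      have hfb : (Function.support fun p : P => lam (x ⊗ₜ D.ρ p b)).Finite := by
        have h1 : {g : G | lam (x ⊗ₜ D.ρ g b) ≠ 0}.Finite := hl.fs x b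
        exact h1.preimage (f := fun p : P => (p : G)) Subtype.val_injective.injOn
      have h2 : ∀ p : P, D.pj P (rf (lam ∘ₗ TensorProduct.mk K C C x) (D.gg p p (a ⊗ₜ b))) =
          lam (x ⊗ₜ D.ρ p b) • D.pj P a := by
        intro p
        rw [gg_tmul, rf_tmul, map_smul, D.pj_ρ P p p.2]
        rfl
      refine ⟨?_, ?_⟩
      · simp only [h2]
        refine hfb.subset fun p hp => ?_
        rw [Function.mem_support] at hp ⊢
        intro h0
        rw [h0, zero_smul] at hp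
        exact hp rfl
      · simp only [h2]
        have h3 : ∑ᶠ p : P, lam (x ⊗ₜ D.ρ p b) • D.pj P a =
            (∑ᶠ p : P, lam (x ⊗ₜ D.ρ p b)) • D.pj P a :=
          (((LinearMap.toSpanSingleton K (D.Cb P) (D.pj P a)).toAddMonoidHom).map_finsum hfb).symm
        rw [h3, ← hΛ, rf_tmul, map_smul]
    | add w w' hw hw' =>
      refine ⟨?_, ?_⟩
      · refine (hw.1.union hw'.1).subset fun p hp => ?_
        rw [Function.mem_support] at hp
        by_contra h0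
        rw [Set.mem_union, not_or, Function.notMem_support, Function.notMem_support] at h0
        apply hp
        rw [map_add, map_add, map_add, h0.1, h0.2, add_zero]
      · simp only [map_add]
        rw [finsum_add_distrib hw.1 hw'.1, hw.2, hw'.2]
  rw [hα x, map_finsum (D.pj P) (hαf x), cs_sum_left P _ ((hαf x).subset fun g hg => ?_)]
  · refine finsum_congr fun q => ?_
    rw [← (key _).2]
    refine finsum_congr fun p => ?_
    rw [D.gg_gg]
  · intro h0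
    apply hg
    rw [h0, map_zero]

/-- PIECE MI-39. PROOF. `y ↦ ∑ᶠ p : P, lam (x ⊗ p y)` (finite support: `Form.fs`); invariance: reindex `P`; in `x`: `lam` is
invariant, so `Λ` only depends on `pj x`, and it is `0` for `pj x = 0`; `lam (x ⊗ d y) = lam (d x ⊗ y)` from `hld`. -/
theorem exists_Lam [P.Normal] {lam : C ⊗[K] C →ₗ[K] K} (hl : D.Form lam)
    (hl3 : ∀ w, lam (D.E 3 w) = lam w) (hld : ∀ w, lam (dd D.d w) = 0) (x : C)
    (hx : D.pj P (D.d x) = 0) :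
    ∃ Λ : C →ₗ[K] K, (∀ y, Λ y = ∑ᶠ p : P, lam (x ⊗ₜ D.ρ p y)) ∧
      (∀ p ∈ P, ∀ y, Λ (D.ρ p y) = Λ y) ∧ (∀ y, Λ (D.d y) = 0) ∧
      ∀ n, n ≤ 3 → D.e n x = x → ∀ y, Λ (D.e (3 - n) y) = Λ y := by
  obtain ⟨Λ, hΛ'⟩ := exists_cs P (fun g : G => lam ∘ₗ TensorProduct.mk K C C x ∘ₗ D.ρ g)
    (fun y => hl.fs x y) 1
  have hΛ : ∀ y, Λ y = ∑ᶠ p : P, lam (x ⊗ₜ D.ρ p y) := by
    intro y
    rw [hΛ']
    refine finsum_congr fun p => ?_
    rw [one_mul]
    rfl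
  refine ⟨Λ, hΛ, ?_, ?_, ?_⟩
  · intro p' hp' y
    rw [hΛ, hΛ, ← finsum_comp_equiv (Equiv.mulRight (⟨p', hp'⟩ : P))
      (f := fun p : P => lam (x ⊗ₜ D.ρ p y))]
    refine finsum_congr fun p => ?_
    rw [Equiv.coe_mulRight, Subgroup.coe_mul, map_mul, Module.End.mul_apply]
  · intro y
    obtain ⟨Θ, hΘ'⟩ := exists_cs P (fun g : G => lam ∘ₗ (TensorProduct.mk K C C).flip (D.ρ g y))
      (fun x' => hl.fs x' y) 1
    have hΘ : ∀ x', Θ x' = ∑ᶠ p : P, lam (x' ⊗ₜ D.ρ p y) := by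
      intro x'
      rw [hΘ']
      refine finsum_congr fun p => ?_
      rw [one_mul]
      rfl
    obtain ⟨g, hg⟩ := D.desc P Θ (fun q hq x' => by
      rw [hΘ, hΘ, ← finsum_comp_equiv (Equiv.mulLeft (⟨q, hq⟩ : P))
        (f := fun p : P => lam (D.ρ q x' ⊗ₜ D.ρ p y))]
      refine finsum_congr fun p => ?_
      rw [Equiv.coe_mulLeft, Subgroup.coe_mul, map_mul, Module.End.mul_apply,
        ← hl.inv q (x' ⊗ₜ D.ρ p y), gg_tmul])
    have h1 : Λ (D.d y) = Θ (D.d x) := by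
      rw [hΛ, hΘ]
      refine finsum_congr fun p => ?_
      have h2 := hld (x ⊗ₜ D.ρ p y)
      rw [dd_tmul, map_add] at h2
      rw [← D.d_ρ]
      have h4 : ∀ u v : K, u + v = 0 → v = u := by decide
      exact h4 _ _ h2
    rw [h1, ← hg, hx, map_zero]
  · intro n hn hnx y
    rw [hΛ, hΛ]
    refine finsum_congr fun p => ?_
    have h3 : ∀ z, lam (x ⊗ₜ z) = lam (x ⊗ₜ D.e (3 - n) z) := by
      intro z
      rw [← hl3 (x ⊗ₜ z), Cx.E, LinearMap.sum_apply, Finset.sum_eq_single n]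
      · rw [TensorProduct.map_tmul, hnx]
      · intro m _ hm
        rw [TensorProduct.map_tmul, ← hnx, D.e_ne m n x hm, TensorProduct.zero_tmul]
      · intro h
        exact absurd (Finset.mem_range.2 (by omega)) h
    rw [h3 (D.ρ p y), D.e_ρ]

/-- The map `x ↦ pj (α x)` computes the class of `x`: statement used for `ex2`, `ex3`.
PIECE MI-40. PROOF. `exists_forms`, `exists_diag`, `exists_alpha`, `alpha_aug`, `homotopy`: `α x = x + d (h x) + h (d x)` with `h`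
equivariant, so `pj (h (d x)) = 0` if `pj (d x) = 0` (`desc`). -/
theorem class_alpha {t : C} (ht : D.Fund t) [P.Normal] [Finite (G ⧸ P)] :
    ∃ (lam : C ⊗[K] C →ₗ[K] K) (Δ : C →ₗ[K] C ⊗[K] C), D.Form lam ∧
      (∀ w, lam (D.E 3 w) = lam w) ∧ (∀ w, lam (dd D.d w) = 0) ∧
      (∀ g x, Δ (D.ρ g x) = D.gg g g (Δ x)) ∧ (∀ n x, Δ (D.e n x) = D.E n (Δ x)) ∧
      (∀ x, dd D.d (Δ x) = Δ (D.d x)) ∧ (∀ x, pr2 D.ε D.ε (Δ x) = D.ε x) ∧
      ∀ n x, n ≤ 3 → D.e n x = x → D.pj P (D.d x) = 0 →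
        ∀ Λ : C →ₗ[K] K, (∀ y, Λ y = ∑ᶠ p : P, lam (x ⊗ₜ D.ρ p y)) →
        ∃ y, D.eb P (n + 1) y = y ∧
          D.pj P x = D.db P y + ∑ᶠ q : G ⧸ P, D.pj P (rf Λ (D.gg q.out q.out (Δ t))) := by
  obtain ⟨lam, hl, hl3, hld, hz⟩ := D.exists_lam0
  obtain ⟨Δ, hΔ, hΔe, hΔd, hΔε⟩ := D.exists_diag0
  refine ⟨lam, Δ, hl, hl3, hld, hΔ, hΔe, hΔd, hΔε, ?_⟩
  obtain ⟨α, hα1, hα2, hα3, hαf, hα⟩ := D.exists_alpha hl hl3 hld hΔ hΔe hΔd ht
  obtain ⟨h, hh1, hh2, hh3⟩ := D.homotopy α hα1 hα2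
    (fun x => D.alpha_aug hl hl3 hld hz hΔ hΔe hΔd hΔε ht hα3 hαf hα x) hα3
  intro n x _ hx hdx Λ hΛ
  obtain ⟨g, hg⟩ := D.desc P (D.pj P ∘ₗ h) (fun p hp y => by
    rw [LinearMap.comp_apply, LinearMap.comp_apply, hh1, D.pj_ρ P p hp])
  refine ⟨D.pj P (h x), ?_, ?_⟩
  · rw [D.eb_pj, ← hh2, hx]
  · rw [← D.pj_alpha P hl hαf hα x Λ hΛ, hh3 x, map_add, map_add, D.db_pj]
    have h1 : D.pj P (h (D.d x)) = 0 := by
      have h2 := hg (D.d x)
      rw [hdx, map_zero] at h2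
      exact h2.symm
    rw [h1, add_zero, add_comm (D.pj P x), ← add_assoc, ZModModule.add_self, zero_add]

/-- PIECE MI-41. PROOF. `class_alpha` for `n = 2`, `Λ` by `exists_Lam`, of degree `1`, so `Λ = η ∘ d` with `η` invariant under `P`
(`h1_lemma`). `rf (η ∘ d) w = rf η (dd w) + d (rf η w)`. So the sum is
`∑ᶠ q, pj (rf η (gg q q (Δ (d t)))) + db (∑ᶠ q, ..)` and the first one is `0` by `tr_d` for
`f u = pj (rf η (Δ u))` (`η` is invariant under `P`, so `f (p u) = f u`; `Δ (q u) = gg q q (Δ u)`). -/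
theorem ex2 [P.Normal] [Finite (G ⧸ P)] (hP : ∀ χ : P →* Multiplicative (ZMod 2), χ = 1)
    (x : D.Cb P) (h2 : D.eb P 2 x = x) (hd : D.db P x = 0) : ∃ y, D.db P y = x := by
  have hfin : Fintype (G ⧸ P) := Fintype.ofFinite _
  obtain ⟨t, ht⟩ := D.exists_fund
  obtain ⟨c, hc⟩ := D.pj_surj P x
  have hx : D.pj P (D.e 2 c) = x := by rw [← D.eb_pj, hc, h2]
  have hdx : D.pj P (D.d (D.e 2 c)) = 0 := by rw [← D.db_pj, hx, hd]
  obtain ⟨lam, Δ, hl, hl3, hld, hΔ, hΔe, hΔd, hΔε, hcl⟩ := D.class_alpha P ht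
  obtain ⟨Λ, hΛ, hΛp, hΛd, hΛe⟩ := D.exists_Lam P hl hl3 hld (D.e 2 c) hdx
  obtain ⟨y, -, hsum⟩ := hcl 2 (D.e 2 c) (by norm_num) (D.e_e 2 c) hdx Λ hΛ
  obtain ⟨η, hη, hηd⟩ := D.h1_lemma P hP Λ hΛp
    (fun y => hΛe 2 (by norm_num) (D.e_e 2 c) y) hΛd
  have hrf : ∀ w, rf Λ w = rf η (dd D.d w) + D.d (rf η w) := by
    intro w
    induction w with
    | zero => simp only [map_zero, add_zero]
    | tmul a b =>
      rw [rf_tmul, dd_tmul, map_add, rf_tmul, rf_tmul, rf_tmul, hηd, map_smul, add_comm (η b • D.d a),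
        add_assoc, ZModModule.add_self, add_zero]
    | add a b ha hb =>
      simp only [map_add]
      rw [ha, hb]
      abel
  have hgg : ∀ p ∈ P, ∀ w, rf η (D.gg p p w) = D.ρ p (rf η w) := by
    intro p hp w
    induction w with
    | zero => simp only [map_zero]
    | tmul a b => rw [gg_tmul, rf_tmul, rf_tmul, hη p hp, map_smul]
    | add a b ha hb => simp only [map_add, ha, hb]
  have h5 := D.tr_d P (D.pj P ∘ₗ rf η ∘ₗ Δ) (fun p hp y => by
    rw [LinearMap.comp_apply, LinearMap.comp_apply, LinearMap.comp_apply, LinearMap.comp_apply,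
      hΔ, hgg p hp, D.pj_ρ P p hp]) ht
  rw [finsum_eq_sum_of_fintype] at h5 hsum
  refine ⟨y + ∑ q : G ⧸ P, D.pj P (rf η (D.gg q.out q.out (Δ t))), ?_⟩
  have h6 : ∀ q : G ⧸ P, D.pj P (rf Λ (D.gg q.out q.out (Δ t))) =
      (D.pj P ∘ₗ rf η ∘ₗ Δ) (D.ρ q.out (D.d t)) +
        D.db P (D.pj P (rf η (D.gg q.out q.out (Δ t)))) := by
    intro q
    rw [hrf, ← D.gg_dd, hΔd, ← hΔ, map_add, LinearMap.comp_apply, LinearMap.comp_apply, D.db_pj]
  rw [Finset.sum_congr rfl fun q _ => h6 q, Finset.sum_add_distrib, h5, zero_add, ← map_sum,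
    ← map_add, hx] at hsum
  exact hsum.symm

/-- PIECE MI-42. PROOF. `class_alpha` for `n = 3` (`y = 0`, as `e 4 = 0`), `Λ` by `exists_Lam`, of degree `0`, so
`Λ y = Λ o * ε y` (`e 0 y = ε y • o + d y'` by `D.ex`, `Λ (d y') = 0`). `rf ε (gg q q w) = q (rf ε w)`, and
`rf ε ∘ Δ = 1 + d h' + h' d` (`homotopy`), `h' t = 0` (degree `4`), so the sum is
`Λ o • ∑ᶠ q, pj (q t + h' (q d t)) = Λ o • zb t` (`tr_d` for `pj ∘ h'`). -/
theorem ex3 [P.Normal] [Finite (G ⧸ P)] {t : C} (ht : D.Fund t)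
    (x : D.Cb P) (h3 : D.eb P 3 x = x) (hd : D.db P x = 0) : x = 0 ∨ x = D.zb P t := by
  have hfin : Fintype (G ⧸ P) := Fintype.ofFinite _
  obtain ⟨c, hc⟩ := D.pj_surj P x
  have hx : D.pj P (D.e 3 c) = x := by rw [← D.eb_pj, hc, h3]
  have hdx : D.pj P (D.d (D.e 3 c)) = 0 := by rw [← D.db_pj, hx, hd]
  obtain ⟨lam, Δ, hl, hl3, hld, hΔ, hΔe, hΔd, hΔε, hcl⟩ := D.class_alpha P ht
  obtain ⟨Λ, hΛ, -, hΛd, hΛe⟩ := D.exists_Lam P hl hl3 hld (D.e 3 c) hdx
  obtain ⟨y, hy, hsum⟩ := hcl 3 (D.e 3 c) le_rfl (D.e_e 3 c) hdx Λ hΛ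
  have hy0 : y = 0 := by
    obtain ⟨y', rfl⟩ := D.pj_surj P y
    rw [← hy, D.eb_pj, D.e_top 4 le_rfl, map_zero]
  rw [hy0, map_zero, zero_add, hx] at hsum
  -- `Λ` is a multiple of the augmentation
  have hΛ0 : ∀ y, Λ y = D.ε y * Λ D.o := by
    intro y
    have h0 : Λ (D.e 0 y) = Λ y := hΛe 3 le_rfl (D.e_e 3 c) y
    obtain ⟨y', hy'⟩ := D.ex (D.e 0 y + D.ε y • D.o) (by
        rw [map_add, D.d_e0, map_smul, ← D.o_e, D.d_e0, smul_zero, add_zero]) (by
        rw [map_add, D.ε_e, map_smul, D.ε_o, smul_eq_mul, mul_one, ZModModule.add_self])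
    have h1 := hΛd y'
    rw [hy', map_add, map_smul, h0, smul_eq_mul] at h1
    have h2 : Λ y = (Λ y + D.ε y * Λ D.o) + D.ε y * Λ D.o := by
      rw [add_assoc, ZModModule.add_self, add_zero]
    rw [h2, h1, zero_add]
  have hrf : ∀ w, rf Λ w = Λ D.o • rf D.ε w := by
    intro w
    induction w with
    | zero => simp only [map_zero, smul_zero]
    | tmul a b => rw [rf_tmul, rf_tmul, hΛ0, smul_smul, mul_comm]
    | add a b ha hb => rw [map_add, map_add, ha, hb, smul_add]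
  have hgg : ∀ (g : G) w, rf D.ε (D.gg g g w) = D.ρ g (rf D.ε w) := by
    intro g w
    induction w with
    | zero => simp only [map_zero]
    | tmul a b => rw [gg_tmul, rf_tmul, rf_tmul, D.ε_ρ, map_smul]
    | add a b ha hb => simp only [map_add, ha, hb]
  have hdd : ∀ w, rf D.ε (dd D.d w) = D.d (rf D.ε w) := by
    intro w
    induction w with
    | zero => simp only [map_zero]
    | tmul a b => rw [dd_tmul, map_add, rf_tmul, rf_tmul, rf_tmul, D.ε_d, zero_smul, add_zero,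
        map_smul]
    | add a b ha hb => simp only [map_add, ha, hb]
  have hεε : ∀ w, D.ε (rf D.ε w) = pr2 D.ε D.ε w := by
    intro w
    induction w with
    | zero => simp only [map_zero]
    | tmul a b => rw [rf_tmul, map_smul, pr2_tmul, smul_eq_mul, mul_comm]
    | add a b ha hb => simp only [map_add, ha, hb]
  have hεe : ∀ k y, k ≠ 0 → D.ε (D.e k y) = 0 := by
    intro k y hk
    rw [← D.ε_e, D.e_ne 0 k y (Ne.symm hk), map_zero]
  have hE : ∀ n w, rf D.ε (D.E n w) = D.e n (rf D.ε w) := by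
    intro n w
    induction w with
    | zero => simp only [map_zero]
    | tmul a b =>
      rw [Cx.E, LinearMap.sum_apply, map_sum, Finset.sum_eq_single n]
      · rw [TensorProduct.map_tmul, rf_tmul, Nat.sub_self, D.ε_e, rf_tmul, map_smul]
      · intro p hp hpn
        rw [Finset.mem_range] at hp
        rw [TensorProduct.map_tmul, rf_tmul, hεe _ _ (by omega), zero_smul]
      · intro h
        exact absurd (Finset.mem_range.2 (Nat.lt_succ_self n)) h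
    | add a b ha hb => simp only [map_add, ha, hb]
  obtain ⟨h, hh1, hh2, hh3⟩ := D.homotopy (rf D.ε ∘ₗ Δ)
    (fun g x => by rw [LinearMap.comp_apply, LinearMap.comp_apply, hΔ, hgg])
    (fun x => by rw [LinearMap.comp_apply, LinearMap.comp_apply, ← hΔd, hdd])
    (fun x => by rw [LinearMap.comp_apply, hεε, hΔε])
    (fun n x => by rw [LinearMap.comp_apply, LinearMap.comp_apply, hΔe, hE])
  have hβt : rf D.ε (Δ t) = t + h (D.d t) := by
    have h1 := hh3 t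
    have h2 : h t = 0 := by
      have h4 := hh2 3 t
      rw [ht.deg] at h4
      rw [h4, D.e_top 4 le_rfl]
    rw [h2, map_zero, add_zero] at h1
    exact h1
  have hS : ∑ᶠ q : G ⧸ P, D.pj P (rf Λ (D.gg q.out q.out (Δ t))) = Λ D.o • D.zb P t := by
    have h5 := D.tr_d P (D.pj P ∘ₗ h) (fun p hp y => by
      rw [LinearMap.comp_apply, LinearMap.comp_apply, hh1, D.pj_ρ P p hp]) ht
    rw [finsum_eq_sum_of_fintype] at h5
    rw [zb, finsum_eq_sum_of_fintype, finsum_eq_sum_of_fintype]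
    have h6 : ∀ q : G ⧸ P, D.pj P (rf Λ (D.gg q.out q.out (Δ t))) =
        Λ D.o • (D.pj P (D.ρ q.out t) + (D.pj P ∘ₗ h) (D.ρ q.out (D.d t))) := by
      intro q
      rw [hrf, hgg, hβt, map_smul, map_add, map_add, LinearMap.comp_apply, hh1]
    rw [Finset.sum_congr rfl fun q _ => h6 q, ← Finset.smul_sum, Finset.sum_add_distrib, h5,
      add_zero]
  rw [hS] at hsum
  have h01 : ∀ a : K, a = 0 ∨ a = 1 := by decide
  rcases h01 (Λ D.o) with h0 | h0
  · left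
    rw [hsum, h0, zero_smul]
  · right
    rw [hsum, h0, one_smul]

/-- PIECE MI-43. PROOF. `x = ∑_(n < 4) eb n x` (from `D.e_sum`); `db (eb n x) = 0` (from `D.d_e`, `D.d_e0`), `ex0`, `ex1`, `ex2`;
`eb 3 x` is `0` or `zb t`, and `u (eb 3 x) = u x = 0`, so it is `0`. -/
theorem ex_all [P.Normal] [Finite (G ⧸ P)] (hP : ∀ χ : P →* Multiplicative (ZMod 2), χ = 1)
    {t : C} (ht : D.Fund t) (u : D.Cb P →ₗ[K] K) (hu : ∀ x, u (D.eb P 3 x) = u x)
    (hz : u (D.zb P t) = 1) (x : D.Cb P) (hd : D.db P x = 0) (hε : D.εb P x = 0)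
    (hx : u x = 0) : ∃ y, D.db P y = x := by
  have hde : ∀ n y, D.db P (D.eb P (n + 1) y) = D.eb P n (D.db P y) := by
    intro n y
    obtain ⟨c, rfl⟩ := D.pj_surj P y
    rw [D.eb_pj, D.db_pj, D.db_pj, D.eb_pj, D.d_e]
  have hee : ∀ n y, D.eb P n (D.eb P n y) = D.eb P n y := by
    intro n y
    obtain ⟨c, rfl⟩ := D.pj_surj P y
    rw [D.eb_pj, D.eb_pj, D.e_e]
  have hsum : ∑ n ∈ Finset.range 4, D.eb P n x = x := by
    obtain ⟨c, rfl⟩ := D.pj_surj P x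
    simp only [D.eb_pj]
    rw [← map_sum, D.e_sum]
  have hε0 : D.εb P (D.eb P 0 x) = 0 := by
    obtain ⟨c, rfl⟩ := D.pj_surj P x
    rw [D.eb_pj, D.εb_pj, D.ε_e, ← D.εb_pj P, hε]
  obtain ⟨y0, h0⟩ := D.ex0 P (D.eb P 0 x) (hee 0 x) hε0
  obtain ⟨y1, h1⟩ := D.ex1 P hP (D.eb P 1 x) (hee 1 x) (by rw [hde 0, hd, map_zero])
  obtain ⟨y2, h2⟩ := D.ex2 P hP (D.eb P 2 x) (hee 2 x) (by rw [hde 1, hd, map_zero])
  have h3 : D.eb P 3 x = 0 := by
    rcases D.ex3 P ht (D.eb P 3 x) (hee 3 x) (by rw [hde 2, hd, map_zero]) with h | h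
    · exact h
    · exfalso
      have h4 := hu x
      rw [h, hz, hx] at h4
      exact one_ne_zero h4
  refine ⟨y0 + y1 + y2, ?_⟩
  rw [map_add, map_add, h0, h1, h2]
  conv_rhs => rw [← hsum]
  rw [Finset.sum_range_succ, Finset.sum_range_succ, Finset.sum_range_succ, Finset.sum_range_one,
    h3, add_zero]

/-! ### the chains `y n` -/

private theorem mi44_mk_mul (P : Subgroup G) [P.Normal] (p g : G) (hp : p ∈ P) :
    (QuotientGroup.mk (p * g) : G ⧸ P) = QuotientGroup.mk g := by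
  rw [QuotientGroup.eq]
  have h1 : (p * g)⁻¹ * g = g⁻¹ * p⁻¹ * g⁻¹⁻¹ := by group
  rw [h1]
  exact Subgroup.Normal.conj_mem inferInstance _ (P.inv_mem hp) _

private theorem mi44_e_e (n : ℕ) (x : D.Cb P) : D.eb P n (D.eb P n x) = D.eb P n x := by
  obtain ⟨y, rfl⟩ := D.pj_surj P x
  rw [eb_pj, eb_pj, D.e_e]

private theorem mi44_e_ne (m n : ℕ) (h : m ≠ n) (x : D.Cb P) : D.eb P m (D.eb P n x) = 0 := by
  obtain ⟨y, rfl⟩ := D.pj_surj P x
  rw [eb_pj, eb_pj, D.e_ne m n y h, map_zero]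

private theorem mi44_e_sum (x : D.Cb P) : ∑ n ∈ Finset.range 4, D.eb P n x = x := by
  obtain ⟨y, rfl⟩ := D.pj_surj P x
  simp only [eb_pj]
  rw [← map_sum, D.e_sum]

private theorem mi44_e_top (n : ℕ) (h : 4 ≤ n) (x : D.Cb P) : D.eb P n x = 0 := by
  conv_lhs => rw [← mi44_e_sum D P x]
  rw [map_sum]
  refine Finset.sum_eq_zero fun m hm => ?_
  rw [Finset.mem_range] at hm
  exact mi44_e_ne D P n m (by omega) x

private theorem mi44_e_rb [P.Normal] (n : ℕ) (g : G) (x : D.Cb P) :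
    D.eb P n (D.rb P g x) = D.rb P g (D.eb P n x) := by
  obtain ⟨y, rfl⟩ := D.pj_surj P x
  rw [rb_pj, eb_pj, eb_pj, rb_pj, D.e_ρ]

private theorem mi44_pre [P.Normal] (b : G) (hb : b ∉ P) (hb2 : b * b ∈ P) :
    ∃ κ : D.Cb P →ₗ[K] D.Cb P, ∀ x, κ x + D.rb P b (κ (D.rb P b x)) = x := by
  classical
  obtain ⟨i, hi⟩ : ∃ i : G ⧸ P → G ⧸ P, i = fun q => b • q := ⟨_, rfl⟩
  have himk : ∀ g : G, i (QuotientGroup.mk g) = QuotientGroup.mk (b * g) := by
    intro g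
    rw [hi]
    rfl
  have hii : ∀ q, i (i q) = q := by
    intro q
    obtain ⟨g, rfl⟩ := QuotientGroup.mk_surjective q
    rw [himk, himk, ← mul_assoc, mi44_mk_mul P _ _ hb2]
  have hne : ∀ q, i q ≠ q := by
    intro q
    obtain ⟨g, rfl⟩ := QuotientGroup.mk_surjective q
    rw [himk]
    intro h
    rw [QuotientGroup.eq] at h
    apply hb
    have h1 : b = g * ((b * g)⁻¹ * g)⁻¹ * g⁻¹ := by group
    rw [h1]
    exact Subgroup.Normal.conj_mem inferInstance _ (P.inv_mem h) _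
  obtain ⟨S, hS⟩ := exists_half i hii
  obtain ⟨a, ha⟩ : ∃ a : D.J → G → D.Cb P, a = fun j g =>
      if (QuotientGroup.mk g : G ⧸ P) ∈ S then D.pj P (D.ρ g (D.v j)) else 0 := ⟨_, rfl⟩
  choose f hf using fun j => exists_tw (D.fs j) (a j)
  have hap : ∀ j (p g : G), p ∈ P → a j (p * g) = a j g := by
    intro j p g hp
    rw [ha]
    simp only
    rw [mi44_mk_mul P p g hp, map_mul, Module.End.mul_apply, D.pj_ρ P p hp]
  have hshift : ∀ j (h g : G) (x : C), D.φ j (D.ρ (h * g)⁻¹ (D.ρ h x)) = D.φ j (D.ρ g⁻¹ x) := by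
    intro j h g x
    rw [← Module.End.mul_apply, ← map_mul]
    congr 3
    group
  have hre : ∀ j (h : G) (x : C), f j (D.ρ h x) = ∑ᶠ g : G, D.φ j (D.ρ g⁻¹ x) • a j (h * g) := by
    intro j h x
    rw [hf]
    refine (finsum_eq_of_bijective (fun g => h * g) (Group.mulLeft_bijective h) fun g => ?_).symm
    rw [hshift]
  have hfP : ∀ p ∈ P, ∀ x, (∑ j, f j) (D.ρ p x) = (∑ j, f j) x := by
    intro p hp x
    rw [LinearMap.sum_apply, LinearMap.sum_apply]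
    refine Finset.sum_congr rfl fun j _ => ?_
    rw [hre, hf]
    refine finsum_congr fun g => ?_
    rw [hap j p g hp]
  obtain ⟨κ, hκ⟩ := D.desc P (∑ j, f j) hfP
  refine ⟨κ, fun x => ?_⟩
  obtain ⟨y, rfl⟩ := D.pj_surj P x
  rw [rb_pj, hκ, hκ, LinearMap.sum_apply, LinearMap.sum_apply, map_sum, ← Finset.sum_add_distrib,
    D.expand (D.pj P) y]
  refine Finset.sum_congr rfl fun j _ => ?_
  have hfin : {g : G | D.φ j (D.ρ g⁻¹ y) ≠ 0}.Finite := (D.fs j).fin_inv y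
  have hsupp : ∀ c : G → D.Cb P,
      Function.HasFiniteSupport (fun g => D.φ j (D.ρ g⁻¹ y) • c g) := by
    intro c
    refine Set.Finite.subset hfin fun g hg => ?_
    rw [Function.mem_support] at hg
    rw [Set.mem_ofPred_eq]
    intro h0
    apply hg
    rw [h0, zero_smul]
  rw [hf, hre, map_finsum (D.rb P b) (hsupp _), ← finsum_add_distrib (hsupp _) (by
    simp only [map_smul]
    exact hsupp _)]
  refine finsum_congr fun g => ?_
  rw [map_smul, ← smul_add]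
  congr 1
  have h1 := hS (QuotientGroup.mk g)
  rw [himk] at h1
  have h2 : (QuotientGroup.mk (b * g) : G ⧸ P) ≠ QuotientGroup.mk g := by
    rw [← himk]
    exact hne _
  have h3 : D.rb P b (D.pj P (D.ρ (b * g) (D.v j))) = D.pj P (D.ρ g (D.v j)) := by
    rw [rb_pj, ← Module.End.mul_apply, ← map_mul, ← mul_assoc, map_mul, Module.End.mul_apply,
      D.pj_ρ P _ hb2]
  rw [ha]
  simp only
  by_cases h4 : (QuotientGroup.mk g : G ⧸ P) ∈ S
  · rw [if_pos h4, if_neg (h1.1 h4), map_zero, add_zero]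
  · rw [if_neg h4, if_pos (h1.2.1 h2 h4), h3, zero_add]

/-- PIECE MI-44. PROOF. Left multiplication by `b` is an involution without fixed points of `G ⧸ P` (`b * b ∈ P`, `b ∉ P`, `P` normal);
`exists_half` gives `S`. Let `κ_0 x = ∑_j ∑ᶠ g, if mk g ∈ S then φ_j (g⁻¹ x) • pj (g v_j) else 0` (`exists_tw`). For `p ∈ P`:
`κ_0 (p x) = κ_0 x` (reindex `g ↦ p g`). And `κ_0 (b x)`: reindex `g = b g'`; `rb b (pj (b g' v_j)) = pj (b b g' v_j) = pj (g' v_j)`, so
`rb b (κ_0 (b x))` is the sum over the `g'` with `mk (b g') ∈ S`, that is `mk g' ∉ S`; together `pj x` by `D.span`. `desc` gives `κ'`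
with `κ' x + rb b (κ' (rb b x)) = x`. Take `κ x = ∑_(n < 4) eb n (κ' (eb n x))`. -/
theorem exists_kap [P.Normal] (b : G) (hb : b ∉ P) (hb2 : b * b ∈ P) :
    ∃ κ : D.Cb P →ₗ[K] D.Cb P, (∀ n x, κ (D.eb P n x) = D.eb P n (κ x)) ∧
      ∀ x, κ x + D.rb P b (κ (D.rb P b x)) = x := by
  obtain ⟨κ', hκ'⟩ := mi44_pre D P b hb hb2
  obtain ⟨κ, hκ⟩ : ∃ κ : D.Cb P →ₗ[K] D.Cb P,
      κ = ∑ n ∈ Finset.range 4, D.eb P n ∘ₗ κ' ∘ₗ D.eb P n := ⟨_, rfl⟩
  have hκa : ∀ x, κ x = ∑ n ∈ Finset.range 4, D.eb P n (κ' (D.eb P n x)) := by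
    intro x
    rw [hκ, LinearMap.sum_apply]
    rfl
  refine ⟨κ, fun n x => ?_, fun x => ?_⟩
  · by_cases hn : n < 4
    · rw [hκa, hκa, map_sum, Finset.sum_eq_single n, Finset.sum_eq_single n, mi44_e_e, mi44_e_e]
      · intro m _ hm
        exact mi44_e_ne D P n m (Ne.symm hm) _
      · intro h
        exact absurd (Finset.mem_range.2 hn) h
      · intro m _ hm
        rw [mi44_e_ne D P m n hm, map_zero, map_zero]
      · intro h
        exact absurd (Finset.mem_range.2 hn) h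
    · rw [mi44_e_top D P n (by omega) x, mi44_e_top D P n (by omega) (κ x), map_zero]
  · rw [hκa, hκa, map_sum, ← Finset.sum_add_distrib]
    conv_rhs => rw [← mi44_e_sum D P x]
    refine Finset.sum_congr rfl fun n _ => ?_
    rw [mi44_e_rb, ← mi44_e_rb D P n b (κ' _), ← map_add, hκ', mi44_e_e]

/-- PIECE MI-45. PROOF. If `rb b x = x` then `x = κ x + rb b (κ x)`. `y 3 = κ (zb t)`, and
`y n = κ (db (y (n + 1)))`: `db (y (n + 1))` is fixed by `rb b`, as `(1 + rb b) (y (n + 1))` is `zb t` or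
`db (y (n + 2))`. -/
theorem exists_y [P.Normal] [Finite (G ⧸ P)] {t : C} (ht : D.Fund t) (b : G) (hb : b ∉ P)
    (hb2 : b * b ∈ P) :
    ∃ y : ℕ → D.Cb P, D.db P (y 0) = 0 ∧ y 3 + D.rb P b (y 3) = D.zb P t ∧
      ∀ n, n < 3 → D.db P (y (n + 1)) = y n + D.rb P b (y n) := by
  obtain ⟨κ, hκe, hκ⟩ := D.exists_kap P b hb hb2
  obtain ⟨z1, z2, z3⟩ := D.zb_props P ht
  have hfix : ∀ x, D.rb P b x = x → κ x + D.rb P b (κ x) = x := by
    intro x hx
    have h := hκ x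
    rwa [hx] at h
  have hde : ∀ n x, D.db P (D.eb P (n + 1) x) = D.eb P n (D.db P x) := by
    intro n x
    obtain ⟨x, rfl⟩ := D.pj_surj P x
    rw [D.eb_pj, D.db_pj, D.db_pj, D.eb_pj, D.d_e]
  have hde0 : ∀ x, D.db P (D.eb P 0 x) = 0 := by
    intro x
    obtain ⟨x, rfl⟩ := D.pj_surj P x
    rw [D.eb_pj, D.db_pj, D.d_e0, map_zero]
  have hdd : ∀ x, D.db P (D.db P x) = 0 := by
    intro x
    obtain ⟨x, rfl⟩ := D.pj_surj P x
    rw [D.db_pj, D.db_pj, D.d_d, map_zero]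
  have hrd : ∀ x, D.rb P b (D.db P x) = D.db P (D.rb P b x) := by
    intro x
    obtain ⟨x, rfl⟩ := D.pj_surj P x
    rw [D.rb_pj, D.db_pj, D.db_pj, D.rb_pj, D.d_ρ]
  have hnext : ∀ u v, D.db P v = 0 → u + D.rb P b u = v → D.rb P b (D.db P u) = D.db P u := by
    intro u v hv h
    have h2 : D.rb P b u = u + v := by
      rw [← h, ← add_assoc, ZModModule.add_self, zero_add]
    rw [hrd, h2, map_add, hv, add_zero]
  obtain ⟨y3, e3⟩ : ∃ y3, y3 = κ (D.zb P t) := ⟨_, rfl⟩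
  have a3 : y3 + D.rb P b y3 = D.zb P t := by rw [e3]; exact hfix _ (z3 b)
  have d3 : D.eb P 3 y3 = y3 := by rw [e3, ← hκe, z2]
  obtain ⟨y2, e2⟩ : ∃ y2, y2 = κ (D.db P y3) := ⟨_, rfl⟩
  have a2 : y2 + D.rb P b y2 = D.db P y3 := by
    rw [e2]
    exact hfix _ (hnext _ _ z1 a3)
  have d2 : D.eb P 2 y2 = y2 := by rw [e2, ← hκe, ← hde 2, d3]
  obtain ⟨y1, e1⟩ : ∃ y1, y1 = κ (D.db P y2) := ⟨_, rfl⟩
  have a1 : y1 + D.rb P b y1 = D.db P y2 := by
    rw [e1]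
    exact hfix _ (hnext _ _ (hdd _) a2)
  have d1 : D.eb P 1 y1 = y1 := by rw [e1, ← hκe, ← hde 1, d2]
  obtain ⟨y0, e0⟩ : ∃ y0, y0 = κ (D.db P y1) := ⟨_, rfl⟩
  have a0 : y0 + D.rb P b y0 = D.db P y1 := by
    rw [e0]
    exact hfix _ (hnext _ _ (hdd _) a1)
  have d0 : D.eb P 0 y0 = y0 := by rw [e0, ← hκe, ← hde 0, d1]
  refine ⟨fun n => if n = 0 then y0 else if n = 1 then y1 else if n = 2 then y2 else y3,
    ?_, ?_, ?_⟩
  · change D.db P y0 = 0
    rw [← d0, hde0]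
  · exact a3
  · intro n hn
    interval_cases n
    · exact a0.symm
    · exact a1.symm
    · exact a2.symm

/-- PIECE MI-45. PROOF. `desc` for `pj2 ∘ Δ i`; the rest from `hΔ` (`pj_surj`); `rb b ⊗ rb b`: `gg_pj2`. -/
theorem exists_Dlb [P.Normal] {Δ : ℕ → C →ₗ[K] C ⊗[K] C} (hΔ : D.Diag Δ) :
    ∃ Dl : ℕ → D.Cb P →ₗ[K] D.Cb P ⊗[K] D.Cb P, (∀ i x, Dl i (D.pj P x) = D.pj2 P (Δ i x)) ∧
      (∀ x, dd (D.db P) (Dl 0 x) = Dl 0 (D.db P x)) ∧
      (∀ i x, dd (D.db P) (Dl (i + 1) x) = Dl (i + 1) (D.db P x) + (Dl i x + sg (Dl i x))) ∧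
      ∀ i g x, Dl i (D.rb P g x) = TensorProduct.map (D.rb P g) (D.rb P g) (Dl i x) := by
  choose Dl hDl using fun i => D.desc P (D.pj2 P ∘ₗ Δ i) (fun p hp x => by
    rw [LinearMap.comp_apply, LinearMap.comp_apply, hΔ.eqv, D.pj2_gg P p p hp hp])
  refine ⟨Dl, hDl, fun x => ?_, fun i x => ?_, fun i g x => ?_⟩
  · obtain ⟨x, rfl⟩ := D.pj_surj P x
    rw [hDl, LinearMap.comp_apply, D.dd_pj2, hΔ.d0, D.db_pj, hDl, LinearMap.comp_apply]
  · obtain ⟨x, rfl⟩ := D.pj_surj P x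
    rw [hDl, LinearMap.comp_apply, D.dd_pj2, hΔ.d1, D.db_pj, hDl, LinearMap.comp_apply, hDl,
      LinearMap.comp_apply, D.sg_pj2, map_add, map_add]
  · obtain ⟨x, rfl⟩ := D.pj_surj P x
    rw [D.rb_pj, hDl, LinearMap.comp_apply, hDl, LinearMap.comp_apply, hΔ.eqv, D.gg_pj2]

/-! ### the forms on the coinvariants -/

/-- PIECE MI-46. PROOF. `exists_cs` for `F g = lam ∘ gg g 1` (`Form.fin`), then `desc2`: replacing `w` by `gg p' 1 w` reindexes `P`; by `gg 1 q w`: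
`lam (gg (a p) q w) = lam (gg (q⁻¹ a p) 1 w)` and `q⁻¹ a P = a P` (`cs_bij`). -/
theorem exists_bb [P.Normal] {lam : C ⊗[K] C →ₗ[K] K} (hl : D.Form lam) (a : G) :
    ∃ bb : D.Cb P ⊗[K] D.Cb P →ₗ[K] K, ∀ w, bb (D.pj2 P w) = ∑ᶠ p : P, lam (D.gg (a * p) 1 w) := by
  obtain ⟨S, hS⟩ := exists_cs P (fun g : G => lam ∘ₗ D.gg g 1) hl.fin a
  have hS' : ∀ w, S w = ∑ᶠ p : P, lam (D.gg (a * p) 1 w) := hS
  obtain ⟨bb, hbb⟩ := D.desc2 P S (by
    intro p' hp' w
    rw [hS', hS', ← cs_bij P (fun g : G => lam (D.gg g 1 w)) (Equiv.mulRight p') a a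
      (fun z => by
        rw [Equiv.coe_mulRight, ← mul_assoc]
        exact (Subgroup.mul_mem_cancel_right P hp').symm)]
    refine finsum_congr fun p => ?_
    rw [D.gg_gg, mul_one, Equiv.coe_mulRight]) (by
    intro q hq w
    rw [hS', hS', ← cs_bij P (fun g : G => lam (D.gg g 1 w)) (Equiv.mulLeft q⁻¹) a a
      (fun z => by
        have h1 : a⁻¹ * (q⁻¹ * z) = (a⁻¹ * q⁻¹ * a⁻¹⁻¹) * (a⁻¹ * z) := by group
        rw [Equiv.coe_mulLeft, h1]
        exact (Subgroup.mul_mem_cancel_left P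
          (Subgroup.Normal.conj_mem inferInstance _ (inv_mem hq) _)).symm)]
    refine finsum_congr fun p => ?_
    rw [D.gg_gg, one_mul, mul_one, Equiv.coe_mulLeft, ← hl.inv q⁻¹, D.gg_gg, inv_mul_cancel])
  exact ⟨bb, fun w => by rw [hbb, hS']⟩

/-- PIECE MI-46. PROOF. `lam (sg (gg (a p) 1 w)) = lam (gg 1 (a p) (sg w)) = lam (gg (a p)⁻¹ 1 (sg w))`, and inversion maps `a P`
to `a P` as `a * a ∈ P`: `cs_bij` for `Equiv.inv G`. -/
theorem cs_sg [P.Normal] {lam : C ⊗[K] C →ₗ[K] K} (hl : D.Form lam) (a : G) (ha : a * a ∈ P)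
    (w : C ⊗[K] C) :
    ∑ᶠ p : P, lam (sg (D.gg (a * p) 1 w)) = ∑ᶠ p : P, lam (D.gg (a * p) 1 (sg w)) := by
  have h2 : ∀ z : G, a⁻¹ * z ∈ P → a⁻¹ * z⁻¹ ∈ P := by
    intro z hz
    have h1 : a⁻¹ * z⁻¹ = (a⁻¹ * (a⁻¹ * z)⁻¹ * a⁻¹⁻¹) * (a * a)⁻¹ := by group
    rw [h1]
    exact mul_mem (Subgroup.Normal.conj_mem inferInstance _ (inv_mem hz) _) (inv_mem ha)
  rw [← cs_bij P (fun g : G => lam (D.gg g 1 (sg w))) (Equiv.inv G) a a
    (fun z => ⟨h2 z, fun h => by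
      have h3 := h2 _ h
      rwa [Equiv.inv_apply, inv_inv] at h3⟩)]
  refine finsum_congr fun p => ?_
  rw [D.sg_gg, Equiv.inv_apply, ← hl.inv (a * p)⁻¹, D.gg_gg, mul_one, inv_mul_cancel]

private theorem mi47_fin {lam : C ⊗[K] C →ₗ[K] K} (hl : D.Form lam) (f : P → G)
    (hf : Function.Injective f) (w : C ⊗[K] C) :
    (Function.support fun p : P => lam (D.gg (f p) 1 w)).Finite := by
  have h := (hl.fin w).preimage (f := f) hf.injOn
  exact h

private theorem mi47_inv {lam : C ⊗[K] C →ₗ[K] K} (hl : D.Form lam) (g h : G) (w : C ⊗[K] C) :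
    lam (D.gg g h w) = lam (D.gg (h⁻¹ * g) 1 w) := by
  rw [← hl.inv h⁻¹ (D.gg g h w), D.gg_gg, inv_mul_cancel]

private theorem mi47_fin_sg {lam : C ⊗[K] C →ₗ[K] K} (hl : D.Form lam) (f : P → G)
    (hf : Function.Injective f) (w : C ⊗[K] C) :
    (Function.support fun p : P => lam (sg (D.gg (f p) 1 w))).Finite := by
  have h := D.mi47_fin P hl (fun p => (f p)⁻¹) (fun p q hpq => hf (inv_injective hpq)) (sg w)
  refine h.subset fun p hp => ?_
  rw [Function.mem_support] at hp ⊢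
  rw [D.sg_gg, D.mi47_inv hl, mul_one] at hp
  exact hp

private theorem mi47_inj (a : G) : Function.Injective fun p : P => a * (p : G) :=
  fun _ _ h => Subtype.ext (mul_left_cancel h)

private theorem mi47_zb [Finite (G ⧸ P)] {lam : C ⊗[K] C →ₗ[K] K} (hl : D.Form lam) [P.Normal]
    (t : C) (a : G) (bb : D.Cb P ⊗[K] D.Cb P →ₗ[K] K)
    (hbb : ∀ w, bb (D.pj2 P w) = ∑ᶠ p : P, lam (D.gg (a * p) 1 w)) :
    bb (D.pj P D.o ⊗ₜ D.zb P t) = ∑ᶠ g : G, lam (D.o ⊗ₜ D.ρ g t) := by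
  have h1 := cs_sum' P (fun g => lam (D.o ⊗ₜ D.ρ g t)) (by
    have := hl.fs D.o t
    exact this) a
  rw [h1]
  have := Fintype.ofFinite (G ⧸ P)
  rw [zb, finsum_eq_sum_of_fintype, finsum_eq_sum_of_fintype, TensorProduct.tmul_sum, map_sum]
  refine Finset.sum_congr rfl fun q _ => ?_
  rw [← D.pj2_tmul, hbb]
  refine finsum_congr fun p => ?_
  rw [← hl.inv (a * p)⁻¹, D.gg_gg, D.gg_tmul, inv_mul_cancel, map_one, mul_one,
    ← Module.End.mul_apply, ← map_mul]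
  rfl

private theorem mi47_oo {lam : ℕ → C ⊗[K] C →ₗ[K] K} (hl : D.Forms lam) [P.Normal]
    (hG : ∀ z : G, z ≠ 1 → ¬ IsConj z z⁻¹) (a : G) (ha : a ∉ P) (ha2 : a * a ∈ P) :
    ∑ᶠ p : P, lam 3 (D.gg (a * p) 1 (D.o ⊗ₜ D.o)) = 0 := by
  have hsym : ∀ g : G, lam 3 (D.gg g⁻¹ 1 (D.o ⊗ₜ D.o)) = lam 3 (D.gg g 1 (D.o ⊗ₜ D.o)) := by
    intro g
    have h1 := hl.d1 3 (D.gg g 1 (D.o ⊗ₜ D.o))
    rw [hl.top 4 le_rfl, LinearMap.zero_apply, D.sg_gg, D.mi47_inv (hl.form 3) 1 g, mul_one,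
      sg_tmul] at h1
    have h2 : lam 3 (D.gg g 1 (D.o ⊗ₜ D.o)) + lam 3 (D.gg g 1 (D.o ⊗ₜ D.o)) = 0 :=
      ZModModule.add_self _
    exact add_left_cancel (h1.symm.trans h2.symm)
  have hmem : ∀ p : P, a⁻¹ * (a * (p : G))⁻¹ ∈ P := by
    intro p
    have h1 : a⁻¹ * (a * (p : G))⁻¹ = (a⁻¹ * (p : G)⁻¹ * a⁻¹⁻¹) * (a * a)⁻¹ := by group
    rw [h1]
    exact P.mul_mem (Subgroup.Normal.conj_mem inferInstance _ (P.inv_mem p.2) a⁻¹)
      (P.inv_mem ha2)
  have hfin := D.mi47_fin P (hl.form 3) (fun p => a * (p : G)) (mi47_inj P a) (D.o ⊗ₜ D.o)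
  rw [finsum_eq_sum _ hfin]
  have hval : ∀ p : P, lam 3 (D.gg (a * ((⟨a⁻¹ * (a * (p : G))⁻¹, hmem p⟩ : P) : G)) 1
      (D.o ⊗ₜ D.o)) = lam 3 (D.gg (a * p) 1 (D.o ⊗ₜ D.o)) := by
    intro p
    rw [← hsym (a * p)]
    congr 2
    rw [mul_inv_cancel_left]
  refine Finset.sum_involution (fun p _ => ⟨a⁻¹ * (a * (p : G))⁻¹, hmem p⟩) ?_ ?_ ?_ ?_
  · intro p _
    rw [hval p]
    exact ZModModule.add_self _
  · intro p _ _ h
    have h1 : a⁻¹ * (a * (p : G))⁻¹ = p := congrArg Subtype.val h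
    have h2 : a * (p : G) ≠ 1 := by
      intro h3
      apply ha
      have h4 : a = (p : G)⁻¹ := eq_inv_of_mul_eq_one_left h3
      rw [h4]
      exact P.inv_mem p.2
    refine hG _ h2 ?_
    have h5 : (a * (p : G))⁻¹ = a * p := by
      rw [inv_mul_eq_iff_eq_mul] at h1
      exact h1
    rw [h5]
  · intro p hp
    rw [Set.Finite.mem_toFinset, Function.mem_support] at hp ⊢
    rw [hval p]
    exact hp
  · intro p _
    apply Subtype.ext
    change a⁻¹ * (a * (a⁻¹ * (a * (p : G))⁻¹))⁻¹ = p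
    group

/-- PIECE MI-47. All properties of the forms on the coinvariants. PROOF. Each statement is checked on `pj2 w` (`pj2_surj`).
`bb (j+1) (dd w) = bb j w + bb j (sg w)`: `hl.d1`, `gg_dd`, `cs_sg`. Degree: `gg_E`. `bb 0 (pj o ⊗ zb t) =
∑ᶠ p, ∑ᶠ q, lam 0 (a p o ⊗ q t) = ∑ᶠ g, lam 0 (o ⊗ g t)` (`cs_sum'`, invariance) `= 1` by `hl.z`, `ht.mass`.
`bb 3 (pj o ⊗ pj o) = ∑ᶠ p, lam 3 (a p o ⊗ o)`: `lam 3 w + lam 3 (sg w) = lam 4 (dd w) = 0` (`hl.d1`, `hl.top`), so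
the terms of `z = a p` and `z⁻¹` agree, `z ≠ z⁻¹` by `hG` (`z ≠ 1` as `a ∉ P`): the sum is `0` (`Finset.sum_involution`). -/
theorem exists_forms_b [P.Normal] [Finite (G ⧸ P)] {lam : ℕ → C ⊗[K] C →ₗ[K] K}
    (hl : D.Forms lam) {t : C} (ht : D.Fund t) (hG : ∀ z : G, z ≠ 1 → ¬ IsConj z z⁻¹)
    (a : G) (ha : a ∉ P) (ha2 : a * a ∈ P) :
    ∃ bb : ℕ → D.Cb P ⊗[K] D.Cb P →ₗ[K] K,
      (∀ j w, bb j (D.pj2 P w) = ∑ᶠ p : P, lam j (D.gg (a * p) 1 w)) ∧
      (∀ w, bb 0 (dd (D.db P) w) = 0) ∧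
      (∀ j w, bb (j + 1) (dd (D.db P) w) = bb j w + bb j (sg w)) ∧
      (∀ j, j ≤ 3 → ∀ w, bb j (D.pj2 P (D.E (3 - j) w)) = bb j (D.pj2 P w)) ∧
      bb 0 (D.pj P D.o ⊗ₜ D.zb P t) = 1 ∧ bb 3 (D.pj P D.o ⊗ₜ D.pj P D.o) = 0 := by
  choose bb hbb using fun j => D.exists_bb P (hl.form j) a
  refine ⟨bb, hbb, ?_, ?_, ?_, ?_, ?_⟩
  · intro w
    obtain ⟨v, rfl⟩ := D.pj2_surj P w
    rw [D.dd_pj2, hbb]
    refine finsum_eq_zero_of_forall_eq_zero fun p => ?_
    rw [D.gg_dd, hl.d0]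
  · intro j w
    obtain ⟨v, rfl⟩ := D.pj2_surj P w
    rw [D.dd_pj2, D.sg_pj2, hbb, hbb, hbb, ← D.cs_sg P (hl.form j) a ha2,
      ← finsum_add_distrib (D.mi47_fin P (hl.form j) (fun p => a * (p : G)) (mi47_inj P a) v)
        (D.mi47_fin_sg P (hl.form j) (fun p => a * (p : G)) (mi47_inj P a) v)]
    refine finsum_congr fun p => ?_
    rw [D.gg_dd, hl.d1]
  · intro j hj w
    rw [hbb, hbb]
    refine finsum_congr fun p => ?_
    rw [D.gg_E, hl.deg j hj]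
  · rw [D.mi47_zb P (hl.form 0) t a (bb 0) (hbb 0)]
    obtain ⟨χ, hχ, hz⟩ := hl.z
    refine ht.mass (lam 0 ∘ₗ TensorProduct.mk K C C D.o) ((hl.form 0).fs D.o) 1 χ hχ fun x => ?_
    rw [one_mul]
    exact hz x
  · rw [← D.pj2_tmul, hbb]
    exact D.mi47_oo P hl hG a ha ha2

end Cx

end Pool.Agent.Helper31.MI
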