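import Mathlib

/-!
# Project MI (MP_9d9192_al): involutions of finite quotients of `PD_3`-groups, definitions

THEOREM. `G` a `PD_3`-group (orientable or not) in which no `z ≠ 1` is conjugate to `z⁻¹` or to
`z ^ (2 ^ k)`, `k ≥ 1`; `P` a normal subgroup of finite index with `H_1(P; F_2) = 0`. Then `G / P` has
at most one element of order two.

Everything is over the field `K` with two elements, so there are no signs: `x + x = 0`
(`ZModModule.add_self`).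
-/

set_option autoImplicit false

namespace Pool.Agent.Helper31.MI

open TensorProduct

/-- the field with two elements -/
abbrev K := ZMod 2

/-- functionals of finite support on orbits -/
def Fs {G C : Type} [Group G] [AddCommGroup C] [Module K C] (ρ : Representation K G C)
    (φ : C →ₗ[K] K) : Prop :=
  ∀ x, {g : G | φ (ρ g x) ≠ 0}.Finite

/-- A resolution of length three of the trivial module `K` by finitely generated projective
`K[G]`-modules, as one graded module `C` (`e n` = projection to degree `n`), with the cohomology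
`H^i(G; K[G])` of a Poincare duality group of dimension three. -/
structure Cx (G C : Type) [Group G] [AddCommGroup C] [Module K C] where
  ρ : Representation K G C
  d : C →ₗ[K] C
  e : ℕ → C →ₗ[K] C
  ε : C →ₗ[K] K
  o : C
  J : Type
  fin : Fintype J
  v : J → C
  φ : J → C →ₗ[K] K
  z : C →ₗ[K] K
  d_ρ : ∀ g x, d (ρ g x) = ρ g (d x)
  e_ρ : ∀ n g x, e n (ρ g x) = ρ g (e n x)
  e_e : ∀ n x, e n (e n x) = e n x
  e_ne : ∀ m n x, m ≠ n → e m (e n x) = 0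
  e_sum : ∀ x, ∑ n ∈ Finset.range 4, e n x = x
  d_e : ∀ n x, d (e (n + 1) x) = e n (d x)
  d_e0 : ∀ x, d (e 0 x) = 0
  d_d : ∀ x, d (d x) = 0
  ε_ρ : ∀ g x, ε (ρ g x) = ε x
  ε_e : ∀ x, ε (e 0 x) = ε x
  ε_d : ∀ x, ε (d x) = 0
  o_e : e 0 o = o
  ε_o : ε o = 1
  ex : ∀ x, d x = 0 → ε x = 0 → ∃ y, d y = x
  fs : ∀ j, Fs ρ (φ j)
  span : ∀ x, ∑ j, ∑ᶠ g : G, φ j (ρ g⁻¹ x) • ρ g (v j) = x
  z_fs : Fs ρ z
  z_e : ∀ x, z (e 3 x) = z x
  co : ∀ ψ : C →ₗ[K] K, Fs ρ ψ → (∀ x, ψ (d x) = 0) →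
    ∃ (n : K) (χ : C →ₗ[K] K), Fs ρ χ ∧ ∀ x, ψ x = n * z x + χ (d x)
  z_ne : ¬ ∃ χ : C →ₗ[K] K, Fs ρ χ ∧ ∀ x, z x = χ (d x)

attribute [instance] Cx.fin

section Tensor

variable {V W : Type} [AddCommGroup V] [Module K V] [AddCommGroup W] [Module K W]

/-- the differential of `V ⊗ V` -/
noncomputable def dd (d : V →ₗ[K] V) : V ⊗[K] V →ₗ[K] V ⊗[K] V :=
  TensorProduct.map d LinearMap.id + TensorProduct.map LinearMap.id d

/-- the swap -/
noncomputable def sg : V ⊗[K] V →ₗ[K] V ⊗[K] V := (TensorProduct.comm K V V).toLinearMap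

/-- `f ⊗ g` for functionals -/
noncomputable def pr2 (f g : V →ₗ[K] K) : V ⊗[K] V →ₗ[K] K :=
  (TensorProduct.lid K K).toLinearMap ∘ₗ TensorProduct.map f g

/-- `1 ⊗ f : V ⊗ V → V` -/
noncomputable def rf (f : V →ₗ[K] K) : V ⊗[K] V →ₗ[K] V :=
  (TensorProduct.rid K V).toLinearMap ∘ₗ TensorProduct.map LinearMap.id f

/-- `f ⊗ 1 : V ⊗ V → V` -/
noncomputable def lf (f : V →ₗ[K] K) : V ⊗[K] V →ₗ[K] V :=
  (TensorProduct.lid K V).toLinearMap ∘ₗ TensorProduct.map f LinearMap.id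

@[simp] theorem dd_tmul (d : V →ₗ[K] V) (x y : V) : dd d (x ⊗ₜ y) = d x ⊗ₜ y + x ⊗ₜ d y := rfl

@[simp] theorem sg_tmul (x y : V) : sg (x ⊗ₜ[K] y) = y ⊗ₜ x := rfl

@[simp] theorem pr2_tmul (f g : V →ₗ[K] K) (x y : V) : pr2 f g (x ⊗ₜ y) = f x * g y := by
  simp [pr2]

@[simp] theorem rf_tmul (f : V →ₗ[K] K) (x y : V) : rf f (x ⊗ₜ y) = f y • x := by
  simp [rf]

@[simp] theorem lf_tmul (f : V →ₗ[K] K) (x y : V) : lf f (x ⊗ₜ y) = f x • y := by
  simp [lf]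

theorem sg_sg (w : V ⊗[K] V) : sg (sg w) = w := by
  induction w with
  | zero => simp
  | tmul x y => simp
  | add x y hx hy => rw [map_add, map_add, hx, hy]

theorem sg_dd (d : V →ₗ[K] V) (w : V ⊗[K] V) : sg (dd d w) = dd d (sg w) := by
  induction w with
  | zero => simp
  | tmul x y =>
    rw [dd_tmul, map_add, sg_tmul, sg_tmul, sg_tmul, dd_tmul, add_comm]
  | add x y hx hy => rw [map_add, map_add, map_add, map_add, hx, hy]

theorem sg_map (f g : V →ₗ[K] V) (w : V ⊗[K] V) :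
    sg (TensorProduct.map f g w) = TensorProduct.map g f (sg w) := by
  induction w with
  | zero => simp
  | tmul x y => simp
  | add x y hx hy => rw [map_add, map_add, map_add, map_add, hx, hy]

theorem dd_dd (d : V →ₗ[K] V) (hd : ∀ x, d (d x) = 0) (w : V ⊗[K] V) : dd d (dd d w) = 0 := by
  induction w with
  | zero => simp
  | tmul x y =>
    rw [dd_tmul, map_add, dd_tmul, dd_tmul, hd, hd, TensorProduct.zero_tmul,
      TensorProduct.tmul_zero, zero_add, add_zero, ZModModule.add_self]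
  | add x y hx hy => rw [map_add, map_add, hx, hy, add_zero]

theorem dd_map (d f g : V →ₗ[K] V) (hf : ∀ x, d (f x) = f (d x)) (hg : ∀ x, d (g x) = g (d x))
    (w : V ⊗[K] V) : dd d (TensorProduct.map f g w) = TensorProduct.map f g (dd d w) := by
  induction w with
  | zero => simp
  | tmul x y =>
    rw [TensorProduct.map_tmul, dd_tmul, dd_tmul, map_add, TensorProduct.map_tmul,
      TensorProduct.map_tmul, hf, hg]
  | add x y hx hy => rw [map_add, map_add, map_add, map_add, hx, hy]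

end Tensor

section Cx

variable {G C : Type} [Group G] [AddCommGroup C] [Module K C]

namespace Cx

variable (D : Cx G C)

/-- the action on `C ⊗ C` -/
noncomputable def gg (g h : G) : C ⊗[K] C →ₗ[K] C ⊗[K] C := TensorProduct.map (D.ρ g) (D.ρ h)

/-- projection of `C ⊗ C` to degree `n` -/
noncomputable def E (n : ℕ) : C ⊗[K] C →ₗ[K] C ⊗[K] C :=
  ∑ p ∈ Finset.range (n + 1), TensorProduct.map (D.e p) (D.e (n - p))

@[simp] theorem gg_tmul (g h : G) (x y : C) : D.gg g h (x ⊗ₜ y) = D.ρ g x ⊗ₜ D.ρ h y := rfl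

/-- `G`-invariant forms on `C` with finite support -/
structure Form (lam : C ⊗[K] C →ₗ[K] K) : Prop where
  inv : ∀ g w, lam (D.gg g g w) = lam w
  fin : ∀ w, {g : G | lam (D.gg g 1 w) ≠ 0}.Finite

/-- The forms `λ_0, …, λ_3`. -/
structure Forms (lam : ℕ → C ⊗[K] C →ₗ[K] K) : Prop where
  form : ∀ j, D.Form (lam j)
  deg : ∀ j, j ≤ 3 → ∀ w, lam j (D.E (3 - j) w) = lam j w
  top : ∀ j, 4 ≤ j → lam j = 0
  d0 : ∀ w, lam 0 (dd D.d w) = 0
  d1 : ∀ j w, lam (j + 1) (dd D.d w) = lam j w + lam j (sg w)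
  z : ∃ χ : C →ₗ[K] K, Fs D.ρ χ ∧ ∀ y, lam 0 (D.o ⊗ₜ y) = D.z y + χ (D.d y)

/-- Steenrod's diagonals. -/
structure Diag (Δ : ℕ → C →ₗ[K] C ⊗[K] C) : Prop where
  eqv : ∀ i g x, Δ i (D.ρ g x) = D.gg g g (Δ i x)
  deg : ∀ i n x, Δ i (D.e n x) = D.E (n + i) (Δ i x)
  d0 : ∀ x, dd D.d (Δ 0 x) = Δ 0 (D.d x)
  d1 : ∀ i x, dd D.d (Δ (i + 1) x) = Δ (i + 1) (D.d x) + (Δ i x + sg (Δ i x))
  aug : ∀ x, pr2 D.ε D.ε (Δ 0 x) = D.ε x

/-- Families of functionals on `C` indexed by `G`; they are the `G`-maps from `C` to `K[G]` with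
the conjugation action. -/
structure Fam (F : G → C →ₗ[K] K) : Prop where
  eqv : ∀ z g x, F z (D.ρ g x) = F (g⁻¹ * z * g) x
  fin : ∀ x, {z | F z x ≠ 0}.Finite

/-- `F_m (x) (z) = ∑_{i + j = m} λ_j σ^i (z ⊗ 1) Δ_i x` -/
noncomputable def FF (lam : ℕ → C ⊗[K] C →ₗ[K] K) (Δ : ℕ → C →ₗ[K] C ⊗[K] C) (m : ℕ) (z : G) :
    C →ₗ[K] K :=
  ∑ i ∈ Finset.range (m + 1), lam (m - i) ∘ₗ (sg ^ i) ∘ₗ D.gg z 1 ∘ₗ Δ i

/-- A fundamental chain. -/
structure Fund (t : C) : Prop where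
  deg : D.e 3 t = t
  mass : ∀ ψ : C →ₗ[K] K, Fs D.ρ ψ → ∀ (n : K) (χ : C →ₗ[K] K), Fs D.ρ χ →
    (∀ x, ψ x = n * D.z x + χ (D.d x)) → ∑ᶠ g : G, ψ (D.ρ g t) = n
  bd : ∀ ω : C →ₗ[K] K, (∀ g x, ω (D.ρ g x) = ω x) → ω (D.d t) = 0
  fam : ∀ F : G → C →ₗ[K] K, D.Fam F → (∀ z x, F z (D.e 3 x) = F z x) →
    (∀ c : ConjClasses G, ∑ᶠ (z : G) (_ : ConjClasses.mk z = c), F z t = 0) →
    ∃ h : G → C →ₗ[K] K, D.Fam h ∧ ∀ z x, F z x = h z (D.d x)

end Cx

end Cx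

end Pool.Agent.Helper31.MI
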