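import Pool.Agent.Helper31.MI.Lift

/-!
# Project MI: Steenrod's diagonals and the forms
-/

set_option autoImplicit false

namespace Pool.Agent.Helper31.MI

open TensorProduct

variable {G C : Type} [Group G] [AddCommGroup C] [Module K C]

namespace Cx

variable (D : Cx G C)

/-! ### diagonals -/

private noncomputable def mi10_Z (n : ℕ) : Submodule K (C ⊗[K] C) :=
  LinearMap.eqLocus (D.E n) LinearMap.id ⊓ LinearMap.ker (pr2 D.ε D.ε)

private theorem mi10_mem (n : ℕ) (w : C ⊗[K] C) :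
    w ∈ mi10_Z D n ↔ D.E n w = w ∧ pr2 D.ε D.ε w = 0 := by
  rw [mi10_Z, Submodule.mem_inf, LinearMap.mem_eqLocus, LinearMap.mem_ker]
  rfl

/-- PIECE MI-10. PROOF. `A = E 0 ∘ A' ∘ e 0` with `pr2 ε ε (A' x) = ε x` from `exists_lift` (`B' = K`
with the trivial action, `S = ⊤`, `ε x • o ⊗ o` is a preimage): `pr2 ε ε (A x) = ε x`, `dd (A x) = 0`,
`A (e_n x) = E n (A x)`. `dl` for `B = C ⊗ C` (action `gg g g`), `q = dd d`, `R x = A (d x)`,
`Z n = {w | E n w = w ∧ pr2 ε ε w = 0}`, `W 0 = ⊥`, `W (n + 1) = Z n`, exactness `exT`: `S`.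
`Δ_0 = A + S`. -/
theorem exists_diag0 : ∃ Δ : C →ₗ[K] C ⊗[K] C, (∀ g x, Δ (D.ρ g x) = D.gg g g (Δ x)) ∧
    (∀ n x, Δ (D.e n x) = D.E n (Δ x)) ∧ (∀ x, dd D.d (Δ x) = Δ (D.d x)) ∧
    ∀ x, pr2 D.ε D.ε (Δ x) = D.ε x := by
  obtain ⟨A', hA1, -, hA2⟩ := D.exists_lift (D.ρ.tprod D.ρ) (Representation.trivial K G K)
    (pr2 D.ε D.ε) (fun g b => D.pr2_gg g g b) D.ε (fun g x => D.ε_ρ g x) ⊤
    (fun _ _ _ => Submodule.mem_top) (fun x => ⟨D.ε x • (D.o ⊗ₜ D.o), Submodule.mem_top, by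
      rw [map_smul, pr2_tmul, D.ε_o, one_mul, smul_eq_mul, mul_one]⟩)
  obtain ⟨A, hA⟩ : ∃ A : C →ₗ[K] C ⊗[K] C, ∀ x, A x = D.E 0 (A' (D.e 0 x)) :=
    ⟨D.E 0 ∘ₗ A' ∘ₗ D.e 0, fun _ => rfl⟩
  have hAg : ∀ g x, A (D.ρ g x) = D.gg g g (A x) := by
    intro g x
    rw [hA, hA, D.e_ρ, hA1, D.gg_E]
    rfl
  have hAε : ∀ x, pr2 D.ε D.ε (A x) = D.ε x := by
    intro x
    rw [hA, D.pr2_E0, hA2, D.ε_e]
  have hAd : ∀ x, dd D.d (A x) = 0 := by
    intro x
    rw [hA, D.dd_E0]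
  have hAe : ∀ n x, A (D.e n x) = D.E n (A x) := by
    intro n x
    rcases Nat.eq_zero_or_pos n with rfl | hn
    · rw [hA, hA, D.E_E, D.e_e]
    · rw [hA, hA, D.E_ne n 0 hn.ne', D.e_ne 0 n x hn.ne, map_zero, map_zero]
  obtain ⟨S, hS1, hS2, hS3⟩ := D.dl (D.ρ.tprod D.ρ) (dd D.d)
    (fun g b => (D.gg_dd g g b).symm)
    (fun n => mi10_Z D n) (fun n => Nat.rec ⊥ (fun n _ => mi10_Z D n) n)
    (fun n g b hb => by
      obtain ⟨h1, h2⟩ := (mi10_mem D n b).1 hb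
      refine (mi10_mem D n _).2 ⟨?_, ?_⟩
      · change D.E n (D.gg g g b) = D.gg g g b
        rw [← D.gg_E, h1]
      · change pr2 D.ε D.ε (D.gg g g b) = 0
        rw [D.pr2_gg, h2])
    (fun n => le_rfl) (A ∘ₗ D.d)
    (fun g x => by
      change A (D.d (D.ρ g x)) = D.gg g g (A (D.d x))
      rw [D.d_ρ, hAg])
    (fun n x => by
      rcases n with _ | n
      · change A (D.d (D.e 0 x)) ∈ (⊥ : Submodule K (C ⊗[K] C))
        rw [D.d_e0, map_zero]
        exact Submodule.zero_mem _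
      · change A (D.d (D.e (n + 1) x)) ∈ mi10_Z D n
        refine (mi10_mem D n _).2 ⟨?_, ?_⟩
        · rw [D.d_e, hAe, D.E_E]
        · rw [hAε, D.ε_d])
    (fun x => by
      change dd D.d (A (D.d x)) = A (D.d (D.d x))
      rw [hAd, D.d_d, map_zero])
    (fun x => ⟨0, Submodule.zero_mem _, by
      change dd D.d 0 = A (D.d (D.e 0 x))
      rw [D.d_e0, map_zero, map_zero]⟩)
    (fun n w hw hq => by
      obtain ⟨h1, h2⟩ := (mi10_mem D n w).1 hw
      obtain ⟨w', h3, h4⟩ := D.exT n w h1 hq h2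
      refine ⟨w', (mi10_mem D (n + 1) w').2 ⟨h3, ?_⟩, h4⟩
      rw [← h3, D.pr2_E])
  have hSx : ∀ x, S x = ∑ m ∈ Finset.range 4, S (D.e m x) := by
    intro x
    rw [← map_sum, D.e_sum]
  have hSe : ∀ n x, S (D.e n x) = D.E n (S x) := by
    intro n x
    rw [hSx x, map_sum]
    have h1 : ∀ m ∈ Finset.range 4, D.E n (S (D.e m x)) =
        if n = m then S (D.e n x) else 0 := by
      intro m _
      obtain ⟨h1, -⟩ := (mi10_mem D m _).1 (hS2 m x)
      by_cases h : n = m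
      · subst h
        rw [if_pos rfl, h1]
      · rw [if_neg h, ← h1, D.E_ne n m h]
    rw [Finset.sum_congr rfl h1, Finset.sum_ite_eq]
    by_cases h : n ∈ Finset.range 4
    · rw [if_pos h]
    · rw [if_neg h]
      rw [Finset.mem_range, not_lt] at h
      rw [D.e_top n h, map_zero]
  have hSε : ∀ x, pr2 D.ε D.ε (S x) = 0 := by
    intro x
    rw [hSx x, map_sum]
    exact Finset.sum_eq_zero fun m _ => ((mi10_mem D m _).1 (hS2 m x)).2
  refine ⟨A + S, fun g x => ?_, fun n x => ?_, fun x => ?_, fun x => ?_⟩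
  · rw [LinearMap.add_apply, LinearMap.add_apply, hAg, hS1, map_add]
    rfl
  · rw [LinearMap.add_apply, LinearMap.add_apply, hAe, hSe, map_add]
  · have h := hS3 x
    rw [LinearMap.comp_apply] at h
    rw [LinearMap.add_apply, LinearMap.add_apply, map_add, hAd, zero_add, ← h, add_assoc,
      ZModModule.add_self, add_zero]
  · rw [LinearMap.add_apply, map_add, hAε, hSε, add_zero]

/-- PIECE MI-11. PROOF. `dl` for `B = C ⊗ C`, `q = dd d`, `Z n = {w | E (n + i + 1) w = w}`,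
`W n = {w | E (n + i) w = w}`; exactness by `exT` (`pr2 ε ε` of the right side is `0`: `hε` for `n = 0`,
`pr2_E` for `n ≥ 1`). `S (e_n x) = E (n+i+1) (S x)` follows by expanding `x = ∑ e_m x`. -/
theorem diag_step (i : ℕ) (R : C →ₗ[K] C ⊗[K] C) (hR : ∀ g x, R (D.ρ g x) = D.gg g g (R x))
    (hRe : ∀ n x, R (D.e n x) = D.E (n + i) (R x)) (hRd : ∀ x, dd D.d (R x) = R (D.d x))
    (hε : ∀ x, pr2 D.ε D.ε (R x) = 0) :
    ∃ S : C →ₗ[K] C ⊗[K] C, (∀ g x, S (D.ρ g x) = D.gg g g (S x)) ∧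
      (∀ n x, S (D.e n x) = D.E (n + (i + 1)) (S x)) ∧
      ∀ x, dd D.d (S x) = S (D.d x) + R x := by
  classical
  obtain ⟨W, hW⟩ : ∃ W : ℕ → Submodule K (C ⊗[K] C), ∀ n w, w ∈ W n ↔ D.E (n + i) w = w :=
    ⟨fun n => LinearMap.eqLocus (D.E (n + i)) LinearMap.id, fun n w => by
      rw [LinearMap.mem_eqLocus]
      rfl⟩
  obtain ⟨S, h1, h2, h3⟩ := D.dl (D.ρ.tprod D.ρ) (dd D.d) (fun g b => (D.gg_dd g g b).symm)
    (fun n => W (n + 1)) W (by
      intro n g b hb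
      rw [hW] at hb ⊢
      change D.E (n + 1 + i) (D.gg g g b) = D.gg g g b
      rw [← D.gg_E, hb]) (fun n => le_rfl) R hR (by
      intro n x
      rw [hW, ← hRe, D.e_e]) hRd (by
      intro x
      have ha : D.E i (R (D.e 0 x)) = R (D.e 0 x) := by
        have h := hRe 0 (D.e 0 x)
        rw [D.e_e, zero_add] at h
        exact h.symm
      obtain ⟨w', hw', hw⟩ := D.exT i (R (D.e 0 x)) ha
        (by rw [hRd, D.d_e0, map_zero]) (hε _)
      refine ⟨w', ?_, hw⟩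
      rw [hW, zero_add, add_comm 1 i]
      exact hw') (by
      intro n w hw hd
      rw [hW] at hw
      have hp : pr2 D.ε D.ε w = 0 := by
        rw [← hw, add_right_comm n 1 i]
        exact D.pr2_E (n + i) w
      obtain ⟨w', hw', hw2⟩ := D.exT (n + 1 + i) w hw hd hp
      refine ⟨w', ?_, hw2⟩
      rw [hW, add_right_comm (n + 1) 1 i]
      exact hw')
  refine ⟨S, h1, fun n x => ?_, fun x => ?_⟩
  · have h4 : ∀ m, D.E (n + (i + 1)) (S (D.e m x)) = if m = n then S (D.e n x) else 0 := by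
      intro m
      have h5 := h2 m x
      rw [hW] at h5
      by_cases hm : m = n
      · subst hm
        rw [if_pos rfl]
        have h6 : m + 1 + i = m + (i + 1) := by omega
        rw [← h6]
        exact h5
      · rw [if_neg hm, ← h5]
        exact D.E_ne _ _ (by omega) _
    have h5 : S x = ∑ m ∈ Finset.range 4, S (D.e m x) := by
      rw [← map_sum, D.e_sum]
    rw [h5, map_sum, Finset.sum_congr rfl (fun m _ => h4 m), Finset.sum_ite_eq']
    by_cases hn : n < 4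
    · rw [if_pos (Finset.mem_range.2 hn)]
    · rw [if_neg (fun h => hn (Finset.mem_range.1 h)), D.e_top n (by omega), map_zero]
  · have h4 := h3 x
    rw [← h4, add_comm (dd D.d (S x)) (S (D.d x)), ← add_assoc, ZModModule.add_self, zero_add]

/-- PIECE MI-12. PROOF. Recursion (e.g. on a subtype or with `Nat.rec` and `Classical.choose`):
`Δ_(i+1)` by `diag_step` for `R = Δ_i + σ Δ_i`;
`dd (R x) = R (d x)` as `(1 + σ)(Δ_(i-1) + σ Δ_(i-1)) = 0`. -/
theorem exists_diag : ∃ Δ : ℕ → C →ₗ[K] C ⊗[K] C, D.Diag Δ := by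
  obtain ⟨Q, hQ⟩ : ∃ Q : ℕ → (C →ₗ[K] C ⊗[K] C) → Prop, ∀ i Δ, Q i Δ ↔
      (∀ g x, Δ (D.ρ g x) = D.gg g g (Δ x)) ∧ (∀ n x, Δ (D.e n x) = D.E (n + i) (Δ x)) ∧
      ∀ x, dd D.d (Δ x + MI.sg (Δ x)) = Δ (D.d x) + MI.sg (Δ (D.d x)) :=
    ⟨fun i Δ => (∀ g x, Δ (D.ρ g x) = D.gg g g (Δ x)) ∧
      (∀ n x, Δ (D.e n x) = D.E (n + i) (Δ x)) ∧
      ∀ x, dd D.d (Δ x + MI.sg (Δ x)) = Δ (D.d x) + MI.sg (Δ (D.d x)), fun _ _ => Iff.rfl⟩
  have hps : ∀ w : C ⊗[K] C, pr2 D.ε D.ε (MI.sg w) = pr2 D.ε D.ε w := by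
    intro w
    induction w with
    | zero => rw [map_zero]
    | tmul x y => rw [sg_tmul, pr2_tmul, pr2_tmul, mul_comm]
    | add x y hx hy => rw [map_add, map_add, map_add, hx, hy]
  have step : ∀ i Δ, Q i Δ → ∃ Δ', Q (i + 1) Δ' ∧
      ∀ x, dd D.d (Δ' x) = Δ' (D.d x) + (Δ x + MI.sg (Δ x)) := by
    intro i Δ h
    obtain ⟨h1, h2, h3⟩ := (hQ i Δ).1 h
    obtain ⟨S, s1, s2, s3⟩ := D.diag_step i (Δ + MI.sg ∘ₗ Δ) (by
      intro g x
      change Δ (D.ρ g x) + MI.sg (Δ (D.ρ g x)) = D.gg g g (Δ x + MI.sg (Δ x))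
      rw [h1, D.sg_gg, map_add]) (by
      intro n x
      change Δ (D.e n x) + MI.sg (Δ (D.e n x)) = D.E (n + i) (Δ x + MI.sg (Δ x))
      rw [h2, D.sg_E, map_add]) h3 (by
      intro x
      change pr2 D.ε D.ε (Δ x + MI.sg (Δ x)) = 0
      rw [map_add, hps, ZModModule.add_self])
    have s3' : ∀ x, dd D.d (S x) = S (D.d x) + (Δ x + MI.sg (Δ x)) := s3
    refine ⟨S, (hQ _ _).2 ⟨s1, s2, fun x => ?_⟩, s3'⟩
    have e1 : MI.sg (dd D.d (S x)) = dd D.d (MI.sg (S x)) := sg_dd D.d (S x)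
    rw [map_add, ← e1, s3', map_add, map_add, sg_sg]
    have e2 : ∀ a b c e : C ⊗[K] C, a + (c + e) + (b + (e + c)) = a + b := by
      intro a b c e
      have e3 : a + (c + e) + (b + (e + c)) = a + b + ((c + c) + (e + e)) := by abel
      rw [e3, ZModModule.add_self, ZModModule.add_self, add_zero, add_zero]
    exact e2 _ _ _ _
  obtain ⟨Δ0, a1, a2, a3, a4⟩ := D.exists_diag0
  choose! f hf using step
  obtain ⟨F, hF0, hF1⟩ : ∃ F : ℕ → C →ₗ[K] C ⊗[K] C, F 0 = Δ0 ∧ ∀ i, F (i + 1) = f i (F i) :=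
    ⟨fun n => Nat.rec Δ0 (fun i Δ => f i Δ) n, rfl, fun _ => rfl⟩
  have hQF : ∀ i, Q i (F i) := by
    intro i
    induction i with
    | zero =>
      rw [hF0]
      refine (hQ _ _).2 ⟨a1, a2, fun x => ?_⟩
      have e1 : MI.sg (dd D.d (Δ0 x)) = dd D.d (MI.sg (Δ0 x)) := sg_dd D.d (Δ0 x)
      rw [map_add, ← e1, a3]
    | succ i ih =>
      rw [hF1]
      exact (hf i (F i) ih).1
  refine ⟨F, ⟨fun i => ((hQ _ _).1 (hQF i)).1, fun i => ((hQ _ _).1 (hQF i)).2.1, ?_, ?_, ?_⟩⟩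
  · intro x
    rw [hF0]
    exact a3 x
  · intro i x
    rw [hF1]
    exact (hf i (F i) (hQF i)).2 x
  · intro x
    rw [hF0]
    exact a4 x

/-! ### forms -/

/-- PIECE MI-13. The functional `y ↦ lam (x ⊗ y)` of a form has finite support:
`lam (x ⊗ g y) = lam (g⁻¹ x ⊗ y)`. -/
theorem Form.fs {D : Cx G C} {lam : C ⊗[K] C →ₗ[K] K} (h : D.Form lam) (x : C) :
    Fs D.ρ (lam ∘ₗ TensorProduct.mk K C C x) := by
  intro y
  refine ((h.fin (x ⊗ₜ y)).preimage inv_injective.injOn).subset fun g hg => ?_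
  intro h0
  apply hg
  have h1 := h.inv g⁻¹ (x ⊗ₜ D.ρ g y)
  have h2 : D.gg g⁻¹ g⁻¹ (x ⊗ₜ D.ρ g y) = D.gg g⁻¹ 1 (x ⊗ₜ y) := by
    rw [gg_tmul, gg_tmul, map_one, ← Module.End.mul_apply, ← map_mul, inv_mul_cancel, map_one]
  rw [h2] at h1
  exact h1.symm.trans h0

/-- PIECE MI-13. Forms are the same as `G`-maps from `C` to the functionals of finite support. -/
theorem form_of_map (L : C →ₗ[K] (C →ₗ[K] K)) (hL : ∀ g x, L (D.ρ g x) = L x ∘ₗ D.ρ g⁻¹)
    (hfs : ∀ x, Fs D.ρ (L x)) : D.Form (TensorProduct.lift L) := by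
  have h1 : ∀ g h x y, TensorProduct.lift L (D.gg g h (x ⊗ₜ y)) = L x (D.ρ (g⁻¹ * h) y) := by
    intro g h x y
    rw [gg_tmul, TensorProduct.lift.tmul, hL, LinearMap.comp_apply, ← Module.End.mul_apply,
      ← map_mul]
  constructor
  · intro g w
    induction w with
    | zero => simp
    | tmul x y =>
      rw [h1, inv_mul_cancel, map_one, TensorProduct.lift.tmul]
      rfl
    | add x y hx hy => rw [map_add, map_add, map_add, hx, hy]
  · intro w
    induction w with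
    | zero => simp
    | tmul x y =>
      refine ((hfs x y).preimage inv_injective.injOn).subset fun g hg => ?_
      intro h0
      apply hg
      rw [h1, mul_one]
      exact h0
    | add x y hx hy =>
      refine (hx.union hy).subset fun g hg => ?_
      by_contra h
      simp only [Set.mem_union, Set.mem_ofPred_eq, not_or, not_not] at h
      exact hg (by rw [map_add, map_add, h.1, h.2, add_zero])

/-- PIECE MI-13 -/
theorem Form.add {D : Cx G C} {lam mu : C ⊗[K] C →ₗ[K] K} (h : D.Form lam) (h' : D.Form mu) :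
    D.Form (lam + mu) := by
  constructor
  · intro g w
    rw [LinearMap.add_apply, LinearMap.add_apply, h.inv, h'.inv]
  · intro w
    refine ((h.fin w).union (h'.fin w)).subset fun g hg => ?_
    by_contra h0
    simp only [Set.mem_union, Set.mem_ofPred_eq, not_or, not_not] at h0
    exact hg (by rw [LinearMap.add_apply, h0.1, h0.2, add_zero])

theorem Form.sg {D : Cx G C} {lam : C ⊗[K] C →ₗ[K] K} (h : D.Form lam) :
    D.Form (lam ∘ₗ MI.sg) := by
  constructor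
  · intro g w
    rw [LinearMap.comp_apply, LinearMap.comp_apply, sg_gg, h.inv]
  · intro w
    refine ((h.fin (MI.sg w)).preimage inv_injective.injOn).subset fun g hg => ?_
    intro h0
    apply hg
    have h1 := h.inv g⁻¹ (D.gg 1 g (MI.sg w))
    rw [gg_gg, mul_one, inv_mul_cancel] at h1
    rw [LinearMap.comp_apply, sg_gg, ← h1]
    exact h0

theorem Form.E {D : Cx G C} {lam : C ⊗[K] C →ₗ[K] K} (h : D.Form lam) (n : ℕ) :
    D.Form (lam ∘ₗ D.E n) := by
  constructor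
  · intro g w
    rw [LinearMap.comp_apply, LinearMap.comp_apply, ← gg_E, h.inv]
  · intro w
    refine (h.fin (D.E n w)).subset fun g hg => ?_
    intro h0
    apply hg
    rw [LinearMap.comp_apply, ← gg_E]
    exact h0

theorem Form.dd {D : Cx G C} {lam : C ⊗[K] C →ₗ[K] K} (h : D.Form lam) :
    D.Form (lam ∘ₗ MI.dd D.d) := by
  constructor
  · intro g w
    rw [LinearMap.comp_apply, LinearMap.comp_apply, ← gg_dd, h.inv]
  · intro w
    refine (h.fin (MI.dd D.d w)).subset fun g hg => ?_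
    intro h0
    apply hg
    rw [LinearMap.comp_apply, ← gg_dd]
    exact h0

/-- The space of the functionals of finite support. -/
def FB : Submodule K (C →ₗ[K] K) where
  carrier := {ψ | Fs D.ρ ψ}
  add_mem' h1 h2 := Fs.add h1 h2
  zero_mem' := Fs.zero D.ρ
  smul_mem' c ψ h := fun x => (h x).subset fun g hg => by
    intro h0
    apply hg
    rw [LinearMap.smul_apply, h0, smul_zero]

/-- The action of `G` on the functionals of finite support. -/
def Fτ : Representation K G D.FB where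
  toFun g :=
    { toFun := fun ψ => ⟨ψ.1 ∘ₗ D.ρ g⁻¹, Fs.comp_ρ ψ.2 g⁻¹⟩
      map_add' := fun _ _ => rfl
      map_smul' := fun _ _ => rfl }
  map_one' := by
    refine LinearMap.ext fun ψ => Subtype.ext (LinearMap.ext fun x => ?_)
    change ψ.1 (D.ρ 1⁻¹ x) = ψ.1 x
    rw [inv_one, map_one]
    rfl
  map_mul' g h := by
    refine LinearMap.ext fun ψ => Subtype.ext (LinearMap.ext fun x => ?_)
    change ψ.1 (D.ρ (g * h)⁻¹ x) = ψ.1 (D.ρ h⁻¹ (D.ρ g⁻¹ x))
    rw [mul_inv_rev, map_mul]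
    rfl

/-- Composition with the differential. -/
def Fq : D.FB →ₗ[K] D.FB where
  toFun ψ := ⟨ψ.1 ∘ₗ D.d, Fs.comp ψ.2 D.d D.d_ρ⟩
  map_add' _ _ := rfl
  map_smul' _ _ := rfl

theorem Fτ_apply (g : G) (ψ : D.FB) (x : C) : (D.Fτ g ψ).1 x = ψ.1 (D.ρ g⁻¹ x) := rfl

theorem Fq_apply (ψ : D.FB) (x : C) : (D.Fq ψ).1 x = ψ.1 (D.d x) := rfl

/-- The functionals of finite support which live in degree `k`. -/
private def mi14_P (k : ℕ) : Submodule K D.FB where
  carrier := {ψ | ∀ x, ψ.1 (D.e k x) = ψ.1 x}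
  add_mem' h1 h2 := fun x => congrArg₂ (· + ·) (h1 x) (h2 x)
  zero_mem' := fun _ => rfl
  smul_mem' c _ h := fun x => congrArg (c • ·) (h x)

private theorem mi14_mem (k : ℕ) (ψ : D.FB) : ψ ∈ D.mi14_P k ↔ ∀ x, ψ.1 (D.e k x) = ψ.1 x :=
  Iff.rfl

private theorem mi14_inv (k : ℕ) (g : G) (ψ : D.FB) (h : ψ ∈ D.mi14_P k) :
    D.Fτ g ψ ∈ D.mi14_P k := by
  intro x
  rw [Fτ_apply, Fτ_apply, ← D.e_ρ]
  exact h _

/-- Projection to degree `k`. -/
private def mi14_pr (k : ℕ) (ψ : D.FB) : D.FB :=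
  ⟨ψ.1 ∘ₗ D.e k, Fs.comp ψ.2 (D.e k) (D.e_ρ k)⟩

private theorem mi14_pr_mem (k : ℕ) (ψ : D.FB) : D.mi14_pr k ψ ∈ D.mi14_P k := by
  intro x
  change ψ.1 (D.e k (D.e k x)) = ψ.1 (D.e k x)
  rw [D.e_e]

private theorem mi14_q (k : ℕ) (ψ b : D.FB) (h : ψ ∈ D.mi14_P (k + 1))
    (hb : ∀ x, ψ.1 (D.e (k + 1) x) = b.1 (D.d (D.e (k + 1) x))) : D.Fq (D.mi14_pr k b) = ψ := by
  refine Subtype.ext (LinearMap.ext fun x => ?_)
  rw [Fq_apply]
  change b.1 (D.e k (D.d x)) = ψ.1 x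
  rw [← D.d_e, ← hb, h x]

private theorem mi14_E (N n : ℕ) (x y : C) : D.E N (D.e n x ⊗ₜ y) =
    if n ≤ N then D.e n x ⊗ₜ D.e (N - n) y else 0 := by
  unfold Cx.E
  rw [LinearMap.sum_apply]
  simp only [TensorProduct.map_tmul]
  split_ifs with h
  · rw [Finset.sum_eq_single_of_mem n (Finset.mem_range.2 (by omega))]
    · rw [D.e_e]
    · intro p _ hp
      rw [D.e_ne p n x hp, TensorProduct.zero_tmul]
  · refine Finset.sum_eq_zero fun p hp => ?_
    rw [Finset.mem_range] at hp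
    rw [D.e_ne p n x (by omega), TensorProduct.zero_tmul]

/-- PIECE MI-14. PROOF. Let `L x = μ (x ⊗ ·)`; `L (d x) = L x ∘ d`. By `dl` for `B = D.FB`,
action `D.Fτ`, `q = D.Fq`, `R = L`,
`Z n = {ψ | ψ = ψ ∘ e (N - 1 - n)}` if `n < N`, `⊥` otherwise, `W n = {ψ | ψ = ψ ∘ e (N - n)}` if `n ≤ N`, `⊥` otherwise.
`n = 0`: `L (e_0 x) = ε x • L o + L (d y)` with `e_0 x = ε x • o + d y` (`D.ex`), `L o` by `h3`, then project the
primitive to degree `N - 1`. `n ≥ 1`: `ψ ∈ W n`, `ψ ∘ d = 0`: `D.co`, and `ψ = ψ ∘ e (N - n)`, `N - n < 3` kills the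
`z`-part (`z = z ∘ e 3`). The result `M` satisfies `M (x) ∘ d + M (d x) = L x`;
`ν = TensorProduct.lift M`. -/
theorem form_exact (N : ℕ) (hN : N ≤ 3) (mu : C ⊗[K] C →ₗ[K] K) (hmu : D.Form mu)
    (hdeg : ∀ w, mu (D.E N w) = mu w) (hd : ∀ w, mu (MI.dd D.d w) = 0)
    (h3 : ∃ χ : C →ₗ[K] K, Fs D.ρ χ ∧ ∀ y, mu (D.o ⊗ₜ y) = χ (D.d y)) :
    ∃ nu : C ⊗[K] C →ₗ[K] K, D.Form nu ∧ (∀ w, mu w = nu (MI.dd D.d w)) ∧
      ∀ n, N = n + 1 → ∀ w, nu (D.E n w) = nu w := by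
  classical
  obtain ⟨χ, hχ, hχo⟩ := h3
  have hdeg' : ∀ n x y, mu (D.e n x ⊗ₜ y) = if n ≤ N then mu (D.e n x ⊗ₜ D.e (N - n) y) else 0 := by
    intro n x y
    rw [← hdeg, mi14_E]
    split_ifs
    · rfl
    · exact map_zero mu
  have hd' : ∀ x y, mu (x ⊗ₜ D.d y) = mu (D.d x ⊗ₜ y) := by
    intro x y
    have h := hd (x ⊗ₜ y)
    rw [dd_tmul, map_add] at h
    exact (CharTwo.add_eq_zero.1 h).symm
  let L : C →ₗ[K] D.FB :=
    { toFun := fun x => ⟨mu ∘ₗ TensorProduct.mk K C C x, hmu.fs x⟩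
      map_add' := fun x x' => Subtype.ext (LinearMap.ext fun y => by
        change mu ((x + x') ⊗ₜ y) = mu (x ⊗ₜ y) + mu (x' ⊗ₜ y)
        rw [TensorProduct.add_tmul, map_add])
      map_smul' := fun c x => Subtype.ext (LinearMap.ext fun y => by
        change mu ((c • x) ⊗ₜ y) = c • mu (x ⊗ₜ y)
        rw [← TensorProduct.smul_tmul', map_smul]) }
  have hL : ∀ x y, (L x).1 y = mu (x ⊗ₜ y) := fun _ _ => rfl
  let Z : ℕ → Submodule K D.FB := fun n => if n < N then D.mi14_P (N - 1 - n) else ⊥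
  let W : ℕ → Submodule K D.FB := fun n => if n ≤ N then D.mi14_P (N - n) else ⊥
  have hd0 : D.d D.o = 0 := by
    rw [← D.o_e, D.d_e0]
  have hLW : ∀ n x, L (D.e n x) ∈ W n := by
    intro n x
    by_cases h : n ≤ N
    · have h1 : W n = D.mi14_P (N - n) := if_pos h
      rw [h1]
      intro y
      rw [hL, hL, hdeg' n x y, if_pos h]
    · have h1 : W n = ⊥ := if_neg h
      rw [h1, Submodule.mem_bot]
      refine Subtype.ext (LinearMap.ext fun y => ?_)
      rw [hL, hdeg' n x y, if_neg h]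
      rfl
  obtain ⟨M, hM1, hM2, hM3⟩ := D.dl D.Fτ D.Fq (fun g b => by
      refine Subtype.ext (LinearMap.ext fun x => ?_)
      rw [Fq_apply, Fτ_apply, Fτ_apply, Fq_apply, D.d_ρ]) Z W
    (fun n g b hb => by
      by_cases h : n < N
      · have h1 : Z n = D.mi14_P (N - 1 - n) := if_pos h
        rw [h1] at hb ⊢
        exact D.mi14_inv _ g b hb
      · have h1 : Z n = ⊥ := if_neg h
        rw [h1, Submodule.mem_bot] at hb ⊢
        rw [hb, map_zero])
    (fun n => by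
      by_cases h : n < N
      · have h1 : Z n = D.mi14_P (N - 1 - n) := if_pos h
        have h2 : W (n + 1) = D.mi14_P (N - (n + 1)) := if_pos h
        rw [h1, h2]
        have h4 : N - (n + 1) = N - 1 - n := by omega
        rw [h4]
      · have h1 : Z n = ⊥ := if_neg h
        rw [h1]
        exact bot_le) L
    (fun g x => by
      refine Subtype.ext (LinearMap.ext fun y => ?_)
      rw [Fτ_apply, hL, hL, ← hmu.inv g⁻¹ (D.ρ g x ⊗ₜ y), gg_tmul, ← Module.End.mul_apply,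
        ← map_mul, inv_mul_cancel, map_one, Module.End.one_apply])
    hLW
    (fun x => by
      refine Subtype.ext (LinearMap.ext fun y => ?_)
      rw [Fq_apply, hL, hL, hd'])
    (fun x => by
      obtain ⟨y, hy⟩ := D.ex (D.e 0 x - D.ε x • D.o)
        (by rw [map_sub, map_smul, D.d_e0, hd0, smul_zero, sub_zero])
        (by rw [map_sub, map_smul, D.ε_e, D.ε_o, smul_eq_mul, mul_one, sub_self])
      obtain ⟨b0, hb0⟩ : ∃ b0 : D.FB, ∀ u, (L (D.e 0 x)).1 u = b0.1 (D.d u) := by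
        refine ⟨D.ε x • (⟨χ, hχ⟩ : D.FB) + L y, fun u => ?_⟩
        have h1 : D.e 0 x = D.ε x • D.o + D.d y := by
          rw [hy]
          abel
        rw [h1, map_add, map_smul]
        change D.ε x • mu (D.o ⊗ₜ u) + mu (D.d y ⊗ₜ u) = D.ε x • χ (D.d u) + mu (y ⊗ₜ D.d u)
        rw [hχo, hd']
      have hW0 : W 0 = D.mi14_P (N - 0) := if_pos (Nat.zero_le N)
      have hm := hLW 0 x
      rw [hW0, Nat.sub_zero] at hm
      rcases Nat.eq_zero_or_pos N with h | h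
      · refine ⟨0, Submodule.zero_mem _, ?_⟩
        rw [map_zero]
        refine Subtype.ext (LinearMap.ext fun u => ?_)
        rw [← hm u, h, hb0, D.d_e0, map_zero]
        rfl
      · obtain ⟨k, hk⟩ : ∃ k, N = k + 1 := ⟨N - 1, by omega⟩
        rw [hk] at hm
        refine ⟨D.mi14_pr k b0, ?_, D.mi14_q k _ b0 hm fun u => hb0 _⟩
        have h1 : Z 0 = D.mi14_P (N - 1 - 0) := if_pos h
        have h2 : N - 1 - 0 = k := by omega
        rw [h1, h2]
        exact D.mi14_pr_mem k b0)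
    (fun n w hw hq => by
      by_cases h : n + 1 ≤ N
      · have h1 : W (n + 1) = D.mi14_P (N - (n + 1)) := if_pos h
        rw [h1] at hw
        obtain ⟨c, χ', hχ', hw'⟩ := D.co w.1 w.2 (fun x => by
          rw [← Fq_apply, hq]
          rfl)
        have hz : ∀ x, D.z (D.e (N - (n + 1)) x) = 0 := by
          intro x
          rw [← D.z_e, D.e_ne 3 (N - (n + 1)) x (by omega), map_zero]
        have hw2 : ∀ x, w.1 (D.e (N - (n + 1)) x) = χ' (D.d (D.e (N - (n + 1)) x)) := by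
          intro x
          rw [hw', hz, mul_zero, zero_add]
        by_cases h2 : n + 1 = N
        · refine ⟨0, Submodule.zero_mem _, ?_⟩
          rw [map_zero]
          refine Subtype.ext (LinearMap.ext fun u => ?_)
          have h4 : N - (n + 1) = 0 := by omega
          rw [← hw u, hw2, h4, D.d_e0, map_zero]
          rfl
        · obtain ⟨k, hk⟩ : ∃ k, N - (n + 1) = k + 1 := ⟨N - (n + 1) - 1, by omega⟩
          rw [hk] at hw hw2
          refine ⟨D.mi14_pr k ⟨χ', hχ'⟩, ?_, D.mi14_q k w ⟨χ', hχ'⟩ hw hw2⟩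
          have h4 : Z (n + 1) = D.mi14_P (N - 1 - (n + 1)) := if_pos (by omega)
          have h5 : N - 1 - (n + 1) = k := by omega
          rw [h4, h5]
          exact D.mi14_pr_mem k _
      · have h1 : W (n + 1) = ⊥ := if_neg h
        rw [h1, Submodule.mem_bot] at hw
        exact ⟨0, Submodule.zero_mem _, by rw [hw, map_zero]⟩)
  refine ⟨TensorProduct.lift (D.FB.subtype ∘ₗ M),
    D.form_of_map _ (fun g x => ?_) (fun x => (M x).2), fun w => ?_, fun n hn w => ?_⟩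
  · change (M (D.ρ g x)).1 = (M x).1 ∘ₗ D.ρ g⁻¹
    rw [hM1]
    rfl
  · induction w with
    | zero => simp
    | add x y hx hy => rw [map_add, map_add, map_add, hx, hy]
    | tmul x y =>
      rw [dd_tmul, map_add, TensorProduct.lift.tmul, TensorProduct.lift.tmul]
      change mu (x ⊗ₜ y) = (M (D.d x)).1 y + (M x).1 (D.d y)
      have h := congrArg (fun ψ : D.FB => ψ.1 y) (hM3 x)
      change (M x).1 (D.d y) + (M (D.d x)).1 y = mu (x ⊗ₜ y) at h
      rw [← h, add_comm]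
  · induction w with
    | zero => simp
    | add x y hx hy => rw [map_add, map_add, map_add, hx, hy]
    | tmul x y =>
      have h1 : ∀ m, (M (D.e m x)).1 y = if m < N then (M (D.e m x)).1 (D.e (n - m) y) else 0 := by
        intro m
        have h2 := hM2 m x
        split_ifs with h
        · have h4 : Z m = D.mi14_P (N - 1 - m) := if_pos h
          have h5 : N - 1 - m = n - m := by omega
          rw [h4, h5] at h2
          exact (h2 y).symm
        · have h4 : Z m = ⊥ := if_neg h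
          rw [h4, Submodule.mem_bot] at h2
          rw [h2]
          rfl
      have h6 : (M x).1 y = ∑ m ∈ Finset.range 4, (M (D.e m x)).1 y := by
        have h7 : M x = ∑ m ∈ Finset.range 4, M (D.e m x) := by
          rw [← map_sum, D.e_sum]
        have h8 := congrArg (fun ψ : D.FB => D.FB.subtype ψ y) h7
        simp only [map_sum, LinearMap.sum_apply] at h8
        exact h8
      rw [TensorProduct.lift.tmul]
      change TensorProduct.lift (D.FB.subtype ∘ₗ M) (D.E n (x ⊗ₜ y)) = (M x).1 y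
      rw [h6]
      unfold Cx.E
      rw [LinearMap.sum_apply, map_sum]
      have h9 : Finset.range (n + 1) ⊆ Finset.range 4 := by
        intro m hm
        rw [Finset.mem_range] at hm ⊢
        omega
      refine Eq.trans ?_ (Finset.sum_subset h9 fun m _ hm => ?_)
      · refine Finset.sum_congr rfl fun m hm => ?_
        rw [Finset.mem_range] at hm
        rw [TensorProduct.map_tmul, TensorProduct.lift.tmul, h1 m, if_pos (by omega)]
        rfl
      · rw [Finset.mem_range] at hm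
        rw [h1 m, if_neg (by omega)]

private theorem mi15_zd (x : C) : D.z (D.d x) = 0 := by
  rw [← D.z_e, ← D.d_e, D.e_top 4 le_rfl, map_zero, map_zero]

private theorem mi15_fs {ψ : C →ₗ[K] K} (h : Fs D.ρ ψ) (g : G) : Fs D.ρ (ψ ∘ₗ D.ρ g) := by
  intro x
  refine ((h x).preimage (mul_right_injective g).injOn).subset fun k hk => ?_
  intro h0
  apply hk
  change ψ (D.ρ g (D.ρ k x)) = 0
  rw [← Module.End.mul_apply, ← map_mul]
  exact h0

/-- PIECE MI-15. PROOF. `D.co` for `y ↦ mu (o ⊗ y)` (`do = 0`), which is its own composition with `e N`,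
`N < 3` (`z = z ∘ e 3`). -/
theorem form_class (N : ℕ) (hN : N < 3) (mu : C ⊗[K] C →ₗ[K] K) (hmu : D.Form mu)
    (hdeg : ∀ w, mu (D.E N w) = mu w) (hd : ∀ w, mu (MI.dd D.d w) = 0) :
    ∃ χ : C →ₗ[K] K, Fs D.ρ χ ∧ ∀ y, mu (D.o ⊗ₜ y) = χ (D.d y) := by
  have ho : D.d D.o = 0 := by rw [← D.o_e, D.d_e0]
  obtain ⟨n, χ, hχ, he⟩ := D.co (mu ∘ₗ TensorProduct.mk K C C D.o) (hmu.fs D.o) fun x => by
    have h1 := hd (D.o ⊗ₜ x)
    rw [dd_tmul, ho, TensorProduct.zero_tmul, zero_add] at h1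
    exact h1
  have hE : ∀ y, D.E N (D.o ⊗ₜ y) = D.o ⊗ₜ D.e N y := by
    intro y
    unfold Cx.E
    rw [LinearMap.sum_apply, Finset.sum_eq_single 0]
    · rw [TensorProduct.map_tmul, D.o_e, Nat.sub_zero]
    · intro p _ hp
      rw [TensorProduct.map_tmul, ← D.o_e, D.e_ne p 0 _ hp, TensorProduct.zero_tmul]
    · intro h
      exact absurd (Finset.mem_range.2 (Nat.succ_pos N)) h
  have hz : ∀ y, D.z (D.e N y) = 0 := by
    intro y
    rw [← D.z_e, D.e_ne 3 N y (by omega), map_zero]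
  have key : ∀ y, mu (D.o ⊗ₜ y) = χ (D.d (D.e N y)) := by
    intro y
    have h2 := he (D.e N y)
    rw [hz, mul_zero, zero_add] at h2
    rw [← hdeg, hE]
    exact h2
  rcases N with _ | N
  · refine ⟨0, fun x => ?_, fun y => ?_⟩
    · simp
    · rw [key, D.d_e0, map_zero, LinearMap.zero_apply]
  · refine ⟨χ ∘ₗ D.e N, Fs.comp hχ (D.e N) (D.e_ρ N), fun y => ?_⟩
    rw [key, D.d_e]
    rfl

/-- PIECE MI-15. The functional `z` is invariant up to coboundaries. PROOF. `D.co` for `z ∘ ρ g`: `z (g x) = n z x +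
χ (d x)`; `n = 0` is impossible (apply `g⁻¹`: then `z` would be a coboundary, `z_ne`), so `n = 1`. -/
theorem z_ρ (g : G) : ∃ χ : C →ₗ[K] K, Fs D.ρ χ ∧ ∀ x, D.z (D.ρ g x) = D.z x + χ (D.d x) := by
  obtain ⟨n, χ, hχ, he⟩ := D.co (D.z ∘ₗ D.ρ g) (D.mi15_fs D.z_fs g) fun x => by
    change D.z (D.ρ g (D.d x)) = 0
    rw [← D.d_ρ, D.mi15_zd]
  have h1 : ∀ m : K, m = 0 ∨ m = 1 := by decide
  rcases h1 n with rfl | rfl
  · exfalso
    refine D.z_ne ⟨χ ∘ₗ D.ρ g⁻¹, D.mi15_fs hχ g⁻¹, fun x => ?_⟩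
    have h3 := he (D.ρ g⁻¹ x)
    rw [zero_mul, zero_add] at h3
    change D.z (D.ρ g (D.ρ g⁻¹ x)) = χ (D.d (D.ρ g⁻¹ x)) at h3
    rw [← Module.End.mul_apply, ← map_mul, mul_inv_cancel, map_one, D.d_ρ] at h3
    exact h3
  · refine ⟨χ, hχ, fun x => ?_⟩
    have h3 := he x
    rw [one_mul] at h3
    exact h3

/-- functionals of degree `m` -/
private def mi16_P (m : ℕ) : Submodule K D.FB where
  carrier := {ψ | ∀ x, ψ.1 (D.e m x) = ψ.1 x}
  add_mem' {a b} ha hb := fun x => by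
    change a.1 (D.e m x) + b.1 (D.e m x) = a.1 x + b.1 x
    rw [ha x, hb x]
  zero_mem' := fun x => rfl
  smul_mem' c a ha := fun x => by
    change c • a.1 (D.e m x) = c • a.1 x
    rw [ha x]

private theorem mi16_mem_P {m : ℕ} {ψ : D.FB} : ψ ∈ D.mi16_P m ↔ ∀ x, ψ.1 (D.e m x) = ψ.1 x :=
  Iff.rfl

private def mi16_Z (n : ℕ) : Submodule K D.FB :=
  if 1 ≤ n ∧ n ≤ 3 then D.mi16_P (3 - n) else ⊥

private def mi16_W (n : ℕ) : Submodule K D.FB :=
  if n = 1 then D.mi16_P 3 ⊓ LinearMap.range D.Fq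
  else if 2 ≤ n ∧ n ≤ 4 then D.mi16_P (4 - n) else ⊥

/-- compose with a projection -/
private def mi16_ce (m : ℕ) (ψ : D.FB) : D.FB := ⟨ψ.1 ∘ₗ D.e m, Fs.comp ψ.2 (D.e m) (D.e_ρ m)⟩

private theorem mi16_ce_mem (m : ℕ) (ψ : D.FB) : D.mi16_ce m ψ ∈ D.mi16_P m := by
  intro x
  change ψ.1 (D.e m (D.e m x)) = ψ.1 (D.e m x)
  rw [D.e_e]

private theorem mi16_zd (x : C) : D.z (D.d x) = 0 := by
  rw [← D.z_e, ← D.d_e, D.e_top 4 le_rfl, map_zero, map_zero]

private theorem mi16_ze (m : ℕ) (hm : m ≠ 3) (x : C) : D.z (D.e m x) = 0 := by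
  rw [← D.z_e, D.e_ne 3 m x (Ne.symm hm), map_zero]

private def mi16_z : D.FB := ⟨D.z, D.z_fs⟩

private theorem mi16_exact (m : ℕ) (hm : m < 2) (w : D.FB) (hw : w ∈ D.mi16_P (m + 1))
    (h : D.Fq w = 0) : ∃ b ∈ D.mi16_P m, D.Fq b = w := by
  obtain ⟨n, χ, hχ, he⟩ := D.co w.1 w.2 fun x => by
    have := congrArg (fun u : D.FB => u.1 x) h
    exact this
  refine ⟨D.mi16_ce m ⟨χ, hχ⟩, D.mi16_ce_mem m _, Subtype.ext (LinearMap.ext fun x => ?_)⟩
  change χ (D.e m (D.d x)) = w.1 x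
  rw [← hw x, he, D.mi16_ze (m + 1) (by omega), mul_zero, zero_add, D.d_e]

private theorem mi16_exact0 (w : D.FB) (hw : w ∈ D.mi16_P 0) (h : D.Fq w = 0) : w = 0 := by
  obtain ⟨n, χ, hχ, he⟩ := D.co w.1 w.2 fun x => by
    have := congrArg (fun u : D.FB => u.1 x) h
    exact this
  refine Subtype.ext (LinearMap.ext fun x => ?_)
  change w.1 x = 0
  rw [← hw x, he, D.mi16_ze 0 (by omega), mul_zero, zero_add, D.d_e0, map_zero]

/-- the set of values of the pair -/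
private def mi16_S : Submodule K (D.FB × K) where
  carrier := {p | p.1 ∈ D.mi16_P 3 ∧ D.Fq p.1 = 0 ∧ p.1 + p.2 • D.mi16_z ∈ LinearMap.range D.Fq}
  add_mem' {a b} ha hb := by
    refine ⟨(D.mi16_P 3).add_mem ha.1 hb.1, ?_, ?_⟩
    · rw [Prod.fst_add, map_add, ha.2.1, hb.2.1, add_zero]
    · rw [Prod.fst_add, Prod.snd_add, add_smul, add_add_add_comm]
      exact Submodule.add_mem _ ha.2.2 hb.2.2
  zero_mem' := by
    refine ⟨Submodule.zero_mem _, map_zero _, ?_⟩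
    rw [Prod.fst_zero, Prod.snd_zero, zero_smul, add_zero]
    exact Submodule.zero_mem _
  smul_mem' c a ha := by
    refine ⟨Submodule.smul_mem _ c ha.1, ?_, ?_⟩
    · rw [Prod.smul_fst, map_smul, ha.2.1, smul_zero]
    · rw [Prod.smul_fst, Prod.smul_snd, smul_assoc, ← smul_add]
      exact Submodule.smul_mem _ c ha.2.2

private def mi16_τ : Representation K G (D.FB × K) where
  toFun g := LinearMap.prodMap (D.Fτ g) LinearMap.id
  map_one' := by
    rw [map_one]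
    rfl
  map_mul' g h := by
    rw [map_mul]
    rfl

private theorem mi16_q (g : G) (ψ : D.FB) : D.Fq (D.Fτ g ψ) = D.Fτ g (D.Fq ψ) := by
  refine Subtype.ext (LinearMap.ext fun x => ?_)
  change ψ.1 (D.ρ g⁻¹ (D.d x)) = ψ.1 (D.d (D.ρ g⁻¹ x))
  rw [D.d_ρ]

private theorem mi16_Pτ (m : ℕ) (g : G) (ψ : D.FB) (h : ψ ∈ D.mi16_P m) :
    D.Fτ g ψ ∈ D.mi16_P m := by
  intro x
  change ψ.1 (D.ρ g⁻¹ (D.e m x)) = ψ.1 (D.ρ g⁻¹ x)
  rw [← D.e_ρ, h]

private theorem mi16_zz (ψ : D.FB) : ψ + ψ = 0 := ZModModule.add_self ψ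

private theorem mi16_zτ (g : G) : D.Fτ g D.mi16_z + D.mi16_z ∈ LinearMap.range D.Fq := by
  obtain ⟨χ, hχ, h⟩ := D.z_ρ g⁻¹
  refine ⟨⟨χ, hχ⟩, Subtype.ext (LinearMap.ext fun x => ?_)⟩
  change χ (D.d x) = D.z (D.ρ g⁻¹ x) + D.z x
  rw [h, add_right_comm, ZModModule.add_self, zero_add]

private theorem mi16_L0 : ∃ L : C →ₗ[K] D.FB, (∀ g x, L (D.ρ g x) = D.Fτ g (L x)) ∧
    (∀ x, L x ∈ D.mi16_P 3) ∧ (∀ x, D.Fq (L x) = 0) ∧
    ∀ x, L x + D.ε x • D.mi16_z ∈ LinearMap.range D.Fq := by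
  have hS : ∀ g b, b ∈ D.mi16_S → D.mi16_τ g b ∈ D.mi16_S := by
    intro g b hb
    refine ⟨D.mi16_Pτ 3 g b.1 hb.1, ?_, ?_⟩
    · change D.Fq (D.Fτ g b.1) = 0
      rw [D.mi16_q, hb.2.1, map_zero]
    · change D.Fτ g b.1 + b.2 • D.mi16_z ∈ LinearMap.range D.Fq
      obtain ⟨c, hc⟩ := hb.2.2
      obtain ⟨c', hc'⟩ := D.mi16_zτ g
      refine ⟨D.Fτ g c + b.2 • c', ?_⟩
      rw [map_add, map_smul, hc', D.mi16_q, hc, map_add, map_smul, smul_add, add_assoc,
        ← add_assoc (b.2 • D.Fτ g D.mi16_z), mi16_zz, zero_add]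
  have hx : ∀ x, ∃ b ∈ D.mi16_S, LinearMap.snd K D.FB K b = D.ε x := by
    intro x
    refine ⟨(D.ε x • D.mi16_z, D.ε x), ⟨?_, ?_, ?_⟩, rfl⟩
    · exact Submodule.smul_mem _ _ fun y => D.z_e y
    · change D.Fq (D.ε x • D.mi16_z) = 0
      rw [map_smul]
      have : D.Fq D.mi16_z = 0 := Subtype.ext (LinearMap.ext fun y => D.mi16_zd y)
      rw [this, smul_zero]
    · change D.ε x • D.mi16_z + D.ε x • D.mi16_z ∈ LinearMap.range D.Fq
      rw [mi16_zz]
      exact Submodule.zero_mem _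
  have hq : ∀ g b, LinearMap.snd K D.FB K (D.mi16_τ g b) =
      (1 : Representation K G K) g (LinearMap.snd K D.FB K b) := fun g b => rfl
  obtain ⟨F, h1, h2, h3⟩ := D.exists_lift (B := D.FB × K) (B' := K) D.mi16_τ
    (1 : Representation K G K) (LinearMap.snd K D.FB K) hq D.ε (fun g x => D.ε_ρ g x) D.mi16_S hS hx
  refine ⟨LinearMap.fst K D.FB K ∘ₗ F, ?_, ?_, ?_, ?_⟩
  · intro g x
    rw [LinearMap.comp_apply, h1]
    rfl
  · intro x
    exact (h2 x).1
  · intro x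
    exact (h2 x).2.1
  · intro x
    have := (h2 x).2.2
    have h4 : (F x).2 = D.ε x := h3 x
    rw [h4] at this
    exact this

/-- PIECE MI-16. PROOF. Let `B = D.FB` (action `D.Fτ`, `q = D.Fq`). Let
`L_0 x = ∑_j ∑_g φ_j (g⁻¹ x) ε (v_j) z ∘ g⁻¹` (`exists_map`; `L_0 x ∘ d = 0`, `z ∘ d = z ∘ e 3 ∘ d = z ∘ d ∘ e 4 = 0`).
By `z_ρ` and `expand` for `ε`: `L_0 x = ε x • z + χ ∘ d`, `χ` in `B`. Apply `dl` for `R x = L_0 (e 0 (d x))`, with
`Z 0 = ⊥`, `Z n` = the `ψ` with `ψ = ψ ∘ e (3 - n)` for `n = 1, 2, 3`, `Z n = ⊥` for `n ≥ 4`; `W 0 = ⊥`, `W 1` = the `ψ` with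
`ψ = ψ ∘ e 3` which are `χ ∘ d`, `χ` in `B`; `W n` = the `ψ` with `ψ = ψ ∘ e (4 - n)` for `n = 2, 3, 4`, `W n = ⊥` for `n ≥ 5`.
`R (e 1 x)` is in `W 1` as `ε (e 0 (d (e 1 x))) = 0`; `R (e n x) = 0` for `n ≠ 1`. Exactness: `W 1` by definition (project `χ` by
`e 2`), `W 2`, `W 3`, `W 4`: `D.co` (`z ∘ e k = 0` for `k < 3`), project by `e (2 - n)`. The result `M` gives
`lam (x ⊗ y) = L_0 (e 0 x) y + M x y` (`form_of_map`); `lam (dd w) = 0` is `M x ∘ d + M (d x) = R x`.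
`lam (o ⊗ y) = L_0 o y = z y + χ (d y)` (`M o` is in `Z 0`). -/
theorem exists_lam0 : ∃ lam : C ⊗[K] C →ₗ[K] K, D.Form lam ∧ (∀ w, lam (D.E 3 w) = lam w) ∧
    (∀ w, lam (MI.dd D.d w) = 0) ∧
    ∃ χ : C →ₗ[K] K, Fs D.ρ χ ∧ ∀ y, lam (D.o ⊗ₜ y) = D.z y + χ (D.d y) := by
  obtain ⟨L, hL1, hL2, hL3, hL4⟩ := D.mi16_L0
  have hd1 : ∀ x, D.e 0 (D.d (D.e 1 x)) = D.e 0 (D.d x) := fun x => by
    rw [D.d_e, D.e_e]
  have hdn : ∀ n, n ≠ 1 → ∀ x, D.e 0 (D.d (D.e n x)) = 0 := fun n hn x => by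
    rcases n with _ | n
    · rw [D.d_e0, map_zero]
    · rw [D.d_e, D.e_ne 0 n _ (by omega)]
  obtain ⟨M, hM1, hM2, hM3⟩ := D.dl D.Fτ D.Fq D.mi16_q D.mi16_Z D.mi16_W
    (by
      intro n g b hb
      unfold mi16_Z at hb ⊢
      split_ifs at hb ⊢ with h
      · exact D.mi16_Pτ _ g b hb
      · rw [Submodule.mem_bot] at hb ⊢
        rw [hb, map_zero])
    (by
      intro n
      unfold mi16_Z mi16_W
      split_ifs with h h' h'' h''' h4
      · omega
      · have : 4 - (n + 1) = 3 - n := by omega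
        rw [this]
      · omega
      · exact bot_le
      · exact bot_le
      · exact bot_le)
    (L ∘ₗ D.e 0 ∘ₗ D.d)
    (by
      intro g x
      change L (D.e 0 (D.d (D.ρ g x))) = D.Fτ g (L (D.e 0 (D.d x)))
      rw [D.d_ρ, D.e_ρ, hL1])
    (by
      intro n x
      change L (D.e 0 (D.d (D.e n x))) ∈ D.mi16_W n
      by_cases hn : n = 1
      · subst hn
        rw [hd1]
        unfold mi16_W
        rw [if_pos rfl]
        refine ⟨hL2 _, ?_⟩
        have := hL4 (D.e 0 (D.d x))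
        rw [D.ε_e, D.ε_d, zero_smul, add_zero] at this
        exact this
      · rw [hdn n hn, map_zero]
        exact Submodule.zero_mem _)
    (by
      intro x
      change D.Fq (L (D.e 0 (D.d x))) = L (D.e 0 (D.d (D.d x)))
      rw [hL3, D.d_d, map_zero, map_zero])
    (by
      intro x
      refine ⟨0, Submodule.zero_mem _, ?_⟩
      change D.Fq 0 = L (D.e 0 (D.d (D.e 0 x)))
      rw [hdn 0 (by omega), map_zero, map_zero])
    (by
      intro n w hw hq
      unfold mi16_W at hw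
      unfold mi16_Z
      split_ifs at hw with h1 h2
      · have hn : n = 0 := by omega
        subst hn
        rw [if_pos (by omega)]
        obtain ⟨hw1, χ, hχ⟩ := hw
        refine ⟨D.mi16_ce 2 χ, D.mi16_ce_mem 2 χ, Subtype.ext (LinearMap.ext fun x => ?_)⟩
        change χ.1 (D.e 2 (D.d x)) = w.1 x
        rw [← hw1 x, ← hχ, ← D.d_e]
        rfl
      · by_cases h3 : n = 3
        · subst h3
          have := D.mi16_exact0 w hw hq
          subst this
          exact ⟨0, Submodule.zero_mem _, map_zero _⟩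
        · rw [if_pos (by omega)]
          have e1 : 4 - (n + 1) = 3 - (n + 1) + 1 := by omega
          rw [e1] at hw
          exact D.mi16_exact (3 - (n + 1)) (by omega) w hw hq
      · rw [Submodule.mem_bot] at hw
        subst hw
        exact ⟨0, Submodule.zero_mem _, map_zero _⟩)
  have hM0 : ∀ x, M (D.e 0 x) = 0 := fun x => by
    have := hM2 0 x
    unfold mi16_Z at this
    rw [if_neg (by omega), Submodule.mem_bot] at this
    exact this
  have hMn : ∀ n, 1 ≤ n → n ≤ 3 → ∀ x, M (D.e n x) ∈ D.mi16_P (3 - n) := fun n h1 h2 x => by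
    have := hM2 n x
    unfold mi16_Z at this
    rw [if_pos ⟨h1, h2⟩] at this
    exact this
  let N : C →ₗ[K] (C →ₗ[K] K) := D.FB.subtype ∘ₗ (L ∘ₗ D.e 0 + M)
  have hN : ∀ x y, N x y = (L (D.e 0 x)).1 y + (M x).1 y := fun x y => rfl
  refine ⟨TensorProduct.lift N, D.form_of_map N ?_ ?_, ?_, ?_, ?_⟩
  · intro g x
    refine LinearMap.ext fun y => ?_
    change (L (D.e 0 (D.ρ g x))).1 y + (M (D.ρ g x)).1 y =
      (L (D.e 0 x)).1 (D.ρ g⁻¹ y) + (M x).1 (D.ρ g⁻¹ y)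
    rw [D.e_ρ, hL1, hM1]
    rfl
  · intro x
    exact ((L ∘ₗ D.e 0 + M) x).2
  · intro w
    induction w with
    | zero => simp
    | add x y hx hy => rw [map_add, map_add, map_add, hx, hy]
    | tmul x y =>
      have hE : D.E 3 (x ⊗ₜ[K] y) = ∑ p ∈ Finset.range 4, D.e p x ⊗ₜ[K] D.e (3 - p) y := by
        unfold E
        rw [LinearMap.sum_apply]
        rfl
      have key : ∀ p ∈ Finset.range 4, N (D.e p x) (D.e (3 - p) y) = N (D.e p x) y := by
        intro p hp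
        rw [Finset.mem_range] at hp
        rw [hN, hN]
        rcases Nat.eq_zero_or_pos p with h | h
        · subst h
          rw [D.e_e, hM0, hL2]
          rfl
        · rw [D.e_ne 0 p x (by omega), map_zero, hMn p h (by omega) x y]
          rfl
      rw [hE, map_sum, TensorProduct.lift.tmul]
      conv_rhs => rw [← D.e_sum x]
      rw [map_sum, LinearMap.sum_apply]
      refine Finset.sum_congr rfl fun p hp => ?_
      rw [TensorProduct.lift.tmul]
      exact key p hp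
  · intro w
    induction w with
    | zero => simp
    | add x y hx hy => rw [map_add, map_add, hx, hy, add_zero]
    | tmul x y =>
      rw [dd_tmul, map_add, TensorProduct.lift.tmul, TensorProduct.lift.tmul, hN, hN]
      have h1 : (L (D.e 0 x)).1 (D.d y) = 0 := congrArg (fun u : D.FB => u.1 y) (hL3 (D.e 0 x))
      have h2 : (M x).1 (D.d y) + (M (D.d x)).1 y = (L (D.e 0 (D.d x))).1 y :=
        congrArg (fun u : D.FB => u.1 y) (hM3 x)
      rw [h1, zero_add, ← h2, add_assoc, add_comm ((M (D.d x)).1 y) ((M x).1 (D.d y)),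
        ZModModule.add_self]
  · obtain ⟨χ, hχ⟩ := hL4 D.o
    refine ⟨χ.1, χ.2, fun y => ?_⟩
    rw [TensorProduct.lift.tmul, hN, D.o_e]
    have h0 : (M D.o).1 y = 0 := by
      rw [← D.o_e, hM0]
      rfl
    have h1 : χ.1 (D.d y) = (L D.o).1 y + D.ε D.o • D.z y := congrArg (fun u : D.FB => u.1 y) hχ
    rw [h0, h1, D.ε_o, one_smul, add_zero, add_comm (D.z y), add_assoc, ZModModule.add_self,
      add_zero]

private theorem mi17_zero : D.Form (0 : C ⊗[K] C →ₗ[K] K) where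
  inv := fun _ _ => rfl
  fin := fun w => by
    have h : {g : G | (0 : C ⊗[K] C →ₗ[K] K) (D.gg g 1 w) ≠ 0} = ∅ := by
      ext g
      simp
    rw [h]
    exact Set.finite_empty

private theorem mi17_step (N : ℕ) (hN : N < 3) (lam : C ⊗[K] C →ₗ[K] K) (hl : D.Form lam)
    (hdeg : ∀ w, lam (D.E N w) = lam w)
    (hd : ∀ w, lam (MI.dd D.d w) + lam (MI.dd D.d (MI.sg w)) = 0) :
    ∃ nu : C ⊗[K] C →ₗ[K] K, D.Form nu ∧ (∀ w, nu (MI.dd D.d w) = lam w + lam (MI.sg w)) ∧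
      ∀ n, N = n + 1 → ∀ w, nu (D.E n w) = nu w := by
  have hf : D.Form (lam + lam ∘ₗ MI.sg) := hl.add hl.sg
  have h1 : ∀ w, (lam + lam ∘ₗ MI.sg) (D.E N w) = (lam + lam ∘ₗ MI.sg) w := by
    intro w
    rw [LinearMap.add_apply, LinearMap.add_apply, LinearMap.comp_apply, LinearMap.comp_apply,
      D.sg_E, hdeg, hdeg]
  have h2 : ∀ w, (lam + lam ∘ₗ MI.sg) (MI.dd D.d w) = 0 := by
    intro w
    rw [LinearMap.add_apply, LinearMap.comp_apply, MI.sg_dd, hd]
  obtain ⟨nu, h3, h4, h5⟩ := D.form_exact N hN.le _ hf h1 h2 (D.form_class N hN _ hf h1 h2)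
  refine ⟨nu, h3, fun w => ?_, h5⟩
  rw [← h4, LinearMap.add_apply, LinearMap.comp_apply]

/-- PIECE MI-17. PROOF. `λ_0` from `exists_lam0`. `μ = λ_0 + λ_0 σ` is a cocycle of degree `3`; by `D.co`
`λ_0 (y ⊗ o) = n z y + χ (d y)`, and `n = 1`: otherwise `λ_0 σ = ν ∂` by `form_exact`, so `λ_0 = ν σ ∂`, so
`λ_0 (o ⊗ y) = ν σ (o ⊗ d y)` is a coboundary, contradiction to `z_ne`. So `form_exact` gives `λ_1`.
`λ_1 + λ_1 σ`, `λ_2 + λ_2 σ` are cocycles of degree `2`, `1`: `form_class`, `form_exact`: `λ_2`, `λ_3`;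
`λ_3 + λ_3 σ` is a cocycle of degree `0`, `form_class`, `form_exact`, and `dd (E 0 w) = 0`: it is `0`.
`λ_j = 0` for `j ≥ 4`. -/
theorem exists_forms : ∃ lam : ℕ → C ⊗[K] C →ₗ[K] K, D.Forms lam := by
  obtain ⟨l0, hf0, hdeg0, hd0, χ0, hχ0, hz0⟩ := D.exists_lam0
  have hdo : D.d D.o = 0 := by
    rw [← D.o_e, D.d_e0]
  have hdeg0' : ∀ w, (l0 ∘ₗ MI.sg) (D.E 3 w) = (l0 ∘ₗ MI.sg) w := by
    intro w
    rw [LinearMap.comp_apply, LinearMap.comp_apply, D.sg_E, hdeg0]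
  have hd0' : ∀ w, (l0 ∘ₗ MI.sg) (MI.dd D.d w) = 0 := by
    intro w
    rw [LinearMap.comp_apply, MI.sg_dd, hd0]
  have hψ : ∀ y, ((l0 ∘ₗ MI.sg) ∘ₗ TensorProduct.mk K C C D.o) y = l0 (y ⊗ₜ D.o) := fun _ => rfl
  obtain ⟨n, χ, hχ, hn⟩ := D.co ((l0 ∘ₗ MI.sg) ∘ₗ TensorProduct.mk K C C D.o) (hf0.sg.fs D.o)
    (fun y => by
      rw [hψ]
      have h := hd0 (y ⊗ₜ D.o)
      rw [MI.dd_tmul, hdo, TensorProduct.tmul_zero, add_zero] at h
      exact h)
  have hn1 : n = 1 := by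
    have h01 : n = 0 ∨ n = 1 := (by decide : ∀ m : K, m = 0 ∨ m = 1) n
    rcases h01 with h0 | h1
    · exfalso
      obtain ⟨nu, hnu, hnu1, -⟩ := D.form_exact 3 le_rfl (l0 ∘ₗ MI.sg) hf0.sg hdeg0' hd0'
        ⟨χ, hχ, fun y => by
          have h := hn y
          rw [h0, zero_mul, zero_add] at h
          exact h⟩
      refine D.z_ne ⟨χ0 + (nu ∘ₗ MI.sg) ∘ₗ TensorProduct.mk K C C D.o, hχ0.add (hnu.sg.fs D.o),
        fun y => ?_⟩
      have h2 := hnu1 (MI.sg (D.o ⊗ₜ y))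
      rw [LinearMap.comp_apply, MI.sg_sg, hz0, ← MI.sg_dd, MI.dd_tmul, hdo,
        TensorProduct.zero_tmul, zero_add] at h2
      rw [LinearMap.add_apply]
      change D.z y = χ0 (D.d y) + nu (MI.sg (D.o ⊗ₜ D.d y))
      rw [← h2, add_comm (D.z y), ← add_assoc, ZModModule.add_self, zero_add]
    · exact h1
  have hf0s : D.Form (l0 + l0 ∘ₗ MI.sg) := hf0.add hf0.sg
  obtain ⟨l1, hf1, hd1, hdeg1⟩ := D.form_exact 3 le_rfl (l0 + l0 ∘ₗ MI.sg) hf0s
    (fun w => by rw [LinearMap.add_apply, LinearMap.add_apply, hdeg0, hdeg0'])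
    (fun w => by rw [LinearMap.add_apply, hd0, hd0', add_zero])
    ⟨χ0 + χ, hχ0.add hχ, fun y => by
      have h := hn y
      rw [hn1, one_mul, LinearMap.comp_apply, TensorProduct.mk_apply] at h
      rw [LinearMap.add_apply, hz0, h, LinearMap.add_apply]
      have h3 : ∀ a b c : K, a + b + (a + c) = (a + a) + (b + c) := fun a b c => by ring
      rw [h3, ZModModule.add_self, zero_add]⟩
  have hd1' : ∀ w, l1 (MI.dd D.d w) = l0 w + l0 (MI.sg w) := by
    intro w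
    rw [← hd1, LinearMap.add_apply, LinearMap.comp_apply]
  have hcl : ∀ l m : C ⊗[K] C →ₗ[K] K, (∀ w, l (MI.dd D.d w) = m w + m (MI.sg w)) →
      ∀ w, l (MI.dd D.d w) + l (MI.dd D.d (MI.sg w)) = 0 := by
    intro l m h w
    rw [h, h, MI.sg_sg, add_comm (m (MI.sg w)), ZModModule.add_self]
  obtain ⟨l2, hf2, hd2, hdeg2⟩ := D.mi17_step 2 (by norm_num) l1 hf1 (hdeg1 2 rfl) (hcl l1 l0 hd1')
  obtain ⟨l3, hf3, hd3, hdeg3⟩ := D.mi17_step 1 (by norm_num) l2 hf2 (hdeg2 1 rfl) (hcl l2 l1 hd2)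
  obtain ⟨l4, hf4, hd4, -⟩ := D.mi17_step 0 (by norm_num) l3 hf3 (hdeg3 0 rfl) (hcl l3 l2 hd3)
  have h3 : ∀ w, l3 w + l3 (MI.sg w) = 0 := by
    intro w
    have h5 := hd4 (D.E 0 w)
    rw [D.dd_E0, map_zero, D.sg_E, hdeg3 0 rfl, hdeg3 0 rfl] at h5
    exact h5.symm
  refine ⟨fun j => match j with
    | 0 => l0
    | 1 => l1
    | 2 => l2
    | 3 => l3
    | _ => 0, ?_⟩
  exact
    { form := fun j => by
        rcases j with _ | _ | _ | _ | j
        · exact hf0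
        · exact hf1
        · exact hf2
        · exact hf3
        · exact D.mi17_zero
      deg := fun j hj w => by
        rcases j with _ | _ | _ | _ | j
        · exact hdeg0 w
        · exact hdeg1 2 rfl w
        · exact hdeg2 1 rfl w
        · exact hdeg3 0 rfl w
        · omega
      top := fun j hj => by
        rcases j with _ | _ | _ | _ | j
        · omega
        · omega
        · omega
        · omega
        · rfl
      d0 := hd0
      d1 := fun j w => by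
        rcases j with _ | _ | _ | _ | j
        · exact hd1' w
        · exact hd2 w
        · exact hd3 w
        · exact (h3 w).symm
        · exact (add_zero (0 : K)).symm
      z := ⟨χ0, hχ0, hz0⟩ }

end Cx

end Pool.Agent.Helper31.MI
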