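import Pool.Agent.Helper31.MI.Form

/-!
# Project MI: the fundamental chain, families, the trace
-/

set_option autoImplicit false

namespace Pool.Agent.Helper31.MI

open TensorProduct

variable {G C : Type} [Group G] [AddCommGroup C] [Module K C]

namespace Cx

variable (D : Cx G C)

private theorem exists_t_fin {φ : C →ₗ[K] K} (h : Fs D.ρ φ) (x : C) :
    {g : G | φ (D.ρ g⁻¹ x) ≠ 0}.Finite :=
  Set.Finite.preimage inv_injective.injOn (h x)

private theorem exists_t_supp {B : Type} [AddCommGroup B] [Module K B] {φ : C →ₗ[K] K}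
    (h : Fs D.ρ φ) (x : C) (b : G → B) :
    (Function.support fun g : G => φ (D.ρ g⁻¹ x) • b g).Finite := by
  refine (D.exists_t_fin h x).subset fun g hg => ?_
  rw [Function.mem_support] at hg
  intro h0
  apply hg
  change φ (D.ρ g⁻¹ x) • b g = 0
  rw [h0, zero_smul]

private theorem exists_t_e4 (x : C) : D.e 4 x = 0 := by
  rw [← D.e_sum (D.e 4 x)]
  refine Finset.sum_eq_zero fun n hn => ?_
  have h1 := Finset.mem_range.1 hn
  exact D.e_ne n 4 x (by omega)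

/-- PIECE MI-18. For every `j` the functional `φ_j ∘ e 3` is `n_j z + ψ_j d` (`D.co`; `e 3 (d x) = d (e 4 x) = 0`). PROOF of the
formula: apply `f ∘ e 3` to `D.span (e 3 x)`; `φ_j (g⁻¹ e_3 x) = n_j z (g⁻¹ x) + ψ_j (g⁻¹ d x)`;
`t = ∑ n_j • e_3 v_j`. -/
theorem exists_t : ∃ (t : C) (ψ : D.J → C →ₗ[K] K), D.e 3 t = t ∧ (∀ j, Fs D.ρ (ψ j)) ∧
    ∀ (B : Type) [AddCommGroup B] [Module K B] (f : C →ₗ[K] B) (x : C),
      f (D.e 3 x) = (∑ᶠ g : G, D.z (D.ρ g⁻¹ x) • f (D.ρ g t)) +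
        ∑ j, ∑ᶠ g : G, ψ j (D.ρ g⁻¹ (D.d x)) • f (D.ρ g (D.e 3 (D.v j))) := by
  have h1 : ∀ j, ∃ (n : K) (χ : C →ₗ[K] K), Fs D.ρ χ ∧
      ∀ x, D.φ j (D.e 3 x) = n * D.z x + χ (D.d x) := by
    intro j
    refine D.co (D.φ j ∘ₗ D.e 3) (fun x => ?_) (fun x => ?_)
    · refine (D.fs j (D.e 3 x)).subset fun g hg => ?_
      change D.φ j (D.e 3 (D.ρ g x)) ≠ 0 at hg
      rw [D.e_ρ] at hg
      exact hg
    · change D.φ j (D.e 3 (D.d x)) = 0
      rw [← D.d_e 3 x, D.exists_t_e4, map_zero, map_zero]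
  choose n ψ hψ h2 using h1
  refine ⟨∑ j, n j • D.e 3 (D.v j), ψ, ?_, hψ, ?_⟩
  · rw [map_sum]
    refine Finset.sum_congr rfl fun j _ => ?_
    rw [map_smul, D.e_e]
  · intro B _ _ f x
    have h3 : f (D.e 3 x) = ∑ j, ∑ᶠ g : G, D.φ j (D.ρ g⁻¹ (D.e 3 x)) •
        f (D.ρ g (D.e 3 (D.v j))) := by
      have h4 := congrArg (fun y => f (D.e 3 y)) (D.span (D.e 3 x))
      change f (D.e 3 (∑ j, ∑ᶠ g : G, D.φ j (D.ρ g⁻¹ (D.e 3 x)) • D.ρ g (D.v j))) =
        f (D.e 3 (D.e 3 x)) at h4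
      rw [D.e_e, map_sum, map_sum] at h4
      rw [← h4]
      refine Finset.sum_congr rfl fun j _ => ?_
      have h5 := D.exists_t_supp (D.fs j) (D.e 3 x) fun g => D.ρ g (D.v j)
      have h6 : f (D.e 3 (∑ᶠ g : G, D.φ j (D.ρ g⁻¹ (D.e 3 x)) • D.ρ g (D.v j))) =
          ∑ᶠ g : G, f (D.e 3 (D.φ j (D.ρ g⁻¹ (D.e 3 x)) • D.ρ g (D.v j))) :=
        AddMonoidHom.map_finsum (f ∘ₗ D.e 3).toAddMonoidHom h5
      rw [h6]
      refine finsum_congr fun g => ?_
      rw [map_smul, map_smul, D.e_ρ]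
    rw [h3]
    have h4 : ∀ j, ∑ᶠ g : G, D.φ j (D.ρ g⁻¹ (D.e 3 x)) • f (D.ρ g (D.e 3 (D.v j))) =
        (∑ᶠ g : G, D.z (D.ρ g⁻¹ x) • (n j • f (D.ρ g (D.e 3 (D.v j))))) +
          ∑ᶠ g : G, ψ j (D.ρ g⁻¹ (D.d x)) • f (D.ρ g (D.e 3 (D.v j))) := by
      intro j
      rw [← finsum_add_distrib
        (f := fun g : G => D.z (D.ρ g⁻¹ x) • (n j • f (D.ρ g (D.e 3 (D.v j)))))
        (g := fun g : G => ψ j (D.ρ g⁻¹ (D.d x)) • f (D.ρ g (D.e 3 (D.v j))))
        (D.exists_t_supp D.z_fs x _) (D.exists_t_supp (hψ j) (D.d x) _)]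
      refine finsum_congr fun g => ?_
      rw [← D.e_ρ, h2, D.d_ρ, add_smul, mul_comm, mul_smul]
    rw [Finset.sum_congr rfl fun j _ => h4 j, Finset.sum_add_distrib]
    congr 1
    rw [← finsum_sum_comm Finset.univ
      (fun (g : G) (j : D.J) => D.z (D.ρ g⁻¹ x) • (n j • f (D.ρ g (D.e 3 (D.v j)))))
      fun j _ => D.exists_t_supp D.z_fs x _]
    refine finsum_congr fun g => ?_
    rw [map_sum, map_sum, Finset.smul_sum]
    refine Finset.sum_congr rfl fun j _ => ?_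
    rw [map_smul, map_smul]

private theorem mi19_smul {ρ : Representation K G C} {φ : C →ₗ[K] K} (h : Fs ρ φ) (c : K) :
    Fs ρ (c • φ) := fun x => (h x).subset fun g hg => by
  intro h0
  apply hg
  rw [LinearMap.smul_apply, h0, smul_zero]

private theorem mi19_K (a n : K) (h : a ≠ n) : a + n = 1 := by
  revert a n
  decide

/-- PIECE MI-19. PROOF. In the formula of `exists_t` for `f = ψ`: the sums over `g` run over finite sets which do not
depend on `x` (`ψ (g t) ≠ 0`, `ψ (g e_3 v_j) ≠ 0`), `z (g⁻¹ x) = z x + χ_g (d x)` (`z_ρ`), so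
`ψ (e_3 x) = (∑ᶠ g, ψ (g t)) z x + χ' (d x)` with `χ'` of finite support. Also `ψ (e_3 x) = n z x + χ (d (e_3 x))`.
Compare: `z_ne` and `K = {0, 1}`. -/
theorem mass_of {t : C} {ψ' : D.J → C →ₗ[K] K} (hψ' : ∀ j, Fs D.ρ (ψ' j))
    (hf : ∀ (B : Type) [AddCommGroup B] [Module K B] (f : C →ₗ[K] B) (x : C),
      f (D.e 3 x) = (∑ᶠ g : G, D.z (D.ρ g⁻¹ x) • f (D.ρ g t)) +
        ∑ j, ∑ᶠ g : G, ψ' j (D.ρ g⁻¹ (D.d x)) • f (D.ρ g (D.e 3 (D.v j))))
    (ψ : C →ₗ[K] K) (hψ : Fs D.ρ ψ) (n : K) (χ : C →ₗ[K] K) (hχ : Fs D.ρ χ)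
    (h : ∀ x, ψ x = n * D.z x + χ (D.d x)) : ∑ᶠ g : G, ψ (D.ρ g t) = n := by
  classical
  choose X hX1 hX2 using fun g : G => D.z_ρ g⁻¹
  obtain ⟨S, hS⟩ : ∃ S : Finset G, S = (hψ t).toFinset := ⟨_, rfl⟩
  obtain ⟨T, hT⟩ : ∃ T : D.J → Finset G, ∀ j, T j = (hψ (D.e 3 (D.v j))).toFinset :=
    ⟨_, fun j => rfl⟩
  have hSm : ∀ g, g ∉ S → ψ (D.ρ g t) = 0 := by
    intro g hg
    by_contra h0
    exact hg (by rw [hS, Set.Finite.mem_toFinset]; exact h0)
  have hTm : ∀ j g, g ∉ T j → ψ (D.ρ g (D.e 3 (D.v j))) = 0 := by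
    intro j g hg
    by_contra h0
    exact hg (by rw [hT, Set.Finite.mem_toFinset]; exact h0)
  have ha : ∑ᶠ g : G, ψ (D.ρ g t) = ∑ g ∈ S, ψ (D.ρ g t) := by
    refine finsum_eq_sum_of_support_subset _ fun g hg => ?_
    by_contra h0
    exact hg (hSm g h0)
  obtain ⟨χ', hχ'⟩ : ∃ χ' : C →ₗ[K] K, χ' = (∑ g ∈ S, ψ (D.ρ g t) • X g) +
      ∑ j, ∑ g ∈ T j, ψ (D.ρ g (D.e 3 (D.v j))) • (ψ' j ∘ₗ D.ρ g⁻¹) := ⟨_, rfl⟩
  have hχ'f : Fs D.ρ χ' := by
    rw [hχ']
    refine Fs.add (Fs.sum _ _ fun g _ => mi19_smul (hX1 g) _) ?_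
    refine Fs.sum _ _ fun j _ => Fs.sum _ _ fun g _ => mi19_smul ?_ _
    exact Fs.comp_ρ (hψ' j) g⁻¹
  have key : ∀ x, ψ (D.e 3 x) = (∑ᶠ g : G, ψ (D.ρ g t)) * D.z x + χ' (D.d x) := by
    intro x
    rw [hf K ψ x, ha]
    have e1 : ∑ᶠ g : G, D.z (D.ρ g⁻¹ x) • ψ (D.ρ g t) =
        ∑ g ∈ S, D.z (D.ρ g⁻¹ x) • ψ (D.ρ g t) := by
      refine finsum_eq_sum_of_support_subset _ fun g hg => ?_
      by_contra h0
      exact hg (by beta_reduce; rw [hSm g h0, smul_zero])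
    have e2 : ∀ j, ∑ᶠ g : G, ψ' j (D.ρ g⁻¹ (D.d x)) • ψ (D.ρ g (D.e 3 (D.v j))) =
        ∑ g ∈ T j, ψ' j (D.ρ g⁻¹ (D.d x)) • ψ (D.ρ g (D.e 3 (D.v j))) := by
      intro j
      refine finsum_eq_sum_of_support_subset _ fun g hg => ?_
      by_contra h0
      exact hg (by beta_reduce; rw [hTm j g h0, smul_zero])
    rw [e1, Finset.sum_congr rfl fun j _ => e2 j, hχ', LinearMap.add_apply,
      LinearMap.sum_apply, LinearMap.sum_apply, Finset.sum_mul, ← add_assoc,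
      ← Finset.sum_add_distrib]
    congr 1
    · refine Finset.sum_congr rfl fun g _ => ?_
      rw [hX2 g x, LinearMap.smul_apply, smul_eq_mul, smul_eq_mul]
      ring
    · refine Finset.sum_congr rfl fun j _ => ?_
      rw [LinearMap.sum_apply]
      refine Finset.sum_congr rfl fun g _ => ?_
      rw [LinearMap.smul_apply, LinearMap.comp_apply, smul_eq_mul, smul_eq_mul, mul_comm]
  by_contra hne
  have h1 := mi19_K _ _ hne
  apply D.z_ne
  refine ⟨χ' + χ ∘ₗ D.e 2, Fs.add hχ'f (Fs.comp hχ (D.e 2) (D.e_ρ 2)), fun x => ?_⟩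
  have h2 := key x
  have h3 : ψ (D.e 3 x) = n * D.z x + χ (D.e 2 (D.d x)) := by
    rw [h (D.e 3 x), D.z_e, D.d_e 2 x]
  rw [h3] at h2
  have h4 : D.z x = (∑ᶠ g : G, ψ (D.ρ g t) + n) * D.z x := by rw [h1, one_mul]
  rw [LinearMap.add_apply, LinearMap.comp_apply, h4, add_mul]
  have h5 : ∀ a b c e : K, b + c = a + e → a + b = e + c := by decide
  exact h5 _ _ _ _ h2

/-- PIECE MI-19. PROOF. `∑ᶠ g, φ_j (g d t) = 0` by the mass formula for `φ_j ∘ d` (`n = 0`). So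
`ω (d t) = ∑_j (∑ᶠ g, φ_j (g⁻¹ d t)) ω (v_j) = 0` (`expand`). -/
theorem bd_of {t : C}
    (hm : ∀ ψ : C →ₗ[K] K, Fs D.ρ ψ → ∀ (n : K) (χ : C →ₗ[K] K), Fs D.ρ χ →
      (∀ x, ψ x = n * D.z x + χ (D.d x)) → ∑ᶠ g : G, ψ (D.ρ g t) = n)
    (ω : C →ₗ[K] K) (hω : ∀ g x, ω (D.ρ g x) = ω x) : ω (D.d t) = 0 := by
  rw [D.expand ω (D.d t)]
  refine Finset.sum_eq_zero fun j _ => ?_
  have h1 := hm (D.φ j ∘ₗ D.d) (Fs.comp (D.fs j) D.d D.d_ρ) 0 (D.φ j) (D.fs j) (fun x => by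
    rw [zero_mul, zero_add]
    rfl)
  have h2 : ∑ᶠ g : G, D.φ j (D.ρ g⁻¹ (D.d t)) = 0 := by
    rw [← h1, ← finsum_comp_equiv (Equiv.inv G)]
    refine finsum_congr fun g => ?_
    rw [Equiv.inv_apply, inv_inv, LinearMap.comp_apply, D.d_ρ]
  have h3 : ∑ᶠ g : G, D.φ j (D.ρ g⁻¹ (D.d t)) • ω (D.ρ g (D.v j)) =
      (∑ᶠ g : G, D.φ j (D.ρ g⁻¹ (D.d t))) * ω (D.v j) := by
    rw [finsum_mul' _ _ (Fs.fin_inv (D.fs j) (D.d t))]
    refine finsum_congr fun g => ?_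
    rw [hω, smul_eq_mul]
  rw [h3, h2, zero_mul]

private theorem mi20_sum {ι : Type} (s : Finset ι) (H : ι → G → C →ₗ[K] K)
    (hH : ∀ i ∈ s, D.Fam (H i)) : D.Fam (fun w => ∑ i ∈ s, H i w) := by
  refine ⟨fun w g x => ?_, fun x => ?_⟩
  · rw [LinearMap.sum_apply, LinearMap.sum_apply]
    exact Finset.sum_congr rfl fun i hi => (hH i hi).eqv w g x
  · refine (Set.Finite.biUnion s.finite_toSet (t := fun i => {w | H i w x ≠ 0})
      fun i hi => (hH i hi).fin x).subset ?_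
    intro w hw
    by_contra hne
    apply hw
    rw [LinearMap.sum_apply]
    refine Finset.sum_eq_zero fun i hi => ?_
    by_contra h0
    exact hne (Set.mem_biUnion hi h0)

private theorem mi20_add {F H : G → C →ₗ[K] K} (hF : D.Fam F) (hH : D.Fam H) :
    D.Fam (fun w => F w + H w) := by
  refine ⟨fun w g x => ?_, fun x => ?_⟩
  · rw [LinearMap.add_apply, LinearMap.add_apply, hF.eqv, hH.eqv]
  · refine ((hF.fin x).union (hH.fin x)).subset fun w hw => ?_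
    by_contra hne
    apply hw
    simp only [Set.mem_union, Set.mem_ofPred_eq, not_or, not_not] at hne
    rw [LinearMap.add_apply, hne.1, hne.2, add_zero]

private theorem mi20_tw {φ : C →ₗ[K] K} (hφ : Fs D.ρ φ) (a : G → G → K)
    (ha : ∀ w b g, a w (b * g) = a (b⁻¹ * w * b) g) (hfin : ∀ g, {w | a w g ≠ 0}.Finite) :
    ∃ h : G → C →ₗ[K] K, D.Fam h ∧ ∀ w x, h w x = ∑ᶠ g : G, φ (D.ρ g⁻¹ x) • a w g := by
  choose h hh using fun w => exists_tw hφ (a w)
  refine ⟨h, ⟨fun w b x => ?_, fun x => ?_⟩, hh⟩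
  · rw [hh, hh, ← finsum_comp_equiv (Equiv.mulLeft b)]
    refine finsum_congr fun g => ?_
    have h1 : D.ρ (b * g)⁻¹ (D.ρ b x) = D.ρ g⁻¹ x := by
      rw [← Module.End.mul_apply, ← map_mul, mul_inv_rev, inv_mul_cancel_right]
    rw [Equiv.coe_mulLeft, ha, h1]
  · refine ((hφ.fin_inv x).biUnion fun g _ => hfin g).subset fun w hw => ?_
    by_contra hne
    apply hw
    rw [hh]
    refine finsum_eq_zero_of_forall_eq_zero fun g => ?_
    by_cases h1 : φ (D.ρ g⁻¹ x) = 0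
    · rw [h1, zero_smul]
    · by_cases h2 : a w g = 0
      · rw [h2, smul_zero]
      · exact absurd (Set.mem_biUnion (t := fun g => {w | a w g ≠ 0}) h1 h2) hne

private theorem mi20_fin {φ : C →ₗ[K] K} (hφ : Fs D.ρ φ) (x : C) (b : G → K) :
    (Function.support fun g : G => φ (D.ρ g⁻¹ x) • b g).Finite := by
  refine (hφ.fin_inv x).subset fun g hg => ?_
  intro h0
  apply hg
  change φ (D.ρ g⁻¹ x) • b g = 0
  rw [h0, zero_smul]

/-- PIECE MI-20. PROOF. Let `c y = F y t` (finite support), `T_y w x = ∑ᶠ g, if g⁻¹ w g = y then z (g⁻¹ x) else 0`. The formula for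
`f = F w` gives `F w x = F w (e_3 x) = ∑_y c y T_y w x + (family in d x)`, as `F w (g t) = c (g⁻¹ w g)`. Choose a
representative `r y` of every class and `a_y` with `y = a_y (r y) a_y⁻¹`. Then `T_y w x + T_(r y) w x =
∑ᶠ g, if g⁻¹ w g = y then (z (g⁻¹ x) + z (a_y⁻¹ g⁻¹ x)) else 0`, and `z u + z (a⁻¹ u) = χ_a (d u)` (`z_ρ`), so it is a family in
`d x`. And `∑_y c y T_(r y) = 0` as the class sums vanish. -/
theorem fam_of {t : C} {ψ' : D.J → C →ₗ[K] K} (hψ' : ∀ j, Fs D.ρ (ψ' j))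
    (hf : ∀ (B : Type) [AddCommGroup B] [Module K B] (f : C →ₗ[K] B) (x : C),
      f (D.e 3 x) = (∑ᶠ g : G, D.z (D.ρ g⁻¹ x) • f (D.ρ g t)) +
        ∑ j, ∑ᶠ g : G, ψ' j (D.ρ g⁻¹ (D.d x)) • f (D.ρ g (D.e 3 (D.v j))))
    (F : G → C →ₗ[K] K) (hF : D.Fam F) (h3 : ∀ z x, F z (D.e 3 x) = F z x)
    (hc : ∀ c : ConjClasses G, ∑ᶠ (z : G) (_ : ConjClasses.mk z = c), F z t = 0) :
    ∃ h : G → C →ₗ[K] K, D.Fam h ∧ ∀ z x, F z x = h z (D.d x) := by
  classical
  choose rep hrep using fun c : ConjClasses G => ConjClasses.exists_rep c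
  have hconj : ∀ y : G, ∃ a : G, a * rep (ConjClasses.mk y) * a⁻¹ = y := fun y => by
    rw [← isConj_iff, ← ConjClasses.mk_eq_mk_iff_isConj, hrep]
  choose a ha using hconj
  choose χ hχ hχz using fun y : G => D.z_ρ (a y)⁻¹
  obtain ⟨Y, hY⟩ : ∃ Y : Finset G, ∀ y, y ∉ Y → F y t = 0 :=
    ⟨(hF.fin t).toFinset, fun y hy => by
      by_contra h0
      exact hy ((hF.fin t).mem_toFinset.2 h0)⟩
  choose H hH hHx using fun y : G => D.mi20_tw (hχ y)
    (fun w g => if g⁻¹ * w * g = y then F y t else 0)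
    (fun w b g => by
      have : (b * g)⁻¹ * w * (b * g) = g⁻¹ * (b⁻¹ * w * b) * g := by group
      simp only [this])
    (fun g => by
      refine (Set.finite_singleton (g * y * g⁻¹)).subset fun w hw => ?_
      by_contra hne
      apply hw
      refine if_neg fun h0 => hne ?_
      rw [Set.mem_singleton_iff, ← h0]
      group)
  choose H' hH' hHx' using fun j : D.J => D.mi20_tw (hψ' j)
    (fun w g => F w (D.ρ g (D.e 3 (D.v j))))
    (fun w b g => by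
      rw [map_mul, Module.End.mul_apply, hF.eqv])
    (fun g => hF.fin _)
  refine ⟨fun w => ∑ y ∈ Y, H y w + ∑ j, H' j w,
    D.mi20_add (D.mi20_sum Y H fun y _ => hH y) (D.mi20_sum Finset.univ H' fun j _ => hH' j),
    fun w x => ?_⟩
  rw [← h3 w x, hf K (F w) x, LinearMap.add_apply, LinearMap.sum_apply, LinearMap.sum_apply]
  congr 1
  · have h1 : ∀ y, H y w (D.d x) =
        (∑ᶠ g : G, D.z (D.ρ g⁻¹ x) •
          (if g⁻¹ * w * g = rep (ConjClasses.mk y) then F y t else 0)) +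
        ∑ᶠ g : G, D.z (D.ρ g⁻¹ x) • (if g⁻¹ * w * g = y then F y t else 0) := by
      intro y
      have h2 : ∑ᶠ g : G, D.z (D.ρ g⁻¹ x) •
          (if g⁻¹ * w * g = rep (ConjClasses.mk y) then F y t else 0) =
          ∑ᶠ g : G, (D.z ∘ₗ D.ρ (a y)⁻¹) (D.ρ g⁻¹ x) •
            (if g⁻¹ * w * g = y then F y t else 0) := by
        rw [← finsum_comp_equiv (Equiv.mulRight (a y))]
        refine finsum_congr fun g => ?_
        have h4 : D.ρ (g * a y)⁻¹ x = D.ρ (a y)⁻¹ (D.ρ g⁻¹ x) := by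
          rw [mul_inv_rev, map_mul, Module.End.mul_apply]
        have h5 : ((g * a y)⁻¹ * w * (g * a y) = rep (ConjClasses.mk y)) ↔
            (g⁻¹ * w * g = y) := by
          constructor
          · intro h
            rw [← ha y, ← h]
            group
          · intro h
            calc (g * a y)⁻¹ * w * (g * a y) = (a y)⁻¹ * (g⁻¹ * w * g) * a y := by group
              _ = (a y)⁻¹ * (a y * rep (ConjClasses.mk y) * (a y)⁻¹) * a y := by rw [h, ha y]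
              _ = rep (ConjClasses.mk y) := by group
        rw [Equiv.coe_mulRight, h4, if_congr h5 rfl rfl]
        rfl
      rw [h2, ← finsum_add_distrib (D.mi20_fin (Fs.comp_ρ D.z_fs _) x _)
        (D.mi20_fin D.z_fs x _), hHx]
      refine finsum_congr fun g => ?_
      rw [← add_smul]
      congr 1
      rw [← D.d_ρ, LinearMap.comp_apply, hχz, add_comm (D.z _), add_assoc, ZModModule.add_self,
        add_zero]
    rw [Finset.sum_congr rfl fun y _ => h1 y, Finset.sum_add_distrib,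
      ← finsum_sum_comm Y _ fun y _ => D.mi20_fin D.z_fs x _,
      ← finsum_sum_comm Y _ fun y _ => D.mi20_fin D.z_fs x _]
    have h6 : ∀ u : G, ∑ y ∈ Y, (if u = rep (ConjClasses.mk y) then F y t else 0) = 0 := by
      intro u
      by_cases hu : rep (ConjClasses.mk u) = u
      · have h7 := hc (ConjClasses.mk u)
        rw [finsum_eq_sum_of_support_subset (s := Y)] at h7
        · refine Eq.trans (Finset.sum_congr rfl fun y _ => ?_) h7
          change _ = ∑ᶠ (_ : ConjClasses.mk y = ConjClasses.mk u), F y t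
          rw [finsum_eq_if]
          refine if_congr ⟨fun h => ?_, fun h => ?_⟩ rfl rfl
          · rw [h, hrep]
          · rw [h, hu]
        · intro y hy
          by_contra hne
          apply hy
          change ∑ᶠ (_ : ConjClasses.mk y = ConjClasses.mk u), F y t = 0
          rw [finsum_eq_if, hY y hne, ite_self]
      · refine Finset.sum_eq_zero fun y _ => if_neg fun h => hu ?_
        rw [h, hrep]
    have h8 : ∀ u : G, ∑ y ∈ Y, (if u = y then F y t else 0) = F u t := by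
      intro u
      rw [Finset.sum_ite_eq]
      by_cases hu : u ∈ Y
      · rw [if_pos hu]
      · rw [if_neg hu, hY u hu]
    have h9 : ∀ g : G, ∑ y ∈ Y, D.z (D.ρ g⁻¹ x) •
        (if g⁻¹ * w * g = rep (ConjClasses.mk y) then F y t else 0) = 0 := by
      intro g
      rw [← Finset.smul_sum, h6, smul_zero]
    have h10 : ∀ g : G, ∑ y ∈ Y, D.z (D.ρ g⁻¹ x) •
        (if g⁻¹ * w * g = y then F y t else 0) = D.z (D.ρ g⁻¹ x) • F w (D.ρ g t) := by
      intro g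
      rw [← Finset.smul_sum, h8, hF.eqv]
    rw [finsum_congr h9, finsum_congr h10, finsum_zero, zero_add]
  · exact Finset.sum_congr rfl fun j _ => (hHx' j w (D.d x)).symm

theorem exists_fund : ∃ t : C, D.Fund t := by
  obtain ⟨t, ψ, h3, hψ, hf⟩ := D.exists_t
  have hm := D.mass_of hψ hf
  exact ⟨t, h3, hm, D.bd_of hm, D.fam_of hψ hf⟩

/-! ### families -/

/-- PIECE MI-21 -/
theorem Fam.add {D : Cx G C} {F H : G → C →ₗ[K] K} (hF : D.Fam F) (hH : D.Fam H) :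
    D.Fam (fun z => F z + H z) := by
  refine ⟨fun w g x => ?_, fun x => ?_⟩
  · rw [LinearMap.add_apply, LinearMap.add_apply, hF.eqv, hH.eqv]
  · refine ((hF.fin x).union (hH.fin x)).subset fun w hw => ?_
    by_contra hne
    apply hw
    simp only [Set.mem_union, Set.mem_ofPred_eq, not_or, not_not] at hne
    rw [LinearMap.add_apply, hne.1, hne.2, add_zero]

/-- PIECE MI-21 -/
theorem Fam.inv {D : Cx G C} {F : G → C →ₗ[K] K} (hF : D.Fam F) : D.Fam (fun z => F z⁻¹) := by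
  refine ⟨fun w g x => ?_, fun x => ?_⟩
  · rw [hF.eqv]
    congr 2
    group
  · exact (hF.fin x).preimage inv_injective.injOn

/-- PIECE MI-21 -/
theorem Fam.d {D : Cx G C} {F : G → C →ₗ[K] K} (hF : D.Fam F) : D.Fam (fun z => F z ∘ₗ D.d) := by
  refine ⟨fun w g x => ?_, fun x => ?_⟩
  · rw [LinearMap.comp_apply, LinearMap.comp_apply, D.d_ρ, hF.eqv]
  · exact hF.fin (D.d x)

open Classical in
/-- PIECE MI-21. Restriction to a union of conjugacy classes. -/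
theorem Fam.res {D : Cx G C} {F : G → C →ₗ[K] K} (hF : D.Fam F) (S : Set (ConjClasses G)) :
    D.Fam (fun z => if ConjClasses.mk z ∈ S then F z else 0) := by
  refine ⟨fun w g x => ?_, fun x => ?_⟩
  · have h1 : ConjClasses.mk (g⁻¹ * w * g) = ConjClasses.mk w := by
      rw [ConjClasses.mk_eq_mk_iff_isConj, isConj_iff]
      exact ⟨g, by group⟩
    rw [h1]
    by_cases h : ConjClasses.mk w ∈ S
    · rw [if_pos h, if_pos h, hF.eqv]
    · rw [if_neg h, if_neg h, LinearMap.zero_apply, LinearMap.zero_apply]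
  · refine (hF.fin x).subset fun w hw h0 => hw ?_
    by_cases h : ConjClasses.mk w ∈ S
    · rw [if_pos h, h0]
    · rw [if_neg h, LinearMap.zero_apply]

private theorem mi22_gg (z g : G) (w : C ⊗[K] C) :
    D.gg z 1 (D.gg g g w) = D.gg g g (D.gg (g⁻¹ * z * g) 1 w) := by
  induction w with
  | zero => simp
  | tmul x y =>
    have e1 : D.ρ z (D.ρ g x) = D.ρ g (D.ρ (g⁻¹ * z * g) x) := by
      rw [← Module.End.mul_apply, ← Module.End.mul_apply, ← map_mul, ← map_mul]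
      congr 2
      group
    rw [gg_tmul, gg_tmul, gg_tmul, gg_tmul, map_one, e1]
    rfl
  | add x y hx hy => rw [map_add, map_add, map_add, map_add, hx, hy]

private theorem mi22_pow (i : ℕ) (g : G) (w : C ⊗[K] C) :
    (sg ^ i) (D.gg g g w) = D.gg g g ((sg ^ i) w) := by
  induction i generalizing w with
  | zero => rfl
  | succ i ih =>
    rw [pow_succ, Module.End.mul_apply, Module.End.mul_apply]
    have h : sg (D.gg g g w) = D.gg g g (sg w) := sg_map _ _ w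
    rw [h, ih]

private theorem mi22_left (z : G) (w : C ⊗[K] C) :
    D.gg z⁻¹ z⁻¹ (D.gg 1 z w) = D.gg z⁻¹ 1 w := by
  induction w with
  | zero => simp
  | tmul x y =>
    rw [gg_tmul, gg_tmul, gg_tmul, ← Module.End.mul_apply, ← Module.End.mul_apply,
      ← map_mul, ← map_mul, inv_mul_cancel, mul_one]
  | add x y hx hy => rw [map_add, map_add, map_add, hx, hy]

private theorem mi22_fin {lam : C ⊗[K] C →ₗ[K] K} (hl : D.Form lam) (i : ℕ) (w : C ⊗[K] C) :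
    {z : G | lam ((sg ^ i) (D.gg z 1 w)) ≠ 0}.Finite := by
  induction i using Nat.twoStepInduction with
  | zero => exact hl.fin w
  | one =>
    have h1 := (hl.fin (sg w)).preimage (inv_injective.injOn (s := (fun z : G => z⁻¹) ⁻¹'
      {g : G | lam (D.gg g 1 (sg w)) ≠ 0}))
    refine h1.subset fun z hz => ?_
    change lam (D.gg z⁻¹ 1 (sg w)) ≠ 0
    rw [← mi22_left, hl.inv]
    have h2 : sg (D.gg z 1 w) = D.gg 1 z (sg w) := sg_map _ _ w
    rw [← h2]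
    exact hz
  | more i ih _ =>
    have h : ∀ u : C ⊗[K] C, (sg ^ (i + 2)) u = (sg ^ i) u := by
      intro u
      rw [pow_succ, pow_succ, Module.End.mul_apply, Module.End.mul_apply, sg_sg]
    simp only [h]
    exact ih

/-- PIECE MI-22. PROOF. Equivariance: `gg z 1 (gg g g w) = gg g g (gg (g⁻¹ z g) 1 w)`, `lam` is invariant, `σ` commutes
with `gg g g`. Finite support: `Form.fin` (for odd `i`: `lam (σ (gg z 1 w)) = lam (gg 1 z (σ w)) = lam (gg z⁻¹ 1 (σ w))`). -/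
theorem FF_fam {lam : ℕ → C ⊗[K] C →ₗ[K] K} (hl : D.Forms lam) {Δ : ℕ → C →ₗ[K] C ⊗[K] C}
    (hΔ : D.Diag Δ) (m : ℕ) : D.Fam (D.FF lam Δ m) := by
  have h1 : ∀ z x, D.FF lam Δ m z x =
      ∑ i ∈ Finset.range (m + 1), lam (m - i) ((sg ^ i) (D.gg z 1 (Δ i x))) := by
    intro z x
    unfold FF
    rw [LinearMap.sum_apply]
    rfl
  refine ⟨fun z g x => ?_, fun x => ?_⟩
  · rw [h1, h1]
    refine Finset.sum_congr rfl fun i _ => ?_
    rw [hΔ.eqv, mi22_gg, mi22_pow, (hl.form (m - i)).inv]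
  · refine Set.Finite.subset (Set.Finite.biUnion (Finset.range (m + 1)).finite_toSet
      (t := fun i => {z : G | lam (m - i) ((sg ^ i) (D.gg z 1 (Δ i x))) ≠ 0})
      fun i _ => D.mi22_fin (hl.form (m - i)) i (Δ i x)) ?_
    intro z hz
    by_contra h2
    apply hz
    rw [h1]
    refine Finset.sum_eq_zero fun i hi => ?_
    by_contra h3
    exact h2 (Set.mem_biUnion (Finset.mem_coe.2 hi) h3)

private theorem mi23_dd (i : ℕ) (w : C ⊗[K] C) : ((sg (V := C)) ^ i) (dd D.d w) = dd D.d ((sg ^ i) w) := by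
  induction i generalizing w with
  | zero => rfl
  | succ i ih => rw [pow_succ, Module.End.mul_apply, Module.End.mul_apply, sg_dd, ih]

private theorem mi23_gg (i : ℕ) (g : G) (w : C ⊗[K] C) :
    ((sg (V := C)) ^ i) (D.gg g g w) = D.gg g g ((sg ^ i) w) := by
  induction i generalizing w with
  | zero => rfl
  | succ i ih =>
    have h : sg (D.gg g g w) = D.gg g g (sg w) := sg_map _ _ w
    rw [pow_succ, Module.End.mul_apply, Module.End.mul_apply, h, ih]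

private theorem mi23_mul (z : G) (u : C ⊗[K] C) :
    D.gg z⁻¹ z⁻¹ (D.gg 1 z u) = D.gg z⁻¹ 1 u := by
  induction u with
  | zero => simp
  | tmul x y => simp
  | add x y hx hy => rw [map_add, map_add, map_add, hx, hy]

private theorem mi23_gd (z : G) (u : C ⊗[K] C) :
    D.gg z 1 (dd D.d u) = dd D.d (D.gg z 1 u) := by
  unfold gg
  rw [dd_map D.d _ _ (fun x => D.d_ρ z x) (fun x => D.d_ρ 1 x)]

private theorem mi23_sw {lam : C ⊗[K] C →ₗ[K] K} (hl : D.Form lam) (i : ℕ) (z : G)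
    (u : C ⊗[K] C) :
    lam (((sg (V := C)) ^ (i + 1)) (D.gg z 1 (sg u))) = lam ((sg ^ i) (D.gg z⁻¹ 1 u)) := by
  have h1 : sg (D.gg z 1 (sg u)) = D.gg 1 z u := by
    have h := sg_map (D.ρ z) (D.ρ 1) (sg u)
    rw [sg_sg] at h
    exact h
  rw [pow_succ, Module.End.mul_apply, h1, ← hl.inv z⁻¹, ← D.mi23_gg, D.mi23_mul]

private theorem mi23_FF (lam : ℕ → C ⊗[K] C →ₗ[K] K) (Δ : ℕ → C →ₗ[K] C ⊗[K] C) (m : ℕ) (z : G)
    (x : C) : D.FF lam Δ m z x =
      ∑ i ∈ Finset.range (m + 1), lam (m - i) (((sg (V := C)) ^ i) (D.gg z 1 (Δ i x))) := by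
  unfold FF
  rw [LinearMap.sum_apply]
  rfl

/-- PIECE MI-23. PROOF. `F_(m+1) (d x) (z) = ∑_(i+j=m+1) λ_j σ^i (z ⊗ 1) Δ_i (d x)`,
`Δ_i (d x) = ∂ Δ_i x + Δ_(i-1) x + σ Δ_(i-1) x`, `λ_j ∂ = λ_(j-1) (1 + σ)`:
`∑_(i+j=m) [λ_j (1 + σ) σ^i (z ⊗ 1) + λ_j σ^(i+1) (z ⊗ 1)(1 + σ)] Δ_i x = ∑_(i+j=m) λ_j σ^i [(z ⊗ 1) + (1 ⊗ z)] Δ_i x`,
and `λ_j σ^i (1 ⊗ z) = λ_j σ^i (z ⊗ z)(z⁻¹ ⊗ 1) = λ_j σ^i (z⁻¹ ⊗ 1)`. -/
theorem FF_rel {lam : ℕ → C ⊗[K] C →ₗ[K] K} (hl : D.Forms lam) {Δ : ℕ → C →ₗ[K] C ⊗[K] C}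
    (hΔ : D.Diag Δ) (m : ℕ) (z : G) (x : C) :
    D.FF lam Δ (m + 1) z (D.d x) = D.FF lam Δ m z x + D.FF lam Δ m z⁻¹ x := by
  have hK : ∀ a : K, a + a = 0 := fun a => ZModModule.add_self a
  -- the two kinds of terms
  have hd0 : Δ 0 (D.d x) = dd D.d (Δ 0 x) := (hΔ.d0 x).symm
  have hd1 : ∀ i, Δ (i + 1) (D.d x) = dd D.d (Δ (i + 1) x) + (Δ i x + sg (Δ i x)) := by
    intro i
    rw [hΔ.d1 i x, add_assoc, ZModModule.add_self, add_zero]
  rw [D.mi23_FF, D.mi23_FF, D.mi23_FF]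
  -- the terms with the differential
  have hA : ∀ i, lam (m + 1 - i) (((sg (V := C)) ^ i) (D.gg z 1 (dd D.d (Δ i x)))) =
      lam (m + 1 - i) (dd D.d ((sg ^ i) (D.gg z 1 (Δ i x)))) := by
    intro i
    rw [D.mi23_gd, D.mi23_dd]
  have hB : ∀ i ∈ Finset.range (m + 1),
      lam (m + 1 - i) (dd D.d (((sg (V := C)) ^ i) (D.gg z 1 (Δ i x)))) =
      lam (m - i) ((sg ^ i) (D.gg z 1 (Δ i x))) + lam (m - i) ((sg ^ (i + 1)) (D.gg z 1 (Δ i x))) := by
    intro i hi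
    have h1 : m + 1 - i = (m - i) + 1 := by
      have := Finset.mem_range.1 hi
      omega
    rw [h1, hl.d1, pow_succ' _ i, Module.End.mul_apply]
  have hS : ∑ i ∈ Finset.range (m + 1 + 1),
      lam (m + 1 - i) (((sg (V := C)) ^ i) (D.gg z 1 (Δ i (D.d x)))) =
      ∑ i ∈ Finset.range (m + 1 + 1),
        lam (m + 1 - i) (((sg (V := C)) ^ i) (D.gg z 1 (dd D.d (Δ i x)))) +
      ∑ i ∈ Finset.range (m + 1), (lam (m - i) (((sg (V := C)) ^ (i + 1)) (D.gg z 1 (Δ i x))) +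
        lam (m - i) ((sg ^ (i + 1)) (D.gg z 1 (sg (Δ i x))))) := by
    rw [Finset.sum_range_succ', Finset.sum_range_succ' _ (m + 1), hd0]
    have h2 : ∀ i ∈ Finset.range (m + 1),
        lam (m + 1 - (i + 1)) (((sg (V := C)) ^ (i + 1)) (D.gg z 1 (Δ (i + 1) (D.d x)))) =
        lam (m + 1 - (i + 1)) ((sg ^ (i + 1)) (D.gg z 1 (dd D.d (Δ (i + 1) x)))) +
        (lam (m - i) ((sg ^ (i + 1)) (D.gg z 1 (Δ i x))) +
          lam (m - i) ((sg ^ (i + 1)) (D.gg z 1 (sg (Δ i x))))) := by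
      intro i _
      rw [hd1 i, map_add, map_add, map_add, map_add, map_add, map_add, Nat.add_sub_add_right]
    rw [Finset.sum_congr rfl h2, Finset.sum_add_distrib]
    abel
  rw [hS, Finset.sum_range_succ, Finset.sum_congr rfl (fun i _ => hA i),
    Finset.sum_congr rfl hB, hA (m + 1), Nat.sub_self, hl.d0, add_zero, ← Finset.sum_add_distrib,
    ← Finset.sum_add_distrib]
  refine Finset.sum_congr rfl fun i _ => ?_
  rw [D.mi23_sw (hl.form (m - i))]
  generalize lam (m - i) (((sg (V := C)) ^ (i + 1)) (D.gg z 1 (Δ i x))) = a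
  generalize lam (m - i) (((sg (V := C)) ^ i) (D.gg z 1 (Δ i x))) = b
  generalize lam (m - i) (((sg (V := C)) ^ i) (D.gg z⁻¹ 1 (Δ i x))) = c
  have h3 : b + a + (a + c) = b + c + (a + a) := by ring
  rw [h3, hK, add_zero]

private theorem mi24_sgE (i n : ℕ) (w : C ⊗[K] C) :
    ((sg (V := C)) ^ i) (D.E n w) = D.E n ((sg ^ i) w) := by
  induction i generalizing w with
  | zero => rfl
  | succ i ih => rw [pow_succ, Module.End.mul_apply, Module.End.mul_apply, D.sg_E, ih]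

private theorem mi24_FF (lam : ℕ → C ⊗[K] C →ₗ[K] K) (Δ : ℕ → C →ₗ[K] C ⊗[K] C) (m : ℕ) (z : G)
    (x : C) : D.FF lam Δ m z x =
      ∑ i ∈ Finset.range (m + 1), lam (m - i) (((sg (V := C)) ^ i) (D.gg z 1 (Δ i x))) := by
  unfold FF
  rw [LinearMap.sum_apply]
  rfl

private theorem mi24_mv {lam : ℕ → C ⊗[K] C →ₗ[K] K} {Δ : ℕ → C →ₗ[K] C ⊗[K] C}
    (hΔ : D.Diag Δ) (m i n : ℕ) (z : G) (x : C) :
    lam (m - i) (((sg (V := C)) ^ i) (D.gg z 1 (Δ i (D.e n x)))) =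
      lam (m - i) (D.E (n + i) (((sg (V := C)) ^ i) (D.gg z 1 (Δ i x)))) := by
  rw [hΔ.deg, D.gg_E, D.mi24_sgE]

/-- PIECE MI-24. PROOF. `λ_(m-i) = λ_(m-i) E (3-(m-i))` and `Δ_i (e_n x) = E (n+i) Δ_i x`: the term is `0` unless
`n + i = 3 - (m - i)`, that is `n = 3 - m`. For `m ≥ 4`: `λ_(m-i) = 0` or `n = 3 - m < 0`. -/
theorem FF_deg {lam : ℕ → C ⊗[K] C →ₗ[K] K} (hl : D.Forms lam) {Δ : ℕ → C →ₗ[K] C ⊗[K] C}
    (hΔ : D.Diag Δ) : (∀ m ≤ 3, ∀ z x, D.FF lam Δ m z (D.e (3 - m) x) = D.FF lam Δ m z x) ∧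
      ∀ m, 4 ≤ m → ∀ z, D.FF lam Δ m z = 0 := by
  constructor
  · intro m hm z x
    rw [mi24_FF, mi24_FF]
    refine Finset.sum_congr rfl fun i hi => ?_
    rw [Finset.mem_range] at hi
    rw [D.mi24_mv hΔ]
    have h1 : 3 - m + i = 3 - (m - i) := by omega
    rw [h1]
    exact hl.deg (m - i) (by omega) _
  · intro m hm z
    refine LinearMap.ext fun x => ?_
    rw [mi24_FF, LinearMap.zero_apply]
    refine Finset.sum_eq_zero fun i hi => ?_
    rw [Finset.mem_range] at hi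
    rcases Nat.lt_or_ge (m - i) 4 with h1 | h1
    · have h2 : lam (m - i) (((sg (V := C)) ^ i) (D.gg z 1 (Δ i x))) =
          ∑ n ∈ Finset.range 4,
            lam (m - i) (((sg (V := C)) ^ i) (D.gg z 1 (Δ i (D.e n x)))) := by
        conv_lhs => rw [← D.e_sum x]
        simp only [map_sum]
      rw [h2]
      refine Finset.sum_eq_zero fun n hn => ?_
      rw [Finset.mem_range] at hn
      rw [D.mi24_mv hΔ, ← hl.deg (m - i) (by omega), D.E_ne _ _ (by omega), map_zero]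
    · rw [hl.top (m - i) h1, LinearMap.zero_apply]

/-- the class sum of a family is an invariant functional -/
private theorem mi25_om {h : G → C →ₗ[K] K} (hh : D.Fam h) (c : ConjClasses G) :
    ∃ ω : C →ₗ[K] K, (∀ x, ω x = ∑ᶠ (z : G) (_ : ConjClasses.mk z = c), h z x) ∧
      ∀ g x, ω (D.ρ g x) = ω x := by
  have hfin : ∀ x, ({z : G | ConjClasses.mk z = c} ∩ Function.support fun z => h z x).Finite :=
    fun x => (hh.fin x).subset fun z hz => hz.2
  let ω₀ : C →+ K :=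
    { toFun := fun x => ∑ᶠ (z : G) (_ : ConjClasses.mk z = c), h z x
      map_zero' := by simp
      map_add' := fun x y => by
        have := finsum_mem_add_distrib' (hfin x) (hfin y)
        simp only [map_add]
        exact this }
  refine ⟨ω₀.toZModLinearMap 2, fun x => rfl, fun g x => ?_⟩
  have e1 : (ω₀.toZModLinearMap 2) (D.ρ g x) =
      ∑ᶠ (z : G) (_ : ConjClasses.mk z = c), h z (D.ρ g x) := rfl
  have e2 : (ω₀.toZModLinearMap 2) x = ∑ᶠ (z : G) (_ : ConjClasses.mk z = c), h z x := rfl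
  rw [e1, e2]
  rw [← finsum_comp_equiv (MulAut.conj g⁻¹).toEquiv
    (f := fun z => ∑ᶠ (_ : ConjClasses.mk z = c), h z x)]
  refine finsum_congr fun z => ?_
  have e3 : (MulAut.conj g⁻¹).toEquiv z = g⁻¹ * z * g := by simp
  have e4 : ConjClasses.mk (g⁻¹ * z * g) = ConjClasses.mk z :=
    ConjClasses.mk_eq_mk_iff_isConj.2 (isConj_iff.2 ⟨g, by group⟩)
  rw [e3, e4, hh.eqv z g x]

/-- PIECE MI-25. PROOF. The involution `c ↦ c⁻¹` on `ConjClasses G` has only the fixed point `1` (`hG`): `exists_half`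
gives `S` with `1 ∉ S` and for `z ≠ 1` exactly one of `z`, `z⁻¹` has its class in `S`. `π h z = h z` if `mk z ∈ S`,
otherwise `0`. If `h z = h z⁻¹` for all `z ≠ 1` then `h z = (π h) z + (π h) z⁻¹` for `z ≠ 1`. Top down, for `z ≠ 1`:
`F_3 = h_2 + h_2⁻` with `h_2 = π F_3`; `F_2 + h_2 d = h_1 + h_1⁻`, `h_1 = π (F_2 + h_2 d)`;
`F_1 + h_1 d = h_0 + h_0⁻`; `F_0 + h_0 d = k + k⁻`, `k = π (F_0 + h_0 d)`. Degrees: `h_2 = h_2 e_0`, `h_1 = h_1 e_1`,
`h_0 = h_0 e_2`, `k = k e_3`. The class sums of `k` vanish (`hsum`, and `ω x = ∑_(z in c) h_0 z x` is invariant: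
`ht.bd`), so `k z x = k' z (d x)` (`ht.fam`); replace `h_0` by `h_0 + k' + k'⁻`. `h_3 = 0`. -/
theorem split {t : C} (ht : D.Fund t) (hG : ∀ z : G, z ≠ 1 → ¬ IsConj z z⁻¹)
    (F : ℕ → G → C →ₗ[K] K) (hF : ∀ m, D.Fam (F m))
    (hdeg : ∀ m ≤ 3, ∀ z x, F m z (D.e (3 - m) x) = F m z x) (htop : ∀ m, 4 ≤ m → ∀ z, F m z = 0)
    (hrel : ∀ m z x, F (m + 1) z (D.d x) = F m z x + F m z⁻¹ x)
    (hsum : ∀ c : ConjClasses G, c ≠ 1 → ∑ᶠ (z : G) (_ : ConjClasses.mk z = c), F 0 z t = 0) :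
    ∃ h : ℕ → G → C →ₗ[K] K, (∀ m, D.Fam (h m)) ∧ h 3 = 0 ∧
      (∀ z x, z ≠ 1 → F 0 z x = h 0 z (D.d x)) ∧
      ∀ m z x, m ≤ 2 → z ≠ 1 → F (m + 1) z x = h (m + 1) z (D.d x) + h m z x + h m z⁻¹ x := by
  classical
  have two : (2 : K) = 0 := rfl
  -- the half system of classes
  let i : ConjClasses G → ConjClasses G := fun c => Quotient.liftOn c
    (fun z => ConjClasses.mk z⁻¹) (fun a b hab => ConjClasses.mk_eq_mk_iff_isConj.2 (by
      have hab' : IsConj a b := hab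
      obtain ⟨g, hg⟩ := isConj_iff.1 hab'
      exact isConj_iff.2 ⟨g, by rw [← hg]; group⟩))
  have i_mk : ∀ z : G, i (ConjClasses.mk z) = ConjClasses.mk z⁻¹ := fun z => rfl
  obtain ⟨S, hS⟩ := exists_half i (fun c => by
    obtain ⟨z, rfl⟩ := ConjClasses.exists_rep c
    rw [i_mk, i_mk, inv_inv])
  have hS1 : ∀ z : G, ConjClasses.mk z ∈ S → ConjClasses.mk z⁻¹ ∉ S := fun z hz =>
    (hS (ConjClasses.mk z)).1 hz
  have hS2 : ∀ z : G, z ≠ 1 → ConjClasses.mk z ∉ S → ConjClasses.mk z⁻¹ ∈ S := fun z hz hzS =>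
    (hS (ConjClasses.mk z)).2.1 (fun h => hG z hz (ConjClasses.mk_eq_mk_iff_isConj.1 h.symm)) hzS
  have hS3 : ConjClasses.mk (1 : G) ∉ S := (hS (ConjClasses.mk 1)).2.2 (by rw [i_mk, inv_one])
  -- the restriction
  let π : (G → C →ₗ[K] K) → G → C →ₗ[K] K := fun H z => if ConjClasses.mk z ∈ S then H z else 0
  have hπ : ∀ H, D.Fam H → D.Fam (π H) := fun H hH => by
    have := hH.res S
    convert this
  have key : ∀ H : G → C →ₗ[K] K, (∀ z x, z ≠ 1 → H z x + H z⁻¹ x = 0) →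
      ∀ z x, z ≠ 1 → H z x = π H z x + π H z⁻¹ x := by
    intro H hH z x hz
    have hH' : H z⁻¹ x = H z x := by linear_combination hH z x hz - H z x * two
    by_cases hzS : ConjClasses.mk z ∈ S
    · have h2 := hS1 z hzS
      simp only [π, if_pos hzS, if_neg h2, LinearMap.zero_apply, add_zero]
    · have h2 := hS2 z hz hzS
      simp only [π, if_neg hzS, if_pos h2, LinearMap.zero_apply, zero_add, hH']
  have degπ : ∀ (H : G → C →ₗ[K] K) (n : ℕ), (∀ z x, H z (D.e n x) = H z x) →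
      ∀ z x, π H z (D.e n x) = π H z x := by
    intro H n hH z x
    simp only [π]
    split_ifs
    · exact hH z x
    · rfl
  -- h2
  obtain ⟨h2, h2def⟩ : ∃ h2, h2 = π (F 3) := ⟨_, rfl⟩
  have f2 : D.Fam h2 := h2def ▸ hπ _ (hF 3)
  have r3 : ∀ z x, z ≠ 1 → F 3 z x = h2 z x + h2 z⁻¹ x := by
    rw [h2def]
    refine key (F 3) fun z x _ => ?_
    rw [← hrel 3 z x, htop 4 le_rfl z]
    rfl
  have d2 : ∀ z x, h2 z (D.e 0 x) = h2 z x := by
    rw [h2def]
    exact degπ _ 0 fun z x => hdeg 3 le_rfl z x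
  -- h1
  obtain ⟨G2, G2def⟩ : ∃ G2 : G → C →ₗ[K] K, G2 = fun z => F 2 z + h2 z ∘ₗ D.d := ⟨_, rfl⟩
  have G2a : ∀ z x, G2 z x = F 2 z x + h2 z (D.d x) := fun z x => by rw [G2def]; rfl
  have G2f : D.Fam G2 := G2def ▸ (hF 2).add f2.d
  obtain ⟨h1, h1def⟩ : ∃ h1, h1 = π G2 := ⟨_, rfl⟩
  have f1 : D.Fam h1 := h1def ▸ hπ _ G2f
  have r2 : ∀ z x, z ≠ 1 → G2 z x = h1 z x + h1 z⁻¹ x := by
    rw [h1def]
    refine key G2 fun z x hz => ?_
    rw [G2a, G2a]
    linear_combination F 3 z (D.d x) * two - hrel 2 z x - r3 z (D.d x) hz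
  have d1 : ∀ z x, h1 z (D.e 1 x) = h1 z x := by
    rw [h1def]
    refine degπ _ 1 fun z x => ?_
    rw [G2a, G2a, D.d_e 0 x, d2]
    rw [show F 2 z (D.e 1 x) = F 2 z x from hdeg 2 (by norm_num) z x]
  -- h0'
  obtain ⟨G1, G1def⟩ : ∃ G1 : G → C →ₗ[K] K, G1 = fun z => F 1 z + h1 z ∘ₗ D.d := ⟨_, rfl⟩
  have G1a : ∀ z x, G1 z x = F 1 z x + h1 z (D.d x) := fun z x => by rw [G1def]; rfl
  have G1f : D.Fam G1 := G1def ▸ (hF 1).add f1.d
  obtain ⟨h0, h0def⟩ : ∃ h0, h0 = π G1 := ⟨_, rfl⟩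
  have f0 : D.Fam h0 := h0def ▸ hπ _ G1f
  have r1 : ∀ z x, z ≠ 1 → G1 z x = h0 z x + h0 z⁻¹ x := by
    rw [h0def]
    refine key G1 fun z x hz => ?_
    have e := r2 z (D.d x) hz
    rw [G2a, D.d_d, map_zero, add_zero] at e
    rw [G1a, G1a]
    linear_combination F 2 z (D.d x) * two - hrel 1 z x - e
  have d0 : ∀ z x, h0 z (D.e 2 x) = h0 z x := by
    rw [h0def]
    refine degπ _ 2 fun z x => ?_
    rw [G1a, G1a, D.d_e 1 x, d1]
    rw [show F 1 z (D.e 2 x) = F 1 z x from hdeg 1 (by norm_num) z x]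
  -- k
  obtain ⟨G0, G0def⟩ : ∃ G0 : G → C →ₗ[K] K, G0 = fun z => F 0 z + h0 z ∘ₗ D.d := ⟨_, rfl⟩
  have G0a : ∀ z x, G0 z x = F 0 z x + h0 z (D.d x) := fun z x => by rw [G0def]; rfl
  have G0f : D.Fam G0 := G0def ▸ (hF 0).add f0.d
  obtain ⟨k, kdef⟩ : ∃ k, k = π G0 := ⟨_, rfl⟩
  have fk : D.Fam k := kdef ▸ hπ _ G0f
  have r0 : ∀ z x, z ≠ 1 → G0 z x = k z x + k z⁻¹ x := by
    rw [kdef]
    refine key G0 fun z x hz => ?_
    have e := r1 z (D.d x) hz
    rw [G1a, D.d_d, map_zero, add_zero] at e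
    rw [G0a, G0a]
    linear_combination F 1 z (D.d x) * two - hrel 0 z x - e
  have dk : ∀ z x, k z (D.e 3 x) = k z x := by
    rw [kdef]
    refine degπ _ 3 fun z x => ?_
    rw [G0a, G0a, D.d_e 2 x, d0]
    rw [show F 0 z (D.e 3 x) = F 0 z x from hdeg 0 (by norm_num) z x]
  -- the class sums of k
  have ksum : ∀ c : ConjClasses G, ∑ᶠ (z : G) (_ : ConjClasses.mk z = c), k z t = 0 := by
    intro c
    by_cases hcS : c ∈ S
    · have hc1 : c ≠ 1 := by
        rintro rfl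
        exact hS3 (by rwa [← ConjClasses.one_eq_mk_one])
      obtain ⟨ω, hω, hωi⟩ := D.mi25_om f0 c
      have e1 := ht.bd ω hωi
      rw [hω] at e1
      have e2 := hsum c hc1
      have fin1 : ({z : G | ConjClasses.mk z = c} ∩ Function.support fun z => F 0 z t).Finite :=
        ((hF 0).fin t).subset fun z hz => hz.2
      have fin2 : ({z : G | ConjClasses.mk z = c} ∩
          Function.support fun z => h0 z (D.d t)).Finite :=
        (f0.fin (D.d t)).subset fun z hz => hz.2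
      have e3 : ∑ᶠ (z : G) (_ : ConjClasses.mk z = c), (F 0 z t + h0 z (D.d t)) =
          ∑ᶠ (z : G) (_ : ConjClasses.mk z = c), F 0 z t +
            ∑ᶠ (z : G) (_ : ConjClasses.mk z = c), h0 z (D.d t) :=
        finsum_mem_add_distrib' fin1 fin2
      rw [e1, e2, add_zero] at e3
      rw [← e3]
      refine finsum_congr fun z => finsum_congr fun hz => ?_
      have hzS : ConjClasses.mk z ∈ S := by rw [hz]; exact hcS
      rw [← G0a, kdef]
      simp only [π, if_pos hzS]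
    · rw [← finsum_zero (α := G) (M := K)]
      refine finsum_congr fun z => ?_
      by_cases hz : ConjClasses.mk z = c
      · have hzS : ConjClasses.mk z ∉ S := by rw [hz]; exact hcS
        simp only [kdef, π, if_neg hzS, LinearMap.zero_apply, finsum_zero]
      · simp [hz]
  obtain ⟨k', fk', hk'⟩ := ht.fam k fk dk ksum
  -- the answer
  refine ⟨fun m => if m = 0 then fun z => (h0 z + k' z) + k' z⁻¹ else if m = 1 then h1 else
    if m = 2 then h2 else 0, ?_, ?_, ?_, ?_⟩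
  · intro m
    by_cases m0 : m = 0
    · simp only [m0, if_true]
      exact (f0.add fk').add fk'.inv
    · by_cases m1 : m = 1
      · simp only [m1]
        exact f1
      · by_cases m2 : m = 2
        · simp only [m2]
          exact f2
        · simp only [if_neg m0, if_neg m1, if_neg m2]
          exact ⟨fun z g x => rfl, fun x => by simp⟩
  · rfl
  · intro z x hz
    have e := r0 z x hz
    rw [G0a, hk', hk'] at e
    change F 0 z x = (h0 z (D.d x) + k' z (D.d x)) + k' z⁻¹ (D.d x)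
    linear_combination e - h0 z (D.d x) * two
  · intro m z x hm hz
    have hm' : m = 0 ∨ m = 1 ∨ m = 2 := by omega
    rcases hm' with rfl | rfl | rfl
    · have e := r1 z x hz
      rw [G1a] at e
      change F 1 z x = h1 z (D.d x) + ((h0 z x + k' z x) + k' z⁻¹ x) +
        ((h0 z⁻¹ x + k' z⁻¹ x) + k' z⁻¹⁻¹ x)
      rw [inv_inv]
      linear_combination e - (h1 z (D.d x) + k' z x + k' z⁻¹ x) * two
    · have e := r2 z x hz
      rw [G2a] at e
      change F 2 z x = h2 z (D.d x) + h1 z x + h1 z⁻¹ x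
      linear_combination e - h2 z (D.d x) * two
    · have e := r3 z x hz
      change F 3 z x = (0 : K) + h2 z x + h2 z⁻¹ x
      linear_combination e

/-! ### the trace -/

/-- the Hattori-Stallings trace of an equivariant endomorphism -/
noncomputable def HS (α : C →ₗ[K] C) (c : ConjClasses G) : K :=
  ∑ j, ∑ᶠ (z : G) (_ : ConjClasses.mk z = c), D.φ j (D.ρ z⁻¹ (α (D.v j)))

private theorem mi26_fin (α : C →ₗ[K] C) :
    ∃ T : Finset G, ∀ i j g, D.φ i (D.ρ g⁻¹ (α (D.v j))) ≠ 0 → g ∈ T := by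
  have h : (⋃ i : D.J, ⋃ j : D.J, {g : G | D.φ i (D.ρ g⁻¹ (α (D.v j))) ≠ 0}).Finite := by
    refine Set.finite_iUnion fun i => Set.finite_iUnion fun j => ?_
    have h1 := (D.fs i (α (D.v j))).preimage (inv_injective.injOn (s := Set.univ) |>.mono
      (Set.subset_univ _) : Set.InjOn (fun g : G => g⁻¹) _)
    exact h1
  exact ⟨h.toFinset, fun i j g hg => h.mem_toFinset.2
    (Set.mem_iUnion.2 ⟨i, Set.mem_iUnion.2 ⟨j, hg⟩⟩)⟩

private theorem mi26_expand (α β : C →ₗ[K] C) (hα : ∀ g x, α (D.ρ g x) = D.ρ g (α x))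
    (T : Finset G) (hT : ∀ i j g, D.φ i (D.ρ g⁻¹ (β (D.v j))) ≠ 0 → g ∈ T) (j : D.J) (z : G) :
    D.φ j (D.ρ z⁻¹ (α (β (D.v j)))) = ∑ i, ∑ g ∈ T,
      D.φ i (D.ρ g⁻¹ (β (D.v j))) * D.φ j (D.ρ (g⁻¹ * z)⁻¹ (α (D.v i))) := by
  have h1 := D.span (β (D.v j))
  have h2 : ∀ i, ∑ᶠ g : G, D.φ i (D.ρ g⁻¹ (β (D.v j))) • D.ρ g (D.v i) =
      ∑ g ∈ T, D.φ i (D.ρ g⁻¹ (β (D.v j))) • D.ρ g (D.v i) := by
    intro i
    refine finsum_eq_sum_of_support_subset _ fun g hg => ?_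
    refine hT i j g fun h3 => hg ?_
    show D.φ i (D.ρ g⁻¹ (β (D.v j))) • D.ρ g (D.v i) = 0
    rw [h3, zero_smul]
  rw [Finset.sum_congr rfl fun i _ => h2 i] at h1
  conv_lhs => rw [← h1]
  rw [map_sum, map_sum, map_sum]
  refine Finset.sum_congr rfl fun i _ => ?_
  rw [map_sum, map_sum, map_sum]
  refine Finset.sum_congr rfl fun g _ => ?_
  have h5 : D.ρ z⁻¹ (D.ρ g (α (D.v i))) = D.ρ (g⁻¹ * z)⁻¹ (α (D.v i)) := by
    rw [← Module.End.mul_apply, ← map_mul, mul_inv_rev, inv_inv]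
  rw [map_smul, map_smul, map_smul, smul_eq_mul, hα, h5]

private theorem mi26_sum (α β : C →ₗ[K] C) (hα : ∀ g x, α (D.ρ g x) = D.ρ g (α x))
    (T : Finset G) (hTa : ∀ i j g, D.φ i (D.ρ g⁻¹ (α (D.v j))) ≠ 0 → g ∈ T)
    (hTb : ∀ i j g, D.φ i (D.ρ g⁻¹ (β (D.v j))) ≠ 0 → g ∈ T) (c : ConjClasses G)
    [DecidableEq (ConjClasses G)] :
    D.HS (α ∘ₗ β) c = ∑ j, ∑ i, ∑ g ∈ T, ∑ h ∈ T, if ConjClasses.mk (g * h) = c then
      D.φ i (D.ρ g⁻¹ (β (D.v j))) * D.φ j (D.ρ h⁻¹ (α (D.v i))) else 0 := by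
  classical
  unfold HS
  refine Finset.sum_congr rfl fun j _ => ?_
  have hex := D.mi26_expand α β hα T hTb j
  have h1 : ∀ z : G, (∑ᶠ (_ : ConjClasses.mk z = c), D.φ j (D.ρ z⁻¹ ((α ∘ₗ β) (D.v j)))) =
      if ConjClasses.mk z = c then D.φ j (D.ρ z⁻¹ (α (β (D.v j)))) else 0 :=
    fun z => finsum_eq_if
  rw [finsum_congr h1]
  obtain ⟨U, hU⟩ : ∃ U : Finset G, U = (T ×ˢ T).image (fun p : G × G => p.1 * p.2) := ⟨_, rfl⟩
  have hUm : ∀ g ∈ T, ∀ h ∈ T, g * h ∈ U := by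
    intro g hg h hh
    rw [hU]
    exact Finset.mem_image.2 ⟨(g, h), Finset.mem_product.2 ⟨hg, hh⟩, rfl⟩
  rw [finsum_eq_sum_of_support_subset (s := U)]
  · have h2 : ∀ z ∈ U, (if ConjClasses.mk z = c then D.φ j (D.ρ z⁻¹ (α (β (D.v j)))) else 0) =
        ∑ i, ∑ g ∈ T, if ConjClasses.mk z = c then
          D.φ i (D.ρ g⁻¹ (β (D.v j))) * D.φ j (D.ρ (g⁻¹ * z)⁻¹ (α (D.v i))) else 0 := by
      intro z _
      split_ifs with h3
      · exact hex z
      · simp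
    rw [Finset.sum_congr rfl h2, Finset.sum_comm]
    refine Finset.sum_congr rfl fun i _ => ?_
    rw [Finset.sum_comm]
    refine Finset.sum_congr rfl fun g hg => ?_
    have h4 : T.image (fun h => g * h) ⊆ U := by
      intro x hx
      obtain ⟨h, hh, rfl⟩ := Finset.mem_image.1 hx
      exact hUm g hg h hh
    rw [← Finset.sum_subset h4, Finset.sum_image fun x _ y _ h => mul_left_cancel h]
    · refine Finset.sum_congr rfl fun h _ => ?_
      rw [inv_mul_cancel_left]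
    · intro x _ hx
      split_ifs with h5
      · by_contra h6
        refine hx (Finset.mem_image.2 ⟨g⁻¹ * x, hTa _ _ _ (right_ne_zero_of_mul h6), ?_⟩)
        exact mul_inv_cancel_left g x
      · rfl
  · intro z hz
    rw [Function.mem_support] at hz
    have h3 : D.φ j (D.ρ z⁻¹ (α (β (D.v j)))) ≠ 0 := by
      intro h4
      apply hz
      rw [h4, ite_self]
    rw [hex z] at h3
    obtain ⟨i, -, h4⟩ := Finset.exists_ne_zero_of_sum_ne_zero h3
    obtain ⟨g, hg, h5⟩ := Finset.exists_ne_zero_of_sum_ne_zero h4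
    have h6 := hUm g hg (g⁻¹ * z) (hTa _ _ _ (right_ne_zero_of_mul h5))
    rw [mul_inv_cancel_left] at h6
    exact h6

/-- PIECE MI-26. PROOF. `β v_j = ∑_i ∑_g φ_i (g⁻¹ β v_j) g v_i`, so
`HS (α β) c = ∑_(i,j) ∑_(z in c) ∑_g φ_j (z⁻¹ g α v_i) φ_i (g⁻¹ β v_j)`; the bijection
`g' = g⁻¹ z`, `z' = g⁻¹ z g` gives `HS (β α) c`. All sums are finite. -/
theorem HS_comm (α β : C →ₗ[K] C) (hα : ∀ g x, α (D.ρ g x) = D.ρ g (α x))
    (hβ : ∀ g x, β (D.ρ g x) = D.ρ g (β x)) (c : ConjClasses G) :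
    D.HS (α ∘ₗ β) c = D.HS (β ∘ₗ α) c := by
  classical
  obtain ⟨T1, hT1⟩ := D.mi26_fin α
  obtain ⟨T2, hT2⟩ := D.mi26_fin β
  have h1 := D.mi26_sum α β hα (T1 ∪ T2)
    (fun i j g h => Finset.mem_union_left _ (hT1 i j g h))
    (fun i j g h => Finset.mem_union_right _ (hT2 i j g h)) c
  have h2 := D.mi26_sum β α hβ (T1 ∪ T2)
    (fun i j g h => Finset.mem_union_right _ (hT2 i j g h))
    (fun i j g h => Finset.mem_union_left _ (hT1 i j g h)) c
  rw [h1, h2, Finset.sum_comm]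
  refine Finset.sum_congr rfl fun i _ => Finset.sum_congr rfl fun j _ => ?_
  rw [Finset.sum_comm]
  refine Finset.sum_congr rfl fun g _ => Finset.sum_congr rfl fun h _ => ?_
  have h5 : ConjClasses.mk (h * g) = ConjClasses.mk (g * h) := by
    rw [ConjClasses.mk_eq_mk_iff_isConj, isConj_iff]
    exact ⟨g, by group⟩
  rw [h5, mul_comm]

/-- additivity of the trace -/
private theorem mi27_add (α β : C →ₗ[K] C) (c : ConjClasses G) :
    D.HS (α + β) c = D.HS α c + D.HS β c := by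
  have hfin : ∀ (j : D.J) (x : C), {z : G | D.φ j (D.ρ z⁻¹ x) ≠ 0}.Finite := fun j x =>
    (D.fs j x).preimage (f := fun z : G => z⁻¹) inv_injective.injOn
  unfold HS
  rw [← Finset.sum_add_distrib]
  refine Finset.sum_congr rfl fun j _ => ?_
  have h := finsum_mem_add_distrib' (s := {z : G | ConjClasses.mk z = c})
    (f := fun z => D.φ j (D.ρ z⁻¹ (α (D.v j)))) (g := fun z => D.φ j (D.ρ z⁻¹ (β (D.v j))))
    ((hfin j (α (D.v j))).subset Set.inter_subset_right)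
    ((hfin j (β (D.v j))).subset Set.inter_subset_right)
  simp only [Set.mem_ofPred_eq] at h
  rw [← h]
  refine finsum_congr fun z => finsum_congr fun _ => ?_
  rw [LinearMap.add_apply, map_add, map_add]

/-- PIECE MI-27. PROOF. `homotopy`: `α = 1 + d h + h d`; additivity, `HS_comm`, `x + x = 0`. -/
theorem HS_id (α : C →ₗ[K] C) (h1 : ∀ g x, α (D.ρ g x) = D.ρ g (α x))
    (h2 : ∀ x, D.d (α x) = α (D.d x)) (h3 : ∀ x, D.ε (α x) = D.ε x)
    (h4 : ∀ n x, α (D.e n x) = D.e n (α x)) (c : ConjClasses G) :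
    D.HS α c = D.HS LinearMap.id c := by
  obtain ⟨h, hh, -, hα⟩ := D.homotopy α h1 h2 h3 h4
  have e : α = LinearMap.id + (D.d ∘ₗ h + h ∘ₗ D.d) := by
    ext x
    rw [hα x]
    simp [add_assoc]
  rw [e, D.mi27_add, D.mi27_add, D.HS_comm D.d h D.d_ρ hh, ZModModule.add_self, add_zero]

private theorem mi28_symm {X : Type*} [DecidableEq X] (A : Finset X) (F : X → X → K)
    (h : ∀ x y, F x y = F y x) : ∑ x ∈ A, ∑ y ∈ A, F x y = ∑ x ∈ A, F x x := by
  induction A using Finset.induction_on with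
  | empty => simp
  | insert a A ha ih =>
    rw [Finset.sum_insert ha, Finset.sum_insert ha, Finset.sum_insert ha]
    have h1 : ∑ x ∈ A, ∑ y ∈ insert a A, F x y =
        ∑ x ∈ A, F x a + ∑ x ∈ A, ∑ y ∈ A, F x y := by
      rw [← Finset.sum_add_distrib]
      exact Finset.sum_congr rfl fun x _ => Finset.sum_insert ha
    rw [h1, ih]
    have h2 : ∑ y ∈ A, F a y = ∑ x ∈ A, F x a := Finset.sum_congr rfl fun y _ => h a y
    rw [h2]
    have h3 : ∑ x ∈ A, F x a + ∑ x ∈ A, F x a = 0 := ZModModule.add_self _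
    calc F a a + ∑ x ∈ A, F x a + (∑ x ∈ A, F x a + ∑ x ∈ A, F x x)
        = (∑ x ∈ A, F x a + ∑ x ∈ A, F x a) + (F a a + ∑ x ∈ A, F x x) := by abel
      _ = F a a + ∑ x ∈ A, F x x := by rw [h3, zero_add]

private theorem mi28_fin : ∃ T : Finset G, ∀ i j g, D.φ i (D.ρ g⁻¹ (D.v j)) ≠ 0 → g ∈ T := by
  have h : (⋃ i : D.J, ⋃ j : D.J, {g : G | D.φ i (D.ρ g⁻¹ (D.v j)) ≠ 0}).Finite := by
    refine Set.finite_iUnion fun i => Set.finite_iUnion fun j => ?_
    have h1 := (D.fs i (D.v j)).preimage (inv_injective.injOn (s := Set.univ) |>.mono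
      (Set.subset_univ _) : Set.InjOn (fun g : G => g⁻¹) _)
    exact h1
  exact ⟨h.toFinset, fun i j g hg => h.mem_toFinset.2
    (Set.mem_iUnion.2 ⟨i, Set.mem_iUnion.2 ⟨j, hg⟩⟩)⟩

private theorem mi28_expand (T : Finset G)
    (hT : ∀ i j g, D.φ i (D.ρ g⁻¹ (D.v j)) ≠ 0 → g ∈ T) (j : D.J) (z : G) :
    D.φ j (D.ρ z⁻¹ (D.v j)) = ∑ i, ∑ g ∈ T,
      D.φ i (D.ρ g⁻¹ (D.v j)) * D.φ j (D.ρ (g⁻¹ * z)⁻¹ (D.v i)) := by
  have h1 := D.span (D.v j)
  have h2 : ∀ i, ∑ᶠ g : G, D.φ i (D.ρ g⁻¹ (D.v j)) • D.ρ g (D.v i) =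
      ∑ g ∈ T, D.φ i (D.ρ g⁻¹ (D.v j)) • D.ρ g (D.v i) := by
    intro i
    refine finsum_eq_sum_of_support_subset _ fun g hg => ?_
    refine hT i j g fun h3 => hg ?_
    show D.φ i (D.ρ g⁻¹ (D.v j)) • D.ρ g (D.v i) = 0
    rw [h3, zero_smul]
  rw [Finset.sum_congr rfl fun i _ => h2 i] at h1
  conv_lhs => rw [← h1]
  rw [map_sum, map_sum]
  refine Finset.sum_congr rfl fun i _ => ?_
  rw [map_sum, map_sum]
  refine Finset.sum_congr rfl fun g _ => ?_
  rw [map_smul, map_smul, smul_eq_mul, ← Module.End.mul_apply, ← map_mul, mul_inv_rev, inv_inv]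

/-- PIECE MI-28, Frobenius. PROOF. Let `a_ij (g) = φ_i (g⁻¹ v_j)`. Expanding `v_j = ∑_i ∑_g a_ij (g) g v_i` in
`HS id c = ∑_j ∑_(z in c) φ_j (z⁻¹ v_j)`: `= ∑_(i,j) ∑_(z in c) ∑_g a_ij (g) a_ji (g⁻¹ z)`. The pairs `((i,j), g, h = g⁻¹ z)`
and `((j,i), h, g)` have the same value and `h g = g⁻¹ (g h) g` is in `c`; they cancel except the fixed ones
`i = j`, `g = h`, `z = g ^ 2`, value `a_jj (g) ^ 2 = a_jj (g)`. (`Finset.sum_involution`.) -/
theorem HS_sq (c : ConjClasses G) :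
    D.HS LinearMap.id c = ∑ j, ∑ᶠ (z : G) (_ : ConjClasses.mk (z ^ 2) = c),
      D.φ j (D.ρ z⁻¹ (D.v j)) := by
  classical
  obtain ⟨T, hT⟩ := D.mi28_fin
  set a : D.J → D.J → G → K := fun i j g => D.φ i (D.ρ g⁻¹ (D.v j)) with ha
  have hT' : ∀ i j g, a i j g ≠ 0 → g ∈ T := hT
  have hex : ∀ j z, a j j z = ∑ i, ∑ g ∈ T, a i j g * a j i (g⁻¹ * z) :=
    fun j z => D.mi28_expand T hT j z
  set U : Finset G := T ∪ Finset.image (fun p : G × G => p.1 * p.2) (T ×ˢ T) with hU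
  -- the left hand side
  have hL : D.HS LinearMap.id c = ∑ j, ∑ z ∈ U, if ConjClasses.mk z = c then a j j z else 0 := by
    unfold HS
    refine Finset.sum_congr rfl fun j _ => ?_
    have h1 : ∀ z : G, (∑ᶠ (_ : ConjClasses.mk z = c),
        D.φ j (D.ρ z⁻¹ ((LinearMap.id : C →ₗ[K] C) (D.v j)))) =
        if ConjClasses.mk z = c then a j j z else 0 := fun z => finsum_eq_if
    rw [finsum_congr h1]
    refine finsum_eq_sum_of_support_subset _ fun z hz => ?_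
    have h2 : a j j z ≠ 0 := by
      intro h3
      apply hz
      show (if ConjClasses.mk z = c then a j j z else 0) = 0
      rw [h3, ite_self]
    exact Finset.mem_coe.2 (Finset.mem_union_left _ (hT' _ _ _ h2))
  have hR : ∀ j, (∑ᶠ (z : G) (_ : ConjClasses.mk (z ^ 2) = c), D.φ j (D.ρ z⁻¹ (D.v j))) =
      ∑ z ∈ T, if ConjClasses.mk (z * z) = c then a j j z else 0 := by
    intro j
    have h1 : ∀ z : G, (∑ᶠ (_ : ConjClasses.mk (z ^ 2) = c), D.φ j (D.ρ z⁻¹ (D.v j))) =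
        if ConjClasses.mk (z * z) = c then a j j z else 0 := fun z => by
      rw [finsum_eq_if, pow_two]
    rw [finsum_congr h1]
    refine finsum_eq_sum_of_support_subset _ fun z hz => ?_
    refine Finset.mem_coe.2 (hT' j j z fun h3 => hz ?_)
    show (if ConjClasses.mk (z * z) = c then a j j z else 0) = 0
    rw [h3, ite_self]
  have hz : ∀ i j, ∀ g ∈ T, (∑ z ∈ U, if ConjClasses.mk z = c then a i j g * a j i (g⁻¹ * z)
      else 0) = ∑ h ∈ T, if ConjClasses.mk (g * h) = c then a i j g * a j i h else 0 := by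
    intro i j g hg
    have h1 : T.image (fun h => g * h) ⊆ U := by
      intro x hx
      obtain ⟨h, hh, rfl⟩ := Finset.mem_image.1 hx
      exact Finset.mem_union_right _ (Finset.mem_image.2 ⟨(g, h), Finset.mem_product.2 ⟨hg, hh⟩, rfl⟩)
    rw [← Finset.sum_subset h1, Finset.sum_image fun x _ y _ h => mul_left_cancel h]
    · refine Finset.sum_congr rfl fun h _ => ?_
      rw [inv_mul_cancel_left]
    · intro x _ hx
      split_ifs with h2
      · by_contra h3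
        refine hx (Finset.mem_image.2 ⟨g⁻¹ * x, hT' j i _ (right_ne_zero_of_mul h3), ?_⟩)
        exact mul_inv_cancel_left g x
      · rfl
  have hmain : (∑ j, ∑ z ∈ U, if ConjClasses.mk z = c then a j j z else 0) =
      ∑ x ∈ (Finset.univ : Finset D.J) ×ˢ T, ∑ y ∈ (Finset.univ : Finset D.J) ×ˢ T,
        if ConjClasses.mk (x.2 * y.2) = c then a x.1 y.1 x.2 * a y.1 x.1 y.2 else 0 := by
    have h1 : ∀ j, (∑ z ∈ U, if ConjClasses.mk z = c then a j j z else 0) =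
        ∑ i, ∑ g ∈ T, ∑ h ∈ T, if ConjClasses.mk (g * h) = c then a i j g * a j i h else 0 := by
      intro j
      have h2 : ∀ z ∈ U, (if ConjClasses.mk z = c then a j j z else 0) =
          ∑ i, ∑ g ∈ T, if ConjClasses.mk z = c then a i j g * a j i (g⁻¹ * z) else 0 := by
        intro z _
        split_ifs with h3
        · exact hex j z
        · simp
      rw [Finset.sum_congr rfl h2, Finset.sum_comm]
      refine Finset.sum_congr rfl fun i _ => ?_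
      rw [Finset.sum_comm]
      exact Finset.sum_congr rfl fun g hg => hz i j g hg
    rw [Finset.sum_congr rfl fun j _ => h1 j]
    rw [Finset.sum_product, Finset.sum_comm]
    refine Finset.sum_congr rfl fun i _ => ?_
    rw [Finset.sum_comm]
    refine Finset.sum_congr rfl fun g _ => ?_
    rw [Finset.sum_product]
  rw [hL, hmain, mi28_symm]
  · rw [Finset.sum_product]
    refine Finset.sum_congr rfl fun j _ => ?_
    rw [hR j]
    refine Finset.sum_congr rfl fun g _ => ?_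
    split_ifs
    · have h4 : ∀ t : K, t * t = t := by decide
      exact h4 _
    · rfl
  · intro x y
    have h5 : ConjClasses.mk (x.2 * y.2) = ConjClasses.mk (y.2 * x.2) := by
      rw [ConjClasses.mk_eq_mk_iff_isConj, isConj_iff]
      exact ⟨y.2, by group⟩
    rw [h5, mul_comm]

private theorem mi29_mk {z w : G} (h : ConjClasses.mk z = ConjClasses.mk w) :
    ConjClasses.mk (z ^ 2) = ConjClasses.mk (w ^ 2) := by
  rw [ConjClasses.mk_eq_mk_iff_isConj, isConj_iff] at h ⊢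
  obtain ⟨a, ha⟩ := h
  refine ⟨a, ?_⟩
  rw [← ha]
  simp [pow_two, mul_assoc]

private theorem mi29_step (c : ConjClasses G) (hc : D.HS LinearMap.id c ≠ 0) :
    ∃ z : G, ConjClasses.mk (z ^ 2) = c ∧ D.HS LinearMap.id (ConjClasses.mk z) ≠ 0 := by
  classical
  by_contra hcon
  push Not at hcon
  apply hc
  obtain ⟨T, hT⟩ := D.mi28_fin
  have hA : ∀ (P : G → Prop) [DecidablePred P], (∑ j, ∑ᶠ (z : G) (_ : P z),
      D.φ j (D.ρ z⁻¹ (D.v j))) = ∑ z ∈ T.filter P, ∑ j, D.φ j (D.ρ z⁻¹ (D.v j)) := by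
    intro P _
    rw [Finset.sum_comm]
    refine Finset.sum_congr rfl fun j _ => ?_
    rw [Finset.sum_filter]
    have h1 : ∀ z : G, (∑ᶠ (_ : P z), D.φ j (D.ρ z⁻¹ (D.v j))) =
        if P z then D.φ j (D.ρ z⁻¹ (D.v j)) else 0 := fun z => finsum_eq_if
    rw [finsum_congr h1]
    refine finsum_eq_sum_of_support_subset _ fun z hz => ?_
    refine Finset.mem_coe.2 (hT j j z fun h3 => hz ?_)
    show (if P z then D.φ j (D.ρ z⁻¹ (D.v j)) else 0) = 0
    rw [h3, ite_self]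
  have hH : ∀ c' : ConjClasses G, D.HS LinearMap.id c' =
      ∑ z ∈ T.filter (fun z => ConjClasses.mk z = c'), ∑ j, D.φ j (D.ρ z⁻¹ (D.v j)) :=
    fun c' => hA _
  rw [D.HS_sq, hA]
  rw [← Finset.sum_fiberwise_of_maps_to
    (t := (T.filter (fun z => ConjClasses.mk (z ^ 2) = c)).image ConjClasses.mk)
    (g := ConjClasses.mk) fun z hz => Finset.mem_image_of_mem _ hz]
  refine Finset.sum_eq_zero fun c' hc' => ?_
  obtain ⟨z, hz, rfl⟩ := Finset.mem_image.1 hc'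
  have hz2 := (Finset.mem_filter.1 hz).2
  have h1 : (T.filter (fun z => ConjClasses.mk (z ^ 2) = c)).filter
      (fun w => ConjClasses.mk w = ConjClasses.mk z) =
      T.filter (fun w => ConjClasses.mk w = ConjClasses.mk z) := by
    rw [Finset.filter_filter]
    refine Finset.filter_congr fun w _ => ?_
    constructor
    · exact fun h => h.2
    · exact fun h => ⟨(mi29_mk h).trans hz2, h⟩
  rw [h1, ← hH]
  exact hcon z hz2

/-- PIECE MI-29. PROOF. If `HS id c ≠ 0` then by `HS_sq` (group by the class of `z`) there is `c'` with `HS id c' ≠ 0` and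
`c'` squared is `c`. Start with `c ≠ 1`: an infinite sequence `c_0 = c, c_1, ..` with `c_(i+1) ^ 2 = c_i`, all `≠ 1`, all in the finite
set of classes with `HS id ≠ 0`; so `c_i = c_(i+k)`, `k ≥ 1`, and a representative `z` of it is conjugate to `z ^ (2 ^ k)`. -/
theorem HS_zero (hG : ∀ z : G, z ≠ 1 → ∀ k, 1 ≤ k → ¬ IsConj z (z ^ (2 ^ k)))
    (c : ConjClasses G) (hc : c ≠ 1) : D.HS LinearMap.id c = 0 := by
  classical
  by_contra hc0
  obtain ⟨T, hT⟩ := D.mi28_fin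
  obtain ⟨N, hN⟩ : ∃ N : Finset (ConjClasses G), ∀ c', c' ∈ N ↔
      D.HS LinearMap.id c' ≠ 0 ∧ c' ≠ 1 := by
    refine ⟨(T.image ConjClasses.mk).filter fun c' => D.HS LinearMap.id c' ≠ 0 ∧ c' ≠ 1,
      fun c' => ⟨fun h => (Finset.mem_filter.1 h).2, fun h => Finset.mem_filter.2 ⟨?_, h⟩⟩⟩
    by_contra h1
    apply h.1
    unfold HS
    refine Finset.sum_eq_zero fun j _ => finsum_eq_zero_of_forall_eq_zero fun z => ?_
    rw [finsum_eq_if]
    split_ifs with h2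
    · by_contra h3
      exact h1 (Finset.mem_image.2 ⟨z, hT j j z h3, h2⟩)
    · rfl
  -- representatives
  have hstep : ∀ z : G, ConjClasses.mk z ∈ N → ∃ w : G, ConjClasses.mk w ∈ N ∧
      ConjClasses.mk (w ^ 2) = ConjClasses.mk z := by
    intro z hz
    obtain ⟨w, hw1, hw2⟩ := D.mi29_step _ ((hN _).1 hz).1
    refine ⟨w, (hN _).2 ⟨hw2, fun h1 => ?_⟩, hw1⟩
    apply ((hN _).1 hz).2
    rw [← hw1, ConjClasses.one_eq_mk_one]
    rw [ConjClasses.one_eq_mk_one] at h1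
    have h2 := mi29_mk h1
    rwa [one_pow] at h2
  choose f hf1 hf2 using hstep
  obtain ⟨z0, hz0⟩ := ConjClasses.exists_rep c
  have hz0N : ConjClasses.mk z0 ∈ N := (hN _).2 (by rw [hz0]; exact ⟨hc0, hc⟩)
  let F : {z : G // ConjClasses.mk z ∈ N} → {z : G // ConjClasses.mk z ∈ N} :=
    fun z => ⟨f z.1 z.2, hf1 z.1 z.2⟩
  have hF : ∀ (k : ℕ) (z : {z : G // ConjClasses.mk z ∈ N}),
      ConjClasses.mk ((F^[k] z).1 ^ (2 ^ k)) = ConjClasses.mk z.1 := by
    intro k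
    induction k with
    | zero =>
      intro z
      simp
    | succ k ih =>
      intro z
      have h1 := ih (F z)
      rw [Function.iterate_succ_apply, pow_succ, pow_mul]
      rw [mi29_mk h1]
      exact hf2 z.1 z.2
  let Q : ℕ → {c' : ConjClasses G // c' ∈ N} := fun n =>
    ⟨ConjClasses.mk (F^[n] ⟨z0, hz0N⟩).1, (F^[n] ⟨z0, hz0N⟩).2⟩
  obtain ⟨m, n, hmn, hQ⟩ := Finite.exists_ne_map_eq_of_infinite Q
  have hfin : ∀ m k : ℕ, 1 ≤ k → ConjClasses.mk (F^[m] ⟨z0, hz0N⟩).1 =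
      ConjClasses.mk (F^[m + k] ⟨z0, hz0N⟩).1 → False := by
    intro m k hk h
    have h1 := hF k (F^[m] ⟨z0, hz0N⟩)
    rw [← Function.iterate_add_apply, add_comm k m, h,
      ConjClasses.mk_eq_mk_iff_isConj] at h1
    refine hG _ (fun h2 => ?_) k hk h1.symm
    have h3 := ((hN _).1 (F^[m + k] ⟨z0, hz0N⟩).2).2
    apply h3
    rw [h2, ConjClasses.one_eq_mk_one]
  have hQ' := congrArg Subtype.val hQ
  rcases lt_or_gt_of_ne hmn with h | h
  · obtain ⟨k, rfl⟩ := Nat.exists_eq_add_of_lt h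
    exact hfin m (k + 1) (by omega) hQ'
  · obtain ⟨k, rfl⟩ := Nat.exists_eq_add_of_lt h
    exact hfin n (k + 1) (by omega) hQ'.symm

/-- the summand -/
private noncomputable def mi30_R (lam : C ⊗[K] C →ₗ[K] K) (x : C) (g : G) : C ⊗[K] C →ₗ[K] C :=
  rf (lam ∘ₗ TensorProduct.mk K C C x) ∘ₗ D.gg g g

private theorem mi30_tmul (lam : C ⊗[K] C →ₗ[K] K) (x : C) (g : G) (a b : C) :
    D.mi30_R lam x g (a ⊗ₜ b) = lam (x ⊗ₜ D.ρ g b) • D.ρ g a := by
  simp [mi30_R]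

private theorem mi30_fin {lam : C ⊗[K] C →ₗ[K] K} (hl : D.Form lam) (x : C) (w : C ⊗[K] C) :
    {g : G | D.mi30_R lam x g w ≠ 0}.Finite := by
  induction w with
  | zero => simp
  | tmul a b =>
    refine (hl.fs x b).subset fun g hg h0 => hg ?_
    rw [mi30_tmul]
    have h1 : lam (x ⊗ₜ D.ρ g b) = 0 := h0
    rw [h1, zero_smul]
  | add u v hu hv =>
    refine (hu.union hv).subset fun g hg => ?_
    by_contra h0
    simp only [Set.mem_union, Set.mem_setOf_eq, not_or, not_not] at h0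
    apply hg
    rw [map_add, h0.1, h0.2, add_zero]

private theorem mi30_add (lam : C ⊗[K] C →ₗ[K] K) (x y : C) (g : G) (w : C ⊗[K] C) :
    D.mi30_R lam (x + y) g w = D.mi30_R lam x g w + D.mi30_R lam y g w := by
  induction w with
  | zero => simp
  | tmul a b => rw [mi30_tmul, mi30_tmul, mi30_tmul, TensorProduct.add_tmul, map_add, add_smul]
  | add u v hu hv => rw [map_add, map_add, map_add, hu, hv]; abel

private theorem mi30_zero (lam : C ⊗[K] C →ₗ[K] K) (g : G) (w : C ⊗[K] C) :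
    D.mi30_R lam 0 g w = 0 := by
  have h := D.mi30_add lam 0 0 g w
  rw [add_zero] at h
  exact left_eq_add.1 h

/-- the sum, in `x` -/
private noncomputable def mi30_S {lam : C ⊗[K] C →ₗ[K] K} (hl : D.Form lam) (w : C ⊗[K] C) :
    C →ₗ[K] C :=
  AddMonoidHom.toZModLinearMap 2
    { toFun := fun x => ∑ᶠ g : G, D.mi30_R lam x g w
      map_zero' := by simp [mi30_zero]
      map_add' := fun x y => by
        rw [← finsum_add_distrib (D.mi30_fin hl x w) (D.mi30_fin hl y w)]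
        exact finsum_congr fun g => D.mi30_add lam x y g w }

private theorem mi30_S_apply {lam : C ⊗[K] C →ₗ[K] K} (hl : D.Form lam) (w : C ⊗[K] C) (x : C) :
    D.mi30_S hl w x = ∑ᶠ g : G, D.mi30_R lam x g w := rfl

private theorem mi30_S_add {lam : C ⊗[K] C →ₗ[K] K} (hl : D.Form lam) (w w' : C ⊗[K] C) (x : C) :
    D.mi30_S hl (w + w') x = D.mi30_S hl w x + D.mi30_S hl w' x := by
  rw [mi30_S_apply, mi30_S_apply, mi30_S_apply,
    ← finsum_add_distrib (D.mi30_fin hl x w) (D.mi30_fin hl x w')]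
  exact finsum_congr fun g => map_add _ _ _

private theorem mi30_eqv {lam : C ⊗[K] C →ₗ[K] K} (hl : D.Form lam) (x : C) (g h : G)
    (w : C ⊗[K] C) : D.mi30_R lam (D.ρ h x) g w = D.ρ h (D.mi30_R lam x (h⁻¹ * g) w) := by
  induction w with
  | zero => simp
  | tmul a b =>
    have h1 := hl.inv h (x ⊗ₜ D.ρ (h⁻¹ * g) b)
    rw [gg_tmul, ← Module.End.mul_apply, ← map_mul, mul_inv_cancel_left] at h1
    rw [mi30_tmul, mi30_tmul, h1, map_smul, ← Module.End.mul_apply, ← map_mul,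
      mul_inv_cancel_left]
  | add u v hu hv => rw [map_add, map_add, map_add, hu, hv]

private theorem mi30_gg (lam : C ⊗[K] C →ₗ[K] K) (x : C) (g h : G)
    (w : C ⊗[K] C) : D.mi30_R lam x g (D.gg h h w) = D.mi30_R lam x (g * h) w := by
  induction w with
  | zero => simp
  | tmul a b =>
    rw [gg_tmul, mi30_tmul, mi30_tmul, ← Module.End.mul_apply, ← map_mul,
      ← Module.End.mul_apply, ← map_mul]
  | add u v hu hv => rw [map_add, map_add, map_add, hu, hv]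

private theorem mi30_d {lam : C ⊗[K] C →ₗ[K] K} (hld : ∀ w, lam (dd D.d w) = 0) (x : C) (g : G)
    (w : C ⊗[K] C) : D.d (D.mi30_R lam x g w) =
      D.mi30_R lam x g (dd D.d w) + D.mi30_R lam (D.d x) g w := by
  induction w with
  | zero => simp
  | tmul a b =>
    have h1 := hld (x ⊗ₜ D.ρ g b)
    rw [dd_tmul, map_add, D.d_ρ] at h1
    have h2 : lam (x ⊗ₜ D.ρ g (D.d b)) = lam (D.d x ⊗ₜ D.ρ g b) := by
      have h3 := ZModModule.add_self (lam (x ⊗ₜ D.ρ g (D.d b)))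
      rw [← h1] at h3
      exact add_right_cancel h3
    rw [dd_tmul, map_add, mi30_tmul, mi30_tmul, mi30_tmul, mi30_tmul, h2, map_smul, D.d_ρ,
      add_assoc, ZModModule.add_self, add_zero]
  | add u v hu hv =>
    rw [map_add, map_add, hu, hv, map_add, map_add, map_add]
    abel

private theorem mi30_lam {lam : C ⊗[K] C →ₗ[K] K} (hl3 : ∀ w, lam (D.E 3 w) = lam w) (m n : ℕ)
    (hn : n ≤ 3) (x y : C) : lam (D.e m x ⊗ₜ D.e (3 - n) y) =
      if m = n then lam (x ⊗ₜ D.e (3 - n) y) else 0 := by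
  have key : ∀ x y : C, lam (x ⊗ₜ y) =
      ∑ p ∈ Finset.range (3 + 1), lam (D.e p x ⊗ₜ D.e (3 - p) y) := by
    intro x y
    rw [← hl3, E, LinearMap.sum_apply, map_sum]
    rfl
  have h2 : lam (x ⊗ₜ D.e (3 - n) y) = lam (D.e n x ⊗ₜ D.e (3 - n) y) := by
    rw [key x, Finset.sum_eq_single n]
    · rw [D.e_e]
    · intro p hp hpn
      have hp' : p < 4 := Finset.mem_range.1 hp
      rw [D.e_ne (3 - p) (3 - n) y (by omega), TensorProduct.tmul_zero, map_zero]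
    · intro h
      exact absurd (Finset.mem_range.2 (by omega)) h
  split_ifs with hmn
  · rw [hmn, h2]
  · rw [key, Finset.sum_eq_zero]
    intro p hp
    have hp' : p < 4 := Finset.mem_range.1 hp
    by_cases hpm : p = m
    · rw [D.e_ne (3 - p) (3 - n) y (by omega), TensorProduct.tmul_zero, map_zero]
    · rw [D.e_ne p m x hpm, TensorProduct.zero_tmul, map_zero]

private theorem mi30_e {lam : C ⊗[K] C →ₗ[K] K} (hl3 : ∀ w, lam (D.E 3 w) = lam w) (n : ℕ)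
    (x : C) (g : G) (w : C ⊗[K] C) : D.mi30_R lam (D.e n x) g (D.E 3 w) =
      D.e n (D.mi30_R lam x g (D.E 3 w)) := by
  induction w with
  | zero => simp
  | tmul a b =>
    have h1 : D.E 3 (a ⊗ₜ[K] b) = ∑ p ∈ Finset.range (3 + 1), D.e p a ⊗ₜ D.e (3 - p) b := by
      rw [E, LinearMap.sum_apply]
      rfl
    rw [h1, map_sum, map_sum, map_sum]
    refine Finset.sum_congr rfl fun p hp => ?_
    have hp' : p ≤ 3 := by
      have := Finset.mem_range.1 hp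
      omega
    rw [mi30_tmul, mi30_tmul, ← D.e_ρ, ← D.e_ρ, D.mi30_lam hl3 n p hp', map_smul]
    split_ifs with h
    · rw [h, D.e_e]
    · rw [zero_smul, D.e_ne n p _ h, smul_zero]
  | add u v hu hv => rw [map_add, map_add, map_add, hu, hv, map_add]

/-- PIECE MI-30. PROOF. `α x = ∑ᶠ g, rf (lam_0 (x ⊗ ·)) (gg g g (Δ_0 t))`; for fixed `x` finitely many `g` matter
(`Form.fs`, write `Δ_0 t` as a sum of pure tensors). Equivariance: reindex. Degree: `lam_0 = lam_0 E 3`, `Δ_0 t = E 3 (Δ_0 t)`.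
Chain map: `d (rf ψ w) = rf ψ (dd w) + rf (ψ ∘ d) w`, `dd (Δ_0 t) = Δ_0 (d t)`, `lam_0 (x ⊗ d y) = lam_0 (d x ⊗ y)`;
`∑ᶠ g, rf (lam_0 (x ⊗ ·)) (gg g g (Δ_0 (d t))) = 0`: `u ↦ ∑ᶠ g, θ (rf (..) (gg g g (Δ_0 u)))` is an invariant functional of
`u` for every functional `θ` of `C` (`ht.bd`; functionals separate points). -/
theorem exists_alpha {lam : C ⊗[K] C →ₗ[K] K} (hl : D.Form lam) (hl3 : ∀ w, lam (D.E 3 w) = lam w)
    (hld : ∀ w, lam (dd D.d w) = 0) {Δ : C →ₗ[K] C ⊗[K] C}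
    (hΔ : ∀ g x, Δ (D.ρ g x) = D.gg g g (Δ x)) (hΔe : ∀ n x, Δ (D.e n x) = D.E n (Δ x))
    (hΔd : ∀ x, dd D.d (Δ x) = Δ (D.d x)) {t : C} (ht : D.Fund t) :
    ∃ α : C →ₗ[K] C, (∀ g x, α (D.ρ g x) = D.ρ g (α x)) ∧ (∀ x, D.d (α x) = α (D.d x)) ∧
      (∀ n x, α (D.e n x) = D.e n (α x)) ∧
      (∀ x, {g : G | rf (lam ∘ₗ TensorProduct.mk K C C x) (D.gg g g (Δ t)) ≠ 0}.Finite) ∧
      ∀ x, α x = ∑ᶠ g : G, rf (lam ∘ₗ TensorProduct.mk K C C x) (D.gg g g (Δ t)) := by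
  have hmap : ∀ (f : C →ₗ[K] C) (x : C) (w : C ⊗[K] C), f (D.mi30_S hl w x) =
      ∑ᶠ g : G, f (D.mi30_R lam x g w) := fun f x w =>
    f.toAddMonoidHom.map_finsum (D.mi30_fin hl x w)
  have hw : D.E 3 (Δ t) = Δ t := by rw [← hΔe, ht.deg]
  refine ⟨D.mi30_S hl (Δ t), fun h x => ?_, fun x => ?_, fun n x => ?_,
    fun x => D.mi30_fin hl x (Δ t), fun x => rfl⟩
  · rw [hmap, mi30_S_apply, ← finsum_comp_equiv (Equiv.mulLeft h⁻¹)
      (f := fun g => D.ρ h (D.mi30_R lam x g (Δ t)))]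
    exact finsum_congr fun g => D.mi30_eqv hl x g h (Δ t)
  · have h1 : D.mi30_S hl (dd D.d (Δ t)) x = 0 := by
      rw [hΔd]
      refine (Module.forall_dual_apply_eq_zero_iff K _).1 fun θ => ?_
      let ω : C →ₗ[K] K := θ ∘ₗ AddMonoidHom.toZModLinearMap 2
        { toFun := fun u => D.mi30_S hl (Δ u) x
          map_zero' := by
            have h2 := D.mi30_S_add hl 0 0 x
            rw [add_zero] at h2
            rw [map_zero]
            exact left_eq_add.1 h2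
          map_add' := fun u v => by rw [map_add, mi30_S_add] }
      refine ht.bd ω fun g u => ?_
      change θ (D.mi30_S hl (Δ (D.ρ g u)) x) = θ (D.mi30_S hl (Δ u) x)
      congr 1
      rw [hΔ, mi30_S_apply, mi30_S_apply, ← finsum_comp_equiv (Equiv.mulRight g)
        (f := fun h => D.mi30_R lam x h (Δ u))]
      exact finsum_congr fun h => D.mi30_gg lam x h g (Δ u)
    rw [hmap]
    have h2 : ∀ g, D.d (D.mi30_R lam x g (Δ t)) = D.mi30_R lam x g (dd D.d (Δ t)) +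
        D.mi30_R lam (D.d x) g (Δ t) := fun g => D.mi30_d hld x g (Δ t)
    rw [finsum_congr h2, finsum_add_distrib (D.mi30_fin hl x _) (D.mi30_fin hl (D.d x) _)]
    change D.mi30_S hl (dd D.d (Δ t)) x + D.mi30_S hl (Δ t) (D.d x) = _
    rw [h1, zero_add]
  · rw [hmap, mi30_S_apply]
    refine finsum_congr fun g => ?_
    have h1 := D.mi30_e hl3 n x g (Δ t)
    rwa [hw] at h1

/-- The sum over the group of a functional of finite support is a linear invariant functional. -/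
private theorem mi31_tot {ψ : C →ₗ[K] K} (h : Fs D.ρ ψ) :
    ∃ ω : C →ₗ[K] K, (∀ y, ω y = ∑ᶠ g : G, ψ (D.ρ g y)) ∧ ∀ g y, ω (D.ρ g y) = ω y := by
  refine ⟨{ toFun := fun y => ∑ᶠ g : G, ψ (D.ρ g y)
            map_add' := fun y y' => ?_
            map_smul' := fun c y => ?_ }, fun y => rfl, fun g y => ?_⟩
  · rw [← finsum_add_distrib (h y) (h y')]
    exact finsum_congr fun g => by rw [map_add, map_add]
  · rw [RingHom.id_apply, smul_finsum' c (h y)]
    exact finsum_congr fun g => by rw [map_smul, map_smul]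
  · change ∑ᶠ a : G, ψ (D.ρ a (D.ρ g y)) = ∑ᶠ a : G, ψ (D.ρ a y)
    rw [← finsum_comp_equiv (Equiv.mulRight g) (f := fun a => ψ (D.ρ a y))]
    refine finsum_congr fun a => ?_
    rw [Equiv.coe_mulRight, map_mul, Module.End.mul_apply]

private theorem mi31_rf (f : C →ₗ[K] K) (w : C ⊗[K] C) : D.ε (rf f w) = f (lf D.ε w) := by
  induction w with
  | zero => simp
  | tmul x y => rw [rf_tmul, lf_tmul, map_smul, map_smul, smul_eq_mul, smul_eq_mul, mul_comm]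
  | add x y hx hy => rw [map_add, map_add, map_add, map_add, hx, hy]

private theorem mi31_lf_dd (w : C ⊗[K] C) : D.d (lf D.ε w) = lf D.ε (dd D.d w) := by
  induction w with
  | zero => simp
  | tmul x y =>
    rw [lf_tmul, dd_tmul, map_add, lf_tmul, lf_tmul, D.ε_d, zero_smul, zero_add, map_smul]
  | add x y hx hy => rw [map_add, map_add, map_add, map_add, hx, hy]

private theorem mi31_lf_gg (g : G) (w : C ⊗[K] C) : lf D.ε (D.gg g g w) = D.ρ g (lf D.ε w) := by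
  induction w with
  | zero => simp
  | tmul x y => rw [gg_tmul, lf_tmul, lf_tmul, D.ε_ρ, map_smul]
  | add x y hx hy => rw [map_add, map_add, map_add, map_add, hx, hy]

private theorem mi31_lf_ε (w : C ⊗[K] C) : D.ε (lf D.ε w) = pr2 D.ε D.ε w := by
  induction w with
  | zero => simp
  | tmul x y => rw [lf_tmul, pr2_tmul, map_smul, smul_eq_mul]
  | add x y hx hy => rw [map_add, map_add, map_add, hx, hy]

private theorem mi31_ε_e (p : ℕ) (hp : p ≠ 0) (x : C) : D.ε (D.e p x) = 0 := by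
  rw [← D.ε_e, D.e_ne 0 p x hp.symm, map_zero]

private theorem mi31_lf_E (n : ℕ) (w : C ⊗[K] C) : lf D.ε (D.E n w) = D.e n (lf D.ε w) := by
  induction w with
  | zero => simp
  | tmul x y =>
    rw [E, LinearMap.sum_apply, map_sum, Finset.sum_eq_single 0]
    · rw [TensorProduct.map_tmul, lf_tmul, lf_tmul, D.ε_e, map_smul, Nat.sub_zero]
    · intro p _ hp
      rw [TensorProduct.map_tmul, lf_tmul, D.mi31_ε_e p hp, zero_smul]
    · intro h
      exact absurd (Finset.mem_range.2 (Nat.succ_pos n)) h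
  | add x y hx hy => rw [map_add, map_add, map_add, map_add, hx, hy]

/-- PIECE MI-31. PROOF. `ε (rf ψ w) = ψ (lf ε w)`. `β = lf ε ∘ Δ` is an equivariant chain map of degree `0` with `ε β = ε`:
`β = 1 + d h + h d` (`homotopy`), `β t = t + h (d t)` (`h t` has degree `4`). So for `x` of degree `0`
`ε (α x) = ∑ᶠ g, lam (x ⊗ g t) + ∑ᶠ g, lam (x ⊗ g h (d t))`, the second sum is `0` (invariant functional of `d t`), the first is `ε x`:
`x = ε x • o + d y`, `hz` and `ht.mass`; `lam (d y ⊗ g t) = lam (y ⊗ g d t)`, again invariant in `d t`. For `x` of degree `≥ 1`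
both sides are `0`. -/
theorem alpha_aug {lam : C ⊗[K] C →ₗ[K] K} (hl : D.Form lam) (hl3 : ∀ w, lam (D.E 3 w) = lam w)
    (hld : ∀ w, lam (dd D.d w) = 0)
    (hz : ∃ χ : C →ₗ[K] K, Fs D.ρ χ ∧ ∀ y, lam (D.o ⊗ₜ y) = D.z y + χ (D.d y))
    {Δ : C →ₗ[K] C ⊗[K] C}
    (hΔ : ∀ g x, Δ (D.ρ g x) = D.gg g g (Δ x)) (hΔe : ∀ n x, Δ (D.e n x) = D.E n (Δ x))
    (hΔd : ∀ x, dd D.d (Δ x) = Δ (D.d x)) (hε : ∀ x, pr2 D.ε D.ε (Δ x) = D.ε x)
    {t : C} (ht : D.Fund t) {α : C →ₗ[K] C} (hαe : ∀ n x, α (D.e n x) = D.e n (α x))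
    (hαf : ∀ x, {g : G | rf (lam ∘ₗ TensorProduct.mk K C C x) (D.gg g g (Δ t)) ≠ 0}.Finite)
    (hα : ∀ x, α x = ∑ᶠ g : G, rf (lam ∘ₗ TensorProduct.mk K C C x) (D.gg g g (Δ t))) (x : C) :
    D.ε (α x) = D.ε x := by
  classical
  -- the chain map `β`
  obtain ⟨h, hh1, hh2, hh3⟩ := D.homotopy (lf D.ε ∘ₗ Δ)
    (fun g x => by
      rw [LinearMap.comp_apply, LinearMap.comp_apply, hΔ, mi31_lf_gg])
    (fun x => by
      rw [LinearMap.comp_apply, LinearMap.comp_apply, mi31_lf_dd, hΔd])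
    (fun x => by rw [LinearMap.comp_apply, mi31_lf_ε, hε])
    (fun n x => by
      rw [LinearMap.comp_apply, LinearMap.comp_apply, hΔe, mi31_lf_E])
  have hβt : lf D.ε (Δ t) = t + h (D.d t) := by
    have h1 := hh3 t
    have h2 : D.d (h t) = 0 := by
      have h3 := hh2 3 t
      rw [ht.deg] at h3
      rw [h3, D.e_top 4 le_rfl, map_zero]
    rw [h2, add_zero] at h1
    exact h1
  -- the sums of the values on `h (d t)` and on `d t` vanish
  have key1 : ∀ ψ : C →ₗ[K] K, Fs D.ρ ψ → ∑ᶠ g : G, ψ (D.ρ g (D.d t)) = 0 := by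
    intro ψ hψ
    obtain ⟨ω, hω1, hω2⟩ := D.mi31_tot hψ
    rw [← hω1]
    exact ht.bd ω hω2
  have key2 : ∀ ψ : C →ₗ[K] K, Fs D.ρ ψ → ∑ᶠ g : G, ψ (D.ρ g (h (D.d t))) = 0 := by
    intro ψ hψ
    have := key1 (ψ ∘ₗ h) (Fs.comp hψ h hh1)
    rw [← this]
    exact finsum_congr fun g => by rw [LinearMap.comp_apply, hh1]
  -- the value of `ε (α x)`
  have main : ∀ x, D.ε (α x) = ∑ᶠ g : G, lam (x ⊗ₜ D.ρ g t) := by
    intro x
    have hfs := Form.fs hl x
    have h1 : D.ε (α x) = ∑ᶠ g : G, lam (x ⊗ₜ D.ρ g (t + h (D.d t))) := by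
      rw [hα]
      have h0 := (D.ε.toAddMonoidHom).map_finsum (hαf x)
      rw [LinearMap.toAddMonoidHom_coe] at h0
      rw [h0]
      refine finsum_congr fun g => ?_
      rw [mi31_rf, mi31_lf_gg, hβt]
      rfl
    rw [h1]
    have h2 : ∑ᶠ g : G, lam (x ⊗ₜ D.ρ g (t + h (D.d t))) =
        ∑ᶠ g : G, lam (x ⊗ₜ D.ρ g t) + ∑ᶠ g : G, lam (x ⊗ₜ D.ρ g (h (D.d t))) := by
      have hf1 : (Function.support fun g : G => lam (x ⊗ₜ[K] D.ρ g t)).Finite := hfs t
      have hf2 : (Function.support fun g : G => lam (x ⊗ₜ[K] D.ρ g (h (D.d t)))).Finite :=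
        hfs (h (D.d t))
      rw [← finsum_add_distrib hf1 hf2]
      refine finsum_congr fun g => ?_
      rw [map_add, TensorProduct.tmul_add, map_add]
    rw [h2]
    have h3 := key2 _ hfs
    have h4 : ∑ᶠ g : G, lam (x ⊗ₜ D.ρ g (h (D.d t))) = 0 := h3
    rw [h4, add_zero]
  -- degree zero
  obtain ⟨χ, hχ, hχz⟩ := hz
  have ho : ∑ᶠ g : G, lam (D.o ⊗ₜ D.ρ g t) = 1 := by
    refine ht.mass (lam ∘ₗ TensorProduct.mk K C C D.o) (Form.fs hl D.o) 1 χ hχ fun y => ?_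
    rw [one_mul]
    exact hχz y
  have hdo : D.d D.o = 0 := by rw [← D.o_e, D.d_e0]
  have hzero : D.ε (α (D.e 0 x)) = D.ε (D.e 0 x) := by
    obtain ⟨y, hy⟩ := D.ex (D.e 0 x + D.ε x • D.o)
      (by rw [map_add, D.d_e0, map_smul, hdo, smul_zero, add_zero])
      (by rw [map_add, D.ε_e, map_smul, D.ε_o, smul_eq_mul, mul_one, ZModModule.add_self])
    have hx : D.e 0 x = D.ε x • D.o + D.d y := by
      rw [hy, add_comm (D.e 0 x), ← add_assoc, ZModModule.add_self, zero_add]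
    have hfo : (Function.support fun g : G => lam (D.o ⊗ₜ[K] D.ρ g t)).Finite :=
      Form.fs hl D.o t
    have hfy : (Function.support fun g : G => lam (D.d y ⊗ₜ[K] D.ρ g t)).Finite :=
      Form.fs hl (D.d y) t
    have hf1 : (Function.support fun g : G => D.ε x * lam (D.o ⊗ₜ[K] D.ρ g t)).Finite := by
      refine hfo.subset fun g hg => ?_
      intro h0
      apply hg
      have h0' : lam (D.o ⊗ₜ[K] D.ρ g t) = 0 := h0
      change D.ε x * lam (D.o ⊗ₜ[K] D.ρ g t) = 0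
      rw [h0', mul_zero]
    rw [main, D.ε_e]
    have h1 : ∑ᶠ g : G, lam (D.e 0 x ⊗ₜ D.ρ g t) =
        ∑ᶠ g : G, D.ε x * lam (D.o ⊗ₜ D.ρ g t) + ∑ᶠ g : G, lam (D.d y ⊗ₜ D.ρ g t) := by
      rw [← finsum_add_distrib hf1 hfy]
      refine finsum_congr fun g => ?_
      rw [hx, TensorProduct.add_tmul, map_add, ← TensorProduct.smul_tmul', map_smul, smul_eq_mul]
    have h2 : ∑ᶠ g : G, lam (D.d y ⊗ₜ D.ρ g t) = 0 := by
      rw [← key1 _ (Form.fs hl y)]
      refine finsum_congr fun g => ?_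
      have h3 := hld (y ⊗ₜ D.ρ g t)
      rw [dd_tmul, map_add, D.d_ρ] at h3
      have h4 : lam (D.d y ⊗ₜ D.ρ g t) = lam (y ⊗ₜ D.ρ g (D.d t)) := by
        rw [← sub_eq_zero, ZModModule.sub_eq_add]
        exact h3
      exact h4
    rw [h1, h2, add_zero, ← mul_finsum' _ _ hfo, ho, mul_one]
  rw [← D.ε_e (α x), ← hαe, hzero, D.ε_e]

private theorem mi32_fin {lam : C ⊗[K] C →ₗ[K] K} (hl : D.Form lam) (x : C) (w : C ⊗[K] C) :
    {g : G | rf (lam ∘ₗ TensorProduct.mk K C C x) (D.gg g g w) ≠ 0}.Finite := by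
  induction w with
  | zero => simp
  | tmul a b =>
    refine (hl.fs x b).subset fun g hg h0 => hg ?_
    rw [gg_tmul, rf_tmul, h0, zero_smul]
  | add u v hu hv =>
    refine (hu.union hv).subset fun g hg => ?_
    by_contra h
    simp only [Set.mem_union, Set.mem_ofPred_eq, not_or, not_not] at h
    apply hg
    rw [map_add, map_add, h.1, h.2, add_zero]

private theorem mi32_inv (j : D.J) (y : C) : {g : G | D.φ j (D.ρ g⁻¹ y) ≠ 0}.Finite :=
  (D.fs j y).preimage (inv_injective.injOn)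

private theorem mi32_inv2 {lam : C ⊗[K] C →ₗ[K] K} (hl : D.Form lam) (g : G) (x y : C) :
    lam (x ⊗ₜ[K] D.ρ g⁻¹ y) = lam (D.ρ g x ⊗ₜ[K] y) := by
  rw [← hl.inv g (x ⊗ₜ[K] D.ρ g⁻¹ y), gg_tmul]
  congr 2
  rw [← Module.End.mul_apply, ← map_mul, mul_inv_cancel, map_one, Module.End.one_apply]

/-- `(w, g) ↦ (g⁻¹ w g, g⁻¹)` -/
private def mi32_e : G × G ≃ G × G where
  toFun p := (p.2⁻¹ * p.1 * p.2, p.2⁻¹)
  invFun p := (p.2⁻¹ * p.1 * p.2, p.2⁻¹)
  left_inv p := by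
    refine Prod.ext ?_ (inv_inv _)
    change (p.2⁻¹)⁻¹ * (p.2⁻¹ * p.1 * p.2) * p.2⁻¹ = p.1
    group
  right_inv p := by
    refine Prod.ext ?_ (inv_inv _)
    change (p.2⁻¹)⁻¹ * (p.2⁻¹ * p.1 * p.2) * p.2⁻¹ = p.1
    group

open Classical in
private theorem mi32_A_fin {lam : C ⊗[K] C →ₗ[K] K} (hl : D.Form lam) (c : ConjClasses G)
    (a b : C) (j : D.J) : (Function.support fun p : G × G =>
      if ConjClasses.mk p.1 = c then
        lam (D.v j ⊗ₜ[K] D.ρ p.2 b) * D.φ j (D.ρ p.1⁻¹ (D.ρ p.2 a)) else 0).Finite := by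
  have h1 := hl.fs (D.v j) b
  refine ((h1.biUnion fun g _ => (D.mi32_inv j (D.ρ g a)).prod (Set.finite_singleton g))).subset
    fun p hp => ?_
  rw [Function.mem_support] at hp
  have h2 : lam (D.v j ⊗ₜ[K] D.ρ p.2 b) ≠ 0 := by
    intro h
    apply hp
    rw [h, zero_mul, ite_self]
  have h3 : D.φ j (D.ρ p.1⁻¹ (D.ρ p.2 a)) ≠ 0 := by
    intro h
    apply hp
    rw [h, mul_zero, ite_self]
  rw [Set.mem_iUnion₂]
  exact ⟨p.2, h2, h3, rfl⟩

open Classical in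
private theorem mi32_B_eq {lam : C ⊗[K] C →ₗ[K] K} (hl : D.Form lam) (c : ConjClasses G)
    (a b : C) (j : D.J) (p : G × G) :
    (if ConjClasses.mk p.1 = c then
        D.φ j (D.ρ p.2⁻¹ (D.ρ p.1⁻¹ a)) * lam (D.ρ p.2 (D.v j) ⊗ₜ[K] b) else 0) =
      (fun p : G × G => if ConjClasses.mk p.1 = c then
        lam (D.v j ⊗ₜ[K] D.ρ p.2 b) * D.φ j (D.ρ p.1⁻¹ (D.ρ p.2 a)) else 0) (mi32_e p) := by
  obtain ⟨w, g⟩ := p
  change _ = if ConjClasses.mk (g⁻¹ * w * g) = c then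
        lam (D.v j ⊗ₜ[K] D.ρ g⁻¹ b) * D.φ j (D.ρ (g⁻¹ * w * g)⁻¹ (D.ρ g⁻¹ a)) else 0
  have h1 : ConjClasses.mk (g⁻¹ * w * g) = ConjClasses.mk w := by
    rw [ConjClasses.mk_eq_mk_iff_isConj, isConj_iff]
    exact ⟨g, by group⟩
  have h2 : D.ρ (g⁻¹ * w * g)⁻¹ (D.ρ g⁻¹ a) = D.ρ g⁻¹ (D.ρ w⁻¹ a) := by
    rw [← Module.End.mul_apply, ← map_mul, ← Module.End.mul_apply, ← map_mul]
    congr 2
    group
  rw [h1, D.mi32_inv2 hl, h2, mul_comm]

open Classical in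
private theorem mi32_pure {lam : C ⊗[K] C →ₗ[K] K} (hl : D.Form lam) (c : ConjClasses G)
    (a b : C) :
    ∑ j, ∑ᶠ (z : G) (_ : ConjClasses.mk z = c), D.φ j (D.ρ z⁻¹
      (∑ᶠ g : G, rf (lam ∘ₗ TensorProduct.mk K C C (D.v j)) (D.gg g g (a ⊗ₜ[K] b)))) =
      ∑ᶠ (z : G) (_ : ConjClasses.mk z = c), lam (D.gg z⁻¹ 1 (a ⊗ₜ[K] b)) := by
  have hL : ∀ j, ∑ᶠ (z : G) (_ : ConjClasses.mk z = c), D.φ j (D.ρ z⁻¹
      (∑ᶠ g : G, rf (lam ∘ₗ TensorProduct.mk K C C (D.v j)) (D.gg g g (a ⊗ₜ[K] b)))) =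
      ∑ᶠ p : G × G, if ConjClasses.mk p.1 = c then
        lam (D.v j ⊗ₜ[K] D.ρ p.2 b) * D.φ j (D.ρ p.1⁻¹ (D.ρ p.2 a)) else 0 := by
    intro j
    rw [finsum_curry _ (D.mi32_A_fin hl c a b j)]
    refine finsum_congr fun z => ?_
    rw [finsum_eq_if]
    by_cases hz : ConjClasses.mk z = c
    · simp only [if_pos hz]
      have h1 := (D.φ j ∘ₗ D.ρ z⁻¹).toAddMonoidHom.map_finsum (D.mi32_fin hl (D.v j) (a ⊗ₜ[K] b))
      refine h1.trans (finsum_congr fun g => ?_)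
      change D.φ j (D.ρ z⁻¹ (rf (lam ∘ₗ TensorProduct.mk K C C (D.v j))
        (D.gg g g (a ⊗ₜ[K] b)))) = _
      rw [gg_tmul, rf_tmul, map_smul, map_smul, smul_eq_mul]
      rfl
    · simp only [if_neg hz, finsum_zero]
  have hR : ∑ᶠ (z : G) (_ : ConjClasses.mk z = c), lam (D.gg z⁻¹ 1 (a ⊗ₜ[K] b)) =
      ∑ j, ∑ᶠ p : G × G, if ConjClasses.mk p.1 = c then
        D.φ j (D.ρ p.2⁻¹ (D.ρ p.1⁻¹ a)) * lam (D.ρ p.2 (D.v j) ⊗ₜ[K] b) else 0 := by
    have hf : ∀ j, (Function.support fun p : G × G => if ConjClasses.mk p.1 = c then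
        D.φ j (D.ρ p.2⁻¹ (D.ρ p.1⁻¹ a)) * lam (D.ρ p.2 (D.v j) ⊗ₜ[K] b) else 0).Finite := by
      intro j
      rw [funext (D.mi32_B_eq hl c a b j)]
      exact (D.mi32_A_fin hl c a b j).preimage (mi32_e.injective.injOn)
    have h1 : ∀ j, ∑ᶠ p : G × G, (if ConjClasses.mk p.1 = c then
        D.φ j (D.ρ p.2⁻¹ (D.ρ p.1⁻¹ a)) * lam (D.ρ p.2 (D.v j) ⊗ₜ[K] b) else 0) =
        ∑ᶠ z : G, ∑ᶠ g : G, (if ConjClasses.mk z = c then
        D.φ j (D.ρ g⁻¹ (D.ρ z⁻¹ a)) * lam (D.ρ g (D.v j) ⊗ₜ[K] b) else 0) := fun j =>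
      finsum_curry _ (hf j)
    simp only [h1]
    rw [← finsum_sum_comm]
    · refine finsum_congr fun z => ?_
      rw [finsum_eq_if]
      by_cases hz : ConjClasses.mk z = c
      · simp only [if_pos hz]
        have h2 : lam (D.gg z⁻¹ 1 (a ⊗ₜ[K] b)) =
            (lam ∘ₗ (TensorProduct.mk K C C).flip b) (D.ρ z⁻¹ a) := by
          rw [gg_tmul, map_one]
          rfl
        rw [h2]
        refine (congrArg (lam ∘ₗ (TensorProduct.mk K C C).flip b)
          (D.span (D.ρ z⁻¹ a)).symm).trans ?_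
        rw [map_sum]
        refine Finset.sum_congr rfl fun j _ => ?_
        have h3 := (lam ∘ₗ (TensorProduct.mk K C C).flip b).toAddMonoidHom.map_finsum
          (f := fun g : G => D.φ j (D.ρ g⁻¹ (D.ρ z⁻¹ a)) • D.ρ g (D.v j))
          ((D.mi32_inv j (D.ρ z⁻¹ a)).subset fun g hg h0 => hg (by
            change D.φ j (D.ρ g⁻¹ (D.ρ z⁻¹ a)) • D.ρ g (D.v j) = 0
            rw [h0, zero_smul]))
        refine h3.trans (finsum_congr fun g => ?_)
        change (lam ∘ₗ (TensorProduct.mk K C C).flip b)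
          (D.φ j (D.ρ g⁻¹ (D.ρ z⁻¹ a)) • D.ρ g (D.v j)) = _
        rw [map_smul, smul_eq_mul]
        rfl
      · simp only [if_neg hz, finsum_zero, Finset.sum_const_zero]
    · intro j _
      refine ((hf j).image Prod.fst).subset fun z hz => ?_
      rw [Function.mem_support] at hz
      by_contra h
      apply hz
      refine (finsum_congr fun g => ?_).trans finsum_zero
      by_contra h4
      exact h ⟨(z, g), h4, rfl⟩
  rw [hR]
  refine Finset.sum_congr rfl fun j _ => ?_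
  rw [hL j, finsum_congr (D.mi32_B_eq hl c a b j)]
  exact (finsum_comp_equiv mi32_e).symm

private theorem mi32_add (c : ConjClasses G) (f g : G → K) (hf : (Function.support f).Finite)
    (hg : (Function.support g).Finite) :
    ∑ᶠ (z : G) (_ : ConjClasses.mk z = c), (f z + g z) =
      (∑ᶠ (z : G) (_ : ConjClasses.mk z = c), f z) +
        ∑ᶠ (z : G) (_ : ConjClasses.mk z = c), g z :=
  finsum_mem_add_distrib' (s := {z : G | ConjClasses.mk z = c})
    (hf.subset Set.inter_subset_right) (hg.subset Set.inter_subset_right)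

private theorem mi32_gen {lam : C ⊗[K] C →ₗ[K] K} (hl : D.Form lam) (c : ConjClasses G)
    (w : C ⊗[K] C) :
    ∑ j, ∑ᶠ (z : G) (_ : ConjClasses.mk z = c), D.φ j (D.ρ z⁻¹
      (∑ᶠ g : G, rf (lam ∘ₗ TensorProduct.mk K C C (D.v j)) (D.gg g g w))) =
      ∑ᶠ (z : G) (_ : ConjClasses.mk z = c), lam (D.gg z⁻¹ 1 w) := by
  induction w with
  | zero => simp
  | tmul a b => exact D.mi32_pure hl c a b
  | add u v hu hv =>
    have hL : ∀ j, ∑ᶠ (z : G) (_ : ConjClasses.mk z = c), D.φ j (D.ρ z⁻¹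
        (∑ᶠ g : G, rf (lam ∘ₗ TensorProduct.mk K C C (D.v j)) (D.gg g g (u + v)))) =
        (∑ᶠ (z : G) (_ : ConjClasses.mk z = c), D.φ j (D.ρ z⁻¹
        (∑ᶠ g : G, rf (lam ∘ₗ TensorProduct.mk K C C (D.v j)) (D.gg g g u)))) +
        ∑ᶠ (z : G) (_ : ConjClasses.mk z = c), D.φ j (D.ρ z⁻¹
        (∑ᶠ g : G, rf (lam ∘ₗ TensorProduct.mk K C C (D.v j)) (D.gg g g v))) := by
      intro j
      have h1 : ∑ᶠ g : G, rf (lam ∘ₗ TensorProduct.mk K C C (D.v j)) (D.gg g g (u + v)) =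
          (∑ᶠ g : G, rf (lam ∘ₗ TensorProduct.mk K C C (D.v j)) (D.gg g g u)) +
          ∑ᶠ g : G, rf (lam ∘ₗ TensorProduct.mk K C C (D.v j)) (D.gg g g v) := by
        rw [← finsum_add_distrib (D.mi32_fin hl (D.v j) u) (D.mi32_fin hl (D.v j) v)]
        refine finsum_congr fun g => ?_
        rw [map_add, map_add]
      rw [h1]
      refine Eq.trans (finsum_congr fun z => finsum_congr fun _ => ?_)
        (mi32_add c _ _ (D.mi32_inv j _) (D.mi32_inv j _))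
      rw [map_add, map_add]
    have hR : ∑ᶠ (z : G) (_ : ConjClasses.mk z = c), lam (D.gg z⁻¹ 1 (u + v)) =
        (∑ᶠ (z : G) (_ : ConjClasses.mk z = c), lam (D.gg z⁻¹ 1 u)) +
        ∑ᶠ (z : G) (_ : ConjClasses.mk z = c), lam (D.gg z⁻¹ 1 v) := by
      refine Eq.trans (finsum_congr fun z => finsum_congr fun _ => ?_)
        (mi32_add c _ _ ((hl.fin u).preimage (inv_injective.injOn))
          ((hl.fin v).preimage (inv_injective.injOn)))
      rw [map_add, map_add]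
    rw [hR, ← hu, ← hv, ← Finset.sum_add_distrib]
    exact Finset.sum_congr rfl fun j _ => hL j

/-- PIECE MI-32. PROOF. Write `Δ t = ∑_s a_s ⊗ b_s`. `HS α c = ∑_j ∑_(z in c) ∑_g ∑_s φ_j (z⁻¹ g a_s) lam (v_j ⊗ g b_s)`. Put
`w = g⁻¹ z g` (for fixed `g` a bijection of the class `c`), `z⁻¹ g = g w⁻¹`, and `lam (v_j ⊗ g b_s) = lam (g⁻¹ v_j ⊗ b_s)`:
`= ∑_(w in c) ∑_s lam ((∑_j ∑_g φ_j (g w⁻¹ a_s) g⁻¹ v_j) ⊗ b_s) = ∑_(w in c) lam (gg w⁻¹ 1 (Δ t))`
by `D.span` (with `g⁻¹` in the place of `g`). -/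
theorem HS_alpha {lam : C ⊗[K] C →ₗ[K] K} (hl : D.Form lam) {Δ : C →ₗ[K] C ⊗[K] C} {t : C}
    {α : C →ₗ[K] C}
    (hαf : ∀ x, {g : G | rf (lam ∘ₗ TensorProduct.mk K C C x) (D.gg g g (Δ t)) ≠ 0}.Finite)
    (hα : ∀ x, α x = ∑ᶠ g : G, rf (lam ∘ₗ TensorProduct.mk K C C x) (D.gg g g (Δ t)))
    (c : ConjClasses G) :
    D.HS α c = ∑ᶠ (z : G) (_ : ConjClasses.mk z = c), lam (D.gg z⁻¹ 1 (Δ t)) := by
  rw [← D.mi32_gen hl c (Δ t)]
  unfold HS
  simp only [hα]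

/-- The class sums vanish. -/
theorem class_sum {lam : ℕ → C ⊗[K] C →ₗ[K] K} (hl : D.Forms lam) {Δ : ℕ → C →ₗ[K] C ⊗[K] C}
    (hΔ : D.Diag Δ) {t : C} (ht : D.Fund t)
    (hG : ∀ z : G, z ≠ 1 → ∀ k, 1 ≤ k → ¬ IsConj z (z ^ (2 ^ k)))
    (c : ConjClasses G) (hc : c ≠ 1) :
    ∑ᶠ (z : G) (_ : ConjClasses.mk z = c), D.FF lam Δ 0 z t = 0 := by
  have hl3 : ∀ w, lam 0 (D.E 3 w) = lam 0 w := fun w => hl.deg 0 (by norm_num) w
  have hΔe : ∀ n x, Δ 0 (D.e n x) = D.E n (Δ 0 x) := fun n x => hΔ.deg 0 n x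
  obtain ⟨α, h1, h2, h4, hf, hα⟩ := D.exists_alpha (hl.form 0) hl3 hl.d0 (hΔ.eqv 0) hΔe hΔ.d0 ht
  have h3 := D.alpha_aug (hl.form 0) hl3 hl.d0 hl.z (hΔ.eqv 0) hΔe hΔ.d0 hΔ.aug ht h4 hf hα
  obtain ⟨z₀, hz₀⟩ := ConjClasses.exists_rep c
  have hc' : ConjClasses.mk z₀⁻¹ ≠ 1 := by
    intro h
    apply hc
    rw [← hz₀]
    rw [ConjClasses.one_eq_mk_one, ConjClasses.mk_eq_mk_iff_isConj, isConj_one_left] at h
    rw [inv_eq_one.1 h, ConjClasses.one_eq_mk_one]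
  have h5 := D.HS_alpha (hl.form 0) hf hα (ConjClasses.mk z₀⁻¹)
  rw [D.HS_id α h1 h2 h3 h4, D.HS_zero hG _ hc'] at h5
  have hiff : ∀ z : G, ConjClasses.mk z = c ↔ ConjClasses.mk z⁻¹ = ConjClasses.mk z₀⁻¹ := by
    intro z
    rw [← hz₀, ConjClasses.mk_eq_mk_iff_isConj, ConjClasses.mk_eq_mk_iff_isConj, isConj_iff,
      isConj_iff]
    constructor
    · rintro ⟨a, ha⟩
      exact ⟨a, by rw [← ha]; group⟩
    · rintro ⟨a, ha⟩
      refine ⟨a, ?_⟩
      rw [← inv_inj, ← ha]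
      group
  have h6 : ∑ᶠ (z : G) (_ : ConjClasses.mk z = c), D.FF lam Δ 0 z t =
      ∑ᶠ (z : G) (_ : ConjClasses.mk z = ConjClasses.mk z₀⁻¹), lam 0 (D.gg z⁻¹ 1 (Δ 0 t)) := by
    rw [← finsum_comp_equiv (Equiv.inv G)]
    refine finsum_congr fun z => ?_
    have h7 : D.FF lam Δ 0 z⁻¹ t = lam 0 (D.gg z⁻¹ 1 (Δ 0 t)) := by
      simp [FF]
    simp only [Equiv.inv_apply, h7]
    have h8 : (ConjClasses.mk z⁻¹ = c) = (ConjClasses.mk z = ConjClasses.mk z₀⁻¹) := by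
      rw [hiff z⁻¹, inv_inv]
    rw [h8]
  rw [h6, ← h5]

end Cx

end Pool.Agent.Helper31.MI
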