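import Pool.Agent.Helper31.MI.Lin

/-!
# Project MI: projectivity, lifting, comparison
-/

set_option autoImplicit false

namespace Pool.Agent.Helper31.MI

open TensorProduct

variable {G C : Type} [Group G] [AddCommGroup C] [Module K C]

/-! ### functionals of finite support -/

theorem Fs.zero (ρ : Representation K G C) : Fs ρ (0 : C →ₗ[K] K) := by
  intro x
  simp

theorem Fs.add {ρ : Representation K G C} {φ ψ : C →ₗ[K] K} (h1 : Fs ρ φ) (h2 : Fs ρ ψ) :
    Fs ρ (φ + ψ) := by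
  intro x
  refine ((h1 x).union (h2 x)).subset fun g hg => ?_
  by_contra h
  simp only [Set.mem_union, Set.mem_ofPred_eq, not_or, not_not] at h
  exact hg (by rw [LinearMap.add_apply, h.1, h.2, add_zero])

/-- PIECE MI-4. `{g | φ (ρ (g * a) x) ≠ 0}` is a translate. -/
theorem Fs.comp_ρ {ρ : Representation K G C} {φ : C →ₗ[K] K} (h : Fs ρ φ) (a : G) :
    Fs ρ (φ ∘ₗ ρ a) := by
  intro x
  refine ((h x).preimage (f := fun g => a * g) (mul_right_injective a).injOn).subset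
    fun g hg => ?_
  rw [Set.mem_preimage, Set.mem_ofPred_eq, map_mul]
  exact hg

/-- PIECE MI-4 -/
theorem Fs.comp {B : Type} [AddCommGroup B] [Module K B] {ρ : Representation K G C}
    {τ : Representation K G B} {φ : B →ₗ[K] K} (h : Fs τ φ) (f : C →ₗ[K] B)
    (hf : ∀ g x, f (ρ g x) = τ g (f x)) : Fs ρ (φ ∘ₗ f) := by
  intro x
  refine (h (f x)).subset fun g hg => ?_
  rw [Set.mem_ofPred_eq, ← hf]
  exact hg

/-- PIECE MI-4 -/
theorem Fs.sum {ρ : Representation K G C} {ι : Type} (s : Finset ι) (φ : ι → C →ₗ[K] K)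
    (h : ∀ i ∈ s, Fs ρ (φ i)) : Fs ρ (∑ i ∈ s, φ i) := by
  classical
  induction s using Finset.induction_on with
  | empty =>
    rw [Finset.sum_empty]
    exact Fs.zero ρ
  | insert a s ha ih =>
    rw [Finset.sum_insert ha]
    exact (h a (Finset.mem_insert_self a s)).add
      (ih fun i hi => h i (Finset.mem_insert_of_mem hi))

/-- PIECE MI-4 -/
theorem Fs.fin_inv {ρ : Representation K G C} {φ : C →ₗ[K] K} (h : Fs ρ φ) (x : C) :
    {g : G | φ (ρ g⁻¹ x) ≠ 0}.Finite :=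
  (h x).preimage (f := fun g => g⁻¹) inv_injective.injOn

/-- PIECE MI-4. The map `x ↦ ∑_g φ (g⁻¹ x) a g` (`finsum_add_distrib`, `smul_finsum`). -/
theorem exists_tw {B : Type} [AddCommGroup B] [Module K B] {ρ : Representation K G C}
    {φ : C →ₗ[K] K} (h : Fs ρ φ) (a : G → B) :
    ∃ f : C →ₗ[K] B, ∀ x, f x = ∑ᶠ g : G, φ (ρ g⁻¹ x) • a g := by
  have hs : ∀ x, (Function.support fun g : G => φ (ρ g⁻¹ x) • a g).Finite := by
    intro x
    refine (h.fin_inv x).subset fun g hg => ?_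
    intro h0
    exact hg (by
      change φ (ρ g⁻¹ x) • a g = 0
      rw [h0, zero_smul])
  refine ⟨{ toFun := fun x => ∑ᶠ g : G, φ (ρ g⁻¹ x) • a g
            map_add' := ?_
            map_smul' := ?_ }, fun x => rfl⟩
  · intro x y
    rw [← finsum_add_distrib (hs x) (hs y)]
    refine finsum_congr fun g => ?_
    rw [map_add, map_add, add_smul]
  · intro c x
    rw [RingHom.id_apply, smul_finsum' c (hs x)]
    refine finsum_congr fun g => ?_
    rw [map_smul, map_smul, smul_eq_mul, mul_smul]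

namespace Cx

variable (D : Cx G C)

private theorem mi5_map {A B : Type} [AddCommGroup A] [Module K A] [AddCommGroup B] [Module K B]
    (f : A →ₗ[K] B) {ι : Type} {a : ι → A}
    (h : (Function.support a).Finite) :
    f (∑ᶠ g, a g) = ∑ᶠ g, f (a g) :=
  f.toAddMonoidHom.map_finsum h

private theorem mi5_fin {B : Type} [AddCommGroup B] [Module K B] (j : D.J) (x : C) (a : G → B) :
    (Function.support fun g : G => D.φ j (D.ρ g⁻¹ x) • a g).Finite := by
  refine ((D.fs j).fin_inv x).subset fun g hg => ?_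
  intro h0
  exact hg (by
    change D.φ j (D.ρ g⁻¹ x) • a g = 0
    rw [h0, zero_smul])

/-- PIECE MI-5. PROOF. `f x = ∑ j, ∑ᶠ g, φ_j (g⁻¹ x) • τ g (b j)` (`exists_tw`); equivariance:
reindex `g ↦ a g`. -/
theorem exists_map {B : Type} [AddCommGroup B] [Module K B] (τ : Representation K G B)
    (b : D.J → B) : ∃ f : C →ₗ[K] B, (∀ g x, f (D.ρ g x) = τ g (f x)) ∧
      (∀ x, f x = ∑ j, ∑ᶠ g : G, D.φ j (D.ρ g⁻¹ x) • τ g (b j)) ∧
      ∀ S : Submodule K B, (∀ g b, b ∈ S → τ g b ∈ S) → (∀ j, b j ∈ S) → ∀ x, f x ∈ S := by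
  choose f hf using fun j => exists_tw (D.fs j) (fun g : G => τ g (b j))
  have hF : ∀ x, (∑ j, f j) x = ∑ j, ∑ᶠ g : G, D.φ j (D.ρ g⁻¹ x) • τ g (b j) := by
    intro x
    rw [LinearMap.sum_apply]
    exact Finset.sum_congr rfl fun j _ => hf j x
  refine ⟨∑ j, f j, ?_, hF, ?_⟩
  · intro a x
    rw [hF, hF, map_sum]
    refine Finset.sum_congr rfl fun j _ => ?_
    rw [mi5_map _ (mi5_fin D j x fun g => τ g (b j)),
      ← finsum_comp_equiv (Equiv.mulLeft a)]
    refine finsum_congr fun g => ?_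
    have h1 : D.ρ (a * g)⁻¹ (D.ρ a x) = D.ρ g⁻¹ x := by
      rw [← Module.End.mul_apply, ← map_mul, mul_inv_rev, mul_assoc, inv_mul_cancel, mul_one]
    rw [Equiv.coe_mulLeft, h1, map_smul, map_mul, Module.End.mul_apply]
  · intro S hS hb x
    rw [hF]
    refine Submodule.sum_mem S fun j _ => ?_
    exact finsum_induction (fun y => y ∈ S) (Submodule.zero_mem S)
      (fun x y hx hy => Submodule.add_mem S hx hy)
      fun g => Submodule.smul_mem S _ (hS g _ (hb j))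

/-- PIECE MI-5. PROOF. Apply `f` to `D.span x` (`LinearMap.map_finsum`). -/
theorem expand {B : Type} [AddCommGroup B] [Module K B] (f : C →ₗ[K] B) (x : C) :
    f x = ∑ j, ∑ᶠ g : G, D.φ j (D.ρ g⁻¹ x) • f (D.ρ g (D.v j)) := by
  conv_lhs => rw [← D.span x]
  rw [map_sum]
  refine Finset.sum_congr rfl fun j _ => ?_
  rw [mi5_map _ (mi5_fin D j x fun g => D.ρ g (D.v j))]
  exact finsum_congr fun g => map_smul _ _ _

/-- PIECE MI-5. PROOF. `exists_map` for `b j ∈ S` with `q (b j) = f (v j)`, `expand`. -/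
theorem exists_lift {B B' : Type} [AddCommGroup B] [Module K B] [AddCommGroup B'] [Module K B']
    (τ : Representation K G B) (τ' : Representation K G B') (q : B →ₗ[K] B')
    (hq : ∀ g b, q (τ g b) = τ' g (q b)) (f : C →ₗ[K] B')
    (hf : ∀ g x, f (D.ρ g x) = τ' g (f x)) (S : Submodule K B) (hS : ∀ g b, b ∈ S → τ g b ∈ S)
    (h : ∀ x, ∃ b ∈ S, q b = f x) :
    ∃ F : C →ₗ[K] B, (∀ g x, F (D.ρ g x) = τ g (F x)) ∧ (∀ x, F x ∈ S) ∧ ∀ x, q (F x) = f x := by
  choose b hb1 hb2 using fun j => h (D.v j)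
  obtain ⟨F, hF1, hF2, hF3⟩ := D.exists_map τ b
  refine ⟨F, hF1, hF3 S hS hb1, fun x => ?_⟩
  rw [hF2, D.expand f x, map_sum]
  refine Finset.sum_congr rfl fun j _ => ?_
  rw [mi5_map _ (mi5_fin D j x fun g => τ g (b j))]
  refine finsum_congr fun g => ?_
  rw [map_smul, hq, hb2, hf]

/-- PIECE MI-6, degreewise lifting. PROOF. Construct `S_0, S_1, S_2, S_3` equivariant with
`S_n x ∈ Z n` and `q (S_0 x) = R (e_0 x)`, `q (S_(n+1) x) = R (e_(n+1) x) + S_n (e_n (d x))`, by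
`exists_lift`: the right side, for `n + 1`, is in `W (n + 1)`, and `q` of it is
`R (d (e_(n+1) x)) + R (e_n (d x)) + S_(n-1) (..d (e_n (d x))) = 0` (`d_e`, `d_d`).
`S = ∑_(n < 4) S_n ∘ e_n`; for the last claim write `x = ∑ e_n x`, `d (e_0 x) = 0`,
`S (d (e_(n+1) x)) = S_n (e_n (d x))`. -/
theorem dl {B : Type} [AddCommGroup B] [Module K B] (τ : Representation K G B) (q : B →ₗ[K] B)
    (hq : ∀ g b, q (τ g b) = τ g (q b)) (Z W : ℕ → Submodule K B)
    (hZ : ∀ n g b, b ∈ Z n → τ g b ∈ Z n) (hZW : ∀ n, Z n ≤ W (n + 1)) (R : C →ₗ[K] B)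
    (hR : ∀ g x, R (D.ρ g x) = τ g (R x)) (hRW : ∀ n x, R (D.e n x) ∈ W n)
    (hRd : ∀ x, q (R x) = R (D.d x)) (h0 : ∀ x, ∃ b ∈ Z 0, q b = R (D.e 0 x))
    (h1 : ∀ n w, w ∈ W (n + 1) → q w = 0 → ∃ b ∈ Z (n + 1), q b = w) :
    ∃ S : C →ₗ[K] B, (∀ g x, S (D.ρ g x) = τ g (S x)) ∧ (∀ n x, S (D.e n x) ∈ Z n) ∧
      ∀ x, q (S x) + S (D.d x) = R x := by
  have htop : ∀ n, 4 ≤ n → ∀ x, D.e n x = 0 := fun n hn x => by
    rw [← D.e_sum (D.e n x)]
    refine Finset.sum_eq_zero fun m hm => ?_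
    rw [Finset.mem_range] at hm
    rw [D.e_ne m n x (by omega)]
  obtain ⟨S0, a0, b0, c0⟩ := D.exists_lift τ τ q hq (R ∘ₗ D.e 0) (fun g x => by
    rw [LinearMap.comp_apply, LinearMap.comp_apply, D.e_ρ, hR]) (Z 0) (hZ 0) (fun x => h0 x)
  have k0 : ∀ x, q (S0 (D.e 0 (D.d x))) = R (D.e 0 (D.d x)) := fun x => by
    rw [c0, LinearMap.comp_apply, D.e_e]
  have step : ∀ (n : ℕ) (S : C →ₗ[K] B), (∀ g x, S (D.ρ g x) = τ g (S x)) →
      (∀ x, S x ∈ Z n) → (∀ x, q (S (D.e n (D.d x))) = R (D.e n (D.d x))) →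
      ∃ S' : C →ₗ[K] B, (∀ g x, S' (D.ρ g x) = τ g (S' x)) ∧ (∀ x, S' x ∈ Z (n + 1)) ∧
        (∀ x, q (S' (D.e (n + 1) (D.d x))) = R (D.e (n + 1) (D.d x))) ∧
        ∀ x, q (S' x) = R (D.e (n + 1) x) + S (D.e n (D.d x)) := by
    intro n S ha hb hc
    obtain ⟨S', a', b', c'⟩ := D.exists_lift τ τ q hq
      (R ∘ₗ D.e (n + 1) + S ∘ₗ D.e n ∘ₗ D.d) (fun g x => by
        rw [LinearMap.add_apply, LinearMap.add_apply, LinearMap.comp_apply, LinearMap.comp_apply,
          LinearMap.comp_apply, LinearMap.comp_apply, LinearMap.comp_apply, LinearMap.comp_apply,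
          D.e_ρ, hR, D.d_ρ, D.e_ρ, ha, map_add]) (Z (n + 1)) (hZ (n + 1)) (fun x => by
        refine h1 n _ ?_ ?_
        · exact Submodule.add_mem _ (hRW (n + 1) x) (hZW n (hb _))
        · rw [LinearMap.add_apply, LinearMap.comp_apply, LinearMap.comp_apply,
            LinearMap.comp_apply, map_add, hRd, D.d_e, hc, ZModModule.add_self])
    have hS' : ∀ x, q (S' x) = R (D.e (n + 1) x) + S (D.e n (D.d x)) := c'
    refine ⟨S', a', b', fun x => ?_, hS'⟩
    rw [hS', D.e_e, D.d_e, D.d_d, map_zero, map_zero, map_zero, add_zero]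
  obtain ⟨S1, a1, b1, k1, c1⟩ := step 0 S0 a0 b0 k0
  obtain ⟨S2, a2, b2, k2, c2⟩ := step 1 S1 a1 b1 k1
  obtain ⟨S3, a3, b3, _, c3⟩ := step 2 S2 a2 b2 k2
  have hS : ∀ x, (S0 ∘ₗ D.e 0 + S1 ∘ₗ D.e 1 + S2 ∘ₗ D.e 2 + S3 ∘ₗ D.e 3 : C →ₗ[K] B) x =
      S0 (D.e 0 x) + S1 (D.e 1 x) + S2 (D.e 2 x) + S3 (D.e 3 x) := fun x => rfl
  refine ⟨S0 ∘ₗ D.e 0 + S1 ∘ₗ D.e 1 + S2 ∘ₗ D.e 2 + S3 ∘ₗ D.e 3, fun g x => ?_,
    fun n x => ?_, fun x => ?_⟩
  · rw [hS, hS, D.e_ρ, D.e_ρ, D.e_ρ, D.e_ρ, a0, a1, a2, a3, map_add, map_add, map_add]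
  · rw [hS]
    by_cases hn : n < 4
    · interval_cases n
      · rw [D.e_e, D.e_ne 1 0 x (by omega), D.e_ne 2 0 x (by omega), D.e_ne 3 0 x (by omega),
          map_zero, map_zero, map_zero, add_zero, add_zero, add_zero]
        exact b0 _
      · rw [D.e_e, D.e_ne 0 1 x (by omega), D.e_ne 2 1 x (by omega), D.e_ne 3 1 x (by omega),
          map_zero, map_zero, map_zero, add_zero, add_zero, zero_add]
        exact b1 _
      · rw [D.e_e, D.e_ne 0 2 x (by omega), D.e_ne 1 2 x (by omega), D.e_ne 3 2 x (by omega),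
          map_zero, map_zero, map_zero, add_zero, zero_add, zero_add]
        exact b2 _
      · rw [D.e_e, D.e_ne 0 3 x (by omega), D.e_ne 1 3 x (by omega), D.e_ne 2 3 x (by omega),
          map_zero, map_zero, map_zero, zero_add, zero_add, zero_add]
        exact b3 _
    · rw [htop n (by omega) x]
      simp only [map_zero, add_zero]
      exact Submodule.zero_mem _
  · have h3 : D.e 3 (D.d x) = 0 := by
      rw [← D.d_e, htop 4 le_rfl, map_zero]
    have hx : R x = R (D.e 0 x) + R (D.e 1 x) + R (D.e 2 x) + R (D.e 3 x) := by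
      conv_lhs => rw [← D.e_sum x]
      rw [map_sum]
      simp only [Finset.sum_range_succ, Finset.sum_range_zero, zero_add]
    have hc0 : q (S0 (D.e 0 x)) = R (D.e 0 x) := by
      rw [c0, LinearMap.comp_apply, D.e_e]
    rw [hS, hS, h3, map_zero, add_zero, map_add, map_add, map_add, hc0, c1, c2, c3, hx,
      D.e_e, D.e_e, D.e_e, D.d_e, D.d_e, D.d_e, D.e_e, D.e_e, D.e_e]
    have t0 := ZModModule.add_self (S0 (D.e 0 (D.d x)))
    have t1 := ZModModule.add_self (S1 (D.e 1 (D.d x)))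
    have t2 := ZModModule.add_self (S2 (D.e 2 (D.d x)))
    calc _ = R (D.e 0 x) + R (D.e 1 x) + R (D.e 2 x) + R (D.e 3 x) +
          (S0 (D.e 0 (D.d x)) + S0 (D.e 0 (D.d x))) +
          (S1 (D.e 1 (D.d x)) + S1 (D.e 1 (D.d x))) +
          (S2 (D.e 2 (D.d x)) + S2 (D.e 2 (D.d x))) := by abel
      _ = _ := by rw [t0, t1, t2, add_zero, add_zero, add_zero]

/-- degree `n` part is zero for `n ≥ 4` -/
theorem e_top (n : ℕ) (hn : 4 ≤ n) (x : C) : D.e n x = 0 := by
  rw [← D.e_sum (D.e n x)]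
  refine Finset.sum_eq_zero fun m hm => ?_
  rw [Finset.mem_range] at hm
  rw [D.e_ne m n x (by omega)]

/-- elements of degree `n` -/
private def mi7_W (n : ℕ) : Submodule K C where
  carrier := {y | D.e n y = y}
  add_mem' := by
    intro a b ha hb
    simp only [Set.mem_ofPred_eq] at ha hb ⊢
    rw [map_add, ha, hb]
  zero_mem' := map_zero _
  smul_mem' := by
    intro c a ha
    simp only [Set.mem_ofPred_eq] at ha ⊢
    rw [map_smul, ha]

private theorem mem_mi7_W (n : ℕ) (y : C) : y ∈ mi7_W D n ↔ D.e n y = y := Iff.rfl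

/-- PIECE MI-7. Chain maps over the identity are homotopic to the identity. PROOF. `dl` for `B = C`,
`q = d`, `Z n = {y | e (n+1) y = y}`, `W n = {y | e n y = y}`, `R x = α x + x`; exactness `D.ex`
(project the preimage to degree `n + 1` by `d_e`). -/
theorem homotopy (α : C →ₗ[K] C) (h1 : ∀ g x, α (D.ρ g x) = D.ρ g (α x))
    (h2 : ∀ x, D.d (α x) = α (D.d x)) (h3 : ∀ x, D.ε (α x) = D.ε x)
    (h4 : ∀ n x, α (D.e n x) = D.e n (α x)) :
    ∃ h : C →ₗ[K] C, (∀ g x, h (D.ρ g x) = D.ρ g (h x)) ∧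
      (∀ n x, h (D.e n x) = D.e (n + 1) (h x)) ∧ ∀ x, α x = x + D.d (h x) + h (D.d x) := by
  have hR0 : ∀ x, (α + LinearMap.id : C →ₗ[K] C) x = α x + x := fun x => rfl
  obtain ⟨S, hS1, hS2, hS3⟩ := D.dl D.ρ D.d (fun g b => D.d_ρ g b)
    (fun n => mi7_W D (n + 1)) (fun n => mi7_W D n) (fun n g b hb => by
      rw [mem_mi7_W] at hb ⊢
      rw [D.e_ρ, hb]) (fun n => le_refl _) (α + LinearMap.id) (fun g x => by
      rw [hR0, hR0, h1, map_add]) (fun n x => by
      rw [mem_mi7_W, hR0, map_add, ← h4, D.e_e]) (fun x => by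
      rw [hR0, hR0, map_add, h2]) (fun x => by
      have ha : D.d (α (D.e 0 x) + D.e 0 x) = 0 := by
        rw [map_add, h2, D.d_e0, map_zero, add_zero]
      have hb : D.ε (α (D.e 0 x) + D.e 0 x) = 0 := by
        rw [map_add, h3, ZModModule.add_self]
      obtain ⟨y, hy⟩ := D.ex _ ha hb
      refine ⟨D.e 1 y, ?_, ?_⟩
      · rw [mem_mi7_W, D.e_e]
      · rw [hR0, D.d_e 0, hy, map_add, ← h4, D.e_e]) (fun n w hw hq => by
      rw [mem_mi7_W] at hw
      have hb : D.ε w = 0 := by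
        rw [← hw, ← D.ε_e, D.e_ne 0 (n + 1) w (by omega), map_zero]
      obtain ⟨y, hy⟩ := D.ex _ hq hb
      refine ⟨D.e (n + 1 + 1) y, ?_, ?_⟩
      · rw [mem_mi7_W, D.e_e]
      · rw [D.d_e (n + 1), hy, hw])
  refine ⟨S, hS1, fun n x => ?_, fun x => ?_⟩
  · have hx : S x = ∑ m ∈ Finset.range 4, S (D.e m x) := by
      rw [← map_sum, D.e_sum]
    have hm : ∀ m, m ≠ n → D.e (n + 1) (S (D.e m x)) = 0 := fun m hm => by
      have h5 := hS2 m x
      rw [mem_mi7_W] at h5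
      rw [← h5, D.e_ne _ _ _ (by omega)]
    have hn := hS2 n x
    rw [mem_mi7_W] at hn
    rw [hx, map_sum]
    by_cases h : n < 4
    · rw [Finset.sum_eq_single_of_mem n (Finset.mem_range.mpr h) (fun m _ h6 => hm m h6), hn]
    · rw [D.e_top n (by omega), map_zero, Finset.sum_eq_zero]
      intro m h6
      rw [Finset.mem_range] at h6
      exact hm m (by omega)
  · have h5 := hS3 x
    rw [hR0] at h5
    rw [add_assoc, h5, add_comm (α x) x, ← add_assoc, ZModModule.add_self, zero_add]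

/-! ### the tensor square -/

private theorem mi8_tmul (n : ℕ) (x y : C) :
    D.E n (x ⊗ₜ y) = ∑ p ∈ Finset.range (n + 1), D.e p x ⊗ₜ[K] D.e (n - p) y := by
  unfold E
  rw [LinearMap.sum_apply]
  rfl

private theorem mi8_eps (k : ℕ) (x : C) : D.ε (D.e (k + 1) x) = 0 := by
  rw [← D.ε_e, D.e_ne 0 (k + 1) x (by omega), map_zero]

/-- PIECE MI-8. All by `TensorProduct.induction_on` (or `TensorProduct.ext`) from the properties of
`D.e`. -/
theorem E_E (n : ℕ) (w : C ⊗[K] C) : D.E n (D.E n w) = D.E n w := by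
  induction w with
  | zero => rw [map_zero, map_zero]
  | tmul x y =>
    rw [mi8_tmul, map_sum]
    refine Finset.sum_congr rfl fun p hp => ?_
    rw [mi8_tmul, Finset.sum_eq_single p]
    · rw [D.e_e, D.e_e]
    · intro q _ hq
      rw [D.e_ne q p x hq, TensorProduct.zero_tmul]
    · intro h
      exact absurd hp h
  | add x y hx hy => rw [map_add, map_add, hx, hy]

theorem E_ne (m n : ℕ) (h : m ≠ n) (w : C ⊗[K] C) : D.E m (D.E n w) = 0 := by
  induction w with
  | zero => rw [map_zero, map_zero]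
  | tmul x y =>
    rw [mi8_tmul, map_sum]
    refine Finset.sum_eq_zero fun p hp => ?_
    rw [mi8_tmul]
    refine Finset.sum_eq_zero fun q hq => ?_
    rw [Finset.mem_range] at hp hq
    by_cases h1 : q = p
    · rw [D.e_ne (m - q) (n - p) y (by omega), TensorProduct.tmul_zero]
    · rw [D.e_ne q p x h1, TensorProduct.zero_tmul]
  | add x y hx hy => rw [map_add, map_add, hx, hy, add_zero]

theorem E_sum (w : C ⊗[K] C) : ∑ n ∈ Finset.range 7, D.E n w = w := by
  induction w with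
  | zero => exact Finset.sum_eq_zero fun n _ => map_zero _
  | tmul x y =>
    have h4 : ∀ z : C, D.e 4 z = 0 := D.e_top 4 (by omega)
    have h5 : ∀ z : C, D.e 5 z = 0 := D.e_top 5 (by omega)
    have h6 : ∀ z : C, D.e 6 z = 0 := D.e_top 6 (by omega)
    have hx := D.e_sum x
    have hy := D.e_sum y
    simp only [Finset.sum_range_succ, Finset.sum_range_zero, zero_add] at hx hy
    conv_rhs => rw [← hx, ← hy]
    simp only [mi8_tmul, Finset.sum_range_succ, Finset.sum_range_zero, zero_add,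
      TensorProduct.tmul_add, TensorProduct.add_tmul]
    norm_num [h4, h5, h6]
    abel
  | add x y hx hy =>
    rw [← Finset.sum_congr rfl fun n _ => (map_add (D.E n) x y).symm, Finset.sum_add_distrib, hx, hy]

theorem dd_E (n : ℕ) (w : C ⊗[K] C) : dd D.d (D.E (n + 1) w) = D.E n (dd D.d w) := by
  induction w with
  | zero => simp only [map_zero]
  | tmul x y =>
    rw [mi8_tmul, map_sum, dd_tmul, map_add, mi8_tmul, mi8_tmul]
    simp only [dd_tmul]
    rw [Finset.sum_add_distrib]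
    congr 1
    · rw [Finset.sum_range_succ', D.d_e0, TensorProduct.zero_tmul, add_zero]
      refine Finset.sum_congr rfl fun p _ => ?_
      rw [D.d_e, Nat.add_sub_add_right]
    · rw [Finset.sum_range_succ, Nat.sub_self, D.d_e0, TensorProduct.tmul_zero, add_zero]
      refine Finset.sum_congr rfl fun p hp => ?_
      rw [Finset.mem_range] at hp
      have h1 : n + 1 - p = (n - p) + 1 := by omega
      rw [h1, D.d_e]
  | add x y hx hy => rw [map_add, map_add, map_add, map_add, hx, hy]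

theorem dd_E0 (w : C ⊗[K] C) : dd D.d (D.E 0 w) = 0 := by
  induction w with
  | zero => simp only [map_zero]
  | tmul x y =>
    rw [mi8_tmul, map_sum, Finset.sum_range_one, dd_tmul, D.d_e0, D.d_e0, TensorProduct.zero_tmul,
      TensorProduct.tmul_zero, add_zero]
  | add x y hx hy => rw [map_add, map_add, hx, hy, add_zero]

theorem sg_E (n : ℕ) (w : C ⊗[K] C) : sg (D.E n w) = D.E n (sg w) := by
  induction w with
  | zero => simp only [map_zero]
  | tmul x y =>
    rw [mi8_tmul, map_sum, sg_tmul, mi8_tmul,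
      ← Finset.sum_range_reflect (fun p => sg (D.e p x ⊗ₜ[K] D.e (n - p) y)) (n + 1)]
    refine Finset.sum_congr rfl fun p hp => ?_
    rw [Finset.mem_range] at hp
    have h1 : n + 1 - 1 - p = n - p := by omega
    have h2 : n - (n - p) = p := by omega
    rw [h1, h2, sg_tmul]
  | add x y hx hy => rw [map_add, map_add, map_add, map_add, hx, hy]

theorem gg_E (g h : G) (n : ℕ) (w : C ⊗[K] C) : D.gg g h (D.E n w) = D.E n (D.gg g h w) := by
  induction w with
  | zero => simp only [map_zero]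
  | tmul x y =>
    rw [mi8_tmul, map_sum, gg_tmul, mi8_tmul]
    refine Finset.sum_congr rfl fun p _ => ?_
    rw [gg_tmul, D.e_ρ, D.e_ρ]
  | add x y hx hy => rw [map_add, map_add, map_add, map_add, hx, hy]

theorem gg_dd (g h : G) (w : C ⊗[K] C) : D.gg g h (dd D.d w) = dd D.d (D.gg g h w) :=
  (dd_map D.d (D.ρ g) (D.ρ h) (fun x => D.d_ρ g x) (fun x => D.d_ρ h x) w).symm

theorem gg_gg (g h g' h' : G) (w : C ⊗[K] C) :
    D.gg g h (D.gg g' h' w) = D.gg (g * g') (h * h') w := by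
  induction w with
  | zero => simp only [map_zero]
  | tmul x y =>
    rw [gg_tmul, gg_tmul, gg_tmul, map_mul, map_mul]
    rfl
  | add x y hx hy => rw [map_add, map_add, map_add, hx, hy]

theorem sg_gg (g h : G) (w : C ⊗[K] C) : sg (D.gg g h w) = D.gg h g (sg w) :=
  sg_map (D.ρ g) (D.ρ h) w

theorem pr2_E0 (w : C ⊗[K] C) : pr2 D.ε D.ε (D.E 0 w) = pr2 D.ε D.ε w := by
  induction w with
  | zero => simp only [map_zero]
  | tmul x y =>
    rw [mi8_tmul, map_sum, Finset.sum_range_one, pr2_tmul, pr2_tmul, Nat.sub_zero, D.ε_e, D.ε_e]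
  | add x y hx hy => rw [map_add, map_add, map_add, hx, hy]

theorem pr2_E (n : ℕ) (w : C ⊗[K] C) : pr2 D.ε D.ε (D.E (n + 1) w) = 0 := by
  induction w with
  | zero => simp only [map_zero]
  | tmul x y =>
    rw [mi8_tmul, map_sum]
    refine Finset.sum_eq_zero fun p hp => ?_
    rw [pr2_tmul]
    rcases Nat.eq_zero_or_pos p with h | h
    · rw [h, Nat.sub_zero, mi8_eps, mul_zero]
    · obtain ⟨q, rfl⟩ : ∃ q, p = q + 1 := ⟨p - 1, by omega⟩
      rw [mi8_eps, zero_mul]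
  | add x y hx hy => rw [map_add, map_add, hx, hy, add_zero]

theorem pr2_gg (g h : G) (w : C ⊗[K] C) : pr2 D.ε D.ε (D.gg g h w) = pr2 D.ε D.ε w := by
  induction w with
  | zero => simp only [map_zero]
  | tmul x y => rw [gg_tmul, pr2_tmul, pr2_tmul, D.ε_ρ, D.ε_ρ]
  | add x y hx hy => rw [map_add, map_add, map_add, hx, hy]

theorem pr2_dd (w : C ⊗[K] C) : pr2 D.ε D.ε (dd D.d w) = 0 := by
  induction w with
  | zero => simp only [map_zero]
  | tmul x y =>
    rw [dd_tmul, map_add, pr2_tmul, pr2_tmul, D.ε_d, D.ε_d, zero_mul, mul_zero, add_zero]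
  | add x y hx hy => rw [map_add, map_add, hx, hy, add_zero]

/-- PIECE MI-9. PROOF. `contraction` for `d` and `π x = ε x • o` gives `s`; `k0 = s ⊗ 1 + π ⊗ s`
satisfies `∂ k0 w + k0 (∂ w) = w + (π ⊗ π) w` and `(π ⊗ π) w = pr2 ε ε w • (o ⊗ o)`. So
`w = ∂ (k0 w) = ∂ (E (n+1) (k0 w))`. -/
theorem exT (n : ℕ) (w : C ⊗[K] C) (h0 : D.E n w = w) (h1 : dd D.d w = 0)
    (h2 : pr2 D.ε D.ε w = 0) : ∃ w', D.E (n + 1) w' = w' ∧ dd D.d w' = w := by
  obtain ⟨π, hπ⟩ : ∃ π : C →ₗ[K] C, ∀ x, π x = D.ε x • D.o :=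
    ⟨D.ε.smulRight D.o, fun x => rfl⟩
  have hdo : D.d D.o = 0 := by rw [← D.o_e, D.d_e0]
  have hdπ : ∀ x, D.d (π x) = 0 := fun x => by rw [hπ, map_smul, hdo, smul_zero]
  have hπd : ∀ x, π (D.d x) = 0 := fun x => by rw [hπ, D.ε_d, zero_smul]
  have hππ : ∀ x, π (π x) = π x := fun x => by
    rw [hπ (π x), hπ x, map_smul, D.ε_o, smul_eq_mul, mul_one]
  obtain ⟨s, hs⟩ := contraction D.d π D.d_d hdπ hπd hππ (fun x hx hx' => by
    refine D.ex x hx ?_
    rw [hπ] at hx'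
    have h := congrArg D.ε hx'
    rwa [map_smul, D.ε_o, smul_eq_mul, mul_one, map_zero] at h)
  obtain ⟨k0, hk0⟩ : ∃ k : C ⊗[K] C →ₗ[K] C ⊗[K] C,
      k = TensorProduct.map s LinearMap.id + TensorProduct.map π s := ⟨_, rfl⟩
  have t0 : ∀ x y : C, k0 (x ⊗ₜ y) = s x ⊗ₜ y + π x ⊗ₜ s y := fun x y => by
    rw [hk0]; rfl
  have h20 : (2 : K) = 0 := by decide
  have two : ∀ w : C ⊗[K] C, w + w = 0 := fun w => by
    rw [← two_smul K w, h20, zero_smul]
  have k0d : ∀ w, dd D.d (k0 w) + k0 (dd D.d w) = w + TensorProduct.map π π w := by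
    intro w
    induction w with
    | zero => simp
    | tmul x y =>
      have e1 : dd D.d (k0 (x ⊗ₜ y)) + k0 (dd D.d (x ⊗ₜ y)) =
          (D.d (s x) + s (D.d x)) ⊗ₜ[K] y + π x ⊗ₜ[K] (D.d (s y) + s (D.d y)) +
            (s x ⊗ₜ[K] D.d y + s x ⊗ₜ[K] D.d y) := by
        rw [t0, map_add, dd_tmul, dd_tmul, dd_tmul, map_add, t0, t0, hdπ, hπd,
          TensorProduct.zero_tmul, TensorProduct.add_tmul, TensorProduct.tmul_add]
        abel
      rw [e1, two, hs, hs, TensorProduct.add_tmul, TensorProduct.tmul_add,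
        TensorProduct.map_tmul, add_zero]
      have e2 := two (π x ⊗ₜ[K] y)
      calc x ⊗ₜ[K] y + π x ⊗ₜ[K] y + (π x ⊗ₜ[K] y + π x ⊗ₜ[K] π y)
          = x ⊗ₜ[K] y + π x ⊗ₜ[K] π y + (π x ⊗ₜ[K] y + π x ⊗ₜ[K] y) := by abel
        _ = x ⊗ₜ[K] y + π x ⊗ₜ[K] π y := by rw [e2, add_zero]
    | add x y hx hy =>
      rw [map_add, map_add, map_add, map_add, map_add]
      calc dd D.d (k0 x) + dd D.d (k0 y) + (k0 (dd D.d x) + k0 (dd D.d y))
          = (dd D.d (k0 x) + k0 (dd D.d x)) + (dd D.d (k0 y) + k0 (dd D.d y)) := by abel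
        _ = _ := by rw [hx, hy]; abel
  have hpp : TensorProduct.map π π w = 0 := by
    rw [map_pi π D.ε 0 D.o 0 (fun x => by rw [hπ, smul_zero, add_zero]) w, h2, zero_smul,
      TensorProduct.tmul_zero, TensorProduct.zero_tmul, TensorProduct.zero_tmul, smul_zero,
      smul_zero, smul_zero, add_zero, add_zero, add_zero]
  have h := k0d w
  rw [h1, map_zero, add_zero, hpp, add_zero] at h
  refine ⟨D.E (n + 1) (k0 w), D.E_E _ _, ?_⟩
  rw [dd_E, h, h0]

end Cx

end Pool.Agent.Helper31.MI
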