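import Pool.Agent.Helper31.MI.Defs

/-!
# Project MI: linear algebra over the field with two elements
-/

set_option autoImplicit false

namespace Pool.Agent.Helper31.MI

open TensorProduct

section

variable {V : Type} [AddCommGroup V] [Module K V]

private theorem mi1_sec (d : V →ₗ[K] V) : ∃ r : V →ₗ[K] V, ∀ x, d (r (d x)) = d x := by
  obtain ⟨s0, hs0⟩ := d.rangeRestrict.exists_rightInverse_of_surjective
    (LinearMap.range_rangeRestrict d)
  obtain ⟨r, hr⟩ := LinearMap.exists_extend s0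
  refine ⟨r, fun x => ?_⟩
  have h1 : r (d x) = s0 ⟨d x, LinearMap.mem_range_self d x⟩ := by
    rw [← hr]
    rfl
  have h2 := congrArg Subtype.val (LinearMap.congr_fun hs0 ⟨d x, LinearMap.mem_range_self d x⟩)
  rw [h1]
  exact h2

private theorem mi1_cancel (a b : V) : a + b + b = a := by
  rw [add_assoc, ZModModule.add_self, add_zero]

/-- PIECE MI-1. PROOF. There is a linear `r` with `d (r (d x)) = d x` for all `x` (a section of
`d.rangeRestrict`, `LinearMap.exists_rightInverse_of_surjective`, extended from `range d` to `V`,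
`LinearMap.exists_extend`). `r' = r + π r` has the same property, and `π r' = 0`. Let
`q x = x + π x + r' (d x)`: `d (q x) = 0` and `π (q x) = 0`, so `q x` is in `range d`, hence
`d (r' (q x)) = q x`; `q (d x) = d x`. Take `s = r' ∘ q`:
`d (s x) + s (d x) = q x + r' (d x) = x + π x`. -/
theorem contraction (d π : V →ₗ[K] V) (hd : ∀ x, d (d x) = 0) (h1 : ∀ x, d (π x) = 0)
    (h2 : ∀ x, π (d x) = 0) (h3 : ∀ x, π (π x) = π x)
    (h : ∀ x, d x = 0 → π x = 0 → ∃ y, d y = x) :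
    ∃ s : V →ₗ[K] V, ∀ x, d (s x) + s (d x) = x + π x := by
  obtain ⟨r0, hr0⟩ := mi1_sec d
  obtain ⟨r, hr, hπr⟩ : ∃ r : V →ₗ[K] V, (∀ x, d (r (d x)) = d x) ∧ ∀ x, π (r x) = 0 := by
    refine ⟨r0 + π ∘ₗ r0, fun x => ?_, fun x => ?_⟩
    · rw [LinearMap.add_apply, LinearMap.comp_apply, map_add, hr0, h1, add_zero]
    · rw [LinearMap.add_apply, LinearMap.comp_apply, map_add, h3, ZModModule.add_self]
  have hq : ∀ x, d (r (x + π x + r (d x))) = x + π x + r (d x) := by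
    intro x
    obtain ⟨y, hy⟩ := h (x + π x + r (d x))
      (by rw [map_add, map_add, h1, hr, add_zero, ZModModule.add_self])
      (by rw [map_add, map_add, h3, hπr, ZModModule.add_self, add_zero])
    rw [← hy, hr]
  refine ⟨r ∘ₗ (LinearMap.id + π + r ∘ₗ d), fun x => ?_⟩
  have e1 : (r ∘ₗ (LinearMap.id + π + r ∘ₗ d)) x = r (x + π x + r (d x)) := rfl
  have e2 : (r ∘ₗ (LinearMap.id + π + r ∘ₗ d)) (d x) = r (d x + π (d x) + r (d (d x))) := rfl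
  rw [e1, e2, hq, h2, hd, map_zero, add_zero, add_zero, mi1_cancel]

/-- PIECE MI-2. PROOF. Let `k0 = s ⊗ 1 + π ⊗ s` and `k1 = s ⊗ s` (`TensorProduct.map`), `∂ = dd d`,
`σ = sg`. Check on pure tensors: `∂ k0 + k0 ∂ = 1 + π ⊗ π` and `k0 + σ k0 σ = ∂ k1 + k1 ∂`,
`σ k1 σ = k1`. So `∑ b_j (Ψ_j + (π ⊗ π) Ψ_j) = ∑ b_j ∂ k0 Ψ_j + ∑ b_j k0 ∂ Ψ_j
= ∑_(j = 1..3) b_(j-1) (1 + σ) k0 Ψ_j + ∑_(j = 1..3) b_(j-1) k0 (1 + σ) Ψ_j
= ∑_(j = 1..3) b_(j-1) (σ k0 + k0 σ) Ψ_j = ∑_(j = 1..3) b_(j-1) (∂ k1 + k1 ∂) σ Ψ_j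
= ∑_(j = 2, 3) b_(j-2) (1 + σ) k1 σ Ψ_j + ∑_(j = 2, 3) b_(j-2) k1 (1 + σ) Ψ_j = 0`
(as `σ (1 + σ) = 1 + σ` and `σ k1 σ + k1 = 0`). -/
theorem pairing (d π s : V →ₗ[K] V) (hd : ∀ x, d (d x) = 0) (h1 : ∀ x, d (π x) = 0)
    (h2 : ∀ x, π (d x) = 0) (hs : ∀ x, d (s x) + s (d x) = x + π x)
    (Ψ : ℕ → V ⊗[K] V) (hΨ : ∀ j, dd d (Ψ j) = Ψ (j + 1) + sg (Ψ (j + 1))) (hΨ4 : Ψ 4 = 0)
    (b : ℕ → V ⊗[K] V →ₗ[K] K) (hb0 : ∀ w, b 0 (dd d w) = 0)
    (hb : ∀ j w, b (j + 1) (dd d w) = b j w + b j (sg w)) :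
    ∑ j ∈ Finset.range 4, b j (Ψ j) =
      ∑ j ∈ Finset.range 4, b j (TensorProduct.map π π (Ψ j)) := by
  have h20 : (2 : K) = 0 := by decide
  obtain ⟨k0, hk0⟩ : ∃ k : V ⊗[K] V →ₗ[K] V ⊗[K] V,
      k = TensorProduct.map s LinearMap.id + TensorProduct.map π s := ⟨_, rfl⟩
  obtain ⟨k1, hk1⟩ : ∃ k : V ⊗[K] V →ₗ[K] V ⊗[K] V, k = TensorProduct.map s s := ⟨_, rfl⟩
  have t0 : ∀ x y : V, k0 (x ⊗ₜ y) = s x ⊗ₜ y + π x ⊗ₜ s y := fun x y => by
    rw [hk0]; rfl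
  have t1 : ∀ x y : V, k1 (x ⊗ₜ y) = s x ⊗ₜ s y := fun x y => by
    rw [hk1]; rfl
  have two : ∀ w : V ⊗[K] V, w + w = 0 := fun w => by
    rw [← two_smul K w, h20, zero_smul]
  have k0d : ∀ w, dd d (k0 w) + k0 (dd d w) = w + TensorProduct.map π π w := by
    intro w
    induction w with
    | zero => simp
    | tmul x y =>
      have e1 : dd d (k0 (x ⊗ₜ y)) + k0 (dd d (x ⊗ₜ y)) =
          (d (s x) + s (d x)) ⊗ₜ[K] y + π x ⊗ₜ[K] (d (s y) + s (d y)) +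
            (s x ⊗ₜ[K] d y + s x ⊗ₜ[K] d y) := by
        rw [t0, map_add, dd_tmul, dd_tmul, dd_tmul, map_add, t0, t0, h1, h2,
          TensorProduct.zero_tmul, TensorProduct.add_tmul, TensorProduct.tmul_add]
        abel
      rw [e1, two, hs, hs, TensorProduct.add_tmul, TensorProduct.tmul_add,
        TensorProduct.map_tmul, add_zero]
      have e2 := two (π x ⊗ₜ[K] y)
      calc x ⊗ₜ[K] y + π x ⊗ₜ[K] y + (π x ⊗ₜ[K] y + π x ⊗ₜ[K] π y)
          = x ⊗ₜ[K] y + π x ⊗ₜ[K] π y + (π x ⊗ₜ[K] y + π x ⊗ₜ[K] y) := by abel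
        _ = x ⊗ₜ[K] y + π x ⊗ₜ[K] π y := by rw [e2, add_zero]
    | add x y hx hy =>
      rw [map_add, map_add, map_add, map_add, map_add]
      calc dd d (k0 x) + dd d (k0 y) + (k0 (dd d x) + k0 (dd d y))
          = (dd d (k0 x) + k0 (dd d x)) + (dd d (k0 y) + k0 (dd d y)) := by abel
        _ = _ := by rw [hx, hy]; abel
  have k01 : ∀ w, k0 w + sg (k0 (sg w)) = dd d (k1 w) + k1 (dd d w) := by
    intro w
    induction w with
    | zero => simp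
    | tmul x y =>
      have e1 : dd d (k1 (x ⊗ₜ y)) + k1 (dd d (x ⊗ₜ y)) =
          (d (s x) + s (d x)) ⊗ₜ[K] s y + s x ⊗ₜ[K] (d (s y) + s (d y)) := by
        rw [t1, dd_tmul, dd_tmul, map_add, t1, t1, TensorProduct.add_tmul, TensorProduct.tmul_add]
        abel
      rw [e1, hs, hs, TensorProduct.add_tmul, TensorProduct.tmul_add, sg_tmul, t0, t0, map_add,
        sg_tmul, sg_tmul]
      abel
    | add x y hx hy =>
      rw [map_add, map_add, map_add, map_add, map_add, map_add, map_add, map_add]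
      calc k0 x + k0 y + (sg (k0 (sg x)) + sg (k0 (sg y)))
          = (k0 x + sg (k0 (sg x))) + (k0 y + sg (k0 (sg y))) := by abel
        _ = _ := by rw [hx, hy]; abel
  have k11 : ∀ w, sg (k1 (sg w)) = k1 w := by
    intro w
    induction w with
    | zero => simp
    | tmul x y => rw [sg_tmul, t1, sg_tmul, t1]
    | add x y hx hy => rw [map_add, map_add, map_add, map_add, hx, hy]
  have F : ∀ j, b j (dd d (k0 (Ψ j))) + b j (k0 (dd d (Ψ j))) =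
      b j (Ψ j) + b j (TensorProduct.map π π (Ψ j)) := fun j => by
    rw [← map_add, k0d, map_add]
  have B0 := hb0 (k0 (Ψ 0))
  have B : ∀ j, b (j + 1) (dd d (k0 (Ψ (j + 1)))) =
      b j (k0 (Ψ (j + 1))) + b j (sg (k0 (Ψ (j + 1)))) := fun j => hb j _
  have C : ∀ j, b j (k0 (dd d (Ψ j))) = b j (k0 (Ψ (j + 1))) + b j (k0 (sg (Ψ (j + 1)))) :=
    fun j => by rw [hΨ, map_add, map_add]
  have Dj : ∀ j, b j (sg (k0 (Ψ (j + 1)))) + b j (k0 (sg (Ψ (j + 1)))) =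
      b j (dd d (k1 (sg (Ψ (j + 1))))) + b j (k1 (dd d (sg (Ψ (j + 1))))) := fun j => by
    have h := k01 (sg (Ψ (j + 1)))
    rw [sg_sg] at h
    rw [← map_add, ← map_add, ← h, add_comm]
  have E0 := hb0 (k1 (sg (Ψ 1)))
  have Ej : ∀ j, b (j + 1) (dd d (k1 (sg (Ψ (j + 2))))) =
      b j (k1 (sg (Ψ (j + 2)))) + b j (k1 (Ψ (j + 2))) := fun j => by
    rw [hb, k11]
  have Gj : ∀ j, b j (k1 (dd d (sg (Ψ (j + 1))))) =
      b j (k1 (sg (Ψ (j + 2)))) + b j (k1 (Ψ (j + 2))) := fun j => by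
    rw [← sg_dd, hΨ, map_add, sg_sg, map_add, map_add]
  have C3 : b 3 (k0 (dd d (Ψ 3))) = 0 := by
    rw [C, hΨ4]; simp
  have G2 : b 2 (k1 (dd d (sg (Ψ 3)))) = 0 := by
    rw [Gj, hΨ4]; simp
  have F0 := F 0
  have F1 := F 1
  have F2 := F 2
  have F3 := F 3
  have B1 := B 0
  have B2 := B 1
  have B3 := B 2
  have C0 := C 0
  have C1 := C 1
  have C2 := C 2
  have D0 := Dj 0
  have D1 := Dj 1
  have D2 := Dj 2
  have E1 := Ej 0
  have E2 := Ej 1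
  have G0 := Gj 0
  have G1 := Gj 1
  norm_num at B1 B2 B3 C0 C1 C2 D0 D1 D2 E1 E2 G0 G1
  simp only [Finset.sum_range_succ, Finset.sum_range_zero, zero_add]
  linear_combination -F0 - F1 - F2 - F3 + B0 + B1 + B2 + B3 + C0 + C1 + C2 + C3 + D0 + D1 + D2 +
    E0 + E1 + E2 + G0 + G1 + G2 + (b 0 (k0 (Ψ 1)) + b 1 (k0 (Ψ 2)) + b 2 (k0 (Ψ 3)) +
    b 0 (k1 (sg (Ψ 2))) + b 0 (k1 (Ψ 2)) + b 1 (k1 (sg (Ψ 3))) + b 1 (k1 (Ψ 3)) -
    b 0 (TensorProduct.map π π (Ψ 0)) - b 1 (TensorProduct.map π π (Ψ 1)) -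
    b 2 (TensorProduct.map π π (Ψ 2)) - b 3 (TensorProduct.map π π (Ψ 3))) * h20

/-- PIECE MI-3. PROOF. Expand `π x = ε x • o + u x • c` in both factors (check on pure tensors). -/
theorem map_pi (π : V →ₗ[K] V) (ε u : V →ₗ[K] K) (o c : V) (hπ : ∀ x, π x = ε x • o + u x • c)
    (w : V ⊗[K] V) :
    TensorProduct.map π π w = pr2 ε ε w • (o ⊗ₜ o) + pr2 ε u w • (o ⊗ₜ c) +
      pr2 u ε w • (c ⊗ₜ o) + pr2 u u w • (c ⊗ₜ c) := by
  induction w using TensorProduct.induction_on with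
  | zero => simp
  | tmul x y =>
    rw [TensorProduct.map_tmul, hπ, hπ, TensorProduct.add_tmul, TensorProduct.tmul_add,
      TensorProduct.tmul_add]
    simp only [TensorProduct.smul_tmul_smul, pr2_tmul]
    abel
  | add x y hx hy =>
    rw [map_add, hx, hy, map_add, map_add, map_add, map_add, add_smul, add_smul, add_smul, add_smul]
    abel

end

/-- PIECE MI-3. PROOF. Choose a linear order on `X` (`linearOrderOfSTO WellOrderingRel` or any);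
`S = {x | x < i x}`. -/
theorem exists_half {X : Type} (i : X → X) (hi : ∀ x, i (i x) = x) :
    ∃ S : Set X, ∀ x, (x ∈ S → i x ∉ S) ∧ (i x ≠ x → x ∉ S → i x ∈ S) ∧ (i x = x → x ∉ S) := by
  classical
  letI : LinearOrder X := linearOrderOfSTO WellOrderingRel
  refine ⟨{x | x < i x}, fun x => ⟨fun h => ?_, fun h h' => ?_, fun h => ?_⟩⟩
  · show ¬ (i x < i (i x))
    rw [hi]
    exact not_lt_of_gt h
  · show i x < i (i x)
    rw [hi]
    exact lt_of_le_of_ne (not_lt.mp h') h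
  · show ¬ (x < i x)
    rw [h]
    exact lt_irrefl x

end Pool.Agent.Helper31.MI
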