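import Pool.Agent.Helper31.MI.Val
import Pool.Agent.Helper31.MI.Br

/-!
# Project MI: the theorem
-/

set_option autoImplicit false

open CategoryTheory

namespace Pool.Agent.Helper31.MI

theorem involutions (G : Type) [Group G]
    (hFP : ∃ P : ProjectiveResolution
        (Rep.equivalenceModuleMonoidAlgebra.functor.obj (Rep.trivial ℤ G ℤ)),
      (∃ n : ℕ, ∀ i : ℕ, n < i → Limits.IsZero (P.complex.X i)) ∧
      (∀ i : ℕ, Module.Finite (MonoidAlgebra ℤ G) (P.complex.X i).carrier))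
    (hvan : ∀ i : ℕ, i ≠ 3 →
      Subsingleton (groupCohomology (Rep.ofMulAction ℤ G G) i).carrier)
    (hthree : Nonempty ((groupCohomology (Rep.ofMulAction ℤ G G) 3).carrier ≃+ ℤ))
    (hG : ∀ z : G, z ≠ 1 → ¬ IsConj z z⁻¹ ∧ ∀ k : ℕ, 1 ≤ k → ¬ IsConj z (z ^ (2 ^ k)))
    (P : Subgroup G) [P.Normal] (hP : P.index ≠ 0)
    (hP2 : ∀ χ : P →* Multiplicative (ZMod 2), χ = 1)
    (a b : G ⧸ P) (ha : orderOf a = 2) (hb : orderOf b = 2) : a = b := by
  obtain ⟨R⟩ := Pool.ACH.resData_of_frozen G hFP hvan hthree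
  obtain ⟨C, _, _, ⟨D⟩⟩ := exists_res R
  have hfin : Finite (G ⧸ P) := by
    have : P.FiniteIndex := ⟨hP⟩
    infer_instance
  have key : ∀ x : G ⧸ P, orderOf x = 2 → ∃ y : G, (y : G ⧸ P) = x ∧ y ∉ P ∧ y * y ∈ P := by
    intro x hx
    obtain ⟨y, rfl⟩ := QuotientGroup.mk_surjective x
    refine ⟨y, rfl, ?_, ?_⟩
    · intro hy
      rw [(QuotientGroup.eq_one_iff y).2 hy, orderOf_one] at hx
      norm_num at hx
    · have h1 := pow_orderOf_eq_one (y : G ⧸ P)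
      rw [hx, pow_two, ← QuotientGroup.mk_mul, QuotientGroup.eq_one_iff] at h1
      exact h1
  obtain ⟨a', rfl, ha1, ha2⟩ := key a ha
  obtain ⟨b', rfl, hb1, hb2⟩ := key b hb
  exact QuotientGroup.eq.2 (D.main P (fun z hz => (hG z hz).1) (fun z hz => (hG z hz).2) hP2 a' b'
    ha1 hb1 ha2 hb2)

end Pool.Agent.Helper31.MI
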