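import Pool.Agent.Helper31.MI.Coi

/-!
# Project MI: the value of the pairing
-/

set_option autoImplicit false

namespace Pool.Agent.Helper31.MI

open TensorProduct

section

variable {V : Type} [AddCommGroup V] [Module K V]

/-- PIECE MI-48. PROOF. The sum is `H 0 (d y_3) + ∑_(m < 3) (H (m+1) (d y_(2-m)) + H m (y_(2-m) + θ y_(2-m)))` and
`y_(2-m) + θ y_(2-m) = d (y_(3-m))`: everything cancels except `H 3 (d (y 0))`, `H 3 = 0`. -/
theorem val_zero (d θ : V →ₗ[K] V) (y : ℕ → V) (hy : ∀ n, n < 3 → d (y (n + 1)) = y n + θ (y n))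
    (Gm H : ℕ → V →ₗ[K] K) (h0 : ∀ x, Gm 0 x = H 0 (d x))
    (h1 : ∀ m, m ≤ 2 → ∀ x, Gm (m + 1) x = H (m + 1) (d x) + H m x + H m (θ x)) (h3 : H 3 = 0) :
    ∑ m ∈ Finset.range 4, Gm m (y (3 - m)) = 0 := by
  have e2 := hy 2 (by norm_num)
  have e1 := hy 1 (by norm_num)
  have e0 := hy 0 (by norm_num)
  have g1 := h1 0 (by norm_num) (y 2)
  have g2 := h1 1 (by norm_num) (y 1)
  have g3 := h1 2 (by norm_num) (y 0)
  norm_num at e2 e1 e0 g1 g2 g3
  have key : ∀ a b c a' b' c' : K, a + a' + (b + b' + a + a') + (c + c' + b + b') +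
      (0 + c + c') = 0 := by decide
  simp only [Finset.sum_range_succ, Finset.sum_range_zero, zero_add]
  norm_num
  rw [h0, e2, g1, e1, g2, e0, g3, h3, map_add, map_add, map_add, LinearMap.zero_apply]
  exact key _ _ _ _ _ _

/-- PIECE MI-49. The chains `Ψ`. PROOF. Put `Ψ j = ∑ i ∈ range (4 - j), sg^i ((1 ⊗ θ) (Dl i (y (3 - i - j))))`, and
`Φ = ∑_(i = 1..4) sg^i ((1 ⊗ θ) (Dl i (y (4 - i))))`. With `∂ = dd d`, `σ = sg`, `A = 1 ⊗ θ`:
`∂ (σ^i A Dl_i y) = σ^i A (Dl_i (d y)) + σ^i A (1 + σ) Dl_(i-1) y`, `Dl_i (y + θ y) = Dl_i y + (θ ⊗ θ) Dl_i y`,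
`A (θ ⊗ θ) = θ ⊗ 1` (`θ θ = 1`), `σ A σ = θ ⊗ 1`. So for `y' = y_(n)`, `d (y_(n+1)) = y_n + θ y_n`, the terms `i` of the first
kind and `i + 1` of the second kind give
`σ^i (A + θ ⊗ 1) Dl_i y_n + σ^(i+1) A (1 + σ) Dl_i y_n = (1 + σ) σ^i A Dl_i y_n`. Summation gives
`∂ (Ψ j) = (1 + σ) (Ψ (j + 1))` and `∂ Φ = (1 + σ) (Ψ 0) + A (Dl 0 c)` (the term `i = 0` of the first kind is missing in
`Φ`: `A Dl_0 (y_3 + θ y_3)`). -/
theorem exists_Psi (d θ : V →ₗ[K] V) (hd : ∀ x, d (d x) = 0) (hθ : ∀ x, θ (θ x) = x)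
    (hdθ : ∀ x, d (θ x) = θ (d x)) (c : V) (y : ℕ → V) (hy0 : d (y 0) = 0)
    (hy : ∀ n, n < 3 → d (y (n + 1)) = y n + θ (y n)) (hy3 : y 3 + θ (y 3) = c)
    (Dl : ℕ → V →ₗ[K] V ⊗[K] V) (h0 : ∀ x, dd d (Dl 0 x) = Dl 0 (d x))
    (h1 : ∀ i x, dd d (Dl (i + 1) x) = Dl (i + 1) (d x) + (Dl i x + sg (Dl i x)))
    (h2 : ∀ i x, Dl i (θ x) = TensorProduct.map θ θ (Dl i x)) :
    ∃ (Ψ : ℕ → V ⊗[K] V) (Φ : V ⊗[K] V),
      (∀ j, dd d (Ψ j) = Ψ (j + 1) + sg (Ψ (j + 1))) ∧ Ψ 4 = 0 ∧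
      dd d Φ = Ψ 0 + sg (Ψ 0) + TensorProduct.map LinearMap.id θ (Dl 0 c) ∧
      ∀ b : ℕ → V ⊗[K] V →ₗ[K] K, ∑ j ∈ Finset.range 4, b j (Ψ j) =
        ∑ m ∈ Finset.range 4, ∑ i ∈ Finset.range (m + 1),
          b (m - i) ((sg ^ i) (TensorProduct.map LinearMap.id θ (Dl i (y (3 - m))))) := by
  -- the terms
  let S : ℕ → ℕ → V ⊗[K] V := fun i n => (sg ^ i) (TensorProduct.map LinearMap.id θ (Dl i (y n)))
  let R : ℕ → ℕ → V ⊗[K] V := fun i n => (sg ^ i) (TensorProduct.map θ LinearMap.id (Dl i (y n)))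
  have hA : ∀ w : V ⊗[K] V, TensorProduct.map LinearMap.id θ (TensorProduct.map θ θ w) =
      TensorProduct.map θ LinearMap.id w := by
    intro w
    induction w with
    | zero => simp
    | tmul x y => simp [hθ]
    | add x y hx hy => rw [map_add, map_add, map_add, hx, hy]
  have hdp : ∀ (i : ℕ) (w : V ⊗[K] V), dd d ((sg ^ i) w) = (sg ^ i) (dd d w) := by
    intro i
    induction i with
    | zero => intro w; rfl
    | succ i ih =>
      intro w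
      rw [pow_succ, Module.End.mul_apply, Module.End.mul_apply, ih, sg_dd]
  have hdA : ∀ w : V ⊗[K] V, dd d (TensorProduct.map LinearMap.id θ w) =
      TensorProduct.map LinearMap.id θ (dd d w) :=
    dd_map d LinearMap.id θ (fun _ => rfl) hdθ
  have hc1 : ∀ (i n : ℕ), n < 3 → (sg ^ i) (TensorProduct.map LinearMap.id θ
      (Dl i (d (y (n + 1))))) = S i n + R i n := by
    intro i n hn
    rw [hy n hn, map_add, map_add, h2, hA, map_add]
  have hc2 : ∀ (i n : ℕ), (sg ^ (i + 1)) (TensorProduct.map LinearMap.id θ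
      (Dl i (y n) + sg (Dl i (y n)))) = sg (S i n) + R i n := by
    intro i n
    rw [map_add, map_add, pow_succ', Module.End.mul_apply, Module.End.mul_apply]
    congr 1
    rw [← sg_map θ LinearMap.id]
    change sg ((sg ^ i) (sg _)) = _
    have h5 : ∀ w : V ⊗[K] V, sg ((sg ^ i) (sg w)) = (sg ^ i) w := by
      intro w
      rw [← Module.End.mul_apply (sg ^ i) sg, ← pow_succ, pow_succ', Module.End.mul_apply, sg_sg]
    rw [h5]
  have hS0 : ∀ n, n < 3 → dd d (S 0 (n + 1)) = S 0 n + R 0 n := by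
    intro n hn
    rw [← hc1 0 n hn]
    change dd d ((sg ^ 0) _) = _
    rw [hdp, hdA, h0]
  have hS0' : dd d (S 0 0) = 0 := by
    change dd d ((sg ^ 0) _) = _
    rw [hdp, hdA, h0, hy0, map_zero, map_zero, map_zero]
  have hS : ∀ i n, n < 3 → dd d (S (i + 1) (n + 1)) =
      (S (i + 1) n + R (i + 1) n) + (sg (S i (n + 1)) + R i (n + 1)) := by
    intro i n hn
    change dd d ((sg ^ (i + 1)) _) = _
    rw [hdp, hdA, h1, map_add, map_add, hc1 (i + 1) n hn, hc2]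
  have hS' : ∀ i, dd d (S (i + 1) 0) = sg (S i 0) + R i 0 := by
    intro i
    change dd d ((sg ^ (i + 1)) _) = _
    rw [hdp, hdA, h1, map_add, map_add, hy0, map_zero, map_zero, map_zero, zero_add, hc2]
  let Ψ : ℕ → V ⊗[K] V := fun j => match j with
    | 0 => S 0 3 + S 1 2 + S 2 1 + S 3 0
    | 1 => S 0 2 + S 1 1 + S 2 0
    | 2 => S 0 1 + S 1 0
    | 3 => S 0 0
    | _ + 4 => 0
  have hR : ∀ w : V ⊗[K] V, w + w = 0 := fun w => ZModModule.add_self w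
  refine ⟨Ψ, S 1 3 + S 2 2 + S 3 1 + S 4 0, ?_, rfl, ?_, ?_⟩
  · intro j
    match j with
    | 0 =>
      change dd d (S 0 3 + S 1 2 + S 2 1 + S 3 0) = (S 0 2 + S 1 1 + S 2 0) + sg (S 0 2 + S 1 1 + S 2 0)
      simp only [map_add]
      rw [hS0 2 (by norm_num), hS 0 1 (by norm_num), hS 1 0 (by norm_num), hS' 2]
      have h6 : S 0 2 + R 0 2 + (S 1 1 + R 1 1 + (sg (S 0 2) + R 0 2)) +
          (S 2 0 + R 2 0 + (sg (S 1 1) + R 1 1)) + (sg (S 2 0) + R 2 0) =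
          S 0 2 + S 1 1 + S 2 0 + (sg (S 0 2) + sg (S 1 1) + sg (S 2 0)) +
            ((R 0 2 + R 0 2) + (R 1 1 + R 1 1) + (R 2 0 + R 2 0)) := by abel
      rw [h6]
      simp only [hR, add_zero]
    | 1 =>
      change dd d (S 0 2 + S 1 1 + S 2 0) = (S 0 1 + S 1 0) + sg (S 0 1 + S 1 0)
      simp only [map_add]
      rw [hS0 1 (by norm_num), hS 0 0 (by norm_num), hS' 1]
      have h6 : S 0 1 + R 0 1 + (S 1 0 + R 1 0 + (sg (S 0 1) + R 0 1)) + (sg (S 1 0) + R 1 0) =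
          S 0 1 + S 1 0 + (sg (S 0 1) + sg (S 1 0)) + ((R 0 1 + R 0 1) + (R 1 0 + R 1 0)) := by abel
      rw [h6, hR, hR, add_zero, add_zero]
    | 2 =>
      change dd d (S 0 1 + S 1 0) = S 0 0 + sg (S 0 0)
      simp only [map_add]
      rw [hS0 0 (by norm_num), hS' 0]
      have h6 : S 0 0 + R 0 0 + (sg (S 0 0) + R 0 0) = S 0 0 + sg (S 0 0) + (R 0 0 + R 0 0) := by abel
      rw [h6, hR, add_zero]
    | 3 =>
      change dd d (S 0 0) = 0 + sg 0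
      rw [hS0', map_zero, add_zero]
    | j + 4 =>
      change dd d 0 = 0 + sg 0
      rw [map_zero, map_zero, add_zero]
  · change _ = (S 0 3 + S 1 2 + S 2 1 + S 3 0) + sg (S 0 3 + S 1 2 + S 2 1 + S 3 0) + _
    have h7 : TensorProduct.map LinearMap.id θ (Dl 0 c) = S 0 3 + R 0 3 := by
      rw [← hy3, map_add, map_add, h2, hA]
      rfl
    rw [h7]
    simp only [map_add]
    rw [hS 0 2 (by norm_num), hS 1 1 (by norm_num), hS 2 0 (by norm_num), hS' 3]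
    have h6 : S 1 2 + R 1 2 + (sg (S 0 3) + R 0 3) + (S 2 1 + R 2 1 + (sg (S 1 2) + R 1 2)) +
        (S 3 0 + R 3 0 + (sg (S 2 1) + R 2 1)) + (sg (S 3 0) + R 3 0) + (S 0 3 + S 0 3) =
        S 0 3 + S 1 2 + S 2 1 + S 3 0 + (sg (S 0 3) + sg (S 1 2) + sg (S 2 1) + sg (S 3 0)) +
          (S 0 3 + R 0 3) + ((R 1 2 + R 1 2) + (R 2 1 + R 2 1) + (R 3 0 + R 3 0)) := by abel
    simp only [hR, add_zero] at h6
    exact h6
  · intro b
    simp only [Finset.sum_range_succ, Finset.sum_range_zero, zero_add]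
    change b 0 (S 0 3 + S 1 2 + S 2 1 + S 3 0) + b 1 (S 0 2 + S 1 1 + S 2 0) +
      b 2 (S 0 1 + S 1 0) + b 3 (S 0 0) = b 0 (S 0 3) + (b 1 (S 0 2) + b 0 (S 1 2)) +
        (b 2 (S 0 1) + b 1 (S 1 1) + b 0 (S 2 1)) +
        (b 3 (S 0 0) + b 2 (S 1 0) + b 1 (S 2 0) + b 0 (S 3 0))
    simp only [map_add]
    abel

/-- PIECE MI-50. PROOF. `exists_Psi`; `contraction` for `π x = ε x • o + u x • c` (use `hex`) and `pairing`: the sum is
`∑_j b j ((π ⊗ π) (Ψ j))`; `map_pi`, `hoo`, `hoc`, `hco`, `hcc`: it is `pr2 ε u (Ψ 0) + b 0 (c ⊗ o) * pr2 u ε (Ψ 0)` and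
`b 0 (c ⊗ o) = b 0 (o ⊗ c) + b 1 (dd (o ⊗ c)) = 1`. `pr2 ε u w = pr2 u ε (sg w)`, so it is
`pr2 u ε (Ψ 0 + sg (Ψ 0)) = pr2 u ε (dd Φ) + pr2 u ε ((1 ⊗ θ) (Dl 0 c)) = 0 + pr2 u ε (Dl 0 c) = 1` (`u d = 0`, `ε d = 0`,
`ε θ = ε`). -/
theorem val_one (d θ : V →ₗ[K] V) (hd : ∀ x, d (d x) = 0) (hθ : ∀ x, θ (θ x) = x)
    (hdθ : ∀ x, d (θ x) = θ (d x)) (ε u : V →ₗ[K] K) (o c : V) (hεd : ∀ x, ε (d x) = 0)
    (hεθ : ∀ x, ε (θ x) = ε x) (hud : ∀ x, u (d x) = 0) (hεo : ε o = 1) (hεc : ε c = 0)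
    (huo : u o = 0) (huc : u c = 1) (hdo : d o = 0) (hdc : d c = 0)
    (hex : ∀ x, d x = 0 → ε x = 0 → u x = 0 → ∃ y, d y = x)
    (y : ℕ → V) (hy0 : d (y 0) = 0) (hy : ∀ n, n < 3 → d (y (n + 1)) = y n + θ (y n))
    (hy3 : y 3 + θ (y 3) = c)
    (Dl : ℕ → V →ₗ[K] V ⊗[K] V) (h0 : ∀ x, dd d (Dl 0 x) = Dl 0 (d x))
    (h1 : ∀ i x, dd d (Dl (i + 1) x) = Dl (i + 1) (d x) + (Dl i x + sg (Dl i x)))
    (h2 : ∀ i x, Dl i (θ x) = TensorProduct.map θ θ (Dl i x)) (h3 : pr2 u ε (Dl 0 c) = 1)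
    (b : ℕ → V ⊗[K] V →ₗ[K] K) (hb0 : ∀ w, b 0 (dd d w) = 0)
    (hb : ∀ j w, b (j + 1) (dd d w) = b j w + b j (sg w))
    (hoo : ∀ j, j ≤ 3 → b j (o ⊗ₜ o) = 0) (hoc : b 0 (o ⊗ₜ c) = 1)
    (hoc' : ∀ j, 1 ≤ j → j ≤ 3 → b j (o ⊗ₜ c) = 0) (hco' : ∀ j, 1 ≤ j → j ≤ 3 → b j (c ⊗ₜ o) = 0)
    (hcc : ∀ j, j ≤ 3 → b j (c ⊗ₜ c) = 0) :
    ∑ m ∈ Finset.range 4, ∑ i ∈ Finset.range (m + 1),
      b (m - i) ((sg ^ i) (TensorProduct.map LinearMap.id θ (Dl i (y (3 - m))))) = 1 := by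
  obtain ⟨Ψ, Φ, hΨ, hΨ4, hΦ, hsum⟩ := exists_Psi d θ hd hθ hdθ c y hy0 hy hy3 Dl h0 h1 h2
  rw [← hsum b]
  obtain ⟨π, hπ⟩ : ∃ π : V →ₗ[K] V, ∀ x, π x = ε x • o + u x • c :=
    ⟨ε.smulRight o + u.smulRight c, fun x => rfl⟩
  have hεπ : ∀ x, ε (π x) = ε x := by
    intro x
    rw [hπ, map_add, map_smul, map_smul, hεo, hεc, smul_zero, add_zero, smul_eq_mul, mul_one]
  have huπ : ∀ x, u (π x) = u x := by
    intro x
    rw [hπ, map_add, map_smul, map_smul, huo, huc, smul_zero, zero_add, smul_eq_mul, mul_one]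
  have hdπ : ∀ x, d (π x) = 0 := by
    intro x
    rw [hπ, map_add, map_smul, map_smul, hdo, hdc, smul_zero, smul_zero, add_zero]
  have hπd : ∀ x, π (d x) = 0 := by
    intro x
    rw [hπ, hεd, hud, zero_smul, zero_smul, add_zero]
  obtain ⟨s, hs⟩ := contraction d π hd hdπ hπd (fun x => by rw [hπ (π x), hεπ, huπ, ← hπ])
    (fun x hx hx' => hex x hx (by rw [← hεπ, hx', map_zero]) (by rw [← huπ, hx', map_zero]))
  rw [pairing d π s hd hdπ hπd hs Ψ hΨ hΨ4 b hb0 hb]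
  have hterm : ∀ j, 1 ≤ j → j ≤ 3 → b j (TensorProduct.map π π (Ψ j)) = 0 := by
    intro j hj hj'
    rw [map_pi π ε u o c hπ, map_add, map_add, map_add, map_smul, map_smul, map_smul, map_smul,
      hoo j hj', hoc' j hj hj', hco' j hj hj', hcc j hj']
    simp
  have hc : b 0 (c ⊗ₜ o) = 1 := by
    have h4 := hb 0 (o ⊗ₜ c)
    rw [dd_tmul, hdo, hdc, TensorProduct.zero_tmul, TensorProduct.tmul_zero, add_zero, map_zero,
      hoc, sg_tmul] at h4
    have h5 : (1 : K) + (1 + b 0 (c ⊗ₜ o)) = 1 + 0 := by rw [← h4]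
    rw [← add_assoc, ZModModule.add_self, zero_add, add_zero] at h5
    exact h5
  have hsw : ∀ w : V ⊗[K] V, pr2 ε u w = pr2 u ε (sg w) := by
    intro w
    induction w with
    | zero => simp
    | tmul x y => rw [sg_tmul, pr2_tmul, pr2_tmul, mul_comm]
    | add x y hx hy => rw [map_add, map_add, map_add, hx, hy]
  have hdd : ∀ w : V ⊗[K] V, pr2 u ε (dd d w) = 0 := by
    intro w
    induction w with
    | zero => simp
    | tmul x y => rw [dd_tmul, map_add, pr2_tmul, pr2_tmul, hud, hεd, zero_mul, mul_zero, add_zero]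
    | add x y hx hy => rw [map_add, map_add, hx, hy, add_zero]
  have hmap : ∀ w : V ⊗[K] V, pr2 u ε (TensorProduct.map LinearMap.id θ w) = pr2 u ε w := by
    intro w
    induction w with
    | zero => simp
    | tmul x y => rw [TensorProduct.map_tmul, pr2_tmul, pr2_tmul, hεθ, LinearMap.id_apply]
    | add x y hx hy => rw [map_add, map_add, map_add, hx, hy]
  have hzero : b 0 (TensorProduct.map π π (Ψ 0)) = 1 := by
    rw [map_pi π ε u o c hπ, map_add, map_add, map_add, map_smul, map_smul, map_smul, map_smul,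
      hoo 0 (by omega), hoc, hc, hcc 0 (by omega), smul_zero, smul_zero, zero_add, add_zero,
      smul_eq_mul, smul_eq_mul, mul_one, mul_one, hsw, add_comm, ← map_add]
    have h4 : Ψ 0 + sg (Ψ 0) = dd d Φ + TensorProduct.map LinearMap.id θ (Dl 0 c) := by
      rw [hΦ, add_assoc, ZModModule.add_self, add_zero]
    rw [h4, map_add, hdd, hmap, h3, zero_add]
  rw [Finset.sum_range_succ, Finset.sum_range_succ, Finset.sum_range_succ, Finset.sum_range_one,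
    hzero, hterm 1 (by omega) (by omega), hterm 2 (by omega) (by omega),
    hterm 3 (by omega) (by omega)]
  simp

end

variable {G C : Type} [Group G] [AddCommGroup C] [Module K C]

namespace Cx

variable (D : Cx G C) (P : Subgroup G)

private theorem mi51_pow (i : ℕ) :
    (sg (V := C)) ^ i = LinearMap.id ∨ (sg (V := C)) ^ i = sg := by
  induction i with
  | zero => left; rfl
  | succ n ih =>
    rcases ih with h | h
    · right
      rw [pow_succ, h]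
      rfl
    · left
      rw [pow_succ, h]
      exact LinearMap.ext fun w => sg_sg w

private theorem mi51_gg (g h : G) (i : ℕ) (w : C ⊗[K] C) (hg : g = h) :
    D.gg g h ((sg ^ i) w) = (sg ^ i) (D.gg g h w) := by
  subst hg
  rcases mi51_pow (C := C) i with h | h
  · rw [h]; rfl
  · rw [h, D.sg_gg]

private theorem mi51_fin {lam : C ⊗[K] C →ₗ[K] K} (hl : D.Form lam) (i : ℕ) (c : G)
    (w : C ⊗[K] C) :
    (Function.support fun p : P => lam ((sg ^ i) (D.gg (c * p) 1 w))).Finite := by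
  have h1 : {g : G | lam ((sg ^ i) (D.gg g 1 w)) ≠ 0}.Finite := by
    rcases mi51_pow (C := C) i with h | h
    · rw [h]; exact hl.fin w
    · rw [h]; exact (Form.sg hl).fin w
  exact h1.preimage (f := fun p : P => c * (p : G))
    (fun p _ q _ hpq => Subtype.ext (mul_left_cancel hpq))

private theorem mi51_cs [P.Normal] {lam : C ⊗[K] C →ₗ[K] K} (hl : D.Form lam) (a : G)
    (ha : a * a ∈ P) (i : ℕ) (w : C ⊗[K] C) :
    ∑ᶠ p : P, lam ((sg ^ i) (D.gg (a * p) 1 w)) =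
      ∑ᶠ p : P, lam (D.gg (a * p) 1 ((sg ^ i) w)) := by
  rcases mi51_pow (C := C) i with h | h
  · rw [h]; rfl
  · rw [h]; exact D.cs_sg P hl a ha w

private theorem mi51_pj [P.Normal] (b : G) (i : ℕ) (w : C ⊗[K] C) :
    D.pj2 P ((sg ^ i) (D.gg 1 b w)) =
      (sg ^ i) (TensorProduct.map LinearMap.id (D.rb P b) (D.pj2 P w)) := by
  have h0 : D.pj2 P (D.gg 1 b w) =
      TensorProduct.map LinearMap.id (D.rb P b) (D.pj2 P w) := by
    induction w with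
    | zero => simp
    | tmul x y =>
      rw [gg_tmul, pj2_tmul, pj2_tmul, TensorProduct.map_tmul, rb_pj, map_one]
      rfl
    | add x y hx hy => rw [map_add, map_add, map_add, map_add, hx, hy]
  have h1 : ∀ (i : ℕ) (v : C ⊗[K] C), D.pj2 P ((sg ^ i) v) = (sg ^ i) (D.pj2 P v) := by
    intro i
    induction i with
    | zero => intro v; rfl
    | succ n ih =>
      intro v
      rw [pow_succ, pow_succ]
      change D.pj2 P ((sg ^ n) (sg v)) = (sg ^ n) (sg (D.pj2 P v))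
      rw [ih, D.sg_pj2]
  rw [h1, h0]

/-- PIECE MI-51. PROOF. `hl.z`, `Fam`: `exists_cs` for `F = FF lam Δ m`, `desc` (conjugation by `q ∈ P` maps `c P` to itself:
`cs_bij`, `Fam.eqv`). The formula: `FF m z x = ∑_i lam (m-i) (sg^i (gg z 1 (Δ i x)))`, `z = b⁻¹ a p`; by `Form.inv` for `g = b`
(`gg b b` commutes with `sg^i`) the term is `lam (m-i) (sg^i (gg (a p) b (Δ i x))) =
lam (m-i) (sg^i (gg (a p) 1 (gg 1 b (Δ i x))))`; for odd `i` by `sg_gg` it is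
`lam (sg (gg (a p) 1 w))`, `cs_sg`. So the sum over `p` is `bb (m-i) (pj2 (sg^i (gg 1 b (Δ i x))))`. -/
theorem exists_G [P.Normal] {lam : ℕ → C ⊗[K] C →ₗ[K] K} (hl : D.Forms lam)
    {Δ : ℕ → C →ₗ[K] C ⊗[K] C} (hΔ : D.Diag Δ) (a b : G) (ha2 : a * a ∈ P)
    (bb : ℕ → D.Cb P ⊗[K] D.Cb P →ₗ[K] K)
    (hbb : ∀ j w, bb j (D.pj2 P w) = ∑ᶠ p : P, lam j (D.gg (a * p) 1 w))
    (Dl : ℕ → D.Cb P →ₗ[K] D.Cb P ⊗[K] D.Cb P) (hDl : ∀ i x, Dl i (D.pj P x) = D.pj2 P (Δ i x)) :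
    ∃ Gm : ℕ → D.Cb P →ₗ[K] K,
      (∀ m x, Gm m (D.pj P x) = ∑ᶠ p : P, D.FF lam Δ m (b⁻¹ * a * p) x) ∧
      ∀ m x, Gm m x = ∑ i ∈ Finset.range (m + 1),
        bb (m - i) ((sg ^ i) (TensorProduct.map LinearMap.id (D.rb P b) (Dl i x))) := by
  have key : ∀ m, ∃ S : D.Cb P →ₗ[K] K, ∀ x, S (D.pj P x) =
      ∑ᶠ p : P, D.FF lam Δ m (b⁻¹ * a * p) x := by
    intro m
    have hF := D.FF_fam hl hΔ m
    obtain ⟨S, hS⟩ := exists_cs P (D.FF lam Δ m) hF.fin (b⁻¹ * a)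
    obtain ⟨S', hS'⟩ := D.desc P S (by
      intro q hq x
      rw [hS, hS]
      have h1 := cs_bij P (fun z => D.FF lam Δ m z x)
        (((Equiv.mulLeft q⁻¹).trans (Equiv.mulRight q))) (b⁻¹ * a) (b⁻¹ * a) (by
          intro z
          simp only [Equiv.trans_apply, Equiv.coe_mulLeft, Equiv.coe_mulRight]
          have e1 : (b⁻¹ * a)⁻¹ * (q⁻¹ * z * q) =
              ((b⁻¹ * a)⁻¹ * q⁻¹ * (b⁻¹ * a)⁻¹⁻¹) * ((b⁻¹ * a)⁻¹ * z) * q := by group
          rw [e1, Subgroup.mul_mem_cancel_right P hq, Subgroup.mul_mem_cancel_left P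
            (Subgroup.Normal.conj_mem inferInstance _ (P.inv_mem hq) _)])
      rw [← h1]
      refine finsum_congr fun p => ?_
      simp only [Equiv.trans_apply, Equiv.coe_mulLeft, Equiv.coe_mulRight]
      rw [hF.eqv])
    exact ⟨S', fun x => by rw [hS', hS]⟩
  choose Gm hGm using key
  refine ⟨Gm, hGm, fun m x => ?_⟩
  obtain ⟨x, rfl⟩ := D.pj_surj P x
  rw [hGm]
  have e1 : ∀ p : P, D.FF lam Δ m (b⁻¹ * a * p) x =
      ∑ i ∈ Finset.range (m + 1), lam (m - i) ((sg ^ i) (D.gg (b⁻¹ * a * p) 1 (Δ i x))) := by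
    intro p
    rw [FF, LinearMap.sum_apply]
    rfl
  rw [finsum_congr e1, finsum_sum_comm _ _ (fun i _ => D.mi51_fin P (hl.form (m - i)) i _ _)]
  refine Finset.sum_congr rfl fun i _ => ?_
  rw [hDl, ← D.mi51_pj, hbb, ← D.mi51_cs P (hl.form _) a ha2]
  refine finsum_congr fun p => ?_
  rw [← (hl.form (m - i)).inv b, D.mi51_gg b b i _ rfl, D.gg_gg, D.gg_gg, mul_one, mul_one,
    one_mul]
  have e2 : b * (b⁻¹ * a * (p : G)) = a * p := by group
  rw [e2]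

/-- PIECE MI-52. PROOF. For a family `h` let `S (pj x) = ∑ᶠ p : P, h (b⁻¹ a p) x` (`exists_cs`, `desc` as in `exists_G`). Conjugation by `b`
maps `b⁻¹ a P` to `b⁻² a b P = a b P`, inversion maps it to `a⁻¹ b P = a b P` (`a * a`, `b * b ∈ P`), so
`S (rb b (pj x)) = ∑ᶠ p, h (b⁻¹ (b⁻¹ a p) b) x = ∑ᶠ p, h (b⁻¹ a p)⁻¹ x` (`cs_bij` twice). -/
theorem exists_H [P.Normal] {h : G → C →ₗ[K] K} (hh : D.Fam h) (a b : G) (ha2 : a * a ∈ P)
    (hb2 : b * b ∈ P) :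
    ∃ H : D.Cb P →ₗ[K] K, (∀ x, H (D.pj P x) = ∑ᶠ p : P, h (b⁻¹ * a * p) x) ∧
      ∀ x, H (D.rb P b (D.pj P x)) = ∑ᶠ p : P, h (b⁻¹ * a * p)⁻¹ x := by
  have hA : (a : G ⧸ P)⁻¹ = a := by
    apply inv_eq_of_mul_eq_one_left
    rw [← QuotientGroup.mk_mul]
    exact (QuotientGroup.eq_one_iff _).mpr ha2
  have hB2 : (b : G ⧸ P) * b = 1 := by
    rw [← QuotientGroup.mk_mul]
    exact (QuotientGroup.eq_one_iff _).mpr hb2
  have hB : (b : G ⧸ P)⁻¹ = b := inv_eq_of_mul_eq_one_left hB2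
  obtain ⟨S, hS⟩ := exists_cs P h hh.fin (b⁻¹ * a)
  obtain ⟨H, hH⟩ := D.desc P S (fun q hq x => by
    have hq1 : (q : G ⧸ P) = 1 := (QuotientGroup.eq_one_iff _).mpr hq
    rw [hS, hS]
    have h1 := cs_bij P (fun z => h z x) (MulAut.conj q⁻¹).toEquiv (b⁻¹ * a) (b⁻¹ * a) (fun z => by
      rw [← QuotientGroup.eq, ← QuotientGroup.eq]
      change _ ↔ _ = ((q⁻¹ * z * q⁻¹⁻¹ : G) : G ⧸ P)
      rw [QuotientGroup.mk_mul _ (q⁻¹ * z), QuotientGroup.mk_mul _ q⁻¹, inv_inv,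
        QuotientGroup.mk_inv, hq1, inv_one, one_mul, mul_one])
    rw [← h1]
    refine finsum_congr fun p => ?_
    rw [hh.eqv]
    change _ = h (q⁻¹ * (b⁻¹ * a * p) * q⁻¹⁻¹) x
    rw [inv_inv])
  refine ⟨H, fun x => by rw [hH, hS], fun x => ?_⟩
  rw [rb_pj, hH, hS]
  have h1 := cs_bij P (fun z => h z x) (MulAut.conj b⁻¹).toEquiv (b⁻¹ * a) (a * b) (fun z => by
    rw [← QuotientGroup.eq, ← QuotientGroup.eq]
    change _ ↔ _ = ((b⁻¹ * z * b⁻¹⁻¹ : G) : G ⧸ P)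
    rw [QuotientGroup.mk_mul _ (b⁻¹ * z), QuotientGroup.mk_mul _ b⁻¹, inv_inv,
      QuotientGroup.mk_mul _ a, QuotientGroup.mk_mul _ b⁻¹, QuotientGroup.mk_inv, hB]
    constructor
    · intro h
      rw [← h, ← mul_assoc (b : G ⧸ P) b a, hB2, one_mul]
    · intro h
      rw [mul_right_cancel h, ← mul_assoc, hB2, one_mul])
  have h2 := cs_bij P (fun z => h z x) (Equiv.inv G) (b⁻¹ * a) (a * b) (fun z => by
    rw [← QuotientGroup.eq, ← QuotientGroup.eq]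
    change _ ↔ _ = ((z⁻¹ : G) : G ⧸ P)
    rw [QuotientGroup.mk_inv, QuotientGroup.mk_mul _ a, QuotientGroup.mk_mul _ b⁻¹,
      QuotientGroup.mk_inv]
    constructor
    · intro h
      rw [← h, mul_inv_rev, inv_inv, hA]
    · intro h
      rw [← inv_inv (z : G ⧸ P), ← h, mul_inv_rev, hA])
  refine Eq.trans (Eq.trans ?_ (h1.trans h2.symm)) ?_
  · refine finsum_congr fun p => ?_
    rw [hh.eqv]
    change _ = h (b⁻¹ * (b⁻¹ * a * p) * b⁻¹⁻¹) x
    rw [inv_inv]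
  · rfl

/-- PIECE MI-53. PROOF. `exists_fund`, `exists_diag`, `exists_forms`. `split` for `F = FF lam Δ` (`FF_fam`, `FF_deg`, `FF_rel`,
`class_sum`). `exists_H` for `h 0, .., h 3`. `exists_G`. For `z ∈ b⁻¹ a P` one has `z ≠ 1`. Sum the formulas of
`split` over `p` (finite supports): the hypotheses of `val_zero`. So the sum is `0`. -/
theorem value_zero [P.Normal] [Finite (G ⧸ P)] {lam : ℕ → C ⊗[K] C →ₗ[K] K} (hl : D.Forms lam)
    {Δ : ℕ → C →ₗ[K] C ⊗[K] C} (hΔ : D.Diag Δ) {t : C} (ht : D.Fund t)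
    (hG : ∀ z : G, z ≠ 1 → ¬ IsConj z z⁻¹)
    (hG' : ∀ z : G, z ≠ 1 → ∀ k, 1 ≤ k → ¬ IsConj z (z ^ (2 ^ k)))
    (a b : G) (ha2 : a * a ∈ P) (hb2 : b * b ∈ P) (hab : a⁻¹ * b ∉ P)
    (y : ℕ → D.Cb P) (hy : ∀ n, n < 3 → D.db P (y (n + 1)) = y n + D.rb P b (y n))
    (Gm : ℕ → D.Cb P →ₗ[K] K)
    (hGm : ∀ m x, Gm m (D.pj P x) = ∑ᶠ p : P, D.FF lam Δ m (b⁻¹ * a * p) x) :
    ∑ m ∈ Finset.range 4, Gm m (y (3 - m)) = 0 := by
  obtain ⟨h, hfam, h3, hs0, hs⟩ := D.split ht hG (D.FF lam Δ) (D.FF_fam hl hΔ)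
    (D.FF_deg hl hΔ).1 (D.FF_deg hl hΔ).2 (fun m z x => D.FF_rel hl hΔ m z x)
    (fun c hc => D.class_sum hl hΔ ht hG' c hc)
  choose H hH1 hH2 using fun m => D.exists_H P (hfam m) a b ha2 hb2
  have hne : ∀ p : P, b⁻¹ * a * (p : G) ≠ 1 := by
    intro p hp
    apply hab
    have h1 : a⁻¹ * b = p := by
      rw [mul_assoc] at hp
      have h2 : a * (p : G) = b := by
        have h3 := congrArg (fun x => b * x) hp
        simpa using h3
      rw [← h2]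
      group
    rw [h1]
    exact p.2
  have hinj : Function.Injective fun p : P => b⁻¹ * a * (p : G) :=
    fun p q hpq => Subtype.ext (mul_left_cancel hpq)
  have hfin1 : ∀ (m : ℕ) (x : C), (Function.support fun p : P => h m (b⁻¹ * a * p) x).Finite :=
    fun m x => ((hfam m).fin x).preimage (hinj.injOn)
  have hfin2 : ∀ (m : ℕ) (x : C),
      (Function.support fun p : P => h m (b⁻¹ * a * p)⁻¹ x).Finite :=
    fun m x => ((hfam m).inv.fin x).preimage (hinj.injOn)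
  refine val_zero (D.db P) (D.rb P b) y hy Gm H ?_ ?_ ?_
  · intro x
    obtain ⟨x, rfl⟩ := D.pj_surj P x
    rw [hGm, db_pj, hH1]
    exact finsum_congr fun p => hs0 _ x (hne p)
  · intro m hm x
    obtain ⟨x, rfl⟩ := D.pj_surj P x
    rw [hGm, db_pj, hH1, hH1, hH2, ← finsum_add_distrib (hfin1 _ _) (hfin1 _ _),
      ← finsum_add_distrib _ (hfin2 _ _)]
    · exact finsum_congr fun p => hs m _ x hm (hne p)
    · refine ((hfin1 (m + 1) (D.d x)).union (hfin1 m x)).subset fun p hp => ?_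
      by_contra hcon
      simp only [Set.mem_union, Function.mem_support, not_or, not_not] at hcon
      apply hp
      dsimp only
      rw [hcon.1, hcon.2, add_zero]
  · refine LinearMap.ext fun x => ?_
    obtain ⟨x, rfl⟩ := D.pj_surj P x
    rw [hH1, h3]
    simp

private theorem mi54_E (p q : ℕ) (x y : C) (hx : D.e p x = x) (hy : D.e q y = y) :
    D.E (p + q) (x ⊗ₜ y) = x ⊗ₜ y := by
  unfold Cx.E
  rw [LinearMap.sum_apply, Finset.sum_eq_single p]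
  · rw [TensorProduct.map_tmul, hx, Nat.add_sub_cancel_left, hy]
  · intro r _ hr
    rw [TensorProduct.map_tmul, ← hx, D.e_ne r p x hr, TensorProduct.zero_tmul]
  · intro h
    exact absurd (Finset.mem_range.2 (by omega)) h

private theorem mi54_E3 (x : C) : D.E 3 (D.o ⊗ₜ x) = D.o ⊗ₜ D.e 3 x := by
  unfold Cx.E
  rw [LinearMap.sum_apply, Finset.sum_eq_single 0]
  · rw [TensorProduct.map_tmul, D.o_e, Nat.sub_zero]
  · intro r _ hr
    rw [TensorProduct.map_tmul, ← D.o_e, D.e_ne r 0 _ hr, TensorProduct.zero_tmul]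
  · intro h
    exact absurd (Finset.mem_range.2 (by omega)) h

private theorem mi54_ε (k : ℕ) (hk : k ≠ 0) (x : C) : D.ε (D.e k x) = 0 := by
  rw [← D.ε_e, D.e_ne 0 k x (Ne.symm hk), map_zero]

/-- `(1 ⊗ ε) Δ` is homotopic to the identity. -/
private theorem mi54_beta {Δ : ℕ → C →ₗ[K] C ⊗[K] C} (hΔ : D.Diag Δ) :
    ∃ h : C →ₗ[K] C, (∀ g x, h (D.ρ g x) = D.ρ g (h x)) ∧
      ∀ x, rf D.ε (Δ 0 x) = x + D.d (h x) + h (D.d x) := by
  have e1 : ∀ g w, rf D.ε (D.gg g g w) = D.ρ g (rf D.ε w) := by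
    intro g w
    induction w with
    | zero => simp
    | tmul x y => rw [gg_tmul, rf_tmul, rf_tmul, D.ε_ρ, map_smul]
    | add x y hx hy => rw [map_add, map_add, map_add, map_add, hx, hy]
  have e2 : ∀ w, D.d (rf D.ε w) = rf D.ε (dd D.d w) := by
    intro w
    induction w with
    | zero => simp
    | tmul x y =>
      rw [dd_tmul, rf_tmul, map_smul, map_add, rf_tmul, rf_tmul, D.ε_d, zero_smul, add_zero]
    | add x y hx hy => rw [map_add, map_add, map_add, map_add, hx, hy]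
  have e3 : ∀ w, D.ε (rf D.ε w) = pr2 D.ε D.ε w := by
    intro w
    induction w with
    | zero => simp
    | tmul x y => rw [rf_tmul, pr2_tmul, map_smul, smul_eq_mul, mul_comm]
    | add x y hx hy => rw [map_add, map_add, map_add, hx, hy]
  have e4 : ∀ n w, rf D.ε (D.E n w) = D.e n (rf D.ε w) := by
    intro n w
    induction w with
    | zero => simp
    | tmul x y =>
      unfold Cx.E
      rw [LinearMap.sum_apply, map_sum, Finset.sum_eq_single n]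
      · rw [TensorProduct.map_tmul, Nat.sub_self, rf_tmul, rf_tmul, D.ε_e, map_smul]
      · intro r hr hrn
        have := Finset.mem_range.1 hr
        rw [TensorProduct.map_tmul, rf_tmul, D.mi54_ε (n - r) (by omega), zero_smul]
      · intro h
        exact absurd (Finset.mem_range.2 (by omega)) h
    | add x y hx hy => rw [map_add, map_add, map_add, map_add, hx, hy]
  obtain ⟨h, h1, -, h3⟩ := D.homotopy (rf D.ε ∘ₗ Δ 0) (fun g x => by
      rw [LinearMap.comp_apply, LinearMap.comp_apply, hΔ.eqv, e1]) (fun x => by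
      rw [LinearMap.comp_apply, LinearMap.comp_apply, e2, hΔ.d0]) (fun x => by
      rw [LinearMap.comp_apply, e3, hΔ.aug]) (fun n x => by
      have h4 := hΔ.deg 0 n x
      rw [add_zero] at h4
      rw [LinearMap.comp_apply, LinearMap.comp_apply, h4, e4])
  exact ⟨h, h1, h3⟩

include D in
/-- PIECE MI-54. PROOF. Suppose `a⁻¹ * b ∉ P`. Take `exists_fund`, `exists_diag`, `exists_forms`, `exists_forms_b` for `a`, `exists_Dlb`,
`exists_y` for `b`, `exists_G`, and `u x = bb 0 (pj o ⊗ x)`. `value_zero` says that the sum is `0`, `val_one` that it is `1`.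
Hypotheses of `val_one` (`d = db`, `θ = rb b`, `ε = εb`, `o = pj o`, `c = zb t`): `hεc`, `hoc'`, `hco'`, `hcc`, `huo`, `hoo` for
`j < 3`: degrees (`zb t` and its lift have degree `3`; `bb j` has degree `3 - j`); `hud`: `bb 0 (o ⊗ d x) = bb 0 (dd (o ⊗ x)) = 0`;
`hex` is `ex_all`; `h3`: `rf ε ∘ Δ 0 = 1 + d h + h d` (`homotopy`), so `pr2 u ε (Dl 0 (zb t)) = u (zb t) + u (h̄ (db (zb t))) +
u (db ..) = 1` (`h̄` from `desc`). -/
theorem main [P.Normal] [Finite (G ⧸ P)]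
    (hG : ∀ z : G, z ≠ 1 → ¬ IsConj z z⁻¹)
    (hG' : ∀ z : G, z ≠ 1 → ∀ k, 1 ≤ k → ¬ IsConj z (z ^ (2 ^ k)))
    (hP : ∀ χ : P →* Multiplicative (ZMod 2), χ = 1)
    (a b : G) (ha : a ∉ P) (hb : b ∉ P) (ha2 : a * a ∈ P) (hb2 : b * b ∈ P) : a⁻¹ * b ∈ P := by
  by_contra hab
  obtain ⟨t, ht⟩ := D.exists_fund
  obtain ⟨Δ, hΔ⟩ := D.exists_diag
  obtain ⟨lam, hl⟩ := D.exists_forms
  obtain ⟨bb, hbb, hb0, hbd, hdeg, hoz, hoo⟩ := D.exists_forms_b P hl ht hG a ha ha2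
  obtain ⟨Dl, hDl, hDl0, hDl1, hDlρ⟩ := D.exists_Dlb P hΔ
  obtain ⟨y, hy0, hy3, hy⟩ := D.exists_y P ht b hb hb2
  obtain ⟨Gm, hGm, hGm'⟩ := D.exists_G P hl hΔ a b ha2 bb hbb Dl hDl
  have hz := D.value_zero P hl hΔ ht hG hG' a b ha2 hb2 hab y hy Gm hGm
  simp only [hGm'] at hz
  obtain ⟨hzd, hze, -⟩ := D.zb_props P ht
  obtain ⟨h, hh1, hh2⟩ := D.mi54_beta hΔ
  -- degrees
  have hvan : ∀ j p q : ℕ, j ≤ 3 → p + q ≠ 3 - j → ∀ x y : C, D.e p x = x → D.e q y = y →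
      bb j (D.pj P x ⊗ₜ D.pj P y) = 0 := by
    intro j p q hj hpq x y hx hy
    rw [← pj2_tmul, ← D.mi54_E p q x y hx hy, ← hdeg j hj, D.E_ne _ _ (Ne.symm hpq), map_zero,
      map_zero]
  obtain ⟨x₀, hx₀⟩ := D.pj_surj P (D.zb P t)
  have hzl : D.pj P (D.e 3 x₀) = D.zb P t := by rw [← eb_pj, hx₀, hze]
  have h33 : D.e 3 (D.e 3 x₀) = D.e 3 x₀ := D.e_e 3 x₀
  have hdo : D.d D.o = 0 := by rw [← D.o_e, D.d_e0]
  set u : D.Cb P →ₗ[K] K := bb 0 ∘ₗ TensorProduct.mk K _ _ (D.pj P D.o) with hudef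
  have hu : ∀ x, u x = bb 0 (D.pj P D.o ⊗ₜ x) := fun x => rfl
  have hu3 : ∀ x, u (D.eb P 3 x) = u x := by
    intro x
    obtain ⟨x, rfl⟩ := D.pj_surj P x
    rw [hu, hu, eb_pj, ← pj2_tmul, ← pj2_tmul, ← D.mi54_E3]
    exact hdeg 0 (by norm_num) _
  have hud : ∀ x, u (D.db P x) = 0 := by
    intro x
    have h1 := hb0 (D.pj P D.o ⊗ₜ x)
    rw [dd_tmul, db_pj, hdo, map_zero, TensorProduct.zero_tmul, zero_add] at h1
    exact h1
  have hpr : pr2 u (D.εb P) (Dl 0 (D.zb P t)) = 1 := by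
    have e1 : ∀ w, pr2 u (D.εb P) (D.pj2 P w) = u (D.pj P (rf D.ε w)) := by
      intro w
      induction w with
      | zero => simp
      | tmul x y =>
        rw [pj2_tmul, pr2_tmul, rf_tmul, map_smul, map_smul, εb_pj, smul_eq_mul, mul_comm]
      | add x y hx hy => rw [map_add, map_add, map_add, map_add, map_add, hx, hy]
    obtain ⟨hb', hhb⟩ := D.desc P (D.pj P ∘ₗ h) (fun p hp x => by
      rw [LinearMap.comp_apply, LinearMap.comp_apply, hh1, D.pj_ρ P p hp])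
    have e2 : D.pj P (h (D.d (D.e 3 x₀))) = 0 := by
      have e3 := hhb (D.d (D.e 3 x₀))
      rw [← db_pj, hzl, hzd, map_zero] at e3
      exact e3.symm
    rw [← hzl, hDl, e1, hh2, map_add, map_add, map_add, map_add, e2, map_zero, add_zero, ← db_pj,
      hud, add_zero, hzl]
    exact hoz
  have hone := val_one (D.db P) (D.rb P b) (fun x => by
      obtain ⟨x, rfl⟩ := D.pj_surj P x
      rw [db_pj, db_pj, D.d_d, map_zero]) (fun x => D.rb_rb P b hb2 x) (fun x => by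
      obtain ⟨x, rfl⟩ := D.pj_surj P x
      rw [rb_pj, db_pj, db_pj, rb_pj, D.d_ρ]) (D.εb P) u (D.pj P D.o) (D.zb P t) (fun x => by
      obtain ⟨x, rfl⟩ := D.pj_surj P x
      rw [db_pj, εb_pj, D.ε_d]) (fun x => by
      obtain ⟨x, rfl⟩ := D.pj_surj P x
      rw [rb_pj, εb_pj, εb_pj, D.ε_ρ]) hud (by rw [εb_pj, D.ε_o])
    (by rw [← hzl, εb_pj, D.mi54_ε 3 (by norm_num)])
    (hvan 0 0 0 (by norm_num) (by norm_num) _ _ D.o_e D.o_e) hoz
    (by rw [db_pj, hdo, map_zero]) hzd (fun x h1 h2 h3 => D.ex_all P hP ht u hu3 hoz x h1 h2 h3)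
    y hy0 hy hy3 Dl hDl0 hDl1 (fun i x => hDlρ i b x) hpr bb hb0 hbd
    (fun j hj => by
      by_cases h3 : j = 3
      · rw [h3]
        exact hoo
      · exact hvan j 0 0 hj (by omega) _ _ D.o_e D.o_e) hoz
    (fun j hj1 hj => by
      rw [← hzl]
      exact hvan j 0 3 hj (by omega) _ _ D.o_e h33)
    (fun j hj1 hj => by
      rw [← hzl]
      exact hvan j 3 0 hj (by omega) _ _ h33 D.o_e)
    (fun j hj => by
      rw [← hzl]
      exact hvan j 3 3 hj (by omega) _ _ h33 h33)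
  rw [hone] at hz
  exact one_ne_zero hz

end Cx

end Pool.Agent.Helper31.MI
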